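import Pool.Agent.U441.MP.Xi

/-! Weak Mertens along powers, part 10: the mean over the shifts. -/

set_option autoImplicit false

open MeasureTheory Filter Topology Set

namespace U441.MP

/-- **Convergence in mean over the shift.** -/
theorem l1_shift {k q a : ℝ} (hk : 0 < k) (hq : 0 < q) (ha : 0 ≤ a)
    (hlim : Tendsto (fun x : ℝ => ms 1 x / Real.log x) atTop (𝓝 SS)) (hS0 : 0 ≤ SS)
    (hlow : ∀ r : ℝ, 0 ≤ r → ∀ c : ℝ, q * c < SS → ∀ᶠ N : ℕ in atTop, c * Real.log N < SX k q r N) :
    Tendsto (fun N : ℕ => ∫ r in a..(a + q), |q * SX k q r N / Real.log N - SS|) atTop (𝓝 0) := by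
  have hle : a ≤ a + q := by linarith
  have hlog0 : ∀ N : ℕ, 0 ≤ Real.log (N:ℝ) := fun N => Real.log_natCast_nonneg N
  have hlogN : ∀ᶠ N : ℕ in atTop, 0 < Real.log (N:ℝ) := by
    filter_upwards [eventually_ge_atTop 2] with N hN
    exact Real.log_pos (by exact_mod_cast hN)
  obtain ⟨u, hu, hmean⟩ := mean_lim (k := k) (a := a) hk hq ha hlim
  set μ : Measure ℝ := volume.restrict (Ioc a (a + q)) with hμ
  set f : ℕ → ℝ → ℝ := fun N r => q * SX k q r N / Real.log N with hf
  have hfm : ∀ N, Measurable (f N) := fun N => ((SX_meas k q N).const_mul q).div_const _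
  have hf0 : ∀ N r, 0 ≤ r → 0 ≤ f N r := fun N r hr => by
    have := SX_nonneg (k := k) hq hr N
    have := hlog0 N
    rw [hf]
    positivity
  have hfi : ∀ N, Integrable (f N) μ := fun N => (((mean_shift hk hq ha N).1).const_mul q).div_const _
  have hdom : Tendsto (fun N : ℕ => ∫ r, max (SS - f N r) 0 ∂μ) atTop (𝓝 (∫ _r, (0:ℝ) ∂μ)) := by
    refine tendsto_integral_of_dominated_convergence (fun _ => SS)
      (fun N => ((measurable_const.sub (hfm N)).max measurable_const).aestronglyMeasurable)
      (integrable_const _) (fun N => ?_) ?_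
    · refine (ae_restrict_mem measurableSet_Ioc).mono fun r hr => ?_
      have h1 := hf0 N r (ha.trans hr.1.le)
      rw [Real.norm_of_nonneg (le_max_right _ _)]
      exact max_le (by linarith) hS0
    · refine (ae_restrict_mem measurableSet_Ioc).mono fun r hr => ?_
      have hr0 : 0 ≤ r := ha.trans hr.1.le
      refine tendsto_order.2 ⟨fun b hb => Eventually.of_forall fun N => hb.trans_le (le_max_right _ _), fun b hb => ?_⟩
      filter_upwards [hlow r hr0 ((SS - b / 2) / q) (by
        rw [mul_div_cancel₀ _ hq.ne']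
        linarith), hlogN] with N h1 h2
      refine max_lt ?_ hb
      have h3 : SS - b / 2 ≤ f N r := by
        rw [hf]
        simp only
        rw [le_div_iff₀ h2]
        rw [div_mul_eq_mul_div, div_lt_iff₀ hq] at h1
        linarith
      linarith
  rw [integral_zero] at hdom
  have hub : ∀ᶠ N : ℕ in atTop, ∫ r in a..(a + q), |q * SX k q r N / Real.log N - SS| ≤
      (u N - q * SS) + 2 * ∫ r, max (SS - f N r) 0 ∂μ := by
    filter_upwards [hmean] with N hN
    have i1 : Integrable (fun r => f N r - SS) μ := (hfi N).sub (integrable_const _)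
    have i2 : Integrable (fun r => max (SS - f N r) 0) μ := by
      refine (integrable_const SS).mono' ((measurable_const.sub (hfm N)).max measurable_const).aestronglyMeasurable ?_
      refine (ae_restrict_mem measurableSet_Ioc).mono fun r hr => ?_
      have h1 := hf0 N r (ha.trans hr.1.le)
      rw [Real.norm_of_nonneg (le_max_right _ _)]
      exact max_le (by linarith) hS0
    have e1 : ∀ r, |q * SX k q r N / Real.log N - SS| = (f N r - SS) + 2 * max (SS - f N r) 0 := by
      intro r
      have : q * SX k q r N / Real.log N = f N r := rfl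
      rw [this]
      rcases le_total (f N r) SS with h | h
      · rw [abs_of_nonpos (by linarith), max_eq_left (by linarith)]
        ring
      · rw [abs_of_nonneg (by linarith), max_eq_right (by linarith)]
        ring
    rw [intervalIntegral.integral_of_le hle]
    simp only [e1]
    rw [integral_add i1 (i2.const_mul 2), integral_const_mul, integral_sub (hfi N) (integrable_const _),
      integral_const]
    have e2 : μ.real univ = q := by
      rw [hμ, measureReal_restrict_apply_univ, Real.volume_real_Ioc_of_le hle]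
      ring
    rw [e2, smul_eq_mul]
    linarith
  refine squeeze_zero' (Eventually.of_forall fun N => ?_) hub ?_
  · exact intervalIntegral.integral_nonneg hle fun r _ => abs_nonneg _
  · have := (hu.sub_const (q * SS)).add (hdom.const_mul 2)
    simpa using this

/-- almost every positive shift -/
theorem ae_pos {k q : ℝ} (hk : 0 < k) (hq : 0 < q)
    (hlim : Tendsto (fun x : ℝ => ms 1 x / Real.log x) atTop (𝓝 SS)) (hS0 : 0 ≤ SS)
    (hlow : ∀ r : ℝ, 0 ≤ r → ∀ c : ℝ, q * c < SS → ∀ᶠ N : ℕ in atTop, c * Real.log N < SX k q r N) :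
    ∀ᵐ r : ℝ, 0 < r → ∀ c : ℝ, SS < q * c → ∃ᶠ N : ℕ in atTop, SX k q r N < c * Real.log N := by
  have h : ∀ j : ℕ, ∀ᵐ r : ℝ, r ∈ Ioc (j * q) (j * q + q) → ∀ c : ℝ, SS < q * c → ∃ᶠ N : ℕ in atTop,
      SX k q r N < c * Real.log N := fun j =>
    (ae_restrict_iff' measurableSet_Ioc).1 (ae_shift hk hq (by positivity) hlim hS0 hlow)
  filter_upwards [ae_all_iff.2 h] with r hr hr0
  have h1 : 0 < r / q := by positivity
  have h2 : 1 ≤ ⌈r / q⌉₊ := Nat.one_le_ceil_iff.2 h1
  refine hr (⌈r / q⌉₊ - 1) ⟨?_, ?_⟩
  · rw [Nat.cast_sub h2, Nat.cast_one, ← lt_div_iff₀ hq]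
    have := Nat.ceil_lt_add_one h1.le
    linarith
  · rw [Nat.cast_sub h2, Nat.cast_one, sub_mul, one_mul, sub_add_cancel, ← div_le_iff₀ hq]
    exact Nat.le_ceil _

end U441.MP
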