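import Mathlib

/-! Finitely supported positive definite functions on the discrete group `ℝ`. -/

set_option autoImplicit false

open Filter Topology Set Complex

namespace U441.MP

/-- the sumsets -/
noncomputable def SN (L : Finset ℝ) (N : ℕ) : Finset ℝ :=
  (Fintype.piFinset fun _ : L => Finset.range (N + 1)).image fun m => ∑ i : L, (m i : ℝ) * (i : ℝ)

lemma SN_mem {L : Finset ℝ} {N : ℕ} {x : ℝ} :
    x ∈ SN L N ↔ ∃ m : L → ℕ, (∀ i, m i ≤ N) ∧ ∑ i : L, (m i : ℝ) * (i : ℝ) = x := by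
  unfold SN
  simp only [Finset.mem_image, Fintype.mem_piFinset, Finset.mem_range]
  constructor
  · rintro ⟨m, hm, rfl⟩
    exact ⟨m, fun i => Nat.lt_succ_iff.1 (hm i), rfl⟩
  · rintro ⟨m, hm, rfl⟩
    exact ⟨m, fun i => Nat.lt_succ_iff.2 (hm i), rfl⟩

lemma SN_card (L : Finset ℝ) (N : ℕ) : (SN L N).card ≤ (N + 1) ^ L.card := by
  unfold SN
  refine Finset.card_image_le.trans (le_of_eq ?_)
  rw [Fintype.card_piFinset]
  simp

lemma SN_mono (L : Finset ℝ) (N : ℕ) : SN L N ⊆ SN L (N + 1) := by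
  intro x hx
  rw [SN_mem] at hx ⊢
  obtain ⟨m, hm, rfl⟩ := hx
  exact ⟨m, fun i => (hm i).trans (Nat.le_succ _), rfl⟩

lemma SN_add {L : Finset ℝ} {N : ℕ} {x d : ℝ} (hx : x ∈ SN L N) (hd : d ∈ L) : x + d ∈ SN L (N + 1) := by
  classical
  rw [SN_mem] at hx ⊢
  obtain ⟨m, hm, rfl⟩ := hx
  refine ⟨fun i => m i + if i = ⟨d, hd⟩ then 1 else 0, fun i => ?_, ?_⟩
  · have := hm i
    simp only
    split_ifs <;> omega
  · have : ∀ i : L, (((m i + if i = ⟨d, hd⟩ then 1 else 0 : ℕ)) : ℝ) * (i : ℝ) =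
        (m i : ℝ) * (i : ℝ) + if i = ⟨d, hd⟩ then (i : ℝ) else 0 := by
      intro i
      push_cast
      split_ifs <;> ring
    simp only [this]
    rw [Finset.sum_add_distrib, Finset.sum_ite_eq' Finset.univ (⟨d, hd⟩ : L) (fun i => (i : ℝ))]
    simp

lemma SN_nonempty (L : Finset ℝ) (N : ℕ) : (SN L N).Nonempty :=
  ⟨0, SN_mem.2 ⟨fun _ => 0, fun _ => Nat.zero_le _, by simp⟩⟩

/-- **Følner sets.** -/
theorem folner (L : Finset ℝ) {ε : ℝ} (hε : 0 < ε) :
    ∃ S : Finset ℝ, S.Nonempty ∧ ∀ d ∈ L, (1 - ε) * (S.card : ℝ) ≤ ((S.filter fun s => s + d ∈ S).card : ℝ) := by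
  classical
  have hgrow : ∃ N : ℕ, ((SN L (N + 1)).card : ℝ) ≤ (1 + ε) * ((SN L N).card : ℝ) := by
    by_contra hcon
    push Not at hcon
    have h1 : ∀ N : ℕ, (1 + ε) ^ N ≤ ((SN L N).card : ℝ) := by
      intro N
      induction N with
      | zero =>
        rw [pow_zero]
        exact_mod_cast Finset.card_pos.2 (SN_nonempty L 0)
      | succ N ih =>
        rw [pow_succ, mul_comm]
        exact (mul_le_mul_of_nonneg_left ih (by linarith)).trans (hcon N).le
    have h2 : ∀ N : ℕ, (1 + ε) ^ N ≤ ((N : ℝ) + 1) ^ L.card := fun N => by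
      refine (h1 N).trans ?_
      exact_mod_cast SN_card L N
    have h3 := tendsto_pow_const_div_const_pow_of_one_lt L.card (by linarith : 1 < 1 + ε)
    have h4 := (tendsto_add_atTop_iff_nat 1).2 h3
    have h5 : ∀ N : ℕ, 1 / (1 + ε) ≤ (((N + 1 : ℕ) : ℝ)) ^ L.card / (1 + ε) ^ (N + 1) := by
      intro N
      rw [pow_succ, div_le_div_iff₀ (by linarith) (by positivity)]
      have := h2 N
      push_cast
      nlinarith [this]
    have h6 := ge_of_tendsto' h4 h5
    have : 0 < 1 / (1 + ε) := by positivity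
    linarith
  obtain ⟨N, hN⟩ := hgrow
  refine ⟨SN L N, SN_nonempty L N, fun d hd => ?_⟩
  have h1 : ((SN L N).filter fun s => s + d ∈ SN L N).card + ((SN L N).filter fun s => ¬ (s + d ∈ SN L N)).card =
      (SN L N).card := Finset.card_filter_add_card_filter_not _
  have h2 : ((SN L N).filter fun s => ¬ (s + d ∈ SN L N)).card ≤ (SN L (N + 1) \ SN L N).card := by
    refine Finset.card_le_card_of_injOn (fun s => s + d) (fun s hs => ?_) fun s _ s' _ h => by simpa using h
    simp only [Finset.coe_filter, Set.mem_ofPred_eq] at hs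
    simp only [Finset.coe_sdiff, Set.mem_sdiff, Finset.mem_coe]
    exact ⟨SN_add hs.1 hd, hs.2⟩
  have h3 : (SN L (N + 1) \ SN L N).card = (SN L (N + 1)).card - (SN L N).card :=
    Finset.card_sdiff_of_subset (SN_mono L N)
  have h4 := Finset.card_le_card (SN_mono L N)
  have h5 : (((SN L N).filter fun s => ¬ (s + d ∈ SN L N)).card : ℝ) ≤
      ((SN L (N + 1)).card : ℝ) - ((SN L N).card : ℝ) := by
    rw [← Nat.cast_sub h4]
    exact_mod_cast h2.trans h3.le
  have h6 : (((SN L N).filter fun s => s + d ∈ SN L N).card : ℝ) +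
      (((SN L N).filter fun s => ¬ (s + d ∈ SN L N)).card : ℝ) = ((SN L N).card : ℝ) := by exact_mod_cast h1
  linarith

/-- the double sum as a weighted sum over the support -/
lemma pair_sum (S L : Finset ℝ) (w : ℝ → ℂ) (hw : ∀ d, w d ≠ 0 → d ∈ L) :
    ∑ s ∈ S, ∑ s' ∈ S, w (s - s') = ∑ d ∈ L, ((S.filter fun s => s + d ∈ S).card : ℂ) * w d := by
  classical
  rw [Finset.sum_comm]
  have h1 : ∀ s' ∈ S, ∑ s ∈ S, w (s - s') = ∑ d ∈ L, if s' + d ∈ S then w d else 0 := by
    intro s' _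
    rw [← Finset.sum_filter]
    have e1 : ∑ s ∈ S, w (s - s') = ∑ s ∈ S.filter (fun s => s - s' ∈ L), w (s - s') := by
      rw [Finset.sum_filter]
      refine Finset.sum_congr rfl fun s _ => ?_
      split_ifs with h
      · rfl
      · by_contra h0
        exact h (hw _ h0)
    rw [e1]
    refine Finset.sum_nbij' (fun s => s - s') (fun d => s' + d) ?_ ?_ ?_ ?_ ?_
    · intro s hs
      rw [Finset.mem_filter] at hs ⊢
      exact ⟨hs.2, by rw [add_sub_cancel]; exact hs.1⟩
    · intro d hd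
      rw [Finset.mem_filter] at hd ⊢
      exact ⟨hd.2, by rw [add_sub_cancel_left]; exact hd.1⟩
    · intro s _
      simp
    · intro d _
      simp
    · intro s _
      rfl
  rw [Finset.sum_congr rfl h1, Finset.sum_comm]
  refine Finset.sum_congr rfl fun d _ => ?_
  rw [← Finset.sum_filter, Finset.sum_const, nsmul_eq_mul]

/-- **Finitely supported positive definite functions have nonnegative Fourier series.** -/
theorem trig {L : Finset ℝ} {w : ℝ → ℂ} (hw : ∀ d, w d ≠ 0 → d = 0 ∨ d ∈ L) (h0 : (0:ℝ) ∉ L)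
    (hpos : ∀ S : Finset ℝ, 0 ≤ (∑ s ∈ S, ∑ s' ∈ S, w (s - s')).re) : 0 ≤ (w 0).re + ∑ d ∈ L, (w d).re := by
  classical
  set A : ℝ := ∑ d ∈ L, |(w d).re| with hA
  have hA0 : 0 ≤ A := Finset.sum_nonneg fun d _ => abs_nonneg _
  have key : ∀ ε : ℝ, 0 < ε → -(ε * A) ≤ (w 0).re + ∑ d ∈ L, (w d).re := by
    intro ε hε
    obtain ⟨S, hS, hF⟩ := folner L hε
    have hc : (0:ℝ) < S.card := by exact_mod_cast Finset.card_pos.2 hS
    have h1 := hpos S
    rw [pair_sum S (insert 0 L) w (fun d hd => by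
      rcases hw d hd with h | h
      · rw [h]; exact Finset.mem_insert_self _ _
      · exact Finset.mem_insert_of_mem h), Finset.sum_insert h0, Complex.add_re, Complex.re_sum] at h1
    have e0 : (S.filter fun s => s + 0 ∈ S) = S := by
      simp
    rw [e0] at h1
    have e1 : ∀ (n : ℕ) (z : ℂ), ((n : ℂ) * z).re = n * z.re := fun n z => by
      rw [← Complex.ofReal_natCast, Complex.re_ofReal_mul]
    simp only [e1] at h1
    have h2 : ∑ d ∈ L, ((S.filter fun s => s + d ∈ S).card : ℝ) * (w d).re ≤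
        (S.card : ℝ) * ∑ d ∈ L, (w d).re + (S.card : ℝ) * (ε * A) := by
      rw [hA, Finset.mul_sum, Finset.mul_sum, Finset.mul_sum, ← Finset.sum_add_distrib]
      refine Finset.sum_le_sum fun d hd => ?_
      have h3 := hF d hd
      have h4 : ((S.filter fun s => s + d ∈ S).card : ℝ) ≤ S.card := by
        exact_mod_cast Finset.card_filter_le _ _
      have h5 := le_abs_self (-(w d).re)
      rw [abs_neg] at h5
      have h6 := abs_nonneg (w d).re
      have h7 : ((S.card : ℝ) - ((S.filter fun s => s + d ∈ S).card : ℝ)) * (-(w d).re) ≤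
          (ε * S.card) * |(w d).re| := by
        calc ((S.card : ℝ) - ((S.filter fun s => s + d ∈ S).card : ℝ)) * (-(w d).re) ≤
            ((S.card : ℝ) - ((S.filter fun s => s + d ∈ S).card : ℝ)) * |(w d).re| :=
              mul_le_mul_of_nonneg_left h5 (by linarith)
          _ ≤ _ := mul_le_mul_of_nonneg_right (by linarith) h6
      linarith
    have h3 : 0 ≤ (S.card : ℝ) * ((w 0).re + ∑ d ∈ L, (w d).re + ε * A) := by
      have : (S.card : ℝ) * ((w 0).re + ∑ d ∈ L, (w d).re + ε * A) =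
        (S.card : ℝ) * (w 0).re + ((S.card : ℝ) * ∑ d ∈ L, (w d).re + (S.card : ℝ) * (ε * A)) := by ring
      rw [this]
      linarith
    have h4 := nonneg_of_mul_nonneg_right h3 hc
    linarith
  by_contra hcon
  push Not at hcon
  set x : ℝ := (w 0).re + ∑ d ∈ L, (w d).re with hx
  have h1 := key (-x / (2 * (A + 1))) (div_pos (by linarith) (by positivity))
  have h2 : -x / (2 * (A + 1)) * A ≤ -x / 2 := by
    rw [div_mul_eq_mul_div, div_le_div_iff₀ (by positivity) (by norm_num)]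
    nlinarith
  linarith

/-- positive definite functions on the line (real and even) -/
def PDf (g : ℝ → ℝ) : Prop :=
  (∀ x, g (-x) = g x) ∧ ∀ (S : Finset ℝ) (x : ℝ → ℝ), 0 ≤ ∑ s ∈ S, ∑ s' ∈ S, x s * x s' * g (s - s')

open scoped MatrixOrder in
open Matrix in
/-- factorisation -/
lemma PDf.factor {g : ℝ → ℝ} (hg : PDf g) (S : Finset ℝ) :
    ∃ B : S → ℝ → ℝ, ∀ s ∈ S, ∀ s' ∈ S, g (s - s') = ∑ k : S, B k s * B k s' := by
  classical
  set G : Matrix S S ℝ := Matrix.of fun i j => g ((i : ℝ) - (j : ℝ)) with hG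
  have hps : G.PosSemidef := by
    refine Matrix.PosSemidef.of_dotProduct_mulVec_nonneg ?_ fun x => ?_
    · ext i j
      simp only [hG, Matrix.conjTranspose_apply, Matrix.of_apply, star_trivial]
      rw [← hg.1, neg_sub]
    · have h1 := hg.2 S (fun s => if h : s ∈ S then x ⟨s, h⟩ else 0)
      have e : star x ⬝ᵥ (G *ᵥ x) = ∑ s ∈ S, ∑ s' ∈ S, (if h : s ∈ S then x ⟨s, h⟩ else 0) *
          (if h : s' ∈ S then x ⟨s', h⟩ else 0) * g (s - s') := by
        rw [← Finset.sum_coe_sort S]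
        simp only [dotProduct, Matrix.mulVec, Pi.star_apply, star_trivial]
        refine Finset.sum_congr rfl fun i _ => ?_
        rw [← Finset.sum_coe_sort S, Finset.mul_sum]
        refine Finset.sum_congr rfl fun j _ => ?_
        simp only [hG, Matrix.of_apply, Finset.coe_mem, dif_pos]
        ring
      rw [e]
      exact h1
  obtain ⟨B, hB⟩ := CStarAlgebra.nonneg_iff_eq_star_mul_self.mp hps.nonneg
  have hBf : ∃ Bf : S → S → ℝ, ∀ i j, Bf i j = B i j := ⟨fun i j => B i j, fun _ _ => rfl⟩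
  obtain ⟨Bf, hBf⟩ := hBf
  refine ⟨fun k s => if h : s ∈ S then Bf k ⟨s, h⟩ else 0, fun s hs s' hs' => ?_⟩
  have h1 := congrFun (congrFun hB ⟨s, hs⟩) ⟨s', hs'⟩
  simp only [hG, Matrix.of_apply, Matrix.mul_apply, Matrix.star_apply, star_trivial] at h1
  rw [h1]
  refine Finset.sum_congr rfl fun k _ => ?_
  simp only [dif_pos hs, dif_pos hs']
  rw [hBf, hBf]

/-- **Schur product.** -/
lemma schur {g : ℝ → ℝ} (hg : PDf g) {f : ℝ → ℂ}
    (hf : ∀ (S : Finset ℝ) (b : ℝ → ℂ), 0 ≤ (∑ s ∈ S, ∑ s' ∈ S, b s * (starRingEnd ℂ) (b s') * f (s - s')).re)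
    (y : ℝ) (S : Finset ℝ) :
    0 ≤ (∑ s ∈ S, ∑ s' ∈ S, ((g (s - s') : ℝ) : ℂ) * cexp (-(I * ((s - s' : ℝ) : ℂ) * y)) * f (s - s')).re := by
  obtain ⟨B, hB⟩ := hg.factor S
  have e : ∑ s ∈ S, ∑ s' ∈ S, ((g (s - s') : ℝ) : ℂ) * cexp (-(I * ((s - s' : ℝ) : ℂ) * y)) * f (s - s') =
      ∑ k : S, ∑ s ∈ S, ∑ s' ∈ S, ((B k s : ℂ) * cexp (-(I * s * y))) *
        (starRingEnd ℂ) ((B k s' : ℂ) * cexp (-(I * s' * y))) * f (s - s') := by
    rw [Finset.sum_comm (s := (Finset.univ : Finset S))]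
    refine Finset.sum_congr rfl fun s hs => ?_
    rw [Finset.sum_comm (s := (Finset.univ : Finset S))]
    refine Finset.sum_congr rfl fun s' hs' => ?_
    rw [hB s hs s' hs', Complex.ofReal_sum, Finset.sum_mul, Finset.sum_mul]
    refine Finset.sum_congr rfl fun k _ => ?_
    rw [map_mul, ← Complex.exp_conj, Complex.conj_ofReal]
    have e1 : cexp (-(I * ((s - s' : ℝ) : ℂ) * y)) =
        cexp (-(I * s * y)) * cexp ((starRingEnd ℂ) (-(I * s' * y))) := by
      rw [← Complex.exp_add]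
      congr 1
      simp only [map_neg, map_mul, Complex.conj_I, Complex.conj_ofReal]
      push_cast
      ring
    rw [e1]
    push_cast
    ring
  rw [e, Complex.re_sum]
  exact Finset.sum_nonneg fun k _ => hf S _

end U441.MP
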