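import Pool.Agent.U441.MP.Pd
import Pool.Agent.U441.MP.Fo

/-! Ingham's theorem along powers. -/

set_option autoImplicit false

open MeasureTheory Filter Topology Set Complex

namespace U441.MP

open Pool.Agent.H295R2 (Zs fz Zs_eq Zs_differentiable fz_eq)

/-- finiteness of the zeros in a compact set (as in `Pool.Agent.Y757.LM`) -/
theorem zeta_compact {K : Set ℂ} (hK : IsCompact K) : {s : ℂ | s ∈ K ∧ riemannZeta s = 0}.Finite := by
  have hF : ∀ s : ℂ, s ≠ 1 → AnalyticAt ℂ riemannZeta s := fun s hs => by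
    have : DifferentiableOn ℂ riemannZeta ({1}ᶜ : Set ℂ) := fun z hz =>
      (differentiableAt_riemannZeta hz).differentiableWithinAt
    exact this.analyticAt (isOpen_compl_singleton.mem_nhds hs)
  have h1 : ∀ᶠ s in 𝓝[≠] (1 : ℂ), riemannZeta s ≠ 0 := by
    have h := riemannZeta_residue_one
    have h3 := h.eventually_ne (one_ne_zero : (1 : ℂ) ≠ 0)
    filter_upwards [h3] with s hs h0
    rw [h0, mul_zero] at hs
    exact hs rfl
  by_contra hinf
  have hinf : {s : ℂ | s ∈ K ∧ riemannZeta s = 0}.Infinite := hinf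
  obtain ⟨x, hx, hacc⟩ := hinf.exists_accPt_of_subset_isCompact hK (fun s hs => hs.1)
  have hfreq : ∃ᶠ z in 𝓝[≠] x, riemannZeta z = 0 := by
    rw [accPt_iff_frequently_nhdsNE] at hacc
    exact hacc.mono fun z hz => hz.2
  by_cases hx1 : x = 1
  · subst hx1
    exact hfreq h1
  · have hU : IsPreconnected ({1}ᶜ : Set ℂ) :=
      (isConnected_compl_singleton_of_one_lt_rank (by simp) (1 : ℂ)).isPreconnected
    have hz := AnalyticOnNhd.eqOn_zero_of_preconnected_of_frequently_eq_zero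
      (f := riemannZeta) (U := ({1}ᶜ : Set ℂ)) (fun s hs => hF s hs) hU hx1 hfreq
    exact riemannZeta_ne_zero_of_one_le_re (s := 2) (by simp) (hz (by simp))

/-- the ordinates `d` with `|d| ≤ T` of the zeros `1/2 + i d` -/
theorem ord_finite (T : ℝ) : {d : ℝ | |d| ≤ T ∧ riemannZeta (1 / 2 + I * d) = 0}.Finite := by
  have hK : IsCompact ((fun d : ℝ => (1 / 2 + I * d : ℂ)) '' Icc (-T) T) :=
    isCompact_Icc.image (by fun_prop)
  have h := zeta_compact hK
  refine Set.Finite.of_finite_image (f := fun d : ℝ => (1 / 2 + I * d : ℂ)) (h.subset ?_) ?_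
  · rintro _ ⟨d, ⟨h1, h2⟩, rfl⟩
    exact ⟨⟨d, abs_le.1 h1, rfl⟩, h2⟩
  · intro d _ d' _ hdd
    have := congrArg Complex.im hdd
    simpa using this

/-- sparse exceptional sets give summability -/
lemma sparse_hos {a : ℕ → ℝ} {F : ℂ → ℂ} (hF : Fam a F) {κ q r c sg R ε β : ℝ} (hκ : 0 < κ)
    (hq : 0 < q) (hr : 0 ≤ r) (hε : 0 < ε) (hβ : 1 / 2 ≤ β) (hβ1 : β < 1)
    (hz : ∀ s : ℂ, β < s.re → riemannZeta s ≠ 0)
    (hcon : ∀ᶠ N : ℕ in atTop, (cnt (fun n => c * yy q r n ^ (κ * β) <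
      sg * (Sa a (yy q r n ^ κ) - R * yy q r n ^ (κ * (1 / 2)))) N : ℝ) ≤ (N:ℝ) ^ (1 - ε)) :
    Summable fun n : ℕ => max (-bb a κ β c sg R (yy q r n)) 0 * (n:ℝ) ^ (-(κ * β + 1)) := by
  classical
  set E : ℕ → Prop := fun n => c * yy q r n ^ (κ * β) <
      sg * (Sa a (yy q r n ^ κ) - R * yy q r n ^ (κ * (1 / 2))) with hE
  obtain ⟨n₀, hn₀⟩ := eventually_atTop.1 hcon
  set e : ℝ := min ε (1 / 2) with he
  have he0 : 0 < e := by rw [he]; positivity
  have he1 : e ≤ 1 / 2 := min_le_right _ _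
  have he2 : e ≤ ε := min_le_left _ _
  have hcnt : ∀ n : ℕ, 1 ≤ n → (cnt E n : ℝ) ≤ (n₀ + 1) * (n:ℝ) ^ (1 - e) := by
    intro n hn
    have hn1 : (1:ℝ) ≤ n := by exact_mod_cast hn
    have hone : 1 ≤ (n:ℝ) ^ (1 - e) := Real.one_le_rpow hn1 (by linarith)
    have h7 : (0:ℝ) ≤ n₀ := Nat.cast_nonneg _
    rcases lt_or_ge n n₀ with hlt | hge
    · have h5 : (cnt E n : ℝ) ≤ n := by exact_mod_cast cnt_le E n
      have h6 : (n:ℝ) ≤ n₀ := by exact_mod_cast hlt.le
      nlinarith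
    · have h5 := hn₀ n hge
      have h6 : (n:ℝ) ^ (1 - ε) ≤ (n:ℝ) ^ (1 - e) := Real.rpow_le_rpow_of_exponent_le hn1 (by linarith)
      nlinarith
  set d : ℝ := min (e / (4 * κ)) (1 / 2) with hd
  have hd0 : 0 < d := by rw [hd]; positivity
  have hd1 : κ * d ≤ e / 4 := by
    have := min_le_left (e / (4 * κ)) (1 / 2)
    calc κ * d ≤ κ * (e / (4 * κ)) := by gcongr
      _ = e / 4 := by field_simp
  have hd2 : d ≤ 1 / 2 := min_le_right _ _
  have hp := hF β (β + d) hβ hz (by linarith) (by linarith)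
  obtain ⟨C, hC, hb⟩ := bb_growth hp (by linarith) (by linarith) (β := β) (c := c) (sg := sg) (R := R)
    (μ₀ := κ * (β + d) + e / 4) hκ hβ (by linarith) (by linarith)
  set μ₀ : ℝ := κ * (β + d) + e / 4 with hμ₀
  have hμ0 : 0 < μ₀ := by positivity
  set g : ℝ := max 1 (q + r) with hg
  have hg1 : 1 ≤ g := le_max_left _ _
  have hg0 : 0 < g := by linarith
  set p : ℝ := κ * β + 1 - μ₀ with hpdef
  have hp1 : 1 - e < p := by
    rw [hpdef, hμ₀]
    nlinarith
  have hsum := sparse (E := E) (A := n₀ + 1) (w := 1 - e) (p := p) (by positivity) (by linarith) hp1 hcnt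
  refine Summable.of_norm_bounded_eventually_nat (hsum.mul_left (C * g ^ μ₀)) ?_
  filter_upwards [eventually_ge_atTop 1] with n hn
  have hn1 : (1:ℝ) ≤ n := by exact_mod_cast hn
  have hn0 : (0:ℝ) < n := by linarith
  have hy := yy_pos hq hr hn0
  have hpow : 0 ≤ (n:ℝ) ^ (-(κ * β + 1)) := by positivity
  rw [Real.norm_of_nonneg (mul_nonneg (le_max_right _ _) hpow)]
  by_cases hEn : E n
  · rw [if_pos hEn]
    have hyN : yy q r n ≤ g * n := by
      have : q + r ≤ g := le_max_right _ _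
      unfold yy
      nlinarith
    have h1 := hb _ _ hy hyN (by nlinarith)
    have h2 : max (-bb a κ β c sg R (yy q r n)) 0 ≤ C * (g * n) ^ μ₀ := by
      refine max_le ?_ (by positivity)
      exact (neg_le_abs _).trans h1
    calc max (-bb a κ β c sg R (yy q r n)) 0 * (n:ℝ) ^ (-(κ * β + 1)) ≤
        (C * (g * n) ^ μ₀) * (n:ℝ) ^ (-(κ * β + 1)) := mul_le_mul_of_nonneg_right h2 hpow
      _ = C * g ^ μ₀ * ((n:ℝ) ^ μ₀ * (n:ℝ) ^ (-(κ * β + 1))) := by
          rw [Real.mul_rpow hg0.le hn0.le]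
          ring
      _ = _ := by
          rw [← Real.rpow_add hn0]
          congr 2
          rw [hpdef]
          ring
  · rw [if_neg hEn, mul_zero]
    have h1 : 0 ≤ bb a κ β c sg R (yy q r n) := by
      have h2 := not_lt.1 hEn
      unfold bb
      rw [mul_sub] at h2
      linarith
    rw [max_eq_right (by linarith), zero_mul]

/-- Ingham's sum -/
noncomputable def hh (U : ℂ → ℂ) (g : ℝ → ℝ) (y : ℝ) : ℝ :=
  ∑ᶠ d ∈ {d : ℝ | g d ≠ 0 ∧ riemannZeta (1 / 2 + I * d) = 0},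
    g d * (cexp (I * d * y) * (U (1 / 2 + I * d) / ((1 / 2 + I * d) * deriv riemannZeta (1 / 2 + I * d)))).re

/-- **Ingham's theorem along powers.** -/
theorem ingham {a : ℕ → ℝ} {F U : ℂ → ℂ} (h : MD a F U) (hF : Fam a F) {R : ℝ} (hR : Res F R)
    (hUc : ∀ z : ℂ, 1 / 2 ≤ z.re → z.im ≠ 0 → ContinuousAt U z ∧ U z ≠ 0) {g : ℝ → ℝ} (hg : PDf g) (hg0 : g 0 = 1)
    {T : ℝ} (hT : ∀ x, T < |x| → g x = 0) {κ q r c sg ε y : ℝ} (hκ : 0 < κ) (hq : 0 < q) (hr : 0 ≤ r)
    (hsg : |sg| = 1) (hε : 0 < ε) (hc : c < sg * hh U g y) :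
    ∃ᶠ N : ℕ in atTop, (N:ℝ) ^ (1 - ε) < cnt (fun n => c * yy q r n ^ (κ * (1 / 2)) <
      sg * (Sa a (yy q r n ^ κ) - R * yy q r n ^ (κ * (1 / 2)))) N := by
  classical
  by_cases hoff : ∃ ρ : ℂ, riemannZeta ρ = 0 ∧ 1 / 2 < ρ.re
  · -- a zero off the line
    obtain ⟨ρ, hρ, hρ2⟩ := hoff
    have him := zero_im hρ (by linarith)
    obtain ⟨hU1, hU2⟩ := hUc ρ hρ2.le him
    set D : ℝ := ‖ρ‖ * ‖deriv riemannZeta ρ‖ with hD
    have hD0 : 0 ≤ D := by positivity
    have hUn : 0 < ‖U ρ‖ := norm_pos_iff.2 hU2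
    set c' : ℝ := ‖U ρ‖ / (2 * (D + 1)) with hc'
    have hc'0 : 0 < c' := by rw [hc']; positivity
    have hc'D : c' * D < ‖U ρ‖ := by
      rw [hc', div_mul_eq_mul_div, div_lt_iff₀ (by positivity)]
      nlinarith
    have key := osc h hF hR hρ hρ2.le hU1 (κ := κ) (q := q) (r := r) (c := c') (sg := sg) (ε := min ε 1 / 2) hκ hq hr
      hsg (by positivity) hc'D
    have hyt := yy_tendsto (r := r) hq
    have hpos : 0 < κ * (ρ.re - 1 / 2) := mul_pos hκ (by linarith)
    have ht : Tendsto (fun n : ℕ => yy q r n ^ (κ * (ρ.re - 1 / 2))) atTop atTop :=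
      (tendsto_rpow_atTop hpos).comp hyt
    obtain ⟨n₁, hn₁⟩ := eventually_atTop.1
      ((hyt.eventually_ge_atTop 1).and (ht.eventually_ge_atTop (|c| / c')))
    have himp : ∀ n, n₁ ≤ n → c' * yy q r n ^ (κ * ρ.re) <
        sg * (Sa a (yy q r n ^ κ) - R * yy q r n ^ (κ * (1 / 2))) →
        c * yy q r n ^ (κ * (1 / 2)) < sg * (Sa a (yy q r n ^ κ) - R * yy q r n ^ (κ * (1 / 2))) := by
      intro n hn h1
      obtain ⟨h2, h3⟩ := hn₁ n hn
      have hy0 : 0 < yy q r n := by linarith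
      refine lt_of_le_of_lt ?_ h1
      have h4 : yy q r n ^ (κ * ρ.re) = yy q r n ^ (κ * (ρ.re - 1 / 2)) * yy q r n ^ (κ * (1 / 2)) := by
        rw [← Real.rpow_add hy0]
        congr 1
        ring
      have h5 : 0 < yy q r n ^ (κ * (1 / 2)) := Real.rpow_pos_of_pos hy0 _
      rw [h4, ← mul_assoc]
      refine mul_le_mul_of_nonneg_right ?_ h5.le
      rw [div_le_iff₀ hc'0] at h3
      have h6 := le_abs_self c
      linarith
    refine (key.and_eventually (absorb hε n₁)).mono fun N hN => ?_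
    have h1 := cnt_mono himp N
    have h2 : (cnt (fun n => c' * yy q r n ^ (κ * ρ.re) <
        sg * (Sa a (yy q r n ^ κ) - R * yy q r n ^ (κ * (1 / 2)))) N : ℝ) ≤ cnt (fun n =>
        c * yy q r n ^ (κ * (1 / 2)) < sg * (Sa a (yy q r n ^ κ) - R * yy q r n ^ (κ * (1 / 2)))) N + n₁ := by
      exact_mod_cast h1
    linarith [hN.1, hN.2]
  have hz : ∀ s : ℂ, 1 / 2 < s.re → riemannZeta s ≠ 0 := fun s hs h0 => hoff ⟨s, h0, hs⟩
  by_cases hmul : ∃ d : ℝ, riemannZeta (1 / 2 + I * d) = 0 ∧ deriv riemannZeta (1 / 2 + I * d) = 0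
  · -- a multiple zero
    obtain ⟨d, hd, hd'⟩ := hmul
    have hre : (1 / 2 + I * d : ℂ).re = 1 / 2 := by simp
    have him := zero_im hd (by rw [hre]; norm_num)
    obtain ⟨hU1, hU2⟩ := hUc (1 / 2 + I * d) hre.symm.le him
    have key := osc h hF hR hd hre.symm.le hU1 (κ := κ) (q := q) (r := r) (c := c) (sg := sg) (ε := ε) hκ hq hr
      hsg hε (by rw [hd', norm_zero, mul_zero, mul_zero]; exact norm_pos_iff.2 hU2)
    rw [hre] at key
    exact key
  -- all zeros are simple and on the line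
  intro hcon
  have hcon' : ∀ᶠ N : ℕ in atTop, (cnt (fun n => c * yy q r n ^ (κ * (1 / 2)) <
      sg * (Sa a (yy q r n ^ κ) - R * yy q r n ^ (κ * (1 / 2)))) N : ℝ) ≤ (N:ℝ) ^ (1 - ε) :=
    hcon.mono fun N hN => not_lt.1 hN
  have hos := sparse_hos (c := c) (sg := sg) (R := R) hF hκ hq hr hε le_rfl (by norm_num) hz hcon'
  have e0 : ∀ d : ℝ, (((1 / 2 : ℝ) : ℂ) - I * d) = 1 / 2 + I * ((-d : ℝ) : ℂ) := by
    intro d
    push_cast
    ring
  have hpd := posdef (c := c) (sg := sg) h hF hR le_rfl (by norm_num : (1 / 2 : ℝ) < 1) hz (fun d hd => by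
      refine (hUc _ ?_ ?_).1
      · simp
      · simp [hd]) (fun d hd hd' => by
      rw [e0] at hd hd'
      exact hmul ⟨-d, hd, hd'⟩) hκ hq hr hos
  have hsch := schur hg hpd y
  -- the support
  have hfin := ord_finite T
  set Z : Finset ℝ := hfin.toFinset with hZ
  set L : Finset ℝ := Z.image (fun d => -d) with hL
  have hZmem : ∀ d, d ∈ Z ↔ |d| ≤ T ∧ riemannZeta (1 / 2 + I * d) = 0 := fun d => by
    rw [hZ, Set.Finite.mem_toFinset]
    rfl
  have hZ0 : (0:ℝ) ∉ Z := by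
    rw [hZmem]
    rintro ⟨-, h0⟩
    refine zero_im h0 (by simp) ?_
    simp
  have hL0 : (0:ℝ) ∉ L := by
    rw [hL, Finset.mem_image]
    rintro ⟨d, hd, hd0⟩
    have : d = 0 := by linarith
    exact hZ0 (this ▸ hd)
  set w : ℝ → ℂ := fun d => ((g d : ℝ) : ℂ) * cexp (-(I * (d : ℂ) * y)) * ell U (1 / 2) c sg d with hw
  have hsupp : ∀ d, w d ≠ 0 → d = 0 ∨ d ∈ L := by
    intro d hd
    by_cases hd0 : d = 0
    · exact Or.inl hd0
    · right
      simp only [hw] at hd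
      have h1 : g d ≠ 0 := by
        intro h0
        apply hd
        rw [h0]
        simp
      have h2 : |d| ≤ T := by
        by_contra hc
        exact h1 (hT d (not_le.1 hc))
      have h3 : riemannZeta (((1 / 2 : ℝ) : ℂ) - I * d) = 0 := by
        by_contra hc
        apply hd
        unfold ell rr
        rw [if_neg hd0, if_neg hc]
        simp
      rw [hL, Finset.mem_image]
      refine ⟨-d, ?_, by ring⟩
      rw [hZmem, abs_neg]
      refine ⟨h2, ?_⟩
      rw [← e0]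
      exact h3
  have hmain := trig hsupp hL0 (fun S => hsch S)
  have e1 : (w 0).re = c := by
    simp only [hw]
    unfold ell
    rw [if_pos rfl, hg0]
    simp
  have e2 : ∑ d ∈ L, (w d).re = -(sg * hh U g y) := by
    have e3 : hh U g y = ∑ d ∈ Z, g d * (cexp (I * d * y) * (U (1 / 2 + I * d) /
        ((1 / 2 + I * d) * deriv riemannZeta (1 / 2 + I * d)))).re := by
      unfold hh
      refine finsum_mem_eq_sum_of_inter_support_eq _ ?_
      ext d
      simp only [Set.mem_inter_iff, Function.mem_support, Finset.mem_coe, hZmem]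
      constructor
      · rintro ⟨⟨h1, h2⟩, h3⟩
        refine ⟨⟨?_, h2⟩, h3⟩
        by_contra hc
        exact h1 (hT d (not_le.1 hc))
      · rintro ⟨⟨h1, h2⟩, h3⟩
        refine ⟨⟨?_, h2⟩, h3⟩
        intro h4
        rw [h4, zero_mul] at h3
        exact h3 rfl
    rw [e3, hL, Finset.sum_image (fun x _ x' _ hxx => by simpa using hxx), Finset.mul_sum, ← Finset.sum_neg_distrib]
    refine Finset.sum_congr rfl fun d hd => ?_
    have hd' := (hZmem d).1 hd
    have hd0 : d ≠ 0 := by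
      rintro rfl
      exact hZ0 hd
    simp only [hw]
    unfold ell rr
    rw [if_neg (neg_ne_zero.2 hd0), e0, neg_neg, if_pos hd'.2, hg.1]
    have e4 : ((g d : ℝ) : ℂ) * cexp (-(I * ((-d : ℝ) : ℂ) * y)) *
        -(sg * (U (1 / 2 + I * d) / ((1 / 2 + I * d) * deriv riemannZeta (1 / 2 + I * d)))) =
        ((-(sg * g d) : ℝ) : ℂ) * (cexp (I * d * y) * (U (1 / 2 + I * d) /
        ((1 / 2 + I * d) * deriv riemannZeta (1 / 2 + I * d)))) := by
      have : -(I * ((-d : ℝ) : ℂ) * y) = I * d * y := by push_cast; ring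
      rw [this]
      push_cast
      ring
    rw [e4, Complex.re_ofReal_mul]
    ring
  rw [e1, e2] at hmain
  linarith

end U441.MP
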