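import Pool.Agent.U441.MP.Fo

/-! Admissible kernels: the kernels of Fejér and of Jurkat and Peyerimhoff. -/

set_option autoImplicit false

open MeasureTheory Filter Topology Set

namespace U441.MP

/-- the autocorrelation -/
noncomputable def ac (φ : ℝ → ℝ) (x : ℝ) : ℝ := ∫ u, φ u * φ (u + x)

lemma ac_int {φ : ℝ → ℝ} (hm : Measurable φ) {A B : ℝ} (hB : ∀ u, |φ u| ≤ B) (hA : ∀ u, A < |u| → φ u = 0)
    (s s' : ℝ) : Integrable fun u => φ (u + s') * φ (u + s) := by
  have h1 : Integrable (fun u : ℝ => (Icc (-A - s') (A - s')).indicator (fun _ => B * B) u) :=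
    (integrable_indicator_iff measurableSet_Icc).2 (integrableOn_const (by simp))
  refine h1.mono' ((hm.comp (measurable_id.add_const s')).mul
    (hm.comp (measurable_id.add_const s))).aestronglyMeasurable (Eventually.of_forall fun u => ?_)
  by_cases hu : u ∈ Icc (-A - s') (A - s')
  · rw [indicator_of_mem hu, norm_mul, Real.norm_eq_abs, Real.norm_eq_abs]
    exact mul_le_mul (hB _) (hB _) (abs_nonneg _) ((abs_nonneg _).trans (hB 0))
  · rw [indicator_of_notMem hu]
    have : φ (u + s') = 0 := by
      refine hA _ ?_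
      by_contra h
      push Not at h
      have := abs_le.1 h
      exact hu ⟨by linarith, by linarith⟩
    rw [this, zero_mul, norm_zero]

/-- autocorrelations are positive definite -/
theorem ac_pd {φ : ℝ → ℝ} (hm : Measurable φ) {A B : ℝ} (hB : ∀ u, |φ u| ≤ B) (hA : ∀ u, A < |u| → φ u = 0) :
    PDf (ac φ) := by
  refine ⟨fun x => ?_, fun S x => ?_⟩
  · unfold ac
    rw [← integral_add_right_eq_self (fun u => φ u * φ (u + -x)) x]
    refine integral_congr_ae (Eventually.of_forall fun u => ?_)
    simp only
    rw [show u + x + -x = u by ring, mul_comm]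
  · have e1 : ∀ s s' : ℝ, ac φ (s - s') = ∫ u, φ (u + s') * φ (u + s) := by
      intro s s'
      unfold ac
      rw [← integral_add_right_eq_self (fun u => φ u * φ (u + (s - s'))) s']
      refine integral_congr_ae (Eventually.of_forall fun u => ?_)
      simp only
      rw [show u + s' + (s - s') = u + s by ring]
    have e2 : ∑ s ∈ S, ∑ s' ∈ S, x s * x s' * ac φ (s - s') = ∫ u, (∑ s ∈ S, x s * φ (u + s)) ^ 2 := by
      have e3 : ∀ u : ℝ, (∑ s ∈ S, x s * φ (u + s)) ^ 2 = ∑ s ∈ S, ∑ s' ∈ S, x s * x s' * (φ (u + s') * φ (u + s)) := by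
        intro u
        rw [sq, Finset.sum_mul_sum]
        refine Finset.sum_congr rfl fun s _ => Finset.sum_congr rfl fun s' _ => ?_
        ring
      simp_rw [e3]
      rw [integral_finsetSum _ fun s _ => integrable_finsetSum _ fun s' _ => (ac_int hm hB hA s s').const_mul _]
      refine Finset.sum_congr rfl fun s _ => ?_
      rw [integral_finsetSum _ fun s' _ => (ac_int hm hB hA s s').const_mul _]
      refine Finset.sum_congr rfl fun s' _ => ?_
      rw [integral_const_mul, e1]
    rw [e2]
    exact integral_nonneg fun u => sq_nonneg _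

lemma PDf.smul {g : ℝ → ℝ} (hg : PDf g) {c : ℝ} (hc : 0 ≤ c) : PDf fun x => c * g x := by
  refine ⟨fun x => by simp only; rw [hg.1], fun S x => ?_⟩
  have : ∑ s ∈ S, ∑ s' ∈ S, x s * x s' * (c * g (s - s')) = c * ∑ s ∈ S, ∑ s' ∈ S, x s * x s' * g (s - s') := by
    rw [Finset.mul_sum]
    refine Finset.sum_congr rfl fun s _ => ?_
    rw [Finset.mul_sum]
    refine Finset.sum_congr rfl fun s' _ => ?_
    ring
  simp only
  rw [this]
  exact mul_nonneg hc (hg.2 S x)

/-- the Fejér kernel -/
noncomputable def fejer (T x : ℝ) : ℝ := max 0 (1 - |x| / T)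

lemma fejer_pd {T : ℝ} (hT : 0 < T) : PDf (fejer T) := by
  set φ : ℝ → ℝ := (Ioc 0 T).indicator fun _ => 1 with hφ
  have hm : Measurable φ := measurable_const.indicator measurableSet_Ioc
  have hB : ∀ u, |φ u| ≤ 1 := by
    intro u
    rw [hφ]
    by_cases hu : u ∈ Ioc 0 T
    · rw [indicator_of_mem hu]; simp
    · rw [indicator_of_notMem hu]; simp
  have hA : ∀ u, T < |u| → φ u = 0 := by
    intro u hu
    rw [hφ, indicator_of_notMem]
    rintro ⟨h1, h2⟩
    rw [abs_of_pos h1] at hu
    linarith
  have h := (ac_pd hm hB hA).smul (c := 1 / T) (by positivity)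
  have e : fejer T = fun x => 1 / T * ac φ x := by
    funext x
    have e1 : ∀ u : ℝ, φ u * φ (u + x) = (Ioc (max 0 (-x)) (min T (T - x))).indicator (fun _ => (1:ℝ)) u := by
      intro u
      rw [hφ]
      by_cases h1 : u ∈ Ioc 0 T
      · by_cases h2 : u + x ∈ Ioc 0 T
        · rw [indicator_of_mem h1, indicator_of_mem h2, indicator_of_mem, mul_one]
          exact ⟨max_lt h1.1 (by linarith [h2.1]), le_min h1.2 (by linarith [h2.2])⟩
        · rw [indicator_of_notMem h2, mul_zero]
          refine (indicator_of_notMem ?_ _).symm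
          rintro ⟨h3, h4⟩
          exact h2 ⟨by linarith [(max_lt_iff.1 h3).2], by linarith [(le_min_iff.1 h4).2]⟩
      · rw [indicator_of_notMem h1, zero_mul]
        refine (indicator_of_notMem ?_ _).symm
        rintro ⟨h3, h4⟩
        exact h1 ⟨(max_lt_iff.1 h3).1, (le_min_iff.1 h4).1⟩
    unfold ac fejer
    simp_rw [e1]
    rw [integral_indicator measurableSet_Ioc, setIntegral_const, smul_eq_mul, mul_one, measureReal_def,
      Real.volume_Ioc, ENNReal.toReal_ofReal']
    have e2 : min T (T - x) - max 0 (-x) = T - |x| := by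
      rcases le_total 0 x with hx | hx
      · rw [abs_of_nonneg hx, min_eq_right (by linarith), max_eq_left (by linarith)]
        ring
      · rw [abs_of_nonpos hx, min_eq_left (by linarith), max_eq_right (by linarith)]
    rw [e2, max_comm, mul_max_of_nonneg _ _ (by positivity : (0:ℝ) ≤ 1 / T), mul_zero]
    congr 1
    field_simp
  rw [e]
  exact h

/-- the kernel of Jurkat and Peyerimhoff -/
noncomputable def jp (T x : ℝ) : ℝ :=
  if |x| ≤ T then (1 - |x| / T) * Real.cos (Real.pi * x / T) + Real.sin (Real.pi * |x| / T) / Real.pi else 0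

lemma jp_even (T x : ℝ) : jp T (-x) = jp T x := by
  unfold jp
  rw [abs_neg]
  have : Real.pi * -x / T = -(Real.pi * x / T) := by ring
  rw [this, Real.cos_neg]

lemma jp_pd {T : ℝ} (hT : 0 < T) : PDf (jp T) := by
  set φ : ℝ → ℝ := (Ioc (-(T / 2)) (T / 2)).indicator fun u => Real.cos (Real.pi * u / T) with hφ
  have hm : Measurable φ := Measurable.indicator (by fun_prop) measurableSet_Ioc
  have hB : ∀ u, |φ u| ≤ 1 := by
    intro u
    rw [hφ]
    by_cases hu : u ∈ Ioc (-(T / 2)) (T / 2)
    · rw [indicator_of_mem hu]; exact Real.abs_cos_le_one _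
    · rw [indicator_of_notMem hu]; simp
  have hA : ∀ u, T / 2 < |u| → φ u = 0 := by
    intro u hu
    rw [hφ, indicator_of_notMem]
    rintro ⟨h1, h2⟩
    have := abs_le.2 ⟨h1.le, h2⟩
    linarith
  have h := (ac_pd hm hB hA).smul (c := 2 / T) (by positivity)
  have hpos : ∀ x : ℝ, 0 ≤ x → jp T x = 2 / T * ac φ x := by
    intro x hx
    have e1 : ∀ u : ℝ, φ u * φ (u + x) = (Ioc (-(T / 2)) (T / 2 - x)).indicator
        (fun u => Real.cos (Real.pi * u / T) * Real.cos (Real.pi * (u + x) / T)) u := by
      intro u
      rw [hφ]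
      by_cases h1 : u ∈ Ioc (-(T / 2)) (T / 2)
      · by_cases h2 : u + x ∈ Ioc (-(T / 2)) (T / 2)
        · rw [indicator_of_mem h1, indicator_of_mem h2, indicator_of_mem]
          exact ⟨h1.1, by linarith [h2.2]⟩
        · rw [indicator_of_notMem h2, mul_zero]
          refine (indicator_of_notMem ?_ _).symm
          rintro ⟨h3, h4⟩
          exact h2 ⟨by linarith, by linarith⟩
      · rw [indicator_of_notMem h1, zero_mul]
        refine (indicator_of_notMem ?_ _).symm
        rintro ⟨h3, h4⟩
        exact h1 ⟨h3, by linarith⟩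
    unfold ac
    simp_rw [e1]
    rw [integral_indicator measurableSet_Ioc]
    by_cases hxT : x ≤ T
    · have hle : -(T / 2) ≤ T / 2 - x := by linarith
      rw [← intervalIntegral.integral_of_le hle]
      have hd : ∀ u ∈ uIcc (-(T / 2)) (T / 2 - x), HasDerivAt (fun u : ℝ => 1 / 2 * (u * Real.cos (Real.pi * x / T) +
          T / (2 * Real.pi) * Real.sin (Real.pi * (2 * u + x) / T)))
          (Real.cos (Real.pi * u / T) * Real.cos (Real.pi * (u + x) / T)) u := by
        intro u _
        have h1 : HasDerivAt (fun u : ℝ => Real.pi * (2 * u + x) / T) (Real.pi * 2 / T) u := by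
          have h2 : HasDerivAt (fun u : ℝ => 2 * u + x) 2 u := by
            simpa using ((hasDerivAt_id u).const_mul 2).add_const x
          exact (h2.const_mul Real.pi).div_const T
        have h3 := (((hasDerivAt_id u).mul_const (Real.cos (Real.pi * x / T))).add
          (h1.sin.const_mul (T / (2 * Real.pi)))).const_mul (1 / 2)
        refine h3.congr_deriv ?_
        have hp := Real.pi_pos
        have e5 : T / (2 * Real.pi) * (Real.cos (Real.pi * (2 * u + x) / T) * (Real.pi * 2 / T)) =
            Real.cos (Real.pi * (2 * u + x) / T) := by field_simp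
        have e6 : Real.pi * (2 * u + x) / T = Real.pi * u / T + Real.pi * (u + x) / T := by ring
        have e7 : Real.pi * x / T = Real.pi * (u + x) / T - Real.pi * u / T := by ring
        rw [e5, e6, e7, Real.cos_add, Real.cos_sub]
        ring
      have hcont : Continuous fun u : ℝ => Real.cos (Real.pi * u / T) * Real.cos (Real.pi * (u + x) / T) := by
        fun_prop
      rw [intervalIntegral.integral_eq_sub_of_hasDerivAt hd (hcont.intervalIntegrable _ _)]
      have s1 : Real.sin (Real.pi * (2 * (T / 2 - x) + x) / T) = Real.sin (Real.pi * x / T) := by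
        have : Real.pi * (2 * (T / 2 - x) + x) / T = Real.pi - Real.pi * x / T := by
          field_simp
          ring
        rw [this, Real.sin_pi_sub]
      have s2 : Real.sin (Real.pi * (2 * (-(T / 2)) + x) / T) = -Real.sin (Real.pi * x / T) := by
        have : Real.pi * (2 * (-(T / 2)) + x) / T = -(Real.pi - Real.pi * x / T) := by
          field_simp
          ring
        rw [this, Real.sin_neg, Real.sin_pi_sub]
      rw [s1, s2]
      unfold jp
      rw [if_pos (by rw [abs_of_nonneg hx]; exact hxT), abs_of_nonneg hx]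
      have hp := Real.pi_pos
      field_simp
      ring
    · push Not at hxT
      rw [Ioc_eq_empty (by linarith), setIntegral_empty, mul_zero]
      unfold jp
      rw [if_neg (by rw [abs_of_nonneg hx]; linarith)]
  have e : jp T = fun x => 2 / T * ac φ x := by
    funext x
    rcases le_total 0 x with hx | hx
    · exact hpos x hx
    · rw [← jp_even, hpos (-x) (by linarith), (ac_pd hm hB hA).1]
  rw [e]
  exact h

end U441.MP
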