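import Pool.Agent.U441.MP.Os

/-! Partial summation: comparison of weighted sums and integrals. -/

set_option autoImplicit false

open MeasureTheory Filter Topology Set Complex

namespace U441.MP

/-- substitution -/
lemma sub_gen {q r B : ℝ} (hq : 0 < q) (hr : 0 ≤ r) (hB : 1 ≤ B) (Φ : ℝ → ℂ) :
    ∫ u in (1:ℝ)..B, Φ (yy q r u) =
      (1 / q : ℂ) * ∫ y in (Real.log (yy q r 1))..(Real.log (yy q r B)), Φ (Real.exp y) * Real.exp y := by
  have hy1 := yy_pos hq hr one_pos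
  have hyB := yy_pos hq hr (by linarith : 0 < B)
  have hle : yy q r 1 ≤ yy q r B := by unfold yy; nlinarith
  have hlog := Real.log_le_log hy1 hle
  rw [intervalIntegral.integral_of_le hB, intervalIntegral.integral_of_le hlog]
  have himg : (fun y : ℝ => (Real.exp y - r) / q) '' Ioc (Real.log (yy q r 1)) (Real.log (yy q r B)) = Ioc 1 B := by
    ext t
    constructor
    · rintro ⟨y, ⟨h1, h2⟩, rfl⟩
      rw [Real.log_lt_iff_lt_exp hy1] at h1
      rw [Real.le_log_iff_exp_le hyB] at h2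
      unfold yy at h1 h2
      constructor
      · rw [lt_div_iff₀ hq]
        linarith
      · rw [div_le_iff₀ hq]
        linarith
    · rintro ⟨h1, h2⟩
      have ht : 0 < yy q r t := yy_pos hq hr (by linarith)
      refine ⟨Real.log (yy q r t), ⟨?_, ?_⟩, ?_⟩
      · exact Real.log_lt_log hy1 (by unfold yy; nlinarith)
      · exact Real.log_le_log ht (by unfold yy; nlinarith)
      · simp only
        rw [Real.exp_log ht]
        unfold yy
        field_simp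
        ring
  have hsub := integral_image_eq_integral_abs_deriv_smul (s := Ioc (Real.log (yy q r 1)) (Real.log (yy q r B)))
    (f := fun y : ℝ => (Real.exp y - r) / q) (f' := fun y => Real.exp y / q) measurableSet_Ioc
    (fun y _ => ((((Real.hasDerivAt_exp y).sub_const r).div_const q)).hasDerivWithinAt)
    (fun x _ y _ hxy => by
      simp only at hxy
      rw [div_left_inj' hq.ne'] at hxy
      exact Real.exp_injective (by linarith))
    (fun u : ℝ => Φ (yy q r u))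
  rw [himg] at hsub
  rw [hsub, ← integral_const_mul]
  refine setIntegral_congr_fun measurableSet_Ioc fun y _ => ?_
  have e1 : yy q r ((Real.exp y - r) / q) = Real.exp y := by
    unfold yy
    field_simp
    ring
  rw [e1, abs_of_pos (by positivity), Complex.real_smul]
  push_cast
  ring

/-- the function `c v^(κβ) + sg R v^(κ/2) - sg A(v^κ)` -/
noncomputable def bb (a : ℕ → ℝ) (κ β c sg R v : ℝ) : ℝ :=
  c * v ^ (κ * β) + sg * R * v ^ (κ * (1 / 2)) - sg * Sa a (v ^ κ)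

lemma bb_meas (a : ℕ → ℝ) (κ β c sg R : ℝ) : Measurable (bb a κ β c sg R) := by
  unfold bb
  have h := (Sa_measurable a).comp (by fun_prop : Measurable fun v : ℝ => v ^ κ)
  exact (by fun_prop : Measurable fun v : ℝ => c * v ^ (κ * β) + sg * R * v ^ (κ * (1 / 2))).sub (h.const_mul sg)

/-- growth of `bb` -/
lemma bb_growth {a : ℕ → ℝ} {F : ℂ → ℂ} {σ : ℝ} (hp : PD a F σ) (hσ1 : 1 / 4 ≤ σ) (hσ2 : σ ≤ 2)
    {κ β c sg R μ₀ : ℝ} (hκ : 0 < κ) (hβ : 1 / 2 ≤ β) (hβσ : β < σ) (hμ : κ * σ < μ₀) :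
    ∃ C : ℝ, 0 < C ∧ ∀ v X : ℝ, 0 < v → v ≤ X → 1 ≤ X → |bb a κ β c sg R v| ≤ C * X ^ μ₀ := by
  obtain ⟨Cs, hCs, hPs⟩ := Sa_bound hp hσ1 hσ2 (δ := (μ₀ - κ * σ) / κ) (div_pos (by linarith) hκ)
  refine ⟨|c| + |sg * R| + |sg| * Cs + 1, by positivity, fun v X hv hvX hX => ?_⟩
  have hX0 : 0 < X := by linarith
  have p0 : 0 < X ^ μ₀ := Real.rpow_pos_of_pos hX0 _
  have p1 : v ^ (κ * β) ≤ X ^ μ₀ :=
    (Real.rpow_le_rpow hv.le hvX (by positivity)).trans (Real.rpow_le_rpow_of_exponent_le hX (by nlinarith))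
  have p2 : v ^ (κ * (1 / 2)) ≤ X ^ μ₀ :=
    (Real.rpow_le_rpow hv.le hvX (by positivity)).trans (Real.rpow_le_rpow_of_exponent_le hX (by nlinarith))
  have p3 : |Sa a (v ^ κ)| ≤ Cs * X ^ μ₀ := by
    by_cases hv1 : 1 ≤ v
    · have h1 : 1 ≤ v ^ κ := Real.one_le_rpow hv1 hκ.le
      refine (hPs _ h1).trans ?_
      refine mul_le_mul_of_nonneg_left ?_ hCs.le
      rw [← Real.rpow_mul hv.le]
      have e1 : κ * (σ + (μ₀ - κ * σ) / κ) = μ₀ := by field_simp; ring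
      rw [e1]
      exact Real.rpow_le_rpow hv.le hvX (by nlinarith)
    · have h1 : v ^ κ < 1 := Real.rpow_lt_one hv.le (not_le.1 hv1) hκ
      have h2 : Sa a (v ^ κ) = 0 := by
        unfold Sa
        rw [Nat.floor_eq_zero.2 h1]
        simp
      rw [h2, abs_zero]
      positivity
  unfold bb
  have q1 : |c * v ^ (κ * β)| ≤ |c| * X ^ μ₀ := by
    rw [abs_mul, abs_of_nonneg (Real.rpow_nonneg hv.le _)]
    exact mul_le_mul_of_nonneg_left p1 (abs_nonneg _)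
  have q2 : |sg * R * v ^ (κ * (1 / 2))| ≤ |sg * R| * X ^ μ₀ := by
    rw [abs_mul, abs_of_nonneg (Real.rpow_nonneg hv.le (κ * (1 / 2)))]
    exact mul_le_mul_of_nonneg_left p2 (abs_nonneg _)
  have q3 : |sg * Sa a (v ^ κ)| ≤ |sg| * (Cs * X ^ μ₀) := by
    rw [abs_mul]
    exact mul_le_mul_of_nonneg_left p3 (abs_nonneg _)
  have t1 := abs_sub (c * v ^ (κ * β) + sg * R * v ^ (κ * (1 / 2))) (sg * Sa a (v ^ κ))
  have t2 := abs_add_le (c * v ^ (κ * β)) (sg * R * v ^ (κ * (1 / 2)))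
  nlinarith

/-- power sums against integrals -/
lemma pow_sum {κ q r β : ℝ} (hκ : 0 < κ) (hq : 0 < q) (hr : 0 ≤ r) (hβ : 0 < β) {N : ℕ} (hN : 1 ≤ N) :
    |∑ n ∈ Finset.Icc 1 N, yy q r n ^ (κ * β) - ∫ u in (1:ℝ)..N, yy q r u ^ (κ * β)| ≤ yy q r N ^ (κ * β) := by
  have hN1 : (1:ℝ) ≤ N := by exact_mod_cast hN
  have hre : ((β : ℂ)).re = β := Complex.ofReal_re β
  have h1 := De_bound hκ hq hr (s := (β : ℂ)) (by rw [hre]; exact hβ) hN
  rw [hre, Complex.norm_real, Real.norm_of_nonneg hβ.le, div_self hβ.ne', one_mul] at h1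
  have e1 : ∀ u : ℝ, 0 < u → Ee κ q r (β : ℂ) u = ((yy q r u ^ (κ * β) : ℝ) : ℂ) := by
    intro u hu
    unfold Ee
    rw [Real.rpow_def_of_pos (yy_pos hq hr hu), Complex.ofReal_exp]
    congr 1
    push_cast
    ring
  have e2 : De κ q r N (β : ℂ) =
      ((∑ n ∈ Finset.Icc 1 N, yy q r n ^ (κ * β) - ∫ u in (1:ℝ)..N, yy q r u ^ (κ * β) : ℝ) : ℂ) := by
    unfold De
    rw [Complex.ofReal_sub, Complex.ofReal_sum, ← intervalIntegral.integral_ofReal]
    congr 1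
    · refine Finset.sum_congr rfl fun n hn => ?_
      rw [Finset.mem_Icc] at hn
      exact e1 n (by exact_mod_cast hn.1)
    · refine intervalIntegral.integral_congr fun u hu => ?_
      rw [uIcc_of_le hN1] at hu
      exact e1 u (by linarith [hu.1])
  rw [e2, Complex.norm_real, Real.norm_eq_abs] at h1
  linarith

lemma yy_cont (q r : ℝ) : Continuous (yy q r) := by unfold yy; fun_prop

lemma yy_rpow_ii {q r p : ℝ} (hq : 0 < q) (hr : 0 ≤ r) {u v : ℝ} (hu : 0 < u) (huv : u ≤ v) :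
    IntervalIntegrable (fun u : ℝ => yy q r u ^ p) volume u v := by
  refine ContinuousOn.intervalIntegrable ?_
  rw [uIcc_of_le huv]
  exact (yy_cont q r).continuousOn.rpow_const fun x hx => Or.inl (yy_pos hq hr (lt_of_lt_of_le hu hx.1)).ne'

lemma Sa_ii {a : ℕ → ℝ} (ha : ∀ n, |a n| ≤ 1) {κ q r : ℝ} (hκ : 0 < κ) (hq : 0 < q) (hr : 0 ≤ r) {u v : ℝ}
    (hu : 0 < u) (huv : u ≤ v) : IntervalIntegrable (fun u : ℝ => Sa a (yy q r u ^ κ)) volume u v := by
  rw [intervalIntegrable_iff_integrableOn_Ioc_of_le huv]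
  have hSm : Measurable fun u : ℝ => Sa a (yy q r u ^ κ) := by
    refine (Sa_measurable a).comp ?_
    unfold yy
    fun_prop
  refine Measure.integrableOn_of_bounded (by simp) hSm.aestronglyMeasurable (M := yy q r v ^ κ)
    ((ae_restrict_iff' measurableSet_Ioc).2 (ae_of_all _ fun t ht => ?_))
  have h1 : 0 < yy q r t := yy_pos hq hr (by linarith [ht.1])
  have h2 : yy q r t ≤ yy q r v := by unfold yy; nlinarith [ht.2]
  rw [Real.norm_eq_abs]
  exact (Sa_abs ha (Real.rpow_nonneg h1.le _)).trans (Real.rpow_le_rpow h1.le h2 hκ.le)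

lemma bb_ii {a : ℕ → ℝ} (ha : ∀ n, |a n| ≤ 1) {κ q r β c sg R : ℝ} (hκ : 0 < κ) (hq : 0 < q) (hr : 0 ≤ r)
    {u v : ℝ} (hu : 0 < u) (huv : u ≤ v) :
    IntervalIntegrable (fun u : ℝ => bb a κ β c sg R (yy q r u)) volume u v := by
  unfold bb
  exact (((yy_rpow_ii hq hr hu huv).const_mul _).add ((yy_rpow_ii hq hr hu huv).const_mul _)).sub
    ((Sa_ii ha hκ hq hr hu huv).const_mul _)

/-- the discrepancy -/
noncomputable def Gd (a : ℕ → ℝ) (κ q r β c sg R : ℝ) (N : ℕ) : ℝ :=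
  ∑ n ∈ Finset.Icc 1 N, bb a κ β c sg R (yy q r n) - ∫ u in (1:ℝ)..N, bb a κ β c sg R (yy q r u)

/-- bound for the discrepancy -/
lemma Gd_bound {a : ℕ → ℝ} {F : ℂ → ℂ} {σ : ℝ} (hp : PD a F σ) (hσ1 : 1 / 4 ≤ σ) (hσ2 : σ ≤ 2)
    {κ q r δ sg c β R w₂ : ℝ} (hκ : 0 < κ) (hq : 0 < q) (hr : 0 ≤ r) (hδ : 0 < δ) (hβ : 1 / 2 ≤ β)
    (h1 : κ * β ≤ w₂) (h2 : κ * σ + 2 / 3 + δ ≤ w₂) (h3 : 1 ≤ w₂) :
    ∃ C : ℝ, 0 < C ∧ ∀ N : ℕ, 1 ≤ N → |Gd a κ q r β c sg R N| ≤ C * (N:ℝ) ^ w₂ := by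
  obtain ⟨C, hC, hme⟩ := main_est hp hσ1 hσ2 hκ hq hr hδ
  set g : ℝ := max 1 (q + r) with hg
  have hg1 : 1 ≤ g := le_max_left _ _
  refine ⟨|c| * g ^ (κ * β) + |sg * R| * g ^ (κ * (1 / 2)) + |sg| * (2 * C) + 1, by positivity, fun N hN => ?_⟩
  have hN1 : (1:ℝ) ≤ N := by exact_mod_cast hN
  have hN0 : (0:ℝ) < N := by linarith
  have hyN := yy_pos hq hr hN0
  have hYg : yy q r N ≤ g * N := by
    have : q + r ≤ g := le_max_right _ _
    unfold yy; nlinarith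
  have s1 := pow_sum (β := β) hκ hq hr (by linarith) hN
  have s2 := pow_sum (β := 1 / 2) hκ hq hr (by norm_num) hN
  have s3 := hme N hN
  have e1 : Gd a κ q r β c sg R N =
      c * (∑ n ∈ Finset.Icc 1 N, yy q r n ^ (κ * β) - ∫ u in (1:ℝ)..N, yy q r u ^ (κ * β)) +
      sg * R * (∑ n ∈ Finset.Icc 1 N, yy q r n ^ (κ * (1 / 2)) - ∫ u in (1:ℝ)..N, yy q r u ^ (κ * (1 / 2))) -
      sg * (∑ n ∈ Finset.Icc 1 N, Sa a (yy q r n ^ κ) - ∫ u in (1:ℝ)..N, Sa a (yy q r u ^ κ)) := by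
    unfold Gd bb
    rw [Finset.sum_sub_distrib, Finset.sum_add_distrib, ← Finset.mul_sum, ← Finset.mul_sum, ← Finset.mul_sum,
      intervalIntegral.integral_sub (((yy_rpow_ii hq hr one_pos hN1).const_mul _).add
        ((yy_rpow_ii hq hr one_pos hN1).const_mul _)) ((Sa_ii hp.ha hκ hq hr one_pos hN1).const_mul _),
      intervalIntegral.integral_add ((yy_rpow_ii hq hr one_pos hN1).const_mul _)
        ((yy_rpow_ii hq hr one_pos hN1).const_mul _),
      intervalIntegral.integral_const_mul, intervalIntegral.integral_const_mul,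
      intervalIntegral.integral_const_mul]
    ring
  have hpow : ∀ p : ℝ, 0 ≤ p → p ≤ w₂ → yy q r N ^ p ≤ g ^ p * (N:ℝ) ^ w₂ := by
    intro p hp0 hpw
    calc yy q r N ^ p ≤ (g * N) ^ p := Real.rpow_le_rpow hyN.le hYg hp0
      _ = g ^ p * (N:ℝ) ^ p := Real.mul_rpow (by linarith) hN0.le
      _ ≤ _ := mul_le_mul_of_nonneg_left (Real.rpow_le_rpow_of_exponent_le hN1 hpw) (by positivity)
  have p1 := hpow (κ * β) (by positivity) h1
  have p2 := hpow (κ * (1 / 2)) (by positivity) (by nlinarith)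
  have p3 : (N:ℝ) ^ (κ * σ + 2 / 3 + δ) ≤ (N:ℝ) ^ w₂ := Real.rpow_le_rpow_of_exponent_le hN1 h2
  have p4 : (N:ℝ) ≤ (N:ℝ) ^ w₂ := by
    calc (N:ℝ) = (N:ℝ) ^ (1:ℝ) := (Real.rpow_one _).symm
      _ ≤ _ := Real.rpow_le_rpow_of_exponent_le hN1 h3
  have p0 : 0 < (N:ℝ) ^ w₂ := Real.rpow_pos_of_pos hN0 _
  rw [e1]
  refine (abs_sub _ _).trans ?_
  refine (add_le_add (abs_add_le _ _) le_rfl).trans ?_
  have q1 : |c * (∑ n ∈ Finset.Icc 1 N, yy q r n ^ (κ * β) - ∫ u in (1:ℝ)..N, yy q r u ^ (κ * β))| ≤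
      |c| * (g ^ (κ * β) * (N:ℝ) ^ w₂) := by
    rw [abs_mul]
    exact mul_le_mul_of_nonneg_left (s1.trans p1) (abs_nonneg c)
  have q2 : |sg * R * (∑ n ∈ Finset.Icc 1 N, yy q r n ^ (κ * (1 / 2)) -
      ∫ u in (1:ℝ)..N, yy q r u ^ (κ * (1 / 2)))| ≤ |sg * R| * (g ^ (κ * (1 / 2)) * (N:ℝ) ^ w₂) := by
    rw [abs_mul]
    exact mul_le_mul_of_nonneg_left (s2.trans p2) (abs_nonneg (sg * R))
  have q3 : |sg * (∑ n ∈ Finset.Icc 1 N, Sa a (yy q r n ^ κ) - ∫ u in (1:ℝ)..N, Sa a (yy q r u ^ κ))| ≤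
      |sg| * (2 * C * (N:ℝ) ^ w₂) := by
    rw [abs_mul]
    refine mul_le_mul_of_nonneg_left (s3.trans ?_) (abs_nonneg _)
    have := mul_le_mul_of_nonneg_left (add_le_add p3 p4) hC.le
    linarith
  have q4 : 0 ≤ (N:ℝ) ^ w₂ := p0.le
  linarith

/-- the weight `(q u + r)^(-w)` -/
noncomputable def gg (q r : ℝ) (w : ℂ) (u : ℝ) : ℂ := cexp (-(w * (Real.log (yy q r u) : ℝ)))

lemma gg_norm {q r : ℝ} (hq : 0 < q) (hr : 0 ≤ r) (w : ℂ) {u : ℝ} (hu : 0 < u) :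
    ‖gg q r w u‖ = yy q r u ^ (-w.re) := by
  unfold gg
  rw [Complex.norm_exp, Real.rpow_def_of_pos (yy_pos hq hr hu), Complex.neg_re, Complex.mul_re, Complex.ofReal_re,
    Complex.ofReal_im, mul_zero, sub_zero]
  congr 1
  ring

lemma gg_deriv {q r : ℝ} (hq : 0 < q) (hr : 0 ≤ r) (w : ℂ) {u : ℝ} (hu : 0 < u) :
    HasDerivAt (gg q r w) (gg q r w u * (-(w * ((q / yy q r u : ℝ) : ℂ)))) u := by
  have hy := yy_pos hq hr hu
  have h1 : HasDerivAt (fun u : ℝ => yy q r u) q u := by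
    unfold yy
    simpa using ((hasDerivAt_id u).const_mul q).add_const r
  have h2 := (h1.log hy.ne').ofReal_comp
  exact ((h2.const_mul w).fun_neg).cexp

lemma gg_cont {q r : ℝ} (hq : 0 < q) (hr : 0 ≤ r) (w : ℂ) {u v : ℝ} (hu : 0 < u) :
    ContinuousOn (gg q r w) (Icc u v) := fun _ hx =>
  (gg_deriv hq hr w (lt_of_lt_of_le hu hx.1)).continuousAt.continuousWithinAt

lemma gg_diff {q r : ℝ} (hq : 0 < q) (hr : 0 ≤ r) {w : ℂ} (hw : 0 ≤ w.re) {u v : ℝ} (hu : 0 < u) (huv : u ≤ v) :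
    ‖gg q r w v - gg q r w u‖ ≤ ‖w‖ * q * yy q r u ^ (-w.re - 1) * (v - u) := by
  have hyu := yy_pos hq hr hu
  have h1 : ∀ x ∈ Icc u v, ‖gg q r w x * (-(w * ((q / yy q r x : ℝ) : ℂ)))‖ ≤
      ‖w‖ * q * yy q r u ^ (-w.re - 1) := by
    intro x hx
    have hx0 : 0 < x := lt_of_lt_of_le hu hx.1
    have hyx := yy_pos hq hr hx0
    have hle : yy q r u ≤ yy q r x := by unfold yy; nlinarith [hx.1]
    rw [norm_mul, norm_neg, norm_mul, gg_norm hq hr w hx0, Complex.norm_real, Real.norm_of_nonneg (by positivity)]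
    have e1 : yy q r x ^ (-w.re) * (‖w‖ * (q / yy q r x)) = ‖w‖ * q * yy q r x ^ (-w.re - 1) := by
      rw [Real.rpow_sub hyx, Real.rpow_one]
      ring
    rw [e1]
    refine mul_le_mul_of_nonneg_left ?_ (by positivity)
    exact Real.rpow_le_rpow_of_nonpos hyu hle (by linarith)
  have h2 := Convex.norm_image_sub_le_of_norm_hasDerivWithin_le
    (f := gg q r w) (f' := fun x => gg q r w x * (-(w * ((q / yy q r x : ℝ) : ℂ)))) (s := Icc u v) (x := u) (y := v)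
    (C := ‖w‖ * q * yy q r u ^ (-w.re - 1))
    (fun x hx => (gg_deriv hq hr w (lt_of_lt_of_le hu hx.1)).hasDerivWithinAt) h1 (convex_Icc u v)
    (left_mem_Icc.2 huv) (right_mem_Icc.2 huv)
  rwa [Real.norm_of_nonneg (by linarith : 0 ≤ v - u)] at h2

/-- the weighted discrepancy -/
noncomputable def Zd (a : ℕ → ℝ) (κ q r β c sg R : ℝ) (w : ℂ) (N : ℕ) : ℂ :=
  ∑ n ∈ Finset.Icc 1 N, (bb a κ β c sg R (yy q r n) : ℂ) * gg q r w n -
    ∫ u in (1:ℝ)..N, (bb a κ β c sg R (yy q r u) : ℂ) * gg q r w u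

lemma bbg_ii {a : ℕ → ℝ} (ha : ∀ n, |a n| ≤ 1) {κ q r β c sg R : ℝ} (hκ : 0 < κ) (hq : 0 < q) (hr : 0 ≤ r)
    (w : ℂ) {u v : ℝ} (hu : 0 < u) (huv : u ≤ v) :
    IntervalIntegrable (fun u : ℝ => (bb a κ β c sg R (yy q r u) : ℂ) * gg q r w u) volume u v := by
  have h1 : IntervalIntegrable (fun u : ℝ => (bb a κ β c sg R (yy q r u) : ℂ)) volume u v := by
    have h2 := bb_ii (β := β) (c := c) (sg := sg) (R := R) ha hκ hq hr hu huv
    rw [intervalIntegrable_iff] at h2 ⊢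
    exact h2.ofReal
  refine h1.mul_continuousOn ?_
  rw [uIcc_of_le huv]
  exact gg_cont hq hr w hu

/-- one step -/
lemma Zd_step {a : ℕ → ℝ} (ha : ∀ n, |a n| ≤ 1) {κ q r β c sg R : ℝ} (hκ : 0 < κ) (hq : 0 < q) (hr : 0 ≤ r)
    (w : ℂ) {N : ℕ} (hN : 1 ≤ N) :
    (Zd a κ q r β c sg R w (N + 1) - gg q r w ((N + 1 : ℕ) : ℝ) * (Gd a κ q r β c sg R (N + 1) : ℂ)) -
      (Zd a κ q r β c sg R w N - gg q r w N * (Gd a κ q r β c sg R N : ℂ)) =
      (∫ u in (N:ℝ)..((N + 1 : ℕ) : ℝ), (bb a κ β c sg R (yy q r u) : ℂ) *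
        (gg q r w ((N + 1 : ℕ) : ℝ) - gg q r w u)) -
      (gg q r w ((N + 1 : ℕ) : ℝ) - gg q r w N) * (Gd a κ q r β c sg R N : ℂ) := by
  have hN1 : (1:ℝ) ≤ N := by exact_mod_cast hN
  have hNN : (N:ℝ) ≤ ((N + 1 : ℕ) : ℝ) := by push_cast; linarith
  have i1 := bbg_ii (β := β) (c := c) (sg := sg) (R := R) ha hκ hq hr w one_pos hN1
  have i2 := bbg_ii (β := β) (c := c) (sg := sg) (R := R) ha hκ hq hr w (by linarith : (0:ℝ) < N) hNN
  have j1 := bb_ii (β := β) (c := c) (sg := sg) (R := R) ha hκ hq hr one_pos hN1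
  have j2 := bb_ii (β := β) (c := c) (sg := sg) (R := R) ha hκ hq hr (by linarith : (0:ℝ) < N) hNN
  have j2c : IntervalIntegrable (fun u : ℝ => (bb a κ β c sg R (yy q r u) : ℂ)) volume N ((N + 1 : ℕ) : ℝ) := by
    rw [intervalIntegrable_iff] at j2 ⊢
    exact j2.ofReal
  have e1 : ∫ u in (N:ℝ)..((N + 1 : ℕ) : ℝ), (bb a κ β c sg R (yy q r u) : ℂ) *
        (gg q r w ((N + 1 : ℕ) : ℝ) - gg q r w u) =
      ((∫ u in (N:ℝ)..((N + 1 : ℕ) : ℝ), bb a κ β c sg R (yy q r u) : ℝ) : ℂ) * gg q r w ((N + 1 : ℕ) : ℝ) -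
      ∫ u in (N:ℝ)..((N + 1 : ℕ) : ℝ), (bb a κ β c sg R (yy q r u) : ℂ) * gg q r w u := by
    rw [← intervalIntegral.integral_ofReal, ← intervalIntegral.integral_mul_const,
      ← intervalIntegral.integral_sub (j2c.mul_const _) i2]
    refine intervalIntegral.integral_congr fun u _ => ?_
    ring
  unfold Zd Gd
  rw [e1, Finset.sum_Icc_succ_top (by omega), Finset.sum_Icc_succ_top (by omega),
    ← intervalIntegral.integral_add_adjacent_intervals i1 i2,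
    ← intervalIntegral.integral_add_adjacent_intervals j1 j2]
  push_cast
  ring

/-- **Partial summation.** -/
theorem Zd_bound {a : ℕ → ℝ} {F : ℂ → ℂ} {σ : ℝ} (hp : PD a F σ) (hσ1 : 1 / 4 ≤ σ) (hσ2 : σ ≤ 2)
    {κ q r δ sg c β R w₁ w₂ : ℝ} (hκ : 0 < κ) (hq : 0 < q) (hr : 0 ≤ r) (hδ : 0 < δ) (hβ : 1 / 2 ≤ β)
    (hβσ : β < σ) (h1 : κ * β ≤ w₂) (h2 : κ * σ + 2 / 3 + δ ≤ w₂) (h3 : 1 ≤ w₂) (hw : w₂ < w₁) :
    ∃ K : ℝ, 0 < K ∧ ∀ w : ℂ, w₁ ≤ w.re → w.re ≤ w₁ + 1 → ∀ N : ℕ, 1 ≤ N →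
      ‖Zd a κ q r β c sg R w N‖ ≤ K * (1 + ‖w‖) := by
  obtain ⟨C, hC, hG⟩ := Gd_bound (c := c) (sg := sg) (R := R) hp hσ1 hσ2 hκ hq hr hδ hβ h1 h2 h3
  obtain ⟨B, hB, hb⟩ := bb_growth (c := c) (sg := sg) (R := R) (μ₀ := w₂) hp hσ1 hσ2 hκ hβ hβσ (by linarith)
  set g : ℝ := max 1 (q + r) with hg
  have hg1 : 1 ≤ g := le_max_left _ _
  set m : ℝ := max 1 (1 / q) with hm
  have hm1 : 1 ≤ m := le_max_left _ _
  set E : ℝ := w₁ - w₂ with hE
  have hE0 : 0 < E := by rw [hE]; linarith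
  -- lower bound for the positions
  have hlow : ∀ N : ℕ, 1 ≤ N → ∀ x : ℝ, w₁ ≤ x → x ≤ w₁ + 2 → yy q r N ^ (-x) ≤ m ^ (w₁ + 2) * (N:ℝ) ^ (-x) := by
    intro N hN x hx1 hx2
    have hN1 : (1:ℝ) ≤ N := by exact_mod_cast hN
    have hN0 : (0:ℝ) < N := by linarith
    have hqN : 0 < q * N := by positivity
    have hle : q * N ≤ yy q r N := by unfold yy; linarith
    calc yy q r N ^ (-x) ≤ (q * N) ^ (-x) := Real.rpow_le_rpow_of_nonpos hqN hle (by linarith)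
      _ = q ^ (-x) * (N:ℝ) ^ (-x) := Real.mul_rpow hq.le hN0.le
      _ ≤ m ^ (w₁ + 2) * (N:ℝ) ^ (-x) := by
          refine mul_le_mul_of_nonneg_right ?_ (by positivity)
          have e1 : q ^ (-x) = (1 / q) ^ x := by
            rw [one_div, Real.inv_rpow hq.le, Real.rpow_neg hq.le]
          rw [e1]
          calc (1 / q) ^ x ≤ m ^ x := Real.rpow_le_rpow (by positivity) (le_max_right _ _) (by linarith)
            _ ≤ _ := Real.rpow_le_rpow_of_exponent_le hm1 hx2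
  set D : ℝ := q * m ^ (w₁ + 2) * (B * (2 * g) ^ w₂ + C) with hD
  have hD0 : 0 < D := by positivity
  have hsummable : Summable fun n : ℕ => (n:ℝ) ^ (-(1 + E)) := by
    have := Real.summable_nat_rpow (p := -(1 + E))
    exact this.2 (by linarith)
  set S : ℝ := ∑' n : ℕ, (n:ℝ) ^ (-(1 + E)) with hS
  have hS0 : 0 ≤ S := tsum_nonneg fun n => by positivity
  refine ⟨D * S + C * m ^ (w₁ + 2), by positivity, fun w hw1 hw2 N hN => ?_⟩
  have hwre : 0 ≤ w.re := by linarith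
  -- induction
  have ind : ∀ N : ℕ, 1 ≤ N → ‖Zd a κ q r β c sg R w N - gg q r w N * (Gd a κ q r β c sg R N : ℂ)‖ ≤
      D * ‖w‖ * ∑ n ∈ Finset.range N, (n:ℝ) ^ (-(1 + E)) := by
    intro N hN
    induction N, hN using Nat.le_induction with
    | base =>
      have e1 : Zd a κ q r β c sg R w 1 - gg q r w ((1:ℕ) : ℝ) * (Gd a κ q r β c sg R 1 : ℂ) = 0 := by
        unfold Zd Gd
        simp only [Finset.Icc_self, Finset.sum_singleton, Nat.cast_one, intervalIntegral.integral_same, sub_zero]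
        ring
      rw [e1, norm_zero]
      positivity
    | succ N hN ih =>
      have hN1 : (1:ℝ) ≤ N := by exact_mod_cast hN
      have hN0 : (0:ℝ) < N := by linarith
      have hNN : (N:ℝ) ≤ ((N + 1 : ℕ) : ℝ) := by push_cast; linarith
      have hyN := yy_pos hq hr hN0
      have hst := Zd_step (β := β) (c := c) (sg := sg) (R := R) hp.ha hκ hq hr w hN
      have hyy : yy q r N ^ (-w.re - 1) ≤ m ^ (w₁ + 2) * (N:ℝ) ^ (-w₁ - 1) := by
        have := hlow N hN (w.re + 1) (by linarith) (by linarith)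
        rw [show -(w.re + 1) = -w.re - 1 by ring] at this
        refine this.trans (mul_le_mul_of_nonneg_left ?_ (by positivity))
        exact Real.rpow_le_rpow_of_exponent_le hN1 (by linarith)
      have hstep : ‖(∫ u in (N:ℝ)..((N + 1 : ℕ) : ℝ), (bb a κ β c sg R (yy q r u) : ℂ) *
          (gg q r w ((N + 1 : ℕ) : ℝ) - gg q r w u)) -
          (gg q r w ((N + 1 : ℕ) : ℝ) - gg q r w N) * (Gd a κ q r β c sg R N : ℂ)‖ ≤
          D * ‖w‖ * (N:ℝ) ^ (-(1 + E)) := by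
        have hdg : ∀ u ∈ Icc (N:ℝ) ((N + 1 : ℕ) : ℝ), ‖gg q r w ((N + 1 : ℕ) : ℝ) - gg q r w u‖ ≤
            ‖w‖ * q * (m ^ (w₁ + 2) * (N:ℝ) ^ (-w₁ - 1)) := by
          intro u hu
          have hu0 : 0 < u := by linarith [hu.1]
          refine (gg_diff hq hr hwre hu0 hu.2).trans ?_
          have t1 : yy q r u ^ (-w.re - 1) ≤ yy q r N ^ (-w.re - 1) :=
            Real.rpow_le_rpow_of_nonpos hyN (by unfold yy; nlinarith [hu.1]) (by linarith)
          have t2 : ((N + 1 : ℕ) : ℝ) - u ≤ 1 := by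
            push_cast
            linarith [hu.1]
          have t3 : 0 ≤ ((N + 1 : ℕ) : ℝ) - u := by linarith [hu.2]
          have t4 : 0 ≤ yy q r u ^ (-w.re - 1) := Real.rpow_nonneg (yy_pos hq hr hu0).le _
          calc ‖w‖ * q * yy q r u ^ (-w.re - 1) * (((N + 1 : ℕ) : ℝ) - u) ≤
              ‖w‖ * q * yy q r u ^ (-w.re - 1) * 1 := mul_le_mul_of_nonneg_left t2 (by positivity)
            _ = ‖w‖ * q * yy q r u ^ (-w.re - 1) := mul_one _
            _ ≤ _ := mul_le_mul_of_nonneg_left (t1.trans hyy) (by positivity)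
        have hNw : (N:ℝ) ^ w₂ * (N:ℝ) ^ (-w₁ - 1) = (N:ℝ) ^ (-(1 + E)) := by
          rw [← Real.rpow_add hN0]
          congr 1
          rw [hE]
          ring
        have b1 : ‖∫ u in (N:ℝ)..((N + 1 : ℕ) : ℝ), (bb a κ β c sg R (yy q r u) : ℂ) *
            (gg q r w ((N + 1 : ℕ) : ℝ) - gg q r w u)‖ ≤
            (B * ((2 * g) * N) ^ w₂) * (‖w‖ * q * (m ^ (w₁ + 2) * (N:ℝ) ^ (-w₁ - 1))) := by
          have := intervalIntegral.norm_integral_le_of_norm_le_const (a := (N:ℝ)) (b := ((N + 1 : ℕ) : ℝ))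
            (f := fun u => (bb a κ β c sg R (yy q r u) : ℂ) * (gg q r w ((N + 1 : ℕ) : ℝ) - gg q r w u))
            (C := (B * ((2 * g) * N) ^ w₂) * (‖w‖ * q * (m ^ (w₁ + 2) * (N:ℝ) ^ (-w₁ - 1)))) ?_
          · refine this.trans (le_of_eq ?_)
            push_cast
            simp
          · intro u hu
            rw [uIoc_of_le hNN] at hu
            have hu0 : 0 < u := by linarith [hu.1]
            have hyu := yy_pos hq hr hu0
            rw [norm_mul, Complex.norm_real, Real.norm_eq_abs]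
            have hX : yy q r u ≤ (2 * g) * N := by
              have t1 : q + r ≤ g := le_max_right _ _
              have t2 : u ≤ 2 * N := by
                have := hu.2
                push_cast at this
                linarith
              unfold yy
              nlinarith
            have hX1 : 1 ≤ (2 * g) * N := by nlinarith
            exact mul_le_mul (hb _ _ hyu hX hX1) (hdg u ⟨hu.1.le, hu.2⟩) (norm_nonneg _) (by positivity)
        have b2 : ‖(gg q r w ((N + 1 : ℕ) : ℝ) - gg q r w N) * (Gd a κ q r β c sg R N : ℂ)‖ ≤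
            (‖w‖ * q * (m ^ (w₁ + 2) * (N:ℝ) ^ (-w₁ - 1))) * (C * (N:ℝ) ^ w₂) := by
          rw [norm_mul, Complex.norm_real, Real.norm_eq_abs]
          exact mul_le_mul (hdg N ⟨le_rfl, hNN⟩) (hG N hN) (abs_nonneg _) (by positivity)
        refine (norm_sub_le _ _).trans ((add_le_add b1 b2).trans (le_of_eq ?_))
        rw [Real.mul_rpow (by positivity) hN0.le, hD, ← hNw]
        ring
      have hdec : Zd a κ q r β c sg R w (N + 1) - gg q r w ((N + 1 : ℕ) : ℝ) * (Gd a κ q r β c sg R (N + 1) : ℂ) =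
          (Zd a κ q r β c sg R w N - gg q r w N * (Gd a κ q r β c sg R N : ℂ)) +
          ((∫ u in (N:ℝ)..((N + 1 : ℕ) : ℝ), (bb a κ β c sg R (yy q r u) : ℂ) *
          (gg q r w ((N + 1 : ℕ) : ℝ) - gg q r w u)) -
          (gg q r w ((N + 1 : ℕ) : ℝ) - gg q r w N) * (Gd a κ q r β c sg R N : ℂ)) := by
        rw [← hst]
        ring
      rw [hdec, Finset.sum_range_succ, mul_add]
      exact (norm_add_le _ _).trans (add_le_add ih hstep)
  have hN1 : (1:ℝ) ≤ N := by exact_mod_cast hN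
  have hN0 : (0:ℝ) < N := by linarith
  have c1 := ind N hN
  have c2 : ∑ n ∈ Finset.range N, (n:ℝ) ^ (-(1 + E)) ≤ S :=
    hsummable.sum_le_tsum _ fun n _ => by positivity
  have c3 : ‖gg q r w N * (Gd a κ q r β c sg R N : ℂ)‖ ≤ C * m ^ (w₁ + 2) := by
    rw [norm_mul, Complex.norm_real, Real.norm_eq_abs, gg_norm hq hr w hN0]
    have d1 := hlow N hN w.re hw1 (by linarith)
    have d2 := hG N hN
    calc yy q r N ^ (-w.re) * |Gd a κ q r β c sg R N| ≤ (m ^ (w₁ + 2) * (N:ℝ) ^ (-w.re)) * (C * (N:ℝ) ^ w₂) :=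
          mul_le_mul d1 d2 (abs_nonneg _) (by positivity)
      _ = C * m ^ (w₁ + 2) * (N:ℝ) ^ (-w.re + w₂) := by
          rw [Real.rpow_add hN0]
          ring
      _ ≤ C * m ^ (w₁ + 2) * 1 := by
          refine mul_le_mul_of_nonneg_left ?_ (by positivity)
          exact Real.rpow_le_one_of_one_le_of_nonpos hN1 (by linarith)
      _ = _ := mul_one _
  have c4 : ‖Zd a κ q r β c sg R w N‖ ≤ ‖Zd a κ q r β c sg R w N - gg q r w N * (Gd a κ q r β c sg R N : ℂ)‖ +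
      ‖gg q r w N * (Gd a κ q r β c sg R N : ℂ)‖ := by
    have := norm_add_le (Zd a κ q r β c sg R w N - gg q r w N * (Gd a κ q r β c sg R N : ℂ))
      (gg q r w N * (Gd a κ q r β c sg R N : ℂ))
    rwa [sub_add_cancel] at this
  have c5 : D * ‖w‖ * ∑ n ∈ Finset.range N, (n:ℝ) ^ (-(1 + E)) ≤ D * ‖w‖ * S :=
    mul_le_mul_of_nonneg_left c2 (by positivity)
  have c6 : 0 ≤ D * S := by positivity
  have c7 : 0 ≤ C * m ^ (w₁ + 2) := by positivity
  have c8 := norm_nonneg w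
  nlinarith [mul_nonneg c7 c8]

end U441.MP
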