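import Pool.Agent.U441.MP.Fi

/-! Oscillation along powers: corollaries. -/

set_option autoImplicit false

open MeasureTheory Filter Topology Set Complex

namespace U441.MP

open Pool.Agent.H295R2 (Zs fz Zs_eq Zs_differentiable fz_eq)

/-- finitely many elements -/
lemma cnt_finite {E : ℕ → Prop} {n₁ : ℕ} (h : ∀ n, n₁ ≤ n → ¬ E n) (N : ℕ) : cnt E N ≤ n₁ := by
  have h1 := cnt_mono (E₁ := E) (E₂ := fun _ => False) h N
  have h2 : cnt (fun _ => False) N = 0 := by
    classical
    unfold cnt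
    simp
  omega

/-- zero-free half-planes and one-sided bounds -/
theorem crit {a : ℕ → ℝ} {F U : ℂ → ℂ} (h : MD a F U) (hF : Fam a F) {κ q r sg θ : ℝ} (hκ : 0 < κ) (hq : 0 < q)
    (hr : 0 ≤ r) (hsg : |sg| = 1) (hθ : 1 / 2 ≤ θ) (hθ1 : θ ≤ 1) :
    (∀ s : ℂ, θ < s.re → riemannZeta s ≠ 0) ↔ ∀ ε : ℝ, 0 < ε → ∃ δ : ℝ, 0 < δ ∧
      ∀ᶠ N : ℕ in atTop, (cnt (fun n => yy q r n ^ (κ * (θ + ε)) < sg * Sa a (yy q r n ^ κ)) N : ℝ) ≤
        (N:ℝ) ^ (1 - δ) := by
  constructor
  · intro hz ε hε
    refine ⟨1 / 2, by norm_num, ?_⟩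
    set e : ℝ := min ε 1 / 3 with he
    have he0 : 0 < e := by rw [he]; positivity
    have he1 : 3 * e ≤ 1 := by
      have := min_le_right ε 1
      rw [he]
      linarith
    have he2 : 3 * e ≤ ε := by
      have := min_le_left ε 1
      rw [he]
      linarith
    have hp := hF θ (θ + e) hθ hz (by linarith) (by linarith)
    obtain ⟨C, hC, hb⟩ := Sa_bound hp (by linarith) (by linarith) (δ := e) he0
    have hyt := yy_tendsto (r := r) hq
    have ht : Tendsto (fun n : ℕ => yy q r n ^ (κ * e)) atTop atTop :=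
      (tendsto_rpow_atTop (mul_pos hκ he0)).comp hyt
    obtain ⟨n₁, hn₁⟩ := eventually_atTop.1 ((hyt.eventually_ge_atTop 1).and (ht.eventually_ge_atTop C))
    have hno : ∀ n : ℕ, n₁ ≤ n → ¬ (yy q r n ^ (κ * (θ + ε)) < sg * Sa a (yy q r n ^ κ)) := by
      intro n hn
      obtain ⟨h1, h2⟩ := hn₁ n hn
      have hy0 : 0 < yy q r n := by linarith
      rw [not_lt]
      have h3 := hb (yy q r n ^ κ) (Real.one_le_rpow h1 hκ.le)
      have h4 : sg * Sa a (yy q r n ^ κ) ≤ |Sa a (yy q r n ^ κ)| := by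
        calc sg * Sa a (yy q r n ^ κ) ≤ |sg * Sa a (yy q r n ^ κ)| := le_abs_self _
          _ = _ := by rw [abs_mul, hsg, one_mul]
      refine h4.trans (h3.trans ?_)
      rw [← Real.rpow_mul hy0.le]
      have h5 : yy q r n ^ (κ * (θ + ε)) = yy q r n ^ (κ * (ε - 2 * e)) * yy q r n ^ (κ * (θ + e + e)) := by
        rw [← Real.rpow_add hy0]
        congr 1
        ring
      rw [h5]
      refine mul_le_mul_of_nonneg_right ?_ (Real.rpow_nonneg hy0.le _)
      refine h2.trans (Real.rpow_le_rpow_of_exponent_le h1 ?_)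
      exact mul_le_mul_of_nonneg_left (by linarith) hκ.le
    have ht2 : Tendsto (fun N : ℕ => (N:ℝ) ^ (1 - 1 / 2 : ℝ)) atTop atTop :=
      (tendsto_rpow_atTop (by norm_num)).comp tendsto_natCast_atTop_atTop
    filter_upwards [ht2.eventually_ge_atTop (n₁ : ℝ)] with N hN
    have h1 : (cnt (fun n => yy q r n ^ (κ * (θ + ε)) < sg * Sa a (yy q r n ^ κ)) N : ℝ) ≤ n₁ := by
      exact_mod_cast cnt_finite hno N
    linarith
  · intro hcr s hs hs0
    obtain ⟨δ, hδ, hev⟩ := hcr ((s.re - θ) / 2) (by linarith)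
    have hos := osc_off h hF (κ := κ) (q := q) (r := r) (sg := sg) (θ := θ + (s.re - θ) / 2) (ε := δ) hκ hq hr hsg hδ
      hs0 (by linarith) (by linarith)
    exact hos (hev.mono fun N hN => not_lt.2 hN)

/-- the function `x^(1/2) (log log log x)^(5/4)` -/
noncomputable def gon (x : ℝ) : ℝ := x ^ (1 / 2 : ℝ) * (Real.log (Real.log (Real.log x))) ^ (5 / 4 : ℝ)

lemma gon_le {ε : ℝ} (hε : 0 < ε) (C : ℝ) : ∀ᶠ x : ℝ in atTop, C * gon x ≤ x ^ (1 / 2 + ε) := by
  have h1 : (fun x : ℝ => Real.log x) =o[atTop] fun x => x ^ (ε / 4) := isLittleO_log_rpow_atTop (by positivity)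
  have t1 := Real.tendsto_log_atTop
  have t2 : Tendsto (fun x : ℝ => Real.log (Real.log x)) atTop atTop := t1.comp t1
  have t3 : Tendsto (fun x : ℝ => Real.log (Real.log (Real.log x))) atTop atTop := t1.comp t2
  have t4 : Tendsto (fun x : ℝ => x ^ (ε / 2)) atTop atTop := tendsto_rpow_atTop (by positivity)
  filter_upwards [h1.bound (by norm_num : (0:ℝ) < 1), t1.eventually_ge_atTop 1, t2.eventually_ge_atTop 1,
    t3.eventually_ge_atTop 1, eventually_ge_atTop 1, t4.eventually_ge_atTop |C|] with x hx h2 h3 h4 h5 h6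
  have hx0 : 0 < x := by linarith
  rw [one_mul, Real.norm_of_nonneg (by linarith), Real.norm_of_nonneg (by positivity)] at hx
  have h7 : Real.log (Real.log (Real.log x)) ≤ Real.log x := by
    have := Real.log_le_self (x := Real.log (Real.log x)) (by linarith)
    have h8 := Real.log_le_self (x := Real.log x) (by linarith)
    linarith
  have h8 : (Real.log (Real.log (Real.log x))) ^ (5 / 4 : ℝ) ≤ x ^ (ε / 2) := by
    calc (Real.log (Real.log (Real.log x))) ^ (5 / 4 : ℝ) ≤ (x ^ (ε / 4)) ^ (5 / 4 : ℝ) :=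
          Real.rpow_le_rpow (by linarith) (h7.trans hx) (by norm_num)
      _ = x ^ (ε / 4 * (5 / 4)) := by rw [← Real.rpow_mul hx0.le]
      _ ≤ x ^ (ε / 2) := Real.rpow_le_rpow_of_exponent_le h5 (by nlinarith)
  have h9 : 0 ≤ gon x := by
    unfold gon
    positivity
  calc C * gon x ≤ |C| * gon x := mul_le_mul_of_nonneg_right (le_abs_self _) h9
    _ ≤ x ^ (ε / 2) * (x ^ (1 / 2 : ℝ) * x ^ (ε / 2)) := by
        refine mul_le_mul h6 ?_ h9 (by positivity)
        unfold gon
        exact mul_le_mul_of_nonneg_left h8 (by positivity)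
    _ = x ^ (1 / 2 + ε) := by
        rw [← Real.rpow_add hx0, ← Real.rpow_add hx0]
        congr 1
        ring

/-- a one-sided bound of Gonek's order along powers gives the zero-free half-plane -/
theorem gonek_bound {a : ℕ → ℝ} {F U : ℂ → ℂ} (h : MD a F U) (hF : Fam a F) {κ q r sg C δ : ℝ} (hκ : 0 < κ)
    (hq : 0 < q) (hr : 0 ≤ r) (hsg : |sg| = 1) (hδ : 0 < δ)
    (hev : ∀ᶠ N : ℕ in atTop, (cnt (fun n => C * gon (yy q r n ^ κ) < sg * Sa a (yy q r n ^ κ)) N : ℝ) ≤
        (N:ℝ) ^ (1 - δ)) :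
    ∀ s : ℂ, 1 / 2 < s.re → riemannZeta s ≠ 0 := by
  intro s hs hs0
  set e : ℝ := (s.re - 1 / 2) / 2 with he
  have he0 : 0 < e := by rw [he]; linarith
  have hos := osc_off h hF (κ := κ) (q := q) (r := r) (sg := sg) (θ := 1 / 2 + e) (ε := min δ 1 / 2) hκ hq hr hsg
    (by positivity) hs0 hs (by rw [he]; linarith)
  have hyt := yy_tendsto (r := r) hq
  have hyk : Tendsto (fun n : ℕ => yy q r n ^ κ) atTop atTop := (tendsto_rpow_atTop hκ).comp hyt
  obtain ⟨n₁, hn₁⟩ := eventually_atTop.1 ((hyk.eventually (gon_le he0 C)).and (hyt.eventually_ge_atTop 1))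
  have himp : ∀ n, n₁ ≤ n → yy q r n ^ (κ * (1 / 2 + e)) < sg * Sa a (yy q r n ^ κ) →
      C * gon (yy q r n ^ κ) < sg * Sa a (yy q r n ^ κ) := by
    intro n hn h1
    obtain ⟨h2, h3⟩ := hn₁ n hn
    rw [← Real.rpow_mul (by linarith)] at h2
    linarith
  refine (hos.and_eventually ((absorb hδ n₁).and hev)) (Eventually.of_forall fun N hN => ?_)
  obtain ⟨h1, h2, h3⟩ := hN
  have h4 : (cnt (fun n => yy q r n ^ (κ * (1 / 2 + e)) < sg * Sa a (yy q r n ^ κ)) N : ℝ) ≤
      cnt (fun n => C * gon (yy q r n ^ κ) < sg * Sa a (yy q r n ^ κ)) N + n₁ := by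
    exact_mod_cast cnt_mono himp N
  linarith

/-- the Riemann hypothesis as a zero-free half-plane (proof of `Pool.Agent.W190.rh_free`) -/
theorem rh_free : RiemannHypothesis ↔ ∀ s : ℂ, 1 / 2 < s.re → riemannZeta s ≠ 0 := by
  constructor
  · intro hRH s hs h0
    have h1 : s.re < 1 := by
      by_contra h
      exact riemannZeta_ne_zero_of_one_le_re (not_lt.1 h) h0
    have := hRH s h0 (by
      rintro ⟨n, hn⟩
      rw [hn] at hs
      have h2 : (-2 * ((n:ℂ) + 1)).re = -2 * ((n:ℝ) + 1) := by simp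
      rw [h2] at hs
      have : (0:ℝ) ≤ n := Nat.cast_nonneg n
      linarith) (by
      rintro rfl
      norm_num at h1)
    linarith
  · intro hfree s hs htriv hs1
    have hle : s.re ≤ 1 / 2 := by
      by_contra h
      exact hfree s (not_le.1 h) hs
    have hre0 : 0 < s.re := by
      by_contra h
      push Not at h
      have hs0 : s ≠ 0 := by
        rintro rfl
        rw [riemannZeta_zero] at hs
        norm_num at hs
      have h1 : ∀ n : ℕ, (1 - s) ≠ -n := by
        intro n hn
        have h2 := congrArg Complex.re hn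
        simp at h2
        have : (0:ℝ) ≤ n := Nat.cast_nonneg n
        linarith
      have h2 : (1 - s) ≠ 1 := by
        intro h3
        apply hs0
        linear_combination -h3
      have h3 := riemannZeta_one_sub h1 h2
      rw [sub_sub_cancel, hs] at h3
      have hz : riemannZeta (1 - s) ≠ 0 := riemannZeta_ne_zero_of_one_le_re (by simp; linarith)
      have hG : Complex.Gamma (1 - s) ≠ 0 := Complex.Gamma_ne_zero h1
      have hp : (2 * (Real.pi : ℂ)) ^ (-(1 - s)) ≠ 0 := by
        rw [Complex.cpow_def_of_ne_zero]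
        · exact Complex.exp_ne_zero _
        · norm_num [Real.pi_ne_zero]
      have hc : Complex.cos (Real.pi * (1 - s) / 2) = 0 := by
        by_contra hc
        exact absurd h3.symm (mul_ne_zero (mul_ne_zero (mul_ne_zero (mul_ne_zero two_ne_zero hp) hG) hc) hz)
      rw [Complex.cos_eq_zero_iff] at hc
      obtain ⟨k, hk⟩ := hc
      have hpi : (Real.pi : ℂ) ≠ 0 := by exact_mod_cast Real.pi_ne_zero
      have hs2 : s = -2 * (k : ℂ) := by
        field_simp at hk
        linear_combination (-1 : ℂ) * hk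
      have hkpos : 0 < k := by
        have h4 := congrArg Complex.re hs2
        simp at h4
        have h5 : (0:ℝ) < k := by
          have h6 : s.re ≠ 0 := by
            intro h7
            rw [h7] at h4
            have h8 : (k:ℝ) = 0 := by linarith
            apply hs0
            have h9 : (k:ℤ) = 0 := by exact_mod_cast h8
            rw [hs2, h9]
            simp
          have h10 : s.re < 0 := lt_of_le_of_ne h h6
          linarith
        exact_mod_cast h5
      apply htriv
      refine ⟨(k - 1).toNat, ?_⟩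
      have h6 : (((k - 1).toNat : ℕ) : ℂ) = (k : ℂ) - 1 := by
        have : (((k - 1).toNat : ℤ)) = k - 1 := Int.toNat_of_nonneg (by omega)
        have h7 : (((k - 1).toNat : ℤ) : ℂ) = ((k - 1 : ℤ) : ℂ) := by rw [this]
        push_cast at h7
        exact_mod_cast h7
      rw [h6, hs2]
      ring
    -- reflection
    by_contra hne
    have hlt : s.re < 1 / 2 := lt_of_le_of_ne hle hne
    have h1 : ∀ n : ℕ, s ≠ -n := by
      intro n hn
      have h2 := congrArg Complex.re hn
      simp at h2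
      have : (0:ℝ) ≤ n := Nat.cast_nonneg n
      linarith
    have key := riemannZeta_one_sub h1 hs1
    rw [hs, mul_zero] at key
    exact hfree (1 - s) (by simp; linarith) key



end U441.MP
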