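import Pool.Agent.U441.MP.MV

/-! The difference between the sum and the integral of `(q u + r)^(κ s)`. -/

set_option autoImplicit false

open MeasureTheory Filter Topology Set Complex

namespace U441.MP

/-- dyadic summation -/
theorem dyadic {f : ℝ → ℝ} (hf : Continuous f) (hf0 : ∀ ξ, 0 ≤ f ξ) {V Q ε : ℝ} (hV : 1 ≤ V) (hQ : 0 ≤ Q)
    (hε : 0 < ε) (h : ∀ T : ℝ, V ≤ T → ∫ ξ in (-T)..T, f ξ ≤ Q * T)
    (hi : Integrable fun ξ : ℝ => f ξ * (1 + |2 * Real.pi * ξ|) ^ (-(1 + ε))) :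
    ∫ ξ : ℝ, f ξ * (1 + |2 * Real.pi * ξ|) ^ (-(1 + ε)) ≤
      (∫ ξ in (-V)..V, f ξ * (1 + |2 * Real.pi * ξ|) ^ (-(1 + ε))) + 2 * Q / (1 - 2 ^ (-ε)) := by
  set F : ℝ → ℝ := fun ξ => f ξ * (1 + |2 * Real.pi * ξ|) ^ (-(1 + ε)) with hF
  have hV0 : 0 < V := by linarith
  have hF0 : ∀ ξ, 0 ≤ F ξ := fun ξ => mul_nonneg (hf0 ξ) (by positivity)
  have hii : ∀ a b : ℝ, IntervalIntegrable F volume a b := fun a b => hi.intervalIntegrable
  have hfi : ∀ a b : ℝ, IntervalIntegrable f volume a b := fun a b => hf.intervalIntegrable a b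
  have hr0 : 0 < (2:ℝ) ^ (-ε) := by positivity
  have hr1 : (2:ℝ) ^ (-ε) < 1 := Real.rpow_lt_one_of_one_lt_of_neg (by norm_num) (by linarith)
  -- one step
  have step : ∀ T : ℝ, 0 < T → ∫ ξ in (-(2 * T))..(2 * T), F ξ ≤
      (∫ ξ in (-T)..T, F ξ) + T ^ (-(1 + ε)) * ∫ ξ in (-(2 * T))..(2 * T), f ξ := by
    intro T hT
    have hout : ∀ a b : ℝ, a ≤ b → (∀ ξ ∈ Icc a b, T ≤ |ξ|) →
        ∫ ξ in a..b, F ξ ≤ T ^ (-(1 + ε)) * ∫ ξ in a..b, f ξ := by
      intro a b hab hT2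
      rw [← intervalIntegral.integral_const_mul]
      refine intervalIntegral.integral_mono_on hab (hii a b) ((hfi a b).const_mul _) fun ξ hξ => ?_
      rw [hF]
      simp only
      rw [mul_comm]
      refine mul_le_mul_of_nonneg_right ?_ (hf0 ξ)
      refine Real.rpow_le_rpow_of_nonpos hT ?_ (by linarith)
      rw [abs_mul, abs_of_pos (by positivity : (0:ℝ) < 2 * Real.pi)]
      have := hT2 ξ hξ
      have hpi := Real.pi_gt_three
      nlinarith [abs_nonneg ξ]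
    have h1 := hout (-(2 * T)) (-T) (by linarith) (fun ξ hξ => by
      rw [le_abs]; right; linarith [hξ.2])
    have h2 := hout T (2 * T) (by linarith) (fun ξ hξ => by
      rw [le_abs]; left; linarith [hξ.1])
    have h3 : 0 ≤ ∫ ξ in (-T)..T, f ξ := intervalIntegral.integral_nonneg (by linarith) fun ξ _ => hf0 ξ
    have e1 : ∫ ξ in (-(2 * T))..(2 * T), F ξ =
        (∫ ξ in (-(2 * T))..(-T), F ξ) + (∫ ξ in (-T)..T, F ξ) + ∫ ξ in T..(2 * T), F ξ := by
      rw [intervalIntegral.integral_add_adjacent_intervals (hii _ _) (hii _ _),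
        intervalIntegral.integral_add_adjacent_intervals (hii _ _) (hii _ _)]
    have e2 : ∫ ξ in (-(2 * T))..(2 * T), f ξ =
        (∫ ξ in (-(2 * T))..(-T), f ξ) + (∫ ξ in (-T)..T, f ξ) + ∫ ξ in T..(2 * T), f ξ := by
      rw [intervalIntegral.integral_add_adjacent_intervals (hfi _ _) (hfi _ _),
        intervalIntegral.integral_add_adjacent_intervals (hfi _ _) (hfi _ _)]
    rw [e1, e2]
    have h4 : 0 ≤ T ^ (-(1 + ε)) := by positivity
    nlinarith [mul_nonneg h4 h3]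
  -- induction
  have ind : ∀ j : ℕ, ∫ ξ in (-(2 ^ j * V))..(2 ^ j * V), F ξ ≤
      (∫ ξ in (-V)..V, F ξ) + 2 * Q * ∑ i ∈ Finset.range j, ((2:ℝ) ^ (-ε)) ^ i := by
    intro j
    induction j with
    | zero => simp
    | succ j ih =>
      have hT : 0 < (2:ℝ) ^ j * V := by positivity
      have s1 := step _ hT
      have e1 : (2:ℝ) * (2 ^ j * V) = 2 ^ (j + 1) * V := by ring
      rw [e1] at s1
      have hjV : V ≤ 2 ^ (j + 1) * V := by
        have : (1:ℝ) ≤ 2 ^ (j + 1) := one_le_pow₀ (by norm_num)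
        nlinarith
      have s2 := h _ hjV
      have hTp : 0 < ((2:ℝ) ^ j * V) ^ (-(1 + ε)) := Real.rpow_pos_of_pos hT _
      have s3 : ((2:ℝ) ^ j * V) ^ (-(1 + ε)) * (Q * (2 ^ (j + 1) * V)) ≤ 2 * Q * ((2:ℝ) ^ (-ε)) ^ j := by
        have e2 : (Q * (2 ^ (j + 1) * V)) = 2 * Q * ((2:ℝ) ^ j * V) ^ (1:ℝ) := by
          rw [Real.rpow_one]
          ring
        have e3 : ((2:ℝ) ^ j * V) ^ (-(1 + ε)) * (2 * Q * ((2:ℝ) ^ j * V) ^ (1:ℝ)) =
            2 * Q * ((2:ℝ) ^ j * V) ^ (-ε) := by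
          have : ((2:ℝ) ^ j * V) ^ (-(1 + ε)) * ((2:ℝ) ^ j * V) ^ (1:ℝ) = ((2:ℝ) ^ j * V) ^ (-ε) := by
            rw [← Real.rpow_add hT]
            congr 1
            ring
          rw [← this]
          ring
        have e4 : ((2:ℝ) ^ j * V) ^ (-ε) ≤ ((2:ℝ) ^ (-ε)) ^ j := by
          rw [Real.mul_rpow (by positivity) hV0.le]
          have e5 : ((2:ℝ) ^ j) ^ (-ε) = ((2:ℝ) ^ (-ε)) ^ j := by
            rw [← Real.rpow_natCast, ← Real.rpow_natCast, ← Real.rpow_mul (by norm_num),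
              ← Real.rpow_mul (by norm_num), mul_comm]
          rw [e5]
          have e6 : V ^ (-ε) ≤ 1 := Real.rpow_le_one_of_one_le_of_nonpos hV (by linarith)
          have e7 : 0 < ((2:ℝ) ^ (-ε)) ^ j := by positivity
          nlinarith
        rw [e2, e3]
        exact mul_le_mul_of_nonneg_left e4 (by positivity)
      rw [Finset.sum_range_succ]
      have s4 := mul_le_mul_of_nonneg_left s2 hTp.le
      linarith
  have bound : ∀ j : ℕ, ∫ ξ in (-(2 ^ j * V))..(2 ^ j * V), F ξ ≤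
      (∫ ξ in (-V)..V, F ξ) + 2 * Q / (1 - 2 ^ (-ε)) := by
    intro j
    refine (ind j).trans ?_
    have h1 : ∑ i ∈ Finset.range j, ((2:ℝ) ^ (-ε)) ^ i ≤ (1 - 2 ^ (-ε))⁻¹ := by
      rw [← tsum_geometric_of_lt_one hr0.le hr1]
      exact (summable_geometric_of_lt_one hr0.le hr1).sum_le_tsum _ fun k _ => by positivity
    have h2 := mul_le_mul_of_nonneg_left h1 (by positivity : 0 ≤ 2 * Q)
    rw [div_eq_mul_inv]
    linarith
  have hlim : Tendsto (fun j : ℕ => ∫ ξ in (-(2 ^ j * V))..(2 ^ j * V), F ξ) atTop (𝓝 (∫ ξ, F ξ)) := by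
    have hpow : Tendsto (fun j : ℕ => (2:ℝ) ^ j * V) atTop atTop :=
      (tendsto_pow_atTop_atTop_of_one_lt (by norm_num)).atTop_mul_const hV0
    refine intervalIntegral_tendsto_integral hi ?_ hpow
    exact tendsto_neg_atTop_atBot.comp hpow
  exact le_of_tendsto' hlim bound

/-- `(q u + r)^(κ s)` -/
noncomputable def Ee (κ q r : ℝ) (s : ℂ) (u : ℝ) : ℂ := cexp (s * ((κ * Real.log (yy q r u) : ℝ) : ℂ))

lemma norm_Ee {κ q r u : ℝ} (hq : 0 < q) (hr : 0 ≤ r) (hu : 0 < u) (s : ℂ) :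
    ‖Ee κ q r s u‖ = yy q r u ^ (κ * s.re) := by
  unfold Ee
  rw [Complex.norm_exp, Complex.mul_re, Complex.ofReal_re, Complex.ofReal_im, mul_zero, sub_zero,
    Real.rpow_def_of_pos (yy_pos hq hr hu)]
  congr 1
  ring

lemma exp_diff {s : ℂ} (hs : 0 < s.re) {a b : ℝ} (hab : a ≤ b) :
    ‖cexp (s * b) - cexp (s * a)‖ ≤ ‖s‖ / s.re * (Real.exp (s.re * b) - Real.exp (s.re * a)) := by
  have h1 : ∫ x in a..b, s * cexp (s * x) = cexp (s * b) - cexp (s * a) := by
    refine intervalIntegral.integral_eq_sub_of_hasDerivAt (f := fun x : ℝ => cexp (s * x)) ?_ ?_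
    · intro x _
      have h2 : HasDerivAt (fun x : ℝ => s * (x : ℂ)) s x := by
        simpa using (Complex.ofRealCLM.hasDerivAt (x := x)).const_mul s
      have h3 := h2.cexp
      rwa [mul_comm] at h3
    · exact (by fun_prop : Continuous fun x : ℝ => s * cexp (s * x)).intervalIntegrable _ _
  have h2 : ∫ x in a..b, ‖s‖ * Real.exp (s.re * x) = ‖s‖ / s.re * (Real.exp (s.re * b) - Real.exp (s.re * a)) := by
    rw [intervalIntegral.integral_const_mul, intervalIntegral.integral_comp_mul_left (fun x => Real.exp x) hs.ne',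
      integral_exp, smul_eq_mul]
    field_simp
  rw [← h1, ← h2]
  refine intervalIntegral.norm_integral_le_of_norm_le hab ?_
    ((by fun_prop : Continuous fun x : ℝ => ‖s‖ * Real.exp (s.re * x)).intervalIntegrable _ _)
  refine Eventually.of_forall fun x _ => ?_
  rw [norm_mul, Complex.norm_exp]
  simp

lemma Ee_diff {κ q r : ℝ} (hκ : 0 < κ) (hq : 0 < q) (hr : 0 ≤ r) {s : ℂ} (hs : 0 < s.re) {u v : ℝ} (hu : 0 < u)
    (huv : u ≤ v) :
    ‖Ee κ q r s v - Ee κ q r s u‖ ≤ ‖s‖ / s.re * (yy q r v ^ (κ * s.re) - yy q r u ^ (κ * s.re)) := by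
  have hyu := yy_pos hq hr hu
  have hyv := yy_pos hq hr (lt_of_lt_of_le hu huv)
  have hle : yy q r u ≤ yy q r v := by unfold yy; nlinarith
  have h1 := exp_diff hs (a := κ * Real.log (yy q r u)) (b := κ * Real.log (yy q r v))
    (mul_le_mul_of_nonneg_left (Real.log_le_log hyu hle) hκ.le)
  have e : ∀ x : ℝ, 0 < x → Real.exp (s.re * (κ * Real.log x)) = x ^ (κ * s.re) := by
    intro x hx
    rw [Real.rpow_def_of_pos hx]
    congr 1
    ring
  rw [e _ hyu, e _ hyv] at h1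
  exact h1

/-- the difference of the sum and the integral -/
noncomputable def De (κ q r : ℝ) (N : ℕ) (s : ℂ) : ℂ :=
  ∑ n ∈ Finset.Icc 1 N, Ee κ q r s n - ∫ u in (1:ℝ)..N, Ee κ q r s u

lemma Ee_contOn {κ q r : ℝ} (hq : 0 < q) (hr : 0 ≤ r) (s : ℂ) {a b : ℝ} (ha : 0 < a) (hab : a ≤ b) :
    ContinuousOn (Ee κ q r s) (uIcc a b) := by
  rw [uIcc_of_le hab]
  unfold Ee
  refine ContinuousOn.cexp (ContinuousOn.mul continuousOn_const ?_)
  refine Complex.continuous_ofReal.comp_continuousOn (ContinuousOn.mul continuousOn_const ?_)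
  refine ContinuousOn.log ?_ fun u hu => (yy_pos hq hr (lt_of_lt_of_le ha hu.1)).ne'
  unfold yy
  fun_prop

lemma De_bound {κ q r : ℝ} (hκ : 0 < κ) (hq : 0 < q) (hr : 0 ≤ r) {s : ℂ} (hs : 0 < s.re) {N : ℕ} (hN : 1 ≤ N) :
    ‖De κ q r N s‖ ≤ yy q r 1 ^ (κ * s.re) + ‖s‖ / s.re * (yy q r N ^ (κ * s.re) - yy q r 1 ^ (κ * s.re)) := by
  induction N, hN using Nat.le_induction with
  | base =>
    unfold De
    simp only [Finset.Icc_self, Finset.sum_singleton, Nat.cast_one, intervalIntegral.integral_same, sub_zero]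
    rw [norm_Ee hq hr one_pos, sub_self, mul_zero, add_zero]
  | succ N hN ih =>
    have hN1 : (1:ℝ) ≤ N := by exact_mod_cast hN
    have hi : ∀ a b : ℝ, 0 < a → a ≤ b → IntervalIntegrable (Ee κ q r s) volume a b :=
      fun a b ha hab => (Ee_contOn hq hr s ha hab).intervalIntegrable
    have e1 : De κ q r (N + 1) s = De κ q r N s +
        (Ee κ q r s ((N + 1 : ℕ) : ℝ) - ∫ u in (N:ℝ)..((N + 1 : ℕ) : ℝ), Ee κ q r s u) := by
      unfold De
      rw [Finset.sum_Icc_succ_top (by omega), ← intervalIntegral.integral_add_adjacent_intervals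
        (hi 1 N one_pos hN1) (hi N ((N + 1 : ℕ) : ℝ) (by linarith) (by push_cast; linarith))]
      ring
    have e2 : Ee κ q r s ((N + 1 : ℕ) : ℝ) - ∫ u in (N:ℝ)..((N + 1 : ℕ) : ℝ), Ee κ q r s u =
        ∫ u in (N:ℝ)..((N + 1 : ℕ) : ℝ), (Ee κ q r s ((N + 1 : ℕ) : ℝ) - Ee κ q r s u) := by
      rw [intervalIntegral.integral_sub intervalIntegrable_const
        (hi N ((N + 1 : ℕ) : ℝ) (by linarith) (by push_cast; linarith)), intervalIntegral.integral_const]
      push_cast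
      simp
    have h3 : ‖∫ u in (N:ℝ)..((N + 1 : ℕ) : ℝ), (Ee κ q r s ((N + 1 : ℕ) : ℝ) - Ee κ q r s u)‖ ≤
        ‖s‖ / s.re * (yy q r ((N + 1 : ℕ) : ℝ) ^ (κ * s.re) - yy q r N ^ (κ * s.re)) := by
      have := intervalIntegral.norm_integral_le_of_norm_le_const (a := (N:ℝ)) (b := ((N + 1 : ℕ) : ℝ))
        (f := fun u => Ee κ q r s ((N + 1 : ℕ) : ℝ) - Ee κ q r s u)
        (C := ‖s‖ / s.re * (yy q r ((N + 1 : ℕ) : ℝ) ^ (κ * s.re) - yy q r N ^ (κ * s.re))) ?_
      · refine this.trans (le_of_eq ?_)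
        push_cast
        simp
      · intro u hu
        rw [uIoc_of_le (by push_cast; linarith)] at hu
        refine (Ee_diff hκ hq hr hs (by linarith [hu.1]) hu.2).trans ?_
        have hle : yy q r N ≤ yy q r u := by unfold yy; nlinarith [hu.1]
        have := Real.rpow_le_rpow (yy_pos hq hr (by linarith : (0:ℝ) < N)).le hle (by positivity : 0 ≤ κ * s.re)
        have hq0 : 0 ≤ ‖s‖ / s.re := by positivity
        exact mul_le_mul_of_nonneg_left (by linarith) hq0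
    rw [e1, e2]
    refine (norm_add_le _ _).trans ?_
    linarith

/-- closed form of the integral -/
lemma Ee_integral {κ q r : ℝ} (hκ : 0 < κ) (hq : 0 < q) (hr : 0 ≤ r) {s : ℂ} (hs : 0 < s.re) {N : ℕ} (hN : 1 ≤ N) :
    ∫ u in (1:ℝ)..N, Ee κ q r s u =
      (cexp ((κ * s + 1) * (Real.log (yy q r N) : ℝ)) - cexp ((κ * s + 1) * (Real.log (yy q r 1) : ℝ))) /
        (q * (κ * s + 1)) := by
  have hN1 : (1:ℝ) ≤ N := by exact_mod_cast hN
  have hne : (κ * s + 1 : ℂ) ≠ 0 := by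
    intro h
    have := congrArg Complex.re h
    simp at this
    nlinarith
  have hq0 : (q : ℂ) ≠ 0 := by exact_mod_cast hq.ne'
  rw [sub_div]
  refine intervalIntegral.integral_eq_sub_of_hasDerivAt
    (f := fun u : ℝ => cexp ((κ * s + 1) * (Real.log (yy q r u) : ℝ)) / (q * (κ * s + 1))) ?_
    (Ee_contOn hq hr s one_pos hN1).intervalIntegrable
  intro u hu
  rw [uIcc_of_le hN1] at hu
  have hy := yy_pos hq hr (lt_of_lt_of_le one_pos hu.1)
  have hyc : ((yy q r u : ℝ) : ℂ) ≠ 0 := by exact_mod_cast hy.ne'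
  have h1 : HasDerivAt (fun u : ℝ => yy q r u) q u := by
    unfold yy
    simpa using ((hasDerivAt_id u).const_mul q).add_const r
  have h2 := (h1.log hy.ne').ofReal_comp
  have h3 := ((h2.const_mul (κ * s + 1 : ℂ)).cexp).div_const (q * (κ * s + 1))
  refine h3.congr_deriv ?_
  have e1 : cexp ((κ * s + 1) * (Real.log (yy q r u) : ℝ)) = Ee κ q r s u * (yy q r u : ℝ) := by
    unfold Ee
    rw [← Real.exp_log hy, Complex.ofReal_exp, ← Complex.exp_add, Real.exp_log hy]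
    congr 1
    push_cast
    ring
  rw [e1]
  push_cast
  field_simp

lemma Ee_integral_norm {κ q r : ℝ} (hκ : 0 < κ) (hq : 0 < q) (hr : 0 ≤ r) {s : ℂ} (hs : 0 < s.re) {N : ℕ}
    (hN : 1 ≤ N) :
    ‖∫ u in (1:ℝ)..N, Ee κ q r s u‖ ≤ 2 * yy q r N ^ (κ * s.re + 1) / (q * ‖(κ * s + 1 : ℂ)‖) := by
  have hN1 : (1:ℝ) ≤ N := by exact_mod_cast hN
  rw [Ee_integral hκ hq hr hs hN, norm_div, norm_mul, Complex.norm_real, Real.norm_of_nonneg hq.le]
  have e : ∀ u : ℝ, 0 < u → ‖cexp ((κ * s + 1) * (Real.log (yy q r u) : ℝ))‖ = yy q r u ^ (κ * s.re + 1) := by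
    intro u hu
    rw [Complex.norm_exp, Real.rpow_def_of_pos (yy_pos hq hr hu)]
    congr 1
    simp [Complex.mul_re]
    ring
  have hle : yy q r 1 ≤ yy q r N := by unfold yy; nlinarith
  have h1 := Real.rpow_le_rpow (yy_pos hq hr one_pos).le hle (by positivity : 0 ≤ κ * s.re + 1)
  have h2 := norm_sub_le (cexp ((κ * s + 1) * (Real.log (yy q r N) : ℝ)))
    (cexp ((κ * s + 1) * (Real.log (yy q r 1) : ℝ)))
  rw [e N (by linarith), e 1 one_pos] at h2
  refine div_le_div_of_nonneg_right (by linarith) (by positivity)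

end U441.MP
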