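import Pool.Agent.U441.MP.De
import Pool.Agent.H295R2.M

/-! The weighted mean of the difference between the sum and the integral. -/

set_option autoImplicit false

open MeasureTheory Filter Topology Set Complex

namespace U441.MP

/-- the point `σ + 2 π i ξ` -/
noncomputable def Sp (σ ξ : ℝ) : ℂ := (σ : ℂ) + 2 * Real.pi * ξ * Complex.I

lemma Sp_re (σ ξ : ℝ) : (Sp σ ξ).re = σ := by simp [Sp]
lemma Sp_im (σ ξ : ℝ) : (Sp σ ξ).im = 2 * Real.pi * ξ := by simp [Sp]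
lemma Sp_cont (σ : ℝ) : Continuous (Sp σ) := by unfold Sp; fun_prop

lemma Ee_Sp {κ q r : ℝ} (hq : 0 < q) (hr : 0 ≤ r) (σ ξ : ℝ) {n : ℕ} (hn : 1 ≤ n) :
    Ee κ q r (Sp σ ξ) n = ((yy q r n ^ (κ * σ) : ℝ) : ℂ) *
      cexp (2 * Real.pi * I * ((κ * Real.log (yy q r n) : ℝ) : ℂ) * ξ) := by
  have hn1 : (1:ℝ) ≤ n := by exact_mod_cast hn
  have hy := yy_pos hq hr (by linarith : (0:ℝ) < n)
  unfold Ee Sp
  rw [Real.rpow_def_of_pos hy, Complex.ofReal_exp, ← Complex.exp_add]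
  congr 1
  push_cast
  ring

lemma De_eq {κ q r : ℝ} (hq : 0 < q) (hr : 0 ≤ r) (σ ξ : ℝ) (N : ℕ) :
    De κ q r N (Sp σ ξ) = Ds κ q r N (fun n => yy q r n ^ (κ * σ)) ξ - ∫ u in (1:ℝ)..N, Ee κ q r (Sp σ ξ) u := by
  unfold De Ds
  congr 1
  refine Finset.sum_congr rfl fun n hn => ?_
  rw [Finset.mem_Icc] at hn
  exact Ee_Sp hq hr σ ξ hn.1

lemma De_cont {κ q r σ : ℝ} (hκ : 0 < κ) (hq : 0 < q) (hr : 0 ≤ r) (hσ : 0 < σ) {N : ℕ} (hN : 1 ≤ N) :
    Continuous fun ξ : ℝ => De κ q r N (Sp σ ξ) := by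
  have h1 : (fun ξ : ℝ => De κ q r N (Sp σ ξ)) = fun ξ : ℝ =>
      Ds κ q r N (fun n => yy q r n ^ (κ * σ)) ξ -
      (cexp ((κ * Sp σ ξ + 1) * (Real.log (yy q r N) : ℝ)) -
        cexp ((κ * Sp σ ξ + 1) * (Real.log (yy q r 1) : ℝ))) / (q * (κ * Sp σ ξ + 1)) := by
    funext ξ
    rw [De_eq hq hr, Ee_integral hκ hq hr (by rw [Sp_re]; exact hσ) hN]
  rw [h1]
  have h2 := Sp_cont σ
  refine (Ds_cont κ q r N _).sub (Continuous.div (by fun_prop) (by fun_prop) fun ξ => ?_)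
  have hq0 : (q : ℂ) ≠ 0 := by exact_mod_cast hq.ne'
  refine mul_ne_zero hq0 ?_
  intro h
  have := congrArg Complex.re h
  simp [Sp_re] at this
  nlinarith

lemma norm_lower {κ σ ξ : ℝ} (hκ : 0 < κ) (hσ : 0 < σ) :
    1 + (2 * Real.pi * κ * ξ) ^ 2 ≤ ‖(κ * Sp σ ξ + 1 : ℂ)‖ ^ 2 := by
  have h1 : (κ * Sp σ ξ + 1 : ℂ).re = κ * σ + 1 := by simp [Sp_re]
  have h2 : (κ * Sp σ ξ + 1 : ℂ).im = κ * (2 * Real.pi * ξ) := by simp [Sp_im]
  rw [← Complex.normSq_eq_norm_sq, Complex.normSq_apply, h1, h2]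
  have : 0 < κ * σ := by positivity
  nlinarith

lemma int_cauchy {κ T : ℝ} (hκ : 0 < κ) (hT : 0 < T) :
    ∫ ξ in (-T)..T, 1 / (1 + (2 * Real.pi * κ * ξ) ^ 2) ≤ 1 / (2 * κ) := by
  have hc : 0 < 2 * Real.pi * κ := by positivity
  have hi : Integrable fun ξ : ℝ => 1 / (1 + (2 * Real.pi * κ * ξ) ^ 2) := by
    have := integrable_inv_one_add_sq.comp_mul_left' hc.ne'
    simpa [one_div] using this
  have h1 : ∫ ξ : ℝ, 1 / (1 + (2 * Real.pi * κ * ξ) ^ 2) = 1 / (2 * κ) := by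
    have h2 := Measure.integral_comp_mul_left (fun x : ℝ => (1 + x ^ 2)⁻¹) (2 * Real.pi * κ)
    rw [integral_univ_inv_one_add_sq, abs_of_pos (inv_pos.2 hc), smul_eq_mul] at h2
    simp only [one_div]
    rw [h2]
    field_simp
  rw [← h1, intervalIntegral.integral_of_le (by linarith)]
  exact setIntegral_le_integral hi (Eventually.of_forall fun ξ => by positivity)

/-- mean square -/
lemma De_sq {κ q r σ : ℝ} (hκ : 0 < κ) (hq : 0 < q) (hr : 0 ≤ r) (hσ : 0 < σ) :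
    ∃ C : ℝ, 0 < C ∧ ∀ N : ℕ, 1 ≤ N → ∀ T : ℝ, 0 < T →
      ∫ ξ in (-T)..T, ‖De κ q r N (Sp σ ξ)‖ ^ 2 ≤ C * (T + N) * (N:ℝ) ^ (2 * (κ * σ) + 1) := by
  set g : ℝ := q + r with hg
  have hg0 : 0 < g := by rw [hg]; linarith
  refine ⟨8 * Real.exp Real.pi * (1 + g / (κ * q)) * g ^ (2 * (κ * σ)) + 4 * g ^ (2 * (κ * σ) + 2) / (q ^ 2 * κ),
    by positivity, fun N hN T hT => ?_⟩
  have hN1 : (1:ℝ) ≤ N := by exact_mod_cast hN
  have hN0 : (0:ℝ) < N := by linarith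
  have hy := yy_pos hq hr hN0
  set Y := yy q r N with hY
  have hYg : Y ≤ g * N := by rw [hY, hg]; unfold yy; nlinarith
  set p : ℝ := κ * σ with hp
  have hp0 : 0 < p := by positivity
  set b : ℕ → ℝ := fun n => yy q r n ^ p with hb
  have hcont1 : Continuous fun ξ : ℝ => ‖Ds κ q r N b ξ‖ ^ 2 := (Ds_cont κ q r N b).norm.pow 2
  have hcont2 : Continuous fun ξ : ℝ => 1 / (1 + (2 * Real.pi * κ * ξ) ^ 2) := by
    refine Continuous.div (by fun_prop) (by fun_prop) fun ξ => ?_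
    positivity
  have hpt : ∀ ξ : ℝ, ‖De κ q r N (Sp σ ξ)‖ ^ 2 ≤ 2 * ‖Ds κ q r N b ξ‖ ^ 2 +
      2 * (4 * Y ^ (2 * p + 2) / q ^ 2) * (1 / (1 + (2 * Real.pi * κ * ξ) ^ 2)) := by
    intro ξ
    have hre : 0 < (Sp σ ξ).re := by rw [Sp_re]; exact hσ
    have h1 := Ee_integral_norm hκ hq hr hre hN
    rw [De_eq hq hr]
    have h2 := norm_sub_le (Ds κ q r N b ξ) (∫ u in (1:ℝ)..N, Ee κ q r (Sp σ ξ) u)
    have h3 : ‖∫ u in (1:ℝ)..N, Ee κ q r (Sp σ ξ) u‖ ^ 2 ≤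
        (4 * Y ^ (2 * p + 2) / q ^ 2) * (1 / (1 + (2 * Real.pi * κ * ξ) ^ 2)) := by
      have h4 := pow_le_pow_left₀ (norm_nonneg _) h1 2
      refine h4.trans ?_
      rw [Sp_re, ← hp, ← hY]
      have h5 := norm_lower (ξ := ξ) hκ hσ
      have e1 : (2 * Y ^ (p + 1) / (q * ‖(κ * Sp σ ξ + 1 : ℂ)‖)) ^ 2 =
          (4 * Y ^ (2 * p + 2) / q ^ 2) * (1 / ‖(κ * Sp σ ξ + 1 : ℂ)‖ ^ 2) := by
        have e2 : Y ^ (2 * p + 2) = (Y ^ (p + 1)) ^ 2 := by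
          rw [← Real.rpow_natCast (Y ^ (p + 1)), ← Real.rpow_mul hy.le]
          congr 1
          push_cast
          ring
        rw [e2, div_pow, mul_pow, mul_pow]
        field_simp
        norm_num
      rw [e1]
      refine mul_le_mul_of_nonneg_left ?_ (by positivity)
      exact one_div_le_one_div_of_le (by positivity) h5
    have h6 : ‖Ds κ q r N b ξ - ∫ u in (1:ℝ)..N, Ee κ q r (Sp σ ξ) u‖ ^ 2 ≤
        2 * ‖Ds κ q r N b ξ‖ ^ 2 + 2 * ‖∫ u in (1:ℝ)..N, Ee κ q r (Sp σ ξ) u‖ ^ 2 := by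
      have h7 := pow_le_pow_left₀ (norm_nonneg _) h2 2
      nlinarith [sq_nonneg (‖Ds κ q r N b ξ‖ - ‖∫ u in (1:ℝ)..N, Ee κ q r (Sp σ ξ) u‖)]
    have e8 : (fun n : ℕ => yy q r n ^ (κ * σ)) = b := rfl
    rw [e8]
    linarith
  have hint : ∫ ξ in (-T)..T, ‖De κ q r N (Sp σ ξ)‖ ^ 2 ≤
      ∫ ξ in (-T)..T, (2 * ‖Ds κ q r N b ξ‖ ^ 2 +
      2 * (4 * Y ^ (2 * p + 2) / q ^ 2) * (1 / (1 + (2 * Real.pi * κ * ξ) ^ 2))) := by
    refine intervalIntegral.integral_mono_on (by linarith)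
      (((De_cont hκ hq hr hσ hN).norm.pow 2).intervalIntegrable _ _) ?_ fun ξ _ => hpt ξ
    exact ((hcont1.const_mul 2).add (hcont2.const_mul _)).intervalIntegrable _ _
  refine hint.trans ?_
  rw [intervalIntegral.integral_add ((hcont1.const_mul 2).intervalIntegrable _ _)
    ((hcont2.const_mul _).intervalIntegrable _ _), intervalIntegral.integral_const_mul,
    intervalIntegral.integral_const_mul]
  have m1 := mean_value hκ hq hr hT hN b
  have m2 := int_cauchy hκ hT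
  have hbs : ∑ n ∈ Finset.Icc 1 N, b n ^ 2 ≤ N * Y ^ (2 * p) := by
    calc ∑ n ∈ Finset.Icc 1 N, b n ^ 2 ≤ ∑ n ∈ Finset.Icc 1 N, Y ^ (2 * p) := by
          refine Finset.sum_le_sum fun n hn => ?_
          rw [Finset.mem_Icc] at hn
          have hn1 : (1:ℝ) ≤ n := by exact_mod_cast hn.1
          have hnN : (n:ℝ) ≤ N := by exact_mod_cast hn.2
          have hyn := yy_pos hq hr (by linarith : (0:ℝ) < n)
          have hle : yy q r n ≤ Y := by rw [hY]; unfold yy; nlinarith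
          have e2 : b n ^ 2 = yy q r n ^ (2 * p) := by
            rw [hb]
            simp only
            rw [← Real.rpow_natCast (yy q r n ^ p), ← Real.rpow_mul hyn.le]
            congr 1
            push_cast
            ring
          rw [e2]
          exact Real.rpow_le_rpow hyn.le hle (by positivity)
      _ = N * Y ^ (2 * p) := by simp
  have hYp : Y ^ (2 * p) ≤ g ^ (2 * p) * (N:ℝ) ^ (2 * p) := by
    rw [← Real.mul_rpow hg0.le hN0.le]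
    exact Real.rpow_le_rpow hy.le hYg (by positivity)
  have hYp2 : Y ^ (2 * p + 2) ≤ g ^ (2 * p + 2) * (N:ℝ) ^ (2 * p + 2) := by
    rw [← Real.mul_rpow hg0.le hN0.le]
    exact Real.rpow_le_rpow hy.le hYg (by positivity)
  have eN1 : (N:ℝ) ^ (2 * p + 1) = N * (N:ℝ) ^ (2 * p) := by
    rw [Real.rpow_add hN0, Real.rpow_one]
    ring
  have eN2 : (N:ℝ) ^ (2 * p + 2) = N * (N:ℝ) ^ (2 * p + 1) := by
    rw [show 2 * p + 2 = (2 * p + 1) + 1 by ring, Real.rpow_add hN0 (2 * p + 1), Real.rpow_one]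
    ring
  have hNp : 0 < (N:ℝ) ^ (2 * p + 1) := Real.rpow_pos_of_pos hN0 _
  have a1 : 2 * ∫ ξ in (-T)..T, ‖Ds κ q r N b ξ‖ ^ 2 ≤
      8 * Real.exp Real.pi * (1 + g / (κ * q)) * g ^ (2 * p) * ((T + N) * (N:ℝ) ^ (2 * p + 1)) := by
    have c1 : T + Y / (κ * q) ≤ (1 + g / (κ * q)) * (T + N) := by
      have : Y / (κ * q) ≤ g / (κ * q) * N := by
        rw [div_mul_eq_mul_div]
        exact div_le_div_of_nonneg_right hYg (by positivity)
      have h9 : 0 < g / (κ * q) := by positivity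
      nlinarith
    have c2 : ∑ n ∈ Finset.Icc 1 N, b n ^ 2 ≤ g ^ (2 * p) * (N:ℝ) ^ (2 * p + 1) := by
      rw [eN1]
      refine hbs.trans ?_
      nlinarith
    have c3 : 0 ≤ ∑ n ∈ Finset.Icc 1 N, b n ^ 2 := Finset.sum_nonneg fun n _ => sq_nonneg _
    calc 2 * ∫ ξ in (-T)..T, ‖Ds κ q r N b ξ‖ ^ 2 ≤
        2 * (4 * Real.exp Real.pi * (T + Y / (κ * q)) * ∑ n ∈ Finset.Icc 1 N, b n ^ 2) := by linarith
      _ ≤ 2 * (4 * Real.exp Real.pi * ((1 + g / (κ * q)) * (T + N)) * (g ^ (2 * p) * (N:ℝ) ^ (2 * p + 1))) := by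
          gcongr
      _ = _ := by ring
  have a2 : 2 * (4 * Y ^ (2 * p + 2) / q ^ 2) * ∫ ξ in (-T)..T, 1 / (1 + (2 * Real.pi * κ * ξ) ^ 2) ≤
      4 * g ^ (2 * p + 2) / (q ^ 2 * κ) * ((T + N) * (N:ℝ) ^ (2 * p + 1)) := by
    calc _ ≤ 2 * (4 * Y ^ (2 * p + 2) / q ^ 2) * (1 / (2 * κ)) := by gcongr
      _ ≤ 2 * (4 * (g ^ (2 * p + 2) * (N:ℝ) ^ (2 * p + 2)) / q ^ 2) * (1 / (2 * κ)) := by gcongr
      _ = 4 * g ^ (2 * p + 2) / (q ^ 2 * κ) * (N * (N:ℝ) ^ (2 * p + 1)) := by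
          rw [eN2]
          field_simp
      _ ≤ _ := by
          gcongr
          linarith
  linarith

/-- **Weighted mean.** -/
theorem De_main {κ q r σ ε : ℝ} (hκ : 0 < κ) (hq : 0 < q) (hr : 0 ≤ r) (hσ : 0 < σ) (hε : 0 < ε) :
    ∃ C : ℝ, 0 < C ∧ ∀ N : ℕ, 1 ≤ N →
      Integrable (fun ξ : ℝ => ‖De κ q r N (Sp σ ξ)‖ * (1 + |2 * Real.pi * ξ|) ^ (-(1 + ε))) ∧
      ∫ ξ : ℝ, ‖De κ q r N (Sp σ ξ)‖ * (1 + |2 * Real.pi * ξ|) ^ (-(1 + ε)) ≤ C * (N:ℝ) ^ (κ * σ + 2 / 3) := by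
  obtain ⟨C₁, hC₁, hsq⟩ := De_sq hκ hq hr hσ
  set g : ℝ := q + r with hg
  have hg0 : 0 < g := by rw [hg]; linarith
  set C₂ : ℝ := (2 + 1 / σ) * g ^ (κ * σ) with hC₂
  have hC₂0 : 0 < C₂ := by positivity
  have h2ε : 0 < 1 - (2:ℝ) ^ (-ε) := by
    have := Real.rpow_lt_one_of_one_lt_of_neg (by norm_num : (1:ℝ) < 2) (by linarith : -ε < 0)
    linarith
  refine ⟨2 * C₂ + 2 * (1 + C₁) / (1 - 2 ^ (-ε)), by positivity, fun N hN => ?_⟩
  have hN1 : (1:ℝ) ≤ N := by exact_mod_cast hN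
  have hN0 : (0:ℝ) < N := by linarith
  have hy := yy_pos hq hr hN0
  set Y := yy q r N with hY
  have hYg : Y ≤ g * N := by rw [hY, hg]; unfold yy; nlinarith
  set p : ℝ := κ * σ with hp
  have hp0 : 0 < p := by positivity
  set f : ℝ → ℝ := fun ξ => ‖De κ q r N (Sp σ ξ)‖ with hf
  have hfc : Continuous f := (De_cont hκ hq hr hσ hN).norm
  -- pointwise bound
  have hfb : ∀ ξ : ℝ, f ξ ≤ C₂ * (N:ℝ) ^ p * (1 + |2 * Real.pi * ξ|) := by
    intro ξ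
    have hre : (Sp σ ξ).re = σ := Sp_re σ ξ
    have h1 := De_bound hκ hq hr (s := Sp σ ξ) (by rw [hre]; exact hσ) hN
    rw [hre, ← hp, ← hY] at h1
    have hs : ‖Sp σ ξ‖ ≤ σ + |2 * Real.pi * ξ| := by
      have := Complex.norm_le_abs_re_add_abs_im (Sp σ ξ)
      rwa [Sp_re, Sp_im, abs_of_pos hσ] at this
    have hs2 : ‖Sp σ ξ‖ / σ ≤ 1 + |2 * Real.pi * ξ| / σ := by
      rw [div_le_iff₀ hσ]
      have : (1 + |2 * Real.pi * ξ| / σ) * σ = σ + |2 * Real.pi * ξ| := by field_simp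
      linarith
    have hY1 : yy q r 1 ≤ Y := by rw [hY]; unfold yy; nlinarith
    have hy1 := yy_pos hq hr one_pos
    have h2 := Real.rpow_le_rpow hy1.le hY1 hp0.le
    have h3 : Y ^ p ≤ g ^ p * (N:ℝ) ^ p := by
      rw [← Real.mul_rpow hg0.le hN0.le]
      exact Real.rpow_le_rpow hy.le hYg hp0.le
    have h4 : 0 < yy q r 1 ^ p := Real.rpow_pos_of_pos hy1 _
    have h5 : 0 < Y ^ p := Real.rpow_pos_of_pos hy _
    have habs := abs_nonneg (2 * Real.pi * ξ)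
    have hns : 0 ≤ ‖Sp σ ξ‖ / σ := by positivity
    calc f ξ ≤ yy q r 1 ^ p + ‖Sp σ ξ‖ / σ * (Y ^ p - yy q r 1 ^ p) := h1
      _ ≤ Y ^ p + ‖Sp σ ξ‖ / σ * Y ^ p := by
          have := mul_le_mul_of_nonneg_left (by linarith : Y ^ p - yy q r 1 ^ p ≤ Y ^ p) hns
          linarith
      _ ≤ Y ^ p + (1 + |2 * Real.pi * ξ| / σ) * Y ^ p := by
          have := mul_le_mul_of_nonneg_right hs2 h5.le
          linarith
      _ ≤ (2 + 1 / σ) * (1 + |2 * Real.pi * ξ|) * Y ^ p := by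
          have h6 : 1 + (1 + |2 * Real.pi * ξ| / σ) ≤ (2 + 1 / σ) * (1 + |2 * Real.pi * ξ|) := by
            have h7 : 0 < 1 / σ := by positivity
            have h8 : |2 * Real.pi * ξ| / σ = 1 / σ * |2 * Real.pi * ξ| := by ring
            rw [h8]
            nlinarith
          nlinarith
      _ ≤ (2 + 1 / σ) * (1 + |2 * Real.pi * ξ|) * (g ^ p * (N:ℝ) ^ p) := by gcongr
      _ = _ := by rw [hC₂]; ring
  have hw : ∀ ξ : ℝ, (1 + |2 * Real.pi * ξ|) * (1 + |2 * Real.pi * ξ|) ^ (-(1 + ε)) ≤ 1 := by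
    intro ξ
    have h0 : (1:ℝ) ≤ 1 + |2 * Real.pi * ξ| := by linarith [abs_nonneg (2 * Real.pi * ξ)]
    have h1 : (1 + |2 * Real.pi * ξ|) * (1 + |2 * Real.pi * ξ|) ^ (-(1 + ε)) = (1 + |2 * Real.pi * ξ|) ^ (-ε) := by
      have h2 : (1 + |2 * Real.pi * ξ|) ^ (1:ℝ) * (1 + |2 * Real.pi * ξ|) ^ (-(1 + ε)) =
          (1 + |2 * Real.pi * ξ|) ^ (-ε) := by
        rw [← Real.rpow_add (by linarith)]
        congr 1
        ring
      rwa [Real.rpow_one] at h2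
    rw [h1]
    exact Real.rpow_le_one_of_one_le_of_nonpos h0 (by linarith)
  -- a uniform bound, for the integrability
  have hub : ∀ ξ : ℝ, f ξ ≤ N * Y ^ p + 2 * Y ^ (p + 1) / q := by
    intro ξ
    have hre : (Sp σ ξ).re = σ := Sp_re σ ξ
    have h1 := Ee_integral_norm hκ hq hr (s := Sp σ ξ) (by rw [hre]; exact hσ) hN
    rw [hre, ← hp, ← hY] at h1
    have h2 : 1 ≤ ‖(κ * Sp σ ξ + 1 : ℂ)‖ := by
      have h3 := norm_lower (ξ := ξ) hκ hσ
      have h4 := norm_nonneg (κ * Sp σ ξ + 1 : ℂ)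
      nlinarith [sq_nonneg (2 * Real.pi * κ * ξ)]
    have h3 : 2 * Y ^ (p + 1) / (q * ‖(κ * Sp σ ξ + 1 : ℂ)‖) ≤ 2 * Y ^ (p + 1) / q := by
      refine div_le_div_of_nonneg_left (by positivity) hq ?_
      nlinarith
    have h4 : ‖∑ n ∈ Finset.Icc 1 N, Ee κ q r (Sp σ ξ) n‖ ≤ N * Y ^ p := by
      refine (norm_sum_le _ _).trans ?_
      calc ∑ n ∈ Finset.Icc 1 N, ‖Ee κ q r (Sp σ ξ) n‖ ≤ ∑ n ∈ Finset.Icc 1 N, Y ^ p := by
            refine Finset.sum_le_sum fun n hn => ?_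
            rw [Finset.mem_Icc] at hn
            have hn1 : (1:ℝ) ≤ n := by exact_mod_cast hn.1
            have hnN : (n:ℝ) ≤ N := by exact_mod_cast hn.2
            have hyn := yy_pos hq hr (by linarith : (0:ℝ) < n)
            rw [norm_Ee hq hr (by linarith), hre, ← hp]
            exact Real.rpow_le_rpow hyn.le (by rw [hY]; unfold yy; nlinarith) hp0.le
        _ = N * Y ^ p := by simp
    calc f ξ ≤ ‖∑ n ∈ Finset.Icc 1 N, Ee κ q r (Sp σ ξ) n‖ + ‖∫ u in (1:ℝ)..N, Ee κ q r (Sp σ ξ) u‖ :=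
          norm_sub_le _ _
      _ ≤ _ := by linarith
  have hi : Integrable fun ξ : ℝ => f ξ * (1 + |2 * Real.pi * ξ|) ^ (-(1 + ε)) := by
    have h1 := (Pool.Agent.H295R2.integrable_decay' (a := 1 + ε) (by linarith)).const_mul
      (N * Y ^ p + 2 * Y ^ (p + 1) / q)
    refine h1.mono' ?_ (Eventually.of_forall fun ξ => ?_)
    · refine (hfc.mul (Continuous.rpow_const (by fun_prop) fun x => Or.inl ?_)).aestronglyMeasurable
      positivity
    · have h0 : 0 ≤ (1 + |2 * Real.pi * ξ|) ^ (-(1 + ε)) := by positivity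
      rw [Real.norm_of_nonneg (mul_nonneg (norm_nonneg _) h0)]
      exact mul_le_mul_of_nonneg_right (hub ξ) h0
  refine ⟨hi, ?_⟩
  set lam : ℝ := (N:ℝ) ^ (p + 2 / 3) with hlam
  have hlam0 : 0 < lam := Real.rpow_pos_of_pos hN0 _
  set V : ℝ := (N:ℝ) ^ (2 / 3 : ℝ) with hV
  have hV1 : 1 ≤ V := Real.one_le_rpow hN1 (by norm_num)
  have hmean : ∀ T : ℝ, V ≤ T → ∫ ξ in (-T)..T, f ξ ≤ ((1 + C₁) * lam) * T := by
    intro T hT
    have hT0 : 0 < T := by linarith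
    have h1 := hsq N hN T hT0
    have h2 : ∫ ξ in (-T)..T, f ξ ≤ ∫ ξ in (-T)..T, (lam / 2 + 1 / (2 * lam) * f ξ ^ 2) := by
      refine intervalIntegral.integral_mono_on (by linarith) (hfc.intervalIntegrable _ _) ?_ fun ξ _ => ?_
      · exact (by fun_prop : Continuous fun ξ : ℝ => lam / 2 + 1 / (2 * lam) * f ξ ^ 2).intervalIntegrable _ _
      · have h3 : lam / 2 + 1 / (2 * lam) * f ξ ^ 2 - f ξ = (lam - f ξ) ^ 2 / (2 * lam) := by
          field_simp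
          ring
        have h4 : 0 ≤ (lam - f ξ) ^ 2 / (2 * lam) := by positivity
        linarith
    have h3 : ∫ ξ in (-T)..T, (lam / 2 + 1 / (2 * lam) * f ξ ^ 2) =
        lam * T + 1 / (2 * lam) * ∫ ξ in (-T)..T, f ξ ^ 2 := by
      have hc2 : Continuous fun ξ : ℝ => 1 / (2 * lam) * f ξ ^ 2 := by fun_prop
      rw [intervalIntegral.integral_add intervalIntegrable_const
        (hc2.intervalIntegrable _ _), intervalIntegral.integral_const,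
        intervalIntegral.integral_const_mul, smul_eq_mul]
      ring
    rw [h3] at h2
    have h4 : (T + N) * (N:ℝ) ^ (2 * p + 1) ≤ 2 * lam * (lam * T) := by
      have e1 : lam * lam = (N:ℝ) ^ (1 / 3 : ℝ) * (N:ℝ) ^ (2 * p + 1) := by
        rw [hlam, ← Real.rpow_add hN0, ← Real.rpow_add hN0]
        congr 1
        ring
      have e2 : (N:ℝ) ≤ T * (N:ℝ) ^ (1 / 3 : ℝ) := by
        calc (N:ℝ) = V * (N:ℝ) ^ (1 / 3 : ℝ) := by
              rw [hV, ← Real.rpow_add hN0]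
              norm_num
          _ ≤ T * (N:ℝ) ^ (1 / 3 : ℝ) := by gcongr
      have e3 : T ≤ T * (N:ℝ) ^ (1 / 3 : ℝ) := by
        have : 1 ≤ (N:ℝ) ^ (1 / 3 : ℝ) := Real.one_le_rpow hN1 (by norm_num)
        nlinarith
      have e4 : 0 < (N:ℝ) ^ (2 * p + 1) := Real.rpow_pos_of_pos hN0 _
      calc (T + N) * (N:ℝ) ^ (2 * p + 1) ≤ (2 * (T * (N:ℝ) ^ (1 / 3 : ℝ))) * (N:ℝ) ^ (2 * p + 1) := by
            refine mul_le_mul_of_nonneg_right (by linarith) e4.le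
        _ = 2 * T * (lam * lam) := by rw [e1]; ring
        _ = _ := by ring
    have h5 : 1 / (2 * lam) * ∫ ξ in (-T)..T, f ξ ^ 2 ≤ C₁ * (lam * T) := by
      have h6 : ∫ ξ in (-T)..T, f ξ ^ 2 ≤ C₁ * (2 * lam * (lam * T)) := by
        refine h1.trans ?_
        rw [mul_assoc]
        exact mul_le_mul_of_nonneg_left h4 hC₁.le
      calc 1 / (2 * lam) * ∫ ξ in (-T)..T, f ξ ^ 2 ≤ 1 / (2 * lam) * (C₁ * (2 * lam * (lam * T))) := by gcongr
        _ = _ := by field_simp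
    nlinarith
  have key := dyadic hfc (fun ξ => norm_nonneg _) hV1 (by positivity : 0 ≤ (1 + C₁) * lam) hε hmean hi
  have hsmall : ∫ ξ in (-V)..V, f ξ * (1 + |2 * Real.pi * ξ|) ^ (-(1 + ε)) ≤ 2 * C₂ * lam := by
    calc ∫ ξ in (-V)..V, f ξ * (1 + |2 * Real.pi * ξ|) ^ (-(1 + ε)) ≤ ∫ ξ in (-V)..V, C₂ * (N:ℝ) ^ p := by
          refine intervalIntegral.integral_mono_on (by linarith) hi.intervalIntegrable
            intervalIntegrable_const fun ξ _ => ?_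
          have h0 : 0 ≤ (1 + |2 * Real.pi * ξ|) ^ (-(1 + ε)) := by positivity
          have hNp : 0 < (N:ℝ) ^ p := Real.rpow_pos_of_pos hN0 _
          calc f ξ * (1 + |2 * Real.pi * ξ|) ^ (-(1 + ε)) ≤
              (C₂ * (N:ℝ) ^ p * (1 + |2 * Real.pi * ξ|)) * (1 + |2 * Real.pi * ξ|) ^ (-(1 + ε)) :=
                mul_le_mul_of_nonneg_right (hfb ξ) h0
            _ = C₂ * (N:ℝ) ^ p * ((1 + |2 * Real.pi * ξ|) * (1 + |2 * Real.pi * ξ|) ^ (-(1 + ε))) := by ring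
            _ ≤ C₂ * (N:ℝ) ^ p * 1 := mul_le_mul_of_nonneg_left (hw ξ) (by positivity)
            _ = _ := by ring
      _ = 2 * C₂ * ((N:ℝ) ^ p * V) := by
          rw [intervalIntegral.integral_const, smul_eq_mul]
          ring
      _ = 2 * C₂ * lam := by
          rw [hV, hlam, ← Real.rpow_add hN0]
  calc _ ≤ 2 * C₂ * lam + 2 * ((1 + C₁) * lam) / (1 - 2 ^ (-ε)) := key.trans (by linarith)
    _ = _ := by ring

end U441.MP
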