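import Pool.Agent.U441.MP.Li

/-! Oscillation, part 3: the residue at a zero on the edge. -/

set_option autoImplicit false

open MeasureTheory Filter Topology Set Complex

namespace U441.MP

open Pool.Agent.W263.BSD (LInt lap lapC lapC_ofReal lapC_differentiableAt)
open Pool.Agent.H295R2 (Zs fz Zs_eq Zs_differentiable fz_eq)

lemma zero_im {ρ : ℂ} (hρ : riemannZeta ρ = 0) (hre : 0 < ρ.re) : ρ.im ≠ 0 := by
  have hz1 : ρ ≠ 1 := by
    rintro rfl
    exact riemannZeta_one_ne_zero hρ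
  exact Pool.Agent.Helper791.Cyc.E2_z1_zero_im hre (by
    have := Zs_eq hz1
    rw [hρ, mul_zero] at this
    exact this.symm)

/-- **The edge.** -/
theorem edge {a : ℕ → ℝ} {F U : ℂ → ℂ} (h : MD a F U) (hF : Fam a F) {β : ℝ} (hβ : 1 / 2 ≤ β) (hβ1 : β < 1)
    (hz : ∀ s : ℂ, β < s.re → riemannZeta s ≠ 0) {ρ : ℂ} (hρ : riemannZeta ρ = 0) (hρβ : ρ.re = β)
    (hUρ : ContinuousAt U ρ) {κ q r c sg R : ℝ} (hκ : 0 < κ) (hq : 0 < q) (hr : 0 ≤ r) (hsg : |sg| = 1)
    (hΛ : Tendsto (fun t : ℝ => t * ((R : ℂ) / (((β + t : ℝ) : ℂ) - 1 / 2) -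
      F ((β + t : ℝ) : ℂ) / ((β + t : ℝ) : ℂ)).re) (𝓝[>] 0) (𝓝 0))
    (hos : Summable fun n : ℕ => max (-bb a κ β c sg R (yy q r n)) 0 * (n:ℝ) ^ (-(κ * β + 1))) :
    ‖U ρ‖ ≤ c * (‖ρ‖ * ‖deriv riemannZeta ρ‖) := by
  have hκ0 : (κ : ℂ) ≠ 0 := by exact_mod_cast hκ.ne'
  have him : ρ.im ≠ 0 := zero_im hρ (by linarith)
  obtain ⟨K, hK, hpb⟩ := pos_bound (q := q) (r := r) (c := c) (sg := sg) (R := R) h hF hβ hβ1.le hz hκ hq hr hos
  set P : ℂ → ℂ := lapC (bh a κ β c sg R) with hP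
  -- the points
  set wt : ℝ → ℂ := fun t => κ * (ρ + t) + 1 with hwt
  have hwre : ∀ t : ℝ, (wt t).re = κ * (β + t) + 1 := by
    intro t
    simp only [hwt, Complex.add_re, Complex.mul_re, Complex.ofReal_re, Complex.ofReal_im, zero_mul, sub_zero,
      Complex.one_re, hρβ]
  set T1 : ℝ → ℂ := fun t => c * t / (ρ + t - β) + sg * R * t / (ρ + t - 1 / 2) with hT1
  set LL : ℝ → ℝ := fun t => t * ((R : ℂ) / (((β + t : ℝ) : ℂ) - 1 / 2) -
      F ((β + t : ℝ) : ℂ) / ((β + t : ℝ) : ℂ)).re with hLL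
  set E : ℝ → ℝ := fun t => c + sg * LL t + κ * t * K * (1 + ‖wt t‖) + ‖T1 t‖ with hE
  have n1 : ∀ t : ℝ, ρ + t - β ≠ 0 := by
    intro t h0
    have := congrArg Complex.im h0
    simp at this
    exact him this
  have n2 : ∀ t : ℝ, ρ + t - 1 / 2 ≠ 0 := by
    intro t h0
    have := congrArg Complex.im h0
    simp at this
    exact him this
  have n3 : ∀ t : ℝ, ρ + t ≠ 0 := by
    intro t h0
    have := congrArg Complex.im h0
    simp at this
    exact him this
  have n4 : ∀ t : ℝ, ρ + t ≠ 1 := by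
    intro t h0
    have := congrArg Complex.im h0
    simp at this
    exact him this
  -- claim A
  have hA : ∀ t : ℝ, 0 < t → t < 1 / κ → ‖(t : ℂ) * F (ρ + t) / (ρ + t)‖ ≤ E t := by
    intro t ht ht1
    have hκt : κ * t < 1 := by
      rw [lt_div_iff₀ hκ] at ht1
      linarith
    have hκt0 : 0 < κ * t := by positivity
    have htc : (t : ℂ) ≠ 0 := by exact_mod_cast ht.ne'
    have hr1 : κ * β + 1 < (wt t).re := by rw [hwre]; nlinarith
    have hr2 : (wt t).re ≤ κ * β + 2 := by rw [hwre]; nlinarith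
    have hb := hpb (wt t) hr1 hr2
    have f1 := (lap_bh (c := c) (sg := sg) (R := R) h hF hβ hβ1.le hz hκ hr1).2
    have f2 := (lap_bh (c := c) (sg := sg) (R := R) h hF hβ hβ1.le hz hκ (w := ((wt t).re : ℂ))
      (by rw [Complex.ofReal_re]; exact hr1)).2
    have e1 : κ * t * P (wt t) = T1 t - sg * ((t : ℂ) * F (ρ + t) / (ρ + t)) := by
      rw [hP, f1, hT1]
      have a1 : wt t - (κ * β + 1) = κ * (ρ + t - β) := by rw [hwt]; ring
      have a2 : wt t - (κ * (1 / 2) + 1) = κ * (ρ + t - 1 / 2) := by rw [hwt]; ring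
      have a3 : wt t - 1 = κ * (ρ + t) := by rw [hwt]; ring
      rw [a1, a2, a3, mul_div_cancel_left₀ _ hκ0]
      have m1 := n1 t
      have m2 := n2 t
      have m3 := n3 t
      simp only
      generalize ρ + t - β = x1 at *
      generalize ρ + t - 1 / 2 = x2 at *
      generalize ρ + (t : ℂ) = x3 at *
      field_simp
    have e2 : (κ * t * (P ((wt t).re : ℂ))).re = c + sg * LL t := by
      rw [hP, f2]
      have a0 : (((wt t).re : ℝ) : ℂ) = κ * ((β + t : ℝ) : ℂ) + 1 := by rw [hwre]; push_cast; ring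
      have a1 : (((wt t).re : ℝ) : ℂ) - (κ * β + 1) = κ * t := by rw [a0]; push_cast; ring
      have a2 : (((wt t).re : ℝ) : ℂ) - (κ * (1 / 2) + 1) = κ * (((β + t : ℝ) : ℂ) - 1 / 2) := by rw [a0]; ring
      have a3 : (((wt t).re : ℝ) : ℂ) - 1 = κ * ((β + t : ℝ) : ℂ) := by rw [a0]; ring
      rw [a1, a2, a3, mul_div_cancel_left₀ _ hκ0]
      have m2 : (((β + t : ℝ) : ℂ) - 1 / 2) ≠ 0 := by
        have : (((β + t : ℝ) : ℂ) - 1 / 2) = ((β + t - 1 / 2 : ℝ) : ℂ) := by push_cast; ring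
        rw [this]
        exact_mod_cast (by linarith : β + t - 1 / 2 ≠ 0)
      have m3 : ((β + t : ℝ) : ℂ) ≠ 0 := by exact_mod_cast (by linarith : β + t ≠ 0)
      have e3 : κ * t * ((c : ℂ) / (κ * t) + sg * R / (κ * (((β + t : ℝ) : ℂ) - 1 / 2)) -
          sg * (F ((β + t : ℝ) : ℂ) / (κ * ((β + t : ℝ) : ℂ)))) =
          (c : ℂ) + ((sg * t : ℝ) : ℂ) * ((R : ℂ) / (((β + t : ℝ) : ℂ) - 1 / 2) -
          F ((β + t : ℝ) : ℂ) / ((β + t : ℝ) : ℂ)) := by
        generalize (((β + t : ℝ) : ℂ) - 1 / 2) = x2 at *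
        generalize F ((β + t : ℝ) : ℂ) = x4 at *
        generalize ((β + t : ℝ) : ℂ) = x3 at *
        push_cast
        field_simp
        ring
      rw [e3, Complex.add_re, Complex.ofReal_re, Complex.re_ofReal_mul]
      simp only [hLL]
      ring
    have e4 : (κ * t * (P ((wt t).re : ℂ))).re = κ * t * (P ((wt t).re : ℂ)).re := by
      have : (κ * t * (P ((wt t).re : ℂ)) : ℂ) = ((κ * t : ℝ) : ℂ) * P ((wt t).re : ℂ) := by push_cast; ring
      rw [this, Complex.re_ofReal_mul]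
    have e5 : ‖κ * t * P (wt t)‖ = κ * t * ‖P (wt t)‖ := by
      rw [norm_mul, norm_mul, Complex.norm_real, Complex.norm_real, Real.norm_of_nonneg hκ.le,
        Real.norm_of_nonneg ht.le]
    have e6 : ‖(t : ℂ) * F (ρ + t) / (ρ + t)‖ = ‖sg * ((t : ℂ) * F (ρ + t) / (ρ + t))‖ := by
      rw [norm_mul (sg : ℂ), Complex.norm_real, Real.norm_eq_abs, hsg, one_mul]
    have e7 : sg * ((t : ℂ) * F (ρ + t) / (ρ + t)) = T1 t - κ * t * P (wt t) := by rw [e1]; ring
    rw [e6, e7]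
    refine (norm_sub_le _ _).trans ?_
    rw [e5]
    have e8 := mul_le_mul_of_nonneg_left hb hκt0.le
    rw [mul_add, ← e4, e2] at e8
    simp only [hE]
    linarith
  -- claim B
  have hB : Tendsto E (𝓝[>] 0) (𝓝 c) := by
    have t1 : Tendsto (fun t : ℝ => κ * t * K * (1 + ‖wt t‖)) (𝓝[>] 0) (𝓝 0) := by
      have hc : Continuous fun t : ℝ => κ * t * K * (1 + ‖wt t‖) := by
        rw [hwt]
        fun_prop
      have := hc.tendsto 0
      simp only [mul_zero, zero_mul] at this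
      exact this.mono_left nhdsWithin_le_nhds
    have t2 : Tendsto (fun t : ℝ => ‖T1 t‖) (𝓝[>] 0) (𝓝 0) := by
      have hc : Continuous fun t : ℝ => ‖T1 t‖ := by
        rw [hT1]
        refine Continuous.norm (Continuous.add ?_ ?_)
        · exact Continuous.div (by fun_prop) (by fun_prop) n1
        · exact Continuous.div (by fun_prop) (by fun_prop) n2
      have := hc.tendsto 0
      simp only [hT1, Complex.ofReal_zero, mul_zero, zero_div, add_zero, norm_zero] at this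
      exact this.mono_left nhdsWithin_le_nhds
    have t3 := (((hΛ.const_mul sg).const_add c).add t1).add t2
    simp only [mul_zero, add_zero] at t3
    exact t3
  -- claim C
  have hC : ∀ t : ℝ, 0 < t → t < 1 / κ →
      ‖U (ρ + t)‖ ≤ E t * (‖ρ + t‖ * ‖(t : ℂ)⁻¹ * riemannZeta (ρ + t)‖) := by
    intro t ht ht1
    have hb := hA t ht ht1
    have hzt : riemannZeta (ρ + t) ≠ 0 := hz _ (by simp [hρβ]; exact ht)
    have htc : (t : ℂ) ≠ 0 := by exact_mod_cast ht.ne'
    have hFt : F (ρ + t) = U (ρ + t) * (riemannZeta (ρ + t))⁻¹ := by rw [h.fac, fz_eq (n4 t)]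
    have e1 : U (ρ + t) = ((t : ℂ) * F (ρ + t) / (ρ + t)) * ((ρ + t) * ((t : ℂ)⁻¹ * riemannZeta (ρ + t))) := by
      rw [hFt]
      have m3 := n3 t
      field_simp
    calc ‖U (ρ + t)‖ = ‖(t : ℂ) * F (ρ + t) / (ρ + t)‖ * (‖ρ + t‖ * ‖(t : ℂ)⁻¹ * riemannZeta (ρ + t)‖) := by
          conv_lhs => rw [e1]
          rw [norm_mul, norm_mul (ρ + (t:ℂ))]
      _ ≤ _ := mul_le_mul_of_nonneg_right hb (by positivity)
  -- limits
  have hpath : Tendsto (fun t : ℝ => ρ + (t : ℂ)) (𝓝[>] 0) (𝓝 ρ) := by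
    have hc : Continuous fun t : ℝ => ρ + (t : ℂ) := by fun_prop
    have := hc.tendsto 0
    simp only [Complex.ofReal_zero, add_zero] at this
    exact this.mono_left nhdsWithin_le_nhds
  have l1 : Tendsto (fun t : ℝ => ‖U (ρ + t)‖) (𝓝[>] 0) (𝓝 ‖U ρ‖) := (hUρ.tendsto.comp hpath).norm
  have l2 : Tendsto (fun t : ℝ => ‖(t : ℂ)⁻¹ * riemannZeta (ρ + t)‖) (𝓝[>] 0) (𝓝 ‖deriv riemannZeta ρ‖) := by
    have hd : HasDerivAt riemannZeta (deriv riemannZeta ρ) ρ := by
      refine (differentiableAt_riemannZeta ?_).hasDerivAt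
      rintro rfl
      exact riemannZeta_one_ne_zero hρ
    have hs := hasDerivAt_iff_tendsto_slope_zero.1 hd
    have hin : Tendsto (fun t : ℝ => (t : ℂ)) (𝓝[>] 0) (𝓝[≠] 0) := by
      refine tendsto_nhdsWithin_iff.2 ⟨?_, ?_⟩
      · have := Complex.continuous_ofReal.tendsto 0
        rw [Complex.ofReal_zero] at this
        exact this.mono_left nhdsWithin_le_nhds
      · filter_upwards [self_mem_nhdsWithin] with t ht
        have ht0 : (0:ℝ) < t := ht
        simp only [mem_compl_iff, mem_singleton_iff, Complex.ofReal_eq_zero]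
        exact ht0.ne'
    have := (hs.comp hin).norm
    refine this.congr fun t => ?_
    simp only [Function.comp, hρ, sub_zero, smul_eq_mul]
  have l3 := hB.mul (hpath.norm.mul l2)
  refine le_of_tendsto_of_tendsto l1 l3 ?_
  have hmem : Ioo (0:ℝ) (1 / κ) ∈ 𝓝[>] (0:ℝ) := Ioo_mem_nhdsGT (by positivity)
  filter_upwards [hmem] with t ht
  exact hC t ht.1 ht.2

end U441.MP
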