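import Pool.Agent.U441.MP.Sp

/-! Oscillation along powers: the final theorem. -/

set_option autoImplicit false

open MeasureTheory Filter Topology Set Complex

namespace U441.MP

open Pool.Agent.H295R2 (Zs fz Zs_eq Zs_differentiable fz_eq)

/-- the residue condition at the real point -/
def Res (F : ℂ → ℂ) (R : ℝ) : Prop :=
  ∀ β : ℝ, 1 / 2 ≤ β → β < 1 → (∀ s : ℂ, β < s.re → riemannZeta s ≠ 0) →
    Tendsto (fun t : ℝ => t * ((R:ℂ) / (((β + t : ℝ) : ℂ) - 1 / 2) - F ((β + t : ℝ) : ℂ) / ((β + t : ℝ) : ℂ)).re)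
      (𝓝[>] 0) (𝓝 0)

/-- sets which agree up to finitely many elements -/
lemma cnt_mono {E₁ E₂ : ℕ → Prop} {n₁ : ℕ} (h : ∀ n, n₁ ≤ n → E₁ n → E₂ n) (N : ℕ) :
    cnt E₁ N ≤ cnt E₂ N + n₁ := by
  classical
  unfold cnt
  have h1 : (Finset.Icc 1 N).filter E₁ ⊆ (Finset.Icc 1 N).filter E₂ ∪ Finset.range n₁ := by
    intro n hn
    rw [Finset.mem_filter] at hn
    rw [Finset.mem_union, Finset.mem_filter, Finset.mem_range]
    by_cases h2 : n < n₁
    · exact Or.inr h2
    · exact Or.inl ⟨hn.1, h n (by omega) hn.2⟩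
  have h2 := (Finset.card_le_card h1).trans (Finset.card_union_le _ _)
  rw [Finset.card_range] at h2
  convert h2

/-- absorbing a constant -/
lemma absorb {ε : ℝ} (hε : 0 < ε) (n₁ : ℕ) :
    ∀ᶠ N : ℕ in atTop, (N:ℝ) ^ (1 - ε) + n₁ ≤ (N:ℝ) ^ (1 - min ε 1 / 2) := by
  set e : ℝ := min ε 1 / 2 with he
  have he0 : 0 < e := by rw [he]; positivity
  have he1 : 2 * e ≤ 1 := by
    have := min_le_right ε 1
    rw [he]
    linarith
  have he2 : 2 * e ≤ ε := by
    have := min_le_left ε 1
    rw [he]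
    linarith
  have h1 : Tendsto (fun N : ℕ => (N:ℝ) ^ e) atTop atTop :=
    (tendsto_rpow_atTop he0).comp tendsto_natCast_atTop_atTop
  filter_upwards [h1.eventually_ge_atTop (n₁ + 1), eventually_ge_atTop 1] with N hN hN1
  have hN1' : (1:ℝ) ≤ N := by exact_mod_cast hN1
  have hN0 : (0:ℝ) < N := by linarith
  have h2 : (N:ℝ) ^ (1 - e) = (N:ℝ) ^ (1 - 2 * e) * (N:ℝ) ^ e := by
    rw [← Real.rpow_add hN0]
    congr 1
    ring
  have h3 : (1:ℝ) ≤ (N:ℝ) ^ (1 - 2 * e) := Real.one_le_rpow hN1' (by linarith)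
  have h4 : (N:ℝ) ^ (1 - ε) ≤ (N:ℝ) ^ (1 - 2 * e) := Real.rpow_le_rpow_of_exponent_le hN1' (by linarith)
  rw [h2]
  have h5 : (0:ℝ) ≤ n₁ := Nat.cast_nonneg _
  nlinarith

/-- **Oscillation along powers.** -/
theorem osc {a : ℕ → ℝ} {F U : ℂ → ℂ} (h : MD a F U) (hF : Fam a F) {R : ℝ} (hR : Res F R) {ρ : ℂ}
    (hρ : riemannZeta ρ = 0) (hρ2 : 1 / 2 ≤ ρ.re) (hU : ContinuousAt U ρ) {κ q r c sg ε : ℝ} (hκ : 0 < κ)
    (hq : 0 < q) (hr : 0 ≤ r) (hsg : |sg| = 1) (hε : 0 < ε)
    (hc : c * (‖ρ‖ * ‖deriv riemannZeta ρ‖) < ‖U ρ‖) :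
    ∃ᶠ N : ℕ in atTop, (N:ℝ) ^ (1 - ε) < cnt (fun n => c * yy q r n ^ (κ * ρ.re) <
      sg * (Sa a (yy q r n ^ κ) - R * yy q r n ^ (κ * (1 / 2)))) N := by
  classical
  have hρ1 : ρ.re < 1 := by
    by_contra hcon
    exact riemannZeta_ne_zero_of_one_le_re (not_lt.1 hcon) hρ
  set β : ℝ := ρ.re with hβ
  set E : ℕ → Prop := fun n => c * yy q r n ^ (κ * β) <
      sg * (Sa a (yy q r n ^ κ) - R * yy q r n ^ (κ * (1 / 2))) with hE
  by_cases hex : ∃ s : ℂ, riemannZeta s = 0 ∧ β < s.re
  · -- a zero with larger real part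
    obtain ⟨s, hs0, hs⟩ := hex
    set θ : ℝ := (β + s.re) / 2 with hθ
    have hθ1 : β < θ := by rw [hθ]; linarith
    have hθ2 : θ < s.re := by rw [hθ]; linarith
    have key := osc_off h hF (κ := κ) (q := q) (r := r) (sg := sg) (θ := θ) (ε := min ε 1 / 2) hκ hq hr hsg
      (by positivity) hs0 (by linarith) hθ2
    -- absorb the lower order terms
    have hyt := yy_tendsto (r := r) hq
    have hpos : 0 < κ * (θ - β) := mul_pos hκ (by linarith)
    have ht : Tendsto (fun n : ℕ => yy q r n ^ (κ * (θ - β))) atTop atTop :=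
      (tendsto_rpow_atTop hpos).comp hyt
    obtain ⟨n₁, hn₁⟩ := eventually_atTop.1
      ((hyt.eventually_ge_atTop 1).and (ht.eventually_ge_atTop (|c| + |R|)))
    have himp : ∀ n, n₁ ≤ n → yy q r n ^ (κ * θ) < sg * Sa a (yy q r n ^ κ) → E n := by
      intro n hn h1
      obtain ⟨h2, h3⟩ := hn₁ n hn
      have hy0 : 0 < yy q r n := by linarith
      have h4 : yy q r n ^ (κ * θ) = yy q r n ^ (κ * (θ - β)) * yy q r n ^ (κ * β) := by
        rw [← Real.rpow_add hy0]
        congr 1
        ring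
      have h5 : 0 < yy q r n ^ (κ * β) := Real.rpow_pos_of_pos hy0 _
      have h6 : yy q r n ^ (κ * (1 / 2)) ≤ yy q r n ^ (κ * β) :=
        Real.rpow_le_rpow_of_exponent_le h2 (mul_le_mul_of_nonneg_left hρ2 hκ.le)
      have h7 : 0 ≤ yy q r n ^ (κ * (1 / 2)) := Real.rpow_nonneg hy0.le _
      have h8 : sg * (R * yy q r n ^ (κ * (1 / 2))) ≤ |R| * yy q r n ^ (κ * β) := by
        calc sg * (R * yy q r n ^ (κ * (1 / 2))) ≤ |sg * (R * yy q r n ^ (κ * (1 / 2)))| := le_abs_self _
          _ = |R| * yy q r n ^ (κ * (1 / 2)) := by rw [abs_mul, abs_mul, hsg, one_mul, abs_of_nonneg h7]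
          _ ≤ _ := mul_le_mul_of_nonneg_left h6 (abs_nonneg _)
      have h9 : c * yy q r n ^ (κ * β) ≤ |c| * yy q r n ^ (κ * β) :=
        mul_le_mul_of_nonneg_right (le_abs_self _) h5.le
      have h10 := mul_le_mul_of_nonneg_right h3 h5.le
      rw [hE]
      simp only
      rw [mul_sub]
      nlinarith
    refine (key.and_eventually (absorb hε n₁)).mono fun N hN => ?_
    have h1 := cnt_mono himp N
    have h2 : (cnt (fun n => yy q r n ^ (κ * θ) < sg * Sa a (yy q r n ^ κ)) N : ℝ) ≤ cnt E N + n₁ := by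
      exact_mod_cast h1
    have h3 := hN.1
    have h4 := hN.2
    linarith
  · -- the zero is on the edge
    have hz : ∀ s : ℂ, β < s.re → riemannZeta s ≠ 0 := fun s hs h0 => hex ⟨s, h0, hs⟩
    intro hcon
    have hcon' : ∀ᶠ N : ℕ in atTop, (cnt E N : ℝ) ≤ (N:ℝ) ^ (1 - ε) := hcon.mono fun N hN => not_lt.1 hN
    obtain ⟨n₀, hn₀⟩ := eventually_atTop.1 hcon'
    set e : ℝ := min ε (1 / 2) with he
    have he0 : 0 < e := by rw [he]; positivity
    have he1 : e ≤ 1 / 2 := min_le_right _ _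
    have he2 : e ≤ ε := min_le_left _ _
    have hcnt : ∀ n : ℕ, 1 ≤ n → (cnt E n : ℝ) ≤ (n₀ + 1) * (n:ℝ) ^ (1 - e) := by
      intro n hn
      have hn1 : (1:ℝ) ≤ n := by exact_mod_cast hn
      have hone : 1 ≤ (n:ℝ) ^ (1 - e) := Real.one_le_rpow hn1 (by linarith)
      have h7 : (0:ℝ) ≤ n₀ := Nat.cast_nonneg _
      rcases lt_or_ge n n₀ with hlt | hge
      · have h5 : (cnt E n : ℝ) ≤ n := by exact_mod_cast cnt_le E n
        have h6 : (n:ℝ) ≤ n₀ := by exact_mod_cast hlt.le
        nlinarith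
      · have h5 := hn₀ n hge
        have h6 : (n:ℝ) ^ (1 - ε) ≤ (n:ℝ) ^ (1 - e) := Real.rpow_le_rpow_of_exponent_le hn1 (by linarith)
        nlinarith
    set d : ℝ := min (e / (4 * κ)) (1 / 2) with hd
    have hd0 : 0 < d := by rw [hd]; positivity
    have hd1 : κ * d ≤ e / 4 := by
      have := min_le_left (e / (4 * κ)) (1 / 2)
      calc κ * d ≤ κ * (e / (4 * κ)) := by gcongr
        _ = e / 4 := by field_simp
    have hd2 : d ≤ 1 / 2 := min_le_right _ _
    have hp := hF β (β + d) hρ2 hz (by linarith) (by linarith)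
    obtain ⟨C, hC, hb⟩ := bb_growth hp (by linarith) (by linarith) (β := β) (c := c) (sg := sg) (R := R)
      (μ₀ := κ * (β + d) + e / 4) hκ hρ2 (by linarith) (by linarith)
    set μ₀ : ℝ := κ * (β + d) + e / 4 with hμ₀
    have hμ0 : 0 < μ₀ := by positivity
    set g : ℝ := max 1 (q + r) with hg
    have hg1 : 1 ≤ g := le_max_left _ _
    have hg0 : 0 < g := by linarith
    set p : ℝ := κ * β + 1 - μ₀ with hpdef
    have hp1 : 1 - e < p := by
      rw [hpdef, hμ₀]
      nlinarith
    have hsum := sparse (E := E) (A := n₀ + 1) (w := 1 - e) (p := p) (by positivity) (by linarith) hp1 hcnt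
    have hos : Summable fun n : ℕ => max (-bb a κ β c sg R (yy q r n)) 0 * (n:ℝ) ^ (-(κ * β + 1)) := by
      refine Summable.of_norm_bounded_eventually_nat (hsum.mul_left (C * g ^ μ₀)) ?_
      filter_upwards [eventually_ge_atTop 1] with n hn
      have hn1 : (1:ℝ) ≤ n := by exact_mod_cast hn
      have hn0 : (0:ℝ) < n := by linarith
      have hy := yy_pos hq hr hn0
      have hpow : 0 ≤ (n:ℝ) ^ (-(κ * β + 1)) := by positivity
      rw [Real.norm_of_nonneg (mul_nonneg (le_max_right _ _) hpow)]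
      by_cases hEn : E n
      · rw [if_pos hEn]
        have hyN : yy q r n ≤ g * n := by
          have : q + r ≤ g := le_max_right _ _
          unfold yy
          nlinarith
        have h1 := hb _ _ hy hyN (by nlinarith)
        have h2 : max (-bb a κ β c sg R (yy q r n)) 0 ≤ C * (g * n) ^ μ₀ := by
          refine max_le ?_ (by positivity)
          exact (neg_le_abs _).trans h1
        calc max (-bb a κ β c sg R (yy q r n)) 0 * (n:ℝ) ^ (-(κ * β + 1)) ≤
            (C * (g * n) ^ μ₀) * (n:ℝ) ^ (-(κ * β + 1)) := mul_le_mul_of_nonneg_right h2 hpow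
          _ = C * g ^ μ₀ * ((n:ℝ) ^ μ₀ * (n:ℝ) ^ (-(κ * β + 1))) := by
              rw [Real.mul_rpow hg0.le hn0.le]
              ring
          _ = _ := by
              rw [← Real.rpow_add hn0]
              congr 2
              rw [hpdef]
              ring
      · rw [if_neg hEn, mul_zero]
        have h1 : 0 ≤ bb a κ β c sg R (yy q r n) := by
          have h2 := not_lt.1 hEn
          unfold bb
          rw [mul_sub] at h2
          linarith
        rw [max_eq_right (by linarith), zero_mul]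
    have := edge h hF hρ2 hρ1 hz hρ hβ.symm hU hκ hq hr hsg (hR β hρ2 hρ1 hz) hos
    linarith

/-! ## The instances -/

lemma md_mu : MD muR fz (fun _ => 1) where
  h0 := by simp [muR]
  ha := fun n => Pool.Agent.H295R2.abs_mu_le n
  mel := fun z hz => by
    have h1 := (Pool.Agent.H295R2.moebius_lseries (s := z) hz).LSeries_eq
    rw [← h1]
    congr 1
  fac := fun z => by rw [one_mul]
  Ud := fun z _ => by fun_prop
  Un := fun z _ => one_ne_zero

lemma md_la : MD laR fl (fun z => riemannZeta (2 * z)) where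
  h0 := laR_zero
  ha := laR_abs
  mel := fun z hz => by
    have h1 := LS_la hz
    have hne : riemannZeta z ≠ 0 := riemannZeta_ne_zero_of_one_lt_re hz
    have hs2 : z ≠ 1 := by
      rintro rfl
      simp at hz
    unfold fl
    rw [fz_eq hs2, ← h1]
    field_simp
  fac := fun z => rfl
  Ud := fun z hz => by
    have h2 : (2 * z : ℂ) ≠ 1 := by
      intro h
      have := congrArg Complex.re h
      simp at this
      linarith
    exact (differentiableAt_riemannZeta h2).comp z (differentiableAt_id.const_mul 2)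
  Un := fun z hz => by
    refine riemannZeta_ne_zero_of_one_lt_re ?_
    simp
    linarith

lemma fam_mu : Fam muR fz := fun _ _ h1 h2 h3 h4 => pd_mu h1 h2 h3 h4

lemma fam_la : Fam laR fl := fun _ _ h1 h2 h3 h4 => pd_la h1 h2 h3 h4

lemma fz_cont {β : ℝ} (hβ : 0 < β) : ContinuousAt fz (β : ℂ) :=
  (Pool.Agent.H295R2.fz_differentiableAt (Zs_real_ne hβ)).continuousAt

/-- the path from the right -/
lemma path_right (β : ℝ) : Tendsto (fun t : ℝ => ((β + t : ℝ) : ℂ)) (𝓝[>] 0) (𝓝 (β : ℂ)) := by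
  have hc : Continuous fun t : ℝ => ((β + t : ℝ) : ℂ) := by fun_prop
  have := hc.tendsto 0
  rw [add_zero] at this
  exact this.mono_left nhdsWithin_le_nhds

lemma t_to_zero : Tendsto (fun t : ℝ => (t : ℝ)) (𝓝[>] 0) (𝓝 0) :=
  (continuous_id.tendsto (0:ℝ)).mono_left nhdsWithin_le_nhds

lemma res_mu : Res fz 0 := by
  intro β hβ _ _
  have h1 := (fz_cont (by linarith : 0 < β)).tendsto.comp (path_right β)
  have hne : (β : ℂ) ≠ 0 := by exact_mod_cast (by linarith : β ≠ 0)
  have h2 := h1.div (path_right β) hne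
  have h3 := (Complex.continuous_re.tendsto _).comp h2
  have h4 := t_to_zero.mul h3.neg
  rw [zero_mul] at h4
  refine h4.congr fun t => ?_
  simp only [Function.comp, Complex.ofReal_zero, zero_div, zero_sub, Complex.neg_re, Pi.div_apply]

lemma res_la : Res fl (fz (1 / 2)).re := by
  intro β hβ hβ1 _
  rcases eq_or_lt_of_le hβ with heq | hlt
  · -- the pole of `ζ(2s)` at `1/2`
    subst heq
    have h1 := (fz_cont (by norm_num : (0:ℝ) < 1 / 2)).tendsto.comp (path_right (1 / 2))
    have hne : (((1 / 2 : ℝ)) : ℂ) ≠ 0 := by norm_num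
    have h2 := h1.div (path_right (1 / 2)) hne
    have h3 : Tendsto (fun t : ℝ => (2 * t : ℂ) * riemannZeta (1 + 2 * t)) (𝓝[>] 0) (𝓝 1) := by
      have hin : Tendsto (fun t : ℝ => (1 + 2 * t : ℂ)) (𝓝[>] 0) (𝓝[≠] 1) := by
        refine tendsto_nhdsWithin_iff.2 ⟨?_, ?_⟩
        · have hc : Continuous fun t : ℝ => (1 + 2 * t : ℂ) := by fun_prop
          have := hc.tendsto 0
          simp only [Complex.ofReal_zero, mul_zero, add_zero] at this
          exact this.mono_left nhdsWithin_le_nhds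
        · filter_upwards [self_mem_nhdsWithin] with t ht
          have ht0 : (0:ℝ) < t := ht
          simp only [mem_compl_iff, mem_singleton_iff, add_eq_left, mul_eq_zero, Complex.ofReal_eq_zero]
          push Not
          exact ⟨by norm_num, ht0.ne'⟩
      have := riemannZeta_residue_one.comp hin
      refine this.congr fun t => ?_
      simp only [Function.comp]
      ring
    have h5 := h3.mul h2
    have h6 := (Complex.continuous_re.tendsto _).comp (h5.const_mul (1 / 2))
    have h7 := h6.const_sub (fz (1 / 2)).re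
    have e1 : (fz (1 / 2)).re - (1 / 2 * (1 * (fz (((1 / 2 : ℝ)) : ℂ) / (((1 / 2 : ℝ)) : ℂ)))).re = 0 := by
      have : (((1 / 2 : ℝ)) : ℂ) = 1 / 2 := by push_cast; rfl
      rw [this]
      have h8 : (1 / 2 * (1 * (fz (1 / 2) / (1 / 2))) : ℂ) = fz (1 / 2) := by
        field_simp
      rw [h8, sub_self]
    rw [e1] at h7
    refine h7.congr' ?_
    filter_upwards [self_mem_nhdsWithin] with t ht
    have ht0 : (0:ℝ) < t := ht
    have htc : (t : ℂ) ≠ 0 := by exact_mod_cast ht0.ne'
    simp only [Function.comp, Pi.div_apply]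
    have e2 : (((1 / 2 + t : ℝ) : ℂ) - 1 / 2) = t := by push_cast; ring
    have e3 : (2 * ((1 / 2 + t : ℝ) : ℂ)) = 1 + 2 * t := by push_cast; ring
    unfold fl
    rw [e2, e3, ← Complex.re_ofReal_mul, ← Complex.ofReal_re (fz (1 / 2)).re, ← Complex.sub_re]
    congr 1
    field_simp
    simp
  · -- a regular point
    have h2β : (2 * (β : ℂ)) ≠ 1 := by
      intro h0
      have := congrArg Complex.re h0
      simp at this
      linarith
    have hcont : ContinuousAt fl (β : ℂ) := by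
      have h1 : ContinuousAt (fun z : ℂ => riemannZeta (2 * z)) (β : ℂ) :=
        ((differentiableAt_riemannZeta h2β).comp (β : ℂ) (differentiableAt_id.const_mul 2)).continuousAt
      exact h1.mul (fz_cont (by linarith))
    have hne : (β : ℂ) ≠ 0 := by exact_mod_cast (by linarith : β ≠ 0)
    have h2 := (hcont.tendsto.comp (path_right β)).div (path_right β) hne
    have hne2 : (β : ℂ) - 1 / 2 ≠ 0 := by
      intro h0
      have := congrArg Complex.re h0
      simp at this
      linarith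
    have h3 : Tendsto (fun t : ℝ => (((fz (1 / 2)).re : ℝ) : ℂ) / (((β + t : ℝ) : ℂ) - 1 / 2)) (𝓝[>] 0)
        (𝓝 ((((fz (1 / 2)).re : ℝ) : ℂ) / ((β : ℂ) - 1 / 2))) :=
      tendsto_const_nhds.div ((path_right β).sub_const _) hne2
    have h4 := (Complex.continuous_re.tendsto _).comp (h3.sub h2)
    have h5 := t_to_zero.mul h4
    rw [zero_mul] at h5
    refine h5.congr fun t => ?_
    simp only [Function.comp, Pi.div_apply]

end U441.MP
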