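import Pool.Agent.U441.MP.Dm

/-! The main estimate: sums over `(q n + r)^κ` against integrals. -/

set_option autoImplicit false

open MeasureTheory Filter Topology Set Complex

namespace U441.MP

open Pool.Agent.H295R2 (avg step phi)

/-- summatory function -/
noncomputable def Sa (a : ℕ → ℝ) (x : ℝ) : ℝ := ∑ m ∈ Finset.Icc 1 ⌊x⌋₊, a m

/-- the weight -/
noncomputable def Wk (η σ : ℝ) (F : ℂ → ℂ) (ξ : ℝ) : ℂ :=
  (1 / Sp σ ξ) * phi η (Sp σ ξ) ^ 2 * F (Sp σ ξ)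

/-- data: bounded coefficients with a Perron formula on the line `Re s = σ` -/
structure PD (a : ℕ → ℝ) (F : ℂ → ℂ) (σ : ℝ) : Prop where
  h0 : a 0 = 0
  ha : ∀ n, |a n| ≤ 1
  bd : ∀ ε : ℝ, 0 < ε → ∃ C : ℝ, 0 < C ∧ ∀ ξ : ℝ, ‖F (Sp σ ξ)‖ ≤ C * (1 + |2 * Real.pi * ξ|) ^ ε
  ct : Continuous fun ξ : ℝ => F (Sp σ ξ)
  pr : ∀ η x : ℝ, 0 < η → η ≤ 1 → HasSum
    (fun m : ℕ => (a m : ℂ) * avg η (avg η step) ((x - Real.log m : ℝ))) (∫ ξ : ℝ, Wk η σ F ξ * cexp (Sp σ ξ * x))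

lemma Sa_measurable (a : ℕ → ℝ) : Measurable (Sa a) := by
  have : Sa a = (fun n : ℕ => ∑ m ∈ Finset.Icc 1 n, a m) ∘ (fun x : ℝ => ⌊x⌋₊) := rfl
  rw [this]
  exact (measurable_from_nat).comp Nat.measurable_floor

lemma Sa_abs {a : ℕ → ℝ} (ha : ∀ n, |a n| ≤ 1) {x : ℝ} (hx : 0 ≤ x) : |Sa a x| ≤ x := by
  unfold Sa
  calc |∑ k ∈ Finset.Icc 1 ⌊x⌋₊, a k| ≤ ∑ k ∈ Finset.Icc 1 ⌊x⌋₊, |a k| := Finset.abs_sum_le_sum_abs _ _
    _ ≤ ∑ k ∈ Finset.Icc 1 ⌊x⌋₊, (1:ℝ) := Finset.sum_le_sum fun k _ => ha k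
    _ = ⌊x⌋₊ := by simp
    _ ≤ x := Nat.floor_le hx

/-- smoothing changes the summatory function by at most `20` -/
lemma smooth_err {a : ℕ → ℝ} (h0 : a 0 = 0) (ha : ∀ n, |a n| ≤ 1) {η y : ℝ} (hη0 : 0 < η) (hη1 : η ≤ 1)
    (hy0 : 0 < y) (hyη : y * η ≤ 1) {v : ℂ}
    (hv : HasSum (fun m : ℕ => (a m : ℂ) * avg η (avg η step) ((Real.log y - Real.log m : ℝ))) v) :
    ‖((Sa a y : ℝ) : ℂ) - v‖ ≤ 20 := by
  set x : ℝ := Real.log y with hx
  set k2 := avg η (avg η step) with hk2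
  have hn : Pool.Agent.H295R2.Nice k2 1 0 (0 - η - η) :=
    (Pool.Agent.H295R2.step_nice.avg hη0).avg hη0
  set N : ℕ := ⌊y * Real.exp (2 * η)⌋₊ with hN
  have hzero : ∀ m ∉ Finset.Icc 1 N, (a m : ℂ) * k2 ((x - Real.log m : ℝ)) = 0 := by
    intro m hm
    rcases Nat.eq_zero_or_pos m with rfl | hm0
    · simp [h0]
    · have hm1 : N < m := by
        by_contra hcon
        exact hm (Finset.mem_Icc.mpr ⟨hm0, by omega⟩)
      have hm2 : y * Real.exp (2 * η) < m := (Nat.floor_lt (by positivity)).mp hm1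
      rw [hn.zero, mul_zero]
      have h3 := Real.log_lt_log (by positivity) hm2
      rw [Real.log_mul hy0.ne' (Real.exp_pos _).ne', Real.log_exp] at h3
      linarith
  have hsum := (hasSum_sum_of_ne_finset_zero hzero).unique hv
  have hfloor : ⌊y⌋₊ ≤ N := by
    rw [hN]
    refine Nat.floor_le_floor ?_
    have : 1 ≤ Real.exp (2 * η) := Real.one_le_exp (by positivity)
    nlinarith
  have hsplit : ∑ m ∈ Finset.Icc 1 N, (a m : ℂ) * k2 ((x - Real.log m : ℝ)) =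
      ((Sa a y : ℝ) : ℂ) + ∑ m ∈ Finset.Ioc ⌊y⌋₊ N, (a m : ℂ) * k2 ((x - Real.log m : ℝ)) := by
    have e0 : Finset.Icc 1 N = Finset.Icc 1 ⌊y⌋₊ ∪ Finset.Ioc ⌊y⌋₊ N := by
      ext m
      simp only [Finset.mem_Icc, Finset.mem_union, Finset.mem_Ioc]
      omega
    rw [e0, Finset.sum_union]
    · congr 1
      unfold Sa
      rw [Complex.ofReal_sum]
      refine Finset.sum_congr rfl fun m hm => ?_
      rw [Finset.mem_Icc] at hm
      have hm1 : (m:ℝ) ≤ y := (Nat.le_floor_iff hy0.le).mp hm.2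
      have hm0 : (0:ℝ) < m := by exact_mod_cast hm.1
      have : 0 ≤ x - Real.log m := by
        have := Real.log_le_log hm0 hm1
        linarith
      rw [hk2, Pool.Agent.H295R2.avg2_step_of_nonneg hη0 this, mul_one]
    · rw [Finset.disjoint_left]
      intro m hm1 hm2
      rw [Finset.mem_Icc] at hm1
      rw [Finset.mem_Ioc] at hm2
      omega
  have hrest : ‖∑ m ∈ Finset.Ioc ⌊y⌋₊ N, (a m : ℂ) * k2 ((x - Real.log m : ℝ))‖ ≤ 20 := by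
    have hb : ∀ m ∈ Finset.Ioc ⌊y⌋₊ N, ‖(a m : ℂ) * k2 ((x - Real.log m : ℝ))‖ ≤ 1 := by
      intro m _
      rw [norm_mul, Complex.norm_real, Real.norm_eq_abs]
      have h3 := ha m
      have h4 : ‖k2 ((x - Real.log m : ℝ))‖ ≤ 1 := by simpa using hn.bound (x - Real.log m)
      nlinarith [norm_nonneg (k2 ((x - Real.log m : ℝ))), abs_nonneg (a m)]
    refine (norm_sum_le_of_le _ hb).trans ?_
    rw [Finset.sum_const, Nat.card_Ioc, nsmul_eq_mul, mul_one, Nat.cast_sub hfloor]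
    have h3 : (N:ℝ) ≤ y * Real.exp (2 * η) := Nat.floor_le (by positivity)
    have h4 : y - 1 < ⌊y⌋₊ := Nat.sub_one_lt_floor y
    have h5 : Real.exp (2 * η) ≤ 1 + 2 * η * Real.exp (2 * η) := by
      have h6 := Real.add_one_le_exp (-(2 * η))
      have h7 : Real.exp (-(2 * η)) * Real.exp (2 * η) = 1 := by rw [← Real.exp_add]; simp
      nlinarith [Real.exp_pos (2 * η)]
    have h6 : Real.exp (2 * η) ≤ 9 := by
      calc Real.exp (2 * η) ≤ Real.exp 2 := Real.exp_le_exp.mpr (by linarith)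
        _ = Real.exp 1 * Real.exp 1 := by rw [← Real.exp_add]; norm_num
        _ ≤ 9 := by nlinarith [Real.exp_one_lt_d9, Real.exp_pos 1]
    have h8 : y * Real.exp (2 * η) ≤ y + 18 := by
      calc y * Real.exp (2 * η) ≤ y * (1 + 2 * η * 9) := by
            gcongr
            calc Real.exp (2 * η) ≤ 1 + 2 * η * Real.exp (2 * η) := h5
              _ ≤ 1 + 2 * η * 9 := by gcongr
        _ = y + 18 * (y * η) := by ring
        _ ≤ y + 18 := by linarith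
    linarith
  rw [← hsum, hsplit, ← sub_sub, sub_self, zero_sub, norm_neg]
  exact hrest

lemma Wk_bound {a : ℕ → ℝ} {F : ℂ → ℂ} {σ : ℝ} (h : PD a F σ) (hσ1 : 1 / 4 ≤ σ) (hσ2 : σ ≤ 2) {ε : ℝ}
    (hε : 0 < ε) (hε1 : 2 * ε ≤ 1) : ∃ C : ℝ, 0 < C ∧ ∀ η : ℝ, 0 < η → η ≤ 1 → ∀ ξ : ℝ,
      ‖Wk η σ F ξ‖ ≤ C * η ^ (-(2 * ε)) * (1 + |2 * Real.pi * ξ|) ^ (-(1 + ε)) := by
  obtain ⟨Cf, hCf, hb⟩ := h.bd ε hε
  refine ⟨5 * 550 * Cf, by positivity, fun η hη hη1 ξ => ?_⟩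
  set s : ℂ := Sp σ ξ with hs
  have hsre : s.re = σ := Sp_re σ ξ
  have hsim : s.im = 2 * Real.pi * ξ := Sp_im σ ξ
  set T : ℝ := 1 + |2 * Real.pi * ξ| with hT
  have hT0 : 0 < T := by rw [hT]; positivity
  unfold Wk
  rw [norm_mul, norm_mul, norm_pow]
  have a1 : ‖1 / s‖ ≤ 5 * T ^ (-(1:ℝ)) := by
    rw [norm_div, norm_one, Real.rpow_neg hT0.le, Real.rpow_one]
    have hs0 : 1 / 4 ≤ ‖s‖ := by
      have := Complex.abs_re_le_norm s
      rw [hsre] at this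
      exact hσ1.trans ((le_abs_self _).trans this)
    have hs1 : |2 * Real.pi * ξ| ≤ ‖s‖ := by rw [← hsim]; exact Complex.abs_im_le_norm s
    rw [← div_eq_mul_inv, div_le_div_iff₀ (by linarith) hT0]
    rw [hT]; linarith
  have a2 : ‖phi η s‖ ^ 2 ≤ 550 * (η * T) ^ (-(2 * ε)) := by
    have := Pool.Agent.H295R2.norm_phi_pow (a := 2 * ε) hη hη1 (s := s) (by rw [hsre]; exact hσ1)
      (by rw [hsre]; exact hσ2) (by positivity) hε1
    rw [hsim] at this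
    exact this
  have a4 : ‖F s‖ ≤ Cf * T ^ ε := hb ξ
  have e1 : (η * T) ^ (-(2 * ε)) = η ^ (-(2 * ε)) * T ^ (-(2 * ε)) := Real.mul_rpow hη.le hT0.le
  have e3 : T ^ (-(1:ℝ)) * T ^ (-(2 * ε)) * T ^ ε = T ^ (-(1 + ε)) := by
    rw [← Real.rpow_add hT0, ← Real.rpow_add hT0]
    congr 1; ring
  calc ‖1 / s‖ * ‖phi η s‖ ^ 2 * ‖F s‖
      ≤ (5 * T ^ (-(1:ℝ))) * (550 * (η * T) ^ (-(2 * ε))) * (Cf * T ^ ε) := by gcongr
    _ = (5 * 550 * Cf) * η ^ (-(2 * ε)) * (T ^ (-(1:ℝ)) * T ^ (-(2 * ε)) * T ^ ε) := by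
      rw [e1]; ring
    _ = _ := by rw [e3]

lemma Wk_cont {a : ℕ → ℝ} {F : ℂ → ℂ} {σ : ℝ} (h : PD a F σ) (hσ1 : 1 / 4 ≤ σ) {η : ℝ} (hη : 0 < η) :
    Continuous (Wk η σ F) := by
  have hne : ∀ ξ : ℝ, Sp σ ξ ≠ 0 := by
    intro ξ h0
    have := congrArg Complex.re h0
    rw [Sp_re, Complex.zero_re] at this
    linarith
  unfold Wk
  refine Continuous.mul (Continuous.mul ?_ ?_) h.ct
  · exact continuous_const.div (Sp_cont σ) hne
  · refine Continuous.pow ?_ 2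
    rw [continuous_iff_continuousAt]
    intro ξ
    have h1 := (Pool.Agent.H295R2.phi_differentiableAt hη (hne ξ)).continuousAt
    exact ContinuousAt.comp (f := Sp σ) h1 (Sp_cont σ).continuousAt

lemma Wk_int {a : ℕ → ℝ} {F : ℂ → ℂ} {σ : ℝ} (h : PD a F σ) (hσ1 : 1 / 4 ≤ σ) (hσ2 : σ ≤ 2) {η : ℝ}
    (hη : 0 < η) (hη1 : η ≤ 1) : Integrable (Wk η σ F) := by
  obtain ⟨C, hC, hb⟩ := Wk_bound h hσ1 hσ2 (ε := 1 / 2) (by norm_num) (by norm_num)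
  have h1 := (Pool.Agent.H295R2.integrable_decay' (a := 1 + 1 / 2) (by norm_num)).const_mul
    (C * η ^ (-(2 * (1 / 2 : ℝ))))
  exact h1.mono' (Wk_cont h hσ1 hη).aestronglyMeasurable (Eventually.of_forall fun ξ => hb η hη hη1 ξ)

/-- polynomial bound for the summatory function -/
theorem Sa_bound {a : ℕ → ℝ} {F : ℂ → ℂ} {σ : ℝ} (h : PD a F σ) (hσ1 : 1 / 4 ≤ σ) (hσ2 : σ ≤ 2) {δ : ℝ}
    (hδ : 0 < δ) : ∃ C : ℝ, 0 < C ∧ ∀ x : ℝ, 1 ≤ x → |Sa a x| ≤ C * x ^ (σ + δ) := by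
  set ε : ℝ := min (1 / 2) (δ / 2) with hε
  have hε0 : 0 < ε := by rw [hε]; positivity
  have hε1 : 2 * ε ≤ 1 := by have := min_le_left (1 / 2 : ℝ) (δ / 2); linarith
  have hε2 : 2 * ε ≤ δ := by have := min_le_right (1 / 2 : ℝ) (δ / 2); linarith
  obtain ⟨C, hC, hb⟩ := Wk_bound h hσ1 hσ2 hε0 hε1
  set I0 : ℝ := ∫ ξ : ℝ, (1 + |2 * Real.pi * ξ|) ^ (-(1 + ε)) with hI0
  have hI0' : 0 ≤ I0 := integral_nonneg fun ξ => by positivity
  refine ⟨C * I0 + 20, by positivity, fun x hx => ?_⟩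
  have hx0 : 0 < x := by linarith
  have hη0 : 0 < 1 / x := by positivity
  have hη1 : 1 / x ≤ 1 := by rw [div_le_one hx0]; exact hx
  have hp := h.pr (1 / x) (Real.log x) hη0 hη1
  have he := smooth_err h.h0 h.ha hη0 hη1 hx0 (by rw [mul_one_div_cancel hx0.ne']) hp
  have hn : ‖∫ ξ : ℝ, Wk (1 / x) σ F ξ * cexp (Sp σ ξ * Real.log x)‖ ≤ C * I0 * x ^ (σ + δ) := by
    have hpt : ∀ ξ : ℝ, ‖Wk (1 / x) σ F ξ * cexp (Sp σ ξ * Real.log x)‖ ≤
        (C * x ^ (σ + δ)) * (1 + |2 * Real.pi * ξ|) ^ (-(1 + ε)) := by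
      intro ξ
      rw [norm_mul]
      have e1 : ‖cexp (Sp σ ξ * Real.log x)‖ = x ^ σ := by
        rw [Complex.norm_exp, Real.rpow_def_of_pos hx0, Complex.mul_re, Sp_re, Complex.ofReal_re,
          Complex.ofReal_im, mul_zero, sub_zero, mul_comm]
      have e2 : (1 / x) ^ (-(2 * ε)) = x ^ (2 * ε) := by
        rw [one_div, Real.inv_rpow hx0.le, ← Real.rpow_neg hx0.le, neg_neg]
      have e3 : x ^ (2 * ε) * x ^ σ ≤ x ^ (σ + δ) := by
        rw [← Real.rpow_add hx0]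
        exact Real.rpow_le_rpow_of_exponent_le hx (by linarith)
      have h3 := hb (1 / x) hη0 hη1 ξ
      rw [e2] at h3
      rw [e1]
      have hT : 0 ≤ (1 + |2 * Real.pi * ξ|) ^ (-(1 + ε)) := by positivity
      calc ‖Wk (1 / x) σ F ξ‖ * x ^ σ ≤ (C * x ^ (2 * ε) * (1 + |2 * Real.pi * ξ|) ^ (-(1 + ε))) * x ^ σ := by
            gcongr
        _ = C * (x ^ (2 * ε) * x ^ σ) * (1 + |2 * Real.pi * ξ|) ^ (-(1 + ε)) := by ring
        _ ≤ _ := by gcongr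
    have hI := (Pool.Agent.H295R2.integrable_decay' (a := 1 + ε) (by linarith)).const_mul (C * x ^ (σ + δ))
    calc _ ≤ ∫ ξ : ℝ, (C * x ^ (σ + δ)) * (1 + |2 * Real.pi * ξ|) ^ (-(1 + ε)) :=
          norm_integral_le_of_norm_le hI (Eventually.of_forall hpt)
      _ = _ := by rw [integral_const_mul]; ring
  have h1 : |Sa a x| = ‖((Sa a x : ℝ) : ℂ)‖ := by rw [Complex.norm_real, Real.norm_eq_abs]
  rw [h1]
  have h2 : ‖((Sa a x : ℝ) : ℂ)‖ ≤ ‖((Sa a x : ℝ) : ℂ) - ∫ ξ : ℝ, Wk (1 / x) σ F ξ * cexp (Sp σ ξ * Real.log x)‖ +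
      ‖∫ ξ : ℝ, Wk (1 / x) σ F ξ * cexp (Sp σ ξ * Real.log x)‖ := by
    have := norm_add_le (((Sa a x : ℝ) : ℂ) - ∫ ξ : ℝ, Wk (1 / x) σ F ξ * cexp (Sp σ ξ * Real.log x))
      (∫ ξ : ℝ, Wk (1 / x) σ F ξ * cexp (Sp σ ξ * Real.log x))
    rwa [sub_add_cancel] at this
  have hyσ : 1 ≤ x ^ (σ + δ) := Real.one_le_rpow hx (by linarith)
  nlinarith

/-- **Main estimate.** -/
theorem main_est {a : ℕ → ℝ} {F : ℂ → ℂ} {σ : ℝ} (h : PD a F σ) (hσ1 : 1 / 4 ≤ σ) (hσ2 : σ ≤ 2)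
    {κ q r δ : ℝ} (hκ : 0 < κ) (hq : 0 < q) (hr : 0 ≤ r) (hδ : 0 < δ) :
    ∃ C : ℝ, 0 < C ∧ ∀ N : ℕ, 1 ≤ N →
      |∑ n ∈ Finset.Icc 1 N, Sa a (yy q r n ^ κ) - ∫ u in (1:ℝ)..N, Sa a (yy q r u ^ κ)| ≤
        C * ((N:ℝ) ^ (κ * σ + 2 / 3 + δ) + N) := by
  set ε : ℝ := min (1 / 2) (δ / (2 * κ)) with hε
  have hε0 : 0 < ε := by rw [hε]; positivity
  have hε1 : 2 * ε ≤ 1 := by have := min_le_left (1 / 2 : ℝ) (δ / (2 * κ)); linarith
  have hε2 : κ * (2 * ε) ≤ δ := by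
    have := min_le_right (1 / 2 : ℝ) (δ / (2 * κ))
    calc κ * (2 * ε) ≤ κ * (2 * (δ / (2 * κ))) := by gcongr
      _ = δ := by field_simp
  have hσ0 : 0 < σ := by linarith
  obtain ⟨C, hC, hb⟩ := Wk_bound h hσ1 hσ2 hε0 hε1
  obtain ⟨D, hD, hdm⟩ := De_main hκ hq hr hσ0 hε0
  set g : ℝ := max 1 (q + r) with hg
  have hg1 : 1 ≤ g := le_max_left _ _
  refine ⟨C * D * g ^ δ + 40, by positivity, fun N hN => ?_⟩
  have hN1 : (1:ℝ) ≤ N := by exact_mod_cast hN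
  have hN0 : (0:ℝ) < N := by linarith
  have hy := yy_pos hq hr hN0
  set Y := yy q r N with hY
  have hYg : Y ≤ g * N := by
    have : q + r ≤ g := le_max_right _ _
    rw [hY]; unfold yy; nlinarith
  set M : ℝ := max 1 (Y ^ κ) with hM
  have hM1 : 1 ≤ M := le_max_left _ _
  have hM0 : 0 < M := by linarith
  set η : ℝ := 1 / M with hη
  have hη0 : 0 < η := by positivity
  have hη1 : η ≤ 1 := by rw [hη, div_le_one hM0]; exact hM1
  set W : ℝ → ℂ := Wk η σ F with hW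
  have hWi : Integrable W := Wk_int h hσ1 hσ2 hη0 hη1
  have hWc : Continuous W := Wk_cont h hσ1 hη0
  set v : ℝ → ℂ := fun u => ∫ ξ : ℝ, W ξ * Ee κ q r (Sp σ ξ) u with hv
  -- smoothing
  have hyu : ∀ u ∈ Icc (1:ℝ) N, 0 < yy q r u ∧ yy q r u ≤ Y := by
    intro u hu
    refine ⟨yy_pos hq hr (by linarith [hu.1]), ?_⟩
    rw [hY]; unfold yy; nlinarith [hu.2]
  have herr : ∀ u ∈ Icc (1:ℝ) N, ‖((Sa a (yy q r u ^ κ) : ℝ) : ℂ) - v u‖ ≤ 20 := by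
    intro u hu
    obtain ⟨h1, h2⟩ := hyu u hu
    have hx0 : 0 < yy q r u ^ κ := Real.rpow_pos_of_pos h1 _
    have hp := h.pr η (Real.log (yy q r u ^ κ)) hη0 hη1
    have hxη : yy q r u ^ κ * η ≤ 1 := by
      rw [hη, mul_one_div, div_le_one hM0]
      exact (Real.rpow_le_rpow h1.le h2 hκ.le).trans (le_max_right _ _)
    have := smooth_err h.h0 h.ha hη0 hη1 hx0 hxη hp
    have e1 : (∫ ξ : ℝ, Wk η σ F ξ * cexp (Sp σ ξ * ((Real.log (yy q r u ^ κ) : ℝ) : ℂ))) = v u := by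
      rw [hv]
      simp only [Ee]
      rw [Real.log_rpow h1]
    rwa [e1] at this
  -- bounds for the exponentials
  have hEb : ∀ u ∈ Icc (1:ℝ) N, ∀ ξ : ℝ, ‖Ee κ q r (Sp σ ξ) u‖ ≤ Y ^ (κ * σ) := by
    intro u hu ξ
    rw [norm_Ee hq hr (by linarith [hu.1]), Sp_re]
    exact Real.rpow_le_rpow (hyu u hu).1.le (hyu u hu).2 (by positivity)
  have hEc : ∀ u : ℝ, Continuous fun ξ : ℝ => Ee κ q r (Sp σ ξ) u := by
    intro u
    have := Sp_cont σ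
    unfold Ee
    fun_prop
  have hWE : ∀ u ∈ Icc (1:ℝ) N, Integrable fun ξ : ℝ => W ξ * Ee κ q r (Sp σ ξ) u := by
    intro u hu
    refine (hWi.norm.const_mul (Y ^ (κ * σ))).mono' (hWc.mul (hEc u)).aestronglyMeasurable
      (Eventually.of_forall fun ξ => ?_)
    rw [norm_mul, mul_comm]
    exact mul_le_mul_of_nonneg_right (hEb u hu ξ) (norm_nonneg _)
  -- Fubini
  set μ₁ : Measure ℝ := volume.restrict (Ioc (1:ℝ) N) with hμ₁
  have hprod : Integrable (fun p : ℝ × ℝ => W p.2 * Ee κ q r (Sp σ p.2) p.1) (μ₁.prod volume) := by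
    have h1 : Integrable (fun p : ℝ × ℝ => Y ^ (κ * σ) * ‖W p.2‖) (μ₁.prod volume) :=
      (hWi.norm.comp_snd μ₁).const_mul _
    refine h1.mono' ?_ ?_
    · refine Measurable.aestronglyMeasurable ?_
      have m1 : Measurable fun p : ℝ × ℝ => W p.2 := hWc.measurable.comp measurable_snd
      have m2 : Measurable fun p : ℝ × ℝ => Ee κ q r (Sp σ p.2) p.1 := by
        unfold Ee yy
        have := (Sp_cont σ).measurable
        fun_prop
      exact m1.mul m2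
    · have hae : ∀ᵐ p ∂(μ₁.prod (volume : Measure ℝ)), p.1 ∈ Ioc (1:ℝ) N := by
        have h2 : ∀ᵐ u ∂μ₁, u ∈ Ioc (1:ℝ) N := ae_restrict_mem measurableSet_Ioc
        exact Measure.quasiMeasurePreserving_fst.ae h2
      filter_upwards [hae] with p hp
      rw [norm_mul, mul_comm]
      exact mul_le_mul_of_nonneg_right (hEb p.1 ⟨hp.1.le, hp.2⟩ p.2) (norm_nonneg _)
  have hswap : ∫ u in (1:ℝ)..N, v u = ∫ ξ : ℝ, W ξ * ∫ u in (1:ℝ)..N, Ee κ q r (Sp σ ξ) u := by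
    rw [intervalIntegral.integral_of_le hN1]
    simp_rw [hv]
    rw [integral_integral_swap hprod]
    refine integral_congr_ae (Eventually.of_forall fun ξ => ?_)
    simp only
    rw [intervalIntegral.integral_of_le hN1, ← integral_const_mul]
  have hvi : IntervalIntegrable v volume 1 N := by
    rw [intervalIntegrable_iff_integrableOn_Ioc_of_le hN1]
    exact hprod.integral_prod_left
  have hIi : Integrable fun ξ : ℝ => W ξ * ∫ u in (1:ℝ)..N, Ee κ q r (Sp σ ξ) u := by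
    have h1 := hprod.swap.integral_prod_left
    refine h1.congr (Eventually.of_forall fun ξ => ?_)
    simp only [Function.comp, Prod.swap]
    rw [intervalIntegral.integral_of_le hN1, ← integral_const_mul]
  have hZ : ∑ n ∈ Finset.Icc 1 N, v n - ∫ u in (1:ℝ)..N, v u = ∫ ξ : ℝ, W ξ * De κ q r N (Sp σ ξ) := by
    rw [hswap]
    have e1 : ∑ n ∈ Finset.Icc 1 N, v n = ∫ ξ : ℝ, ∑ n ∈ Finset.Icc 1 N, W ξ * Ee κ q r (Sp σ ξ) n := by
      rw [integral_finsetSum]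
      intro n hn
      rw [Finset.mem_Icc] at hn
      exact hWE n ⟨by exact_mod_cast hn.1, by exact_mod_cast hn.2⟩
    rw [e1, ← integral_sub]
    · refine integral_congr_ae (Eventually.of_forall fun ξ => ?_)
      simp only [De]
      rw [mul_sub, Finset.mul_sum]
    · refine integrable_finsetSum _ fun n hn => ?_
      rw [Finset.mem_Icc] at hn
      exact hWE n ⟨by exact_mod_cast hn.1, by exact_mod_cast hn.2⟩
    · exact hIi
  have hZb : ‖∫ ξ : ℝ, W ξ * De κ q r N (Sp σ ξ)‖ ≤ C * D * g ^ δ * (N:ℝ) ^ (κ * σ + 2 / 3 + δ) := by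
    obtain ⟨hi, hle⟩ := hdm N hN
    have hpt : ∀ ξ : ℝ, ‖W ξ * De κ q r N (Sp σ ξ)‖ ≤
        (C * η ^ (-(2 * ε))) * (‖De κ q r N (Sp σ ξ)‖ * (1 + |2 * Real.pi * ξ|) ^ (-(1 + ε))) := by
      intro ξ
      rw [norm_mul]
      calc ‖W ξ‖ * ‖De κ q r N (Sp σ ξ)‖ ≤
          (C * η ^ (-(2 * ε)) * (1 + |2 * Real.pi * ξ|) ^ (-(1 + ε))) * ‖De κ q r N (Sp σ ξ)‖ :=
            mul_le_mul_of_nonneg_right (hb η hη0 hη1 ξ) (norm_nonneg _)
        _ = _ := by ring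
    have h1 : ‖∫ ξ : ℝ, W ξ * De κ q r N (Sp σ ξ)‖ ≤ (C * η ^ (-(2 * ε))) * (D * (N:ℝ) ^ (κ * σ + 2 / 3)) := by
      refine (norm_integral_le_of_norm_le (hi.const_mul _) (Eventually.of_forall hpt)).trans ?_
      rw [integral_const_mul]
      exact mul_le_mul_of_nonneg_left hle (by positivity)
    refine h1.trans ?_
    have e1 : η ^ (-(2 * ε)) = M ^ (2 * ε) := by
      rw [hη, one_div, Real.inv_rpow hM0.le, ← Real.rpow_neg hM0.le, neg_neg]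
    have e2 : M ^ (2 * ε) ≤ g ^ δ * (N:ℝ) ^ δ := by
      have hgN : 1 ≤ g * N := by nlinarith
      have h3 : M ≤ (g * N) ^ κ := by
        rw [hM]
        refine max_le (Real.one_le_rpow hgN hκ.le) (Real.rpow_le_rpow hy.le hYg hκ.le)
      calc M ^ (2 * ε) ≤ ((g * N) ^ κ) ^ (2 * ε) := Real.rpow_le_rpow hM0.le h3 (by positivity)
        _ = (g * N) ^ (κ * (2 * ε)) := by rw [← Real.rpow_mul (by positivity)]
        _ ≤ (g * N) ^ δ := Real.rpow_le_rpow_of_exponent_le hgN hε2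
        _ = _ := Real.mul_rpow (by positivity) hN0.le
    rw [e1]
    calc C * M ^ (2 * ε) * (D * (N:ℝ) ^ (κ * σ + 2 / 3)) ≤
        C * (g ^ δ * (N:ℝ) ^ δ) * (D * (N:ℝ) ^ (κ * σ + 2 / 3)) := by gcongr
      _ = C * D * g ^ δ * ((N:ℝ) ^ (κ * σ + 2 / 3) * (N:ℝ) ^ δ) := by ring
      _ = _ := by rw [← Real.rpow_add hN0]
  -- the integral of the summatory function
  have hSm : Measurable fun u : ℝ => Sa a (yy q r u ^ κ) := by
    refine (Sa_measurable a).comp ?_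
    unfold yy
    fun_prop
  have hSi : IntervalIntegrable (fun u : ℝ => Sa a (yy q r u ^ κ)) volume 1 N := by
    rw [intervalIntegrable_iff_integrableOn_Ioc_of_le hN1]
    refine Measure.integrableOn_of_bounded (by simp) hSm.aestronglyMeasurable (M := Y ^ κ)
      ((ae_restrict_iff' measurableSet_Ioc).2 (ae_of_all _ fun u hu => ?_))
    obtain ⟨h1, h2⟩ := hyu u ⟨hu.1.le, hu.2⟩
    rw [Real.norm_eq_abs]
    exact (Sa_abs h.ha (Real.rpow_nonneg h1.le _)).trans (Real.rpow_le_rpow h1.le h2 hκ.le)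
  have hSic : IntervalIntegrable (fun u : ℝ => ((Sa a (yy q r u ^ κ) : ℝ) : ℂ)) volume 1 N := by
    rw [intervalIntegrable_iff] at hSi ⊢
    exact hSi.ofReal
  have hfin : ((∑ n ∈ Finset.Icc 1 N, Sa a (yy q r n ^ κ) - ∫ u in (1:ℝ)..N, Sa a (yy q r u ^ κ) : ℝ) : ℂ) =
      (∑ n ∈ Finset.Icc 1 N, (((Sa a (yy q r n ^ κ) : ℝ) : ℂ) - v n)) -
        (∫ u in (1:ℝ)..N, (((Sa a (yy q r u ^ κ) : ℝ) : ℂ) - v u)) + ∫ ξ : ℝ, W ξ * De κ q r N (Sp σ ξ) := by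
    rw [← hZ, intervalIntegral.integral_sub hSic hvi, Finset.sum_sub_distrib, Complex.ofReal_sub,
      Complex.ofReal_sum, ← intervalIntegral.integral_ofReal]
    ring
  have hnorm : |∑ n ∈ Finset.Icc 1 N, Sa a (yy q r n ^ κ) - ∫ u in (1:ℝ)..N, Sa a (yy q r u ^ κ)| =
      ‖((∑ n ∈ Finset.Icc 1 N, Sa a (yy q r n ^ κ) - ∫ u in (1:ℝ)..N, Sa a (yy q r u ^ κ) : ℝ) : ℂ)‖ := by
    rw [Complex.norm_real, Real.norm_eq_abs]
  rw [hnorm, hfin]
  have b1 : ‖∑ n ∈ Finset.Icc 1 N, (((Sa a (yy q r n ^ κ) : ℝ) : ℂ) - v n)‖ ≤ 20 * N := by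
    refine (norm_sum_le_of_le (f := fun n : ℕ => (((Sa a (yy q r n ^ κ) : ℝ) : ℂ) - v n))
      (n := fun _ => (20:ℝ)) _ ?_).trans ?_
    · intro n hn
      rw [Finset.mem_Icc] at hn
      exact herr n ⟨by exact_mod_cast hn.1, by exact_mod_cast hn.2⟩
    · rw [Finset.sum_const, Nat.card_Icc, nsmul_eq_mul, Nat.add_sub_cancel]
      linarith
  have b2 : ‖∫ u in (1:ℝ)..N, (((Sa a (yy q r u ^ κ) : ℝ) : ℂ) - v u)‖ ≤ 20 * N := by
    refine (intervalIntegral.norm_integral_le_of_norm_le_const (C := 20) fun u hu => ?_).trans ?_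
    · rw [uIoc_of_le hN1] at hu
      exact herr u ⟨hu.1.le, hu.2⟩
    · rw [abs_of_nonneg (by linarith)]
      linarith
  calc _ ≤ 20 * N + 20 * N + C * D * g ^ δ * (N:ℝ) ^ (κ * σ + 2 / 3 + δ) :=
        (norm_add_le _ _).trans (add_le_add ((norm_sub_le _ _).trans (add_le_add b1 b2)) hZb)
    _ ≤ _ := by
        have h1 : 0 < (N:ℝ) ^ (κ * σ + 2 / 3 + δ) := Real.rpow_pos_of_pos hN0 _
        have h2 : 0 < C * D * g ^ δ := by positivity
        nlinarith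

end U441.MP
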