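import Pool.Agent.H295R2.M
import Pool.Agent.H534R2.BH_Lam
import Pool.Agent.U441.MP.Pe

/-! Perron formula with averaged kernels for general coefficients (after `Pool.Agent.H295R2.perron`), and the
instances for the Moebius and the Liouville function. -/

set_option autoImplicit false

open MeasureTheory Filter Topology Set

namespace U441.MP

open Pool.Agent.H295R2

noncomputable section

/-- The integrand in the Perron formula. -/
def PG (Fc : ℂ → ℂ) (η x : ℝ) (k : ℝ → ℂ) (s : ℂ) : ℂ :=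
  Lap k s * phi η s ^ 2 * Complex.exp (s * x) * Fc s

lemma PG_bound {Fc : ℂ → ℂ} {η x σ : ℝ} {k : ℝ → ℂ} {C u₀ Cf : ℝ} (h : Nice k C 0 u₀) (hη : 0 < η) (hη1 : η ≤ 1)
    (hσ : 0 < σ)
    (hf : ∀ s : ℂ, σ ≤ s.re → s.re ≤ 2 → ‖Fc s‖ ≤ Cf * (1 + |s.im|) ^ (1 / 2 : ℝ)) :
    ∃ B : ℝ, ∀ s : ℂ, σ ≤ s.re → s.re ≤ 2 → ‖PG Fc η x k s‖ ≤ B * (1 + |s.im|) ^ (-(3 / 2 : ℝ)) := by
  have hC := h.C_nonneg
  refine ⟨(C * Real.exp (2 * |u₀|) / σ) * (1000 / η ^ 2) * Real.exp (2 * |x|) * Cf, fun s hs1 hs2 => ?_⟩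
  have hre : 0 < s.re := by linarith
  have hCf : 0 ≤ Cf := by
    have h1 := (norm_nonneg _).trans (hf s hs1 hs2)
    have h2 : 0 < (1 + |s.im|) ^ (1 / 2 : ℝ) := by positivity
    exact nonneg_of_mul_nonneg_left h1 h2
  have h1 : ‖Lap k s‖ ≤ C * Real.exp (2 * |u₀|) / σ := by
    have h2 := h.norm_Lap_le hre
    refine h2.trans ?_
    have h3 : (0 - s.re) * u₀ ≤ 2 * |u₀| := by
      have h5 := neg_abs_le u₀
      have h6 := abs_nonneg u₀
      nlinarith
    have h4 : σ ≤ s.re - 0 := by linarith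
    gcongr
  have h2 := norm_phi_sq_le hη hη1 hre hs2
  have h3 : ‖Complex.exp (s * x)‖ ≤ Real.exp (2 * |x|) := by
    rw [Complex.norm_exp]
    apply Real.exp_le_exp.mpr
    simp only [Complex.mul_re, Complex.ofReal_re, Complex.ofReal_im, mul_zero, sub_zero]
    have h5 := le_abs_self x
    have h6 := abs_nonneg x
    nlinarith
  have h4 := hf s hs1 hs2
  unfold PG
  rw [norm_mul, norm_mul, norm_mul, norm_pow]
  have e1 : (1 + |s.im|) ^ (-2 : ℝ) * (1 + |s.im|) ^ (1 / 2 : ℝ) = (1 + |s.im|) ^ (-(3 / 2 : ℝ)) := by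
    rw [← Real.rpow_add (by positivity)]
    norm_num
  calc ‖Lap k s‖ * ‖phi η s‖ ^ 2 * ‖Complex.exp (s * x)‖ * ‖Fc s‖
      ≤ (C * Real.exp (2 * |u₀|) / σ) * ((1000 / η ^ 2) * (1 + |s.im|) ^ (-2 : ℝ)) *
          Real.exp (2 * |x|) * (Cf * (1 + |s.im|) ^ (1 / 2 : ℝ)) := by gcongr
    _ = (C * Real.exp (2 * |u₀|) / σ) * (1000 / η ^ 2) * Real.exp (2 * |x|) * Cf *
          ((1 + |s.im|) ^ (-2 : ℝ) * (1 + |s.im|) ^ (1 / 2 : ℝ)) := by ring
    _ = _ := by rw [e1]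


/-- **Perron formula** for the doubly averaged kernel. -/
theorem perron_gen {Fc : ℂ → ℂ} {a : ℕ → ℂ} {σ η x : ℝ} {k : ℝ → ℂ} {C u₀ : ℝ} (hσ0 : 0 < σ) (hσ2 : σ ≤ 2)
    (ha0 : a 0 = 0) (ha : ∀ n, ‖a n‖ ≤ 1) (hFd : ∀ s : ℂ, σ ≤ s.re → s.re ≤ 2 → DifferentiableAt ℂ Fc s)
    (hFb : ∃ Cf : ℝ, ∀ s : ℂ, σ ≤ s.re → s.re ≤ 2 → ‖Fc s‖ ≤ Cf * (1 + |s.im|) ^ (1 / 2 : ℝ))
    (hL : ∀ s : ℂ, s.re = 2 → LSeries a s = Fc s)
    (h : Nice k C 0 u₀) (hη : 0 < η) (hη1 : η ≤ 1) :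
    HasSum (fun m : ℕ => a m * avg η (avg η k) (x - Real.log m))
      (∫ ξ : ℝ, PG Fc η x k (σ + 2 * Real.pi * ξ * Complex.I)) := by
  obtain ⟨Cf, hCf⟩ := hFb
  obtain ⟨B, hB⟩ := PG_bound (x := x) h hη hη1 hσ0 hCf
  have hd : ∀ s : ℂ, σ ≤ s.re → s.re ≤ 2 → DifferentiableAt ℂ (PG Fc η x k) s := by
    intro s hs1 hs2
    have hs0 : s ≠ 0 := by rintro rfl; simp at hs1; linarith
    unfold PG
    have e1 : DifferentiableAt ℂ (Lap k) s := h.Lap_differentiableAt (by linarith)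
    have e2 := phi_differentiableAt hη hs0
    have e3 := hFd s hs1 hs2
    fun_prop
  -- shift the line
  have hshift := contour_shift hσ2 hd hB
  have hline : ∫ ξ : ℝ, PG Fc η x k (σ + 2 * Real.pi * ξ * Complex.I) =
      ∫ ξ : ℝ, PG Fc η x k ((2:ℝ) + 2 * Real.pi * ξ * Complex.I) := by
    rw [scale_integral, scale_integral, hshift]
  rw [hline]
  -- the formula on Re s = 2
  set k1 := avg η k with hk1
  set k2 := avg η k1 with hk2
  have hn1 : Nice k1 C 0 (u₀ - η) := h.avg hη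
  have hn2 : Nice k2 C 0 (u₀ - η - η) := hn1.avg hη
  have hLap2 : ∀ s : ℂ, 0 < s.re → Lap k2 s = Lap k s * phi η s ^ 2 := by
    intro s hs
    rw [hk2, hn1.Lap_avg hη hs, hk1, h.Lap_avg hη hs]
    ring
  set G : ℂ → ℂ := fun s => Lap k2 s * Complex.exp (s * x) with hG
  -- bound for G on Re s = 2
  have hre2 : ∀ ξ : ℝ, (((2:ℝ) : ℂ) + 2 * Real.pi * ξ * Complex.I).re = 2 := by
    intro ξ; simp
  have hre2' : ∀ y : ℝ, (((2:ℝ) : ℂ) + y * Complex.I).re = 2 := by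
    intro ξ; simp
  have hLint : Integrable (fun ξ : ℝ => Lap k2 ((2:ℝ) + 2 * Real.pi * ξ * Complex.I)) := by
    refine scale_integrable (H := Lap k2) ?_
    refine vertical_integrable (B := C * Real.exp (2 * |u₀|) / 2 * (1000 / η ^ 2)) ?_ ?_
    · intro s hs
      exact (hn2.Lap_differentiableAt (by rw [hs]; norm_num)).continuousAt
    · intro s hs
      have hs0 : 0 < s.re := by rw [hs]; norm_num
      rw [hLap2 s hs0, norm_mul, norm_pow]
      have h1 : ‖Lap k s‖ ≤ C * Real.exp (2 * |u₀|) / 2 := by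
        have h2 := h.norm_Lap_le hs0
        rw [hs] at h2
        refine h2.trans ?_
        have h3 : (0 - 2) * u₀ ≤ 2 * |u₀| := by
          have h5 := neg_abs_le u₀
          linarith
        have hC := h.C_nonneg
        rw [sub_zero]
        gcongr
      have h2 := norm_phi_sq_le hη hη1 hs0 hs.le
      have h3 : (1 + |s.im|) ^ (-2 : ℝ) ≤ (1 + |s.im|) ^ (-(3 / 2 : ℝ)) :=
        Real.rpow_le_rpow_of_exponent_le (by linarith [abs_nonneg s.im]) (by norm_num)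
      have hC := h.C_nonneg
      calc ‖Lap k s‖ * ‖phi η s‖ ^ 2 ≤ (C * Real.exp (2 * |u₀|) / 2) *
            ((1000 / η ^ 2) * (1 + |s.im|) ^ (-2 : ℝ)) := by gcongr
        _ ≤ (C * Real.exp (2 * |u₀|) / 2) * ((1000 / η ^ 2) * (1 + |s.im|) ^ (-(3 / 2 : ℝ))) := by gcongr
        _ = _ := by ring
  set F : ℕ → ℝ → ℂ := fun m ξ => Lap k2 ((2:ℝ) + 2 * Real.pi * ξ * Complex.I) *
      Complex.exp (((2:ℝ) + 2 * Real.pi * ξ * Complex.I) * x) *
      LSeries.term a ((2:ℝ) + 2 * Real.pi * ξ * Complex.I) m with hF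
  have hFeq : ∀ m : ℕ, ∀ ξ : ℝ, F m ξ = a m *
      (Lap k2 ((2:ℝ) + 2 * Real.pi * ξ * Complex.I) *
      Complex.exp (((2:ℝ) + 2 * Real.pi * ξ * Complex.I) * ((x - Real.log m : ℝ) : ℂ))) := by
    intro m ξ
    rcases Nat.eq_zero_or_pos m with rfl | hm
    · simp [hF, LSeries.term, ha0]
    · have hm0 : (m : ℂ) ≠ 0 := by exact_mod_cast hm.ne'
      rw [hF]
      simp only
      rw [LSeries.term_of_ne_zero hm.ne']
      have e1 : Complex.exp (((2:ℝ) + 2 * Real.pi * ξ * Complex.I) * ((x - Real.log m : ℝ) : ℂ)) =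
          Complex.exp (((2:ℝ) + 2 * Real.pi * ξ * Complex.I) * x) /
            (m : ℂ) ^ (((2:ℝ) : ℂ) + 2 * Real.pi * ξ * Complex.I) := by
        rw [Complex.cpow_def_of_ne_zero hm0, ← Complex.exp_sub]
        congr 1
        rw [Complex.ofReal_sub, Complex.natCast_log]
        ring
      rw [e1]
      ring
  have hFnorm : ∀ m : ℕ, ∀ ξ : ℝ, ‖F m ξ‖ ≤ (Real.exp (2 * x) * (1 / (m:ℝ) ^ 2)) *
      ‖Lap k2 ((2:ℝ) + 2 * Real.pi * ξ * Complex.I)‖ := by
    intro m ξ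
    rw [hF]
    simp only
    rw [norm_mul, norm_mul]
    have e1 : ‖Complex.exp (((2:ℝ) + 2 * Real.pi * ξ * Complex.I) * x)‖ = Real.exp (2 * x) := by
      rw [Complex.norm_exp]; congr 1; simp
    have e2 : ‖LSeries.term a
        (((2:ℝ) : ℂ) + 2 * Real.pi * ξ * Complex.I) m‖ ≤ 1 / (m:ℝ) ^ 2 := by
      rw [LSeries.norm_term_eq, hre2]
      split_ifs with hm
      · positivity
      · have h1 : ‖a m‖ ≤ 1 := ha m
        have h2 : (m:ℝ) ^ (2:ℝ) = (m:ℝ) ^ 2 := by norm_num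
        rw [h2]
        gcongr
    rw [e1]
    have h3 : 0 ≤ ‖Lap k2 ((2:ℝ) + 2 * Real.pi * ξ * Complex.I)‖ := norm_nonneg _
    have h4 : 0 < Real.exp (2 * x) := Real.exp_pos _
    calc _ ≤ ‖Lap k2 ((2:ℝ) + 2 * Real.pi * ξ * Complex.I)‖ * Real.exp (2 * x) * (1 / (m:ℝ) ^ 2) := by
          gcongr
      _ = _ := by ring
  have hFint : ∀ m : ℕ, Integrable (F m) := by
    intro m
    refine (hLint.norm.const_mul (Real.exp (2 * x) * (1 / (m:ℝ) ^ 2))).mono' ?_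
      (Eventually.of_forall fun ξ => hFnorm m ξ)
    have : F m = fun ξ : ℝ => a m *
      (Lap k2 ((2:ℝ) + 2 * Real.pi * ξ * Complex.I) *
      Complex.exp (((2:ℝ) + 2 * Real.pi * ξ * Complex.I) * ((x - Real.log m : ℝ) : ℂ))) := by
      ext ξ; exact hFeq m ξ
    rw [this]
    refine AEStronglyMeasurable.const_mul ?_ _
    refine hLint.aestronglyMeasurable.mul (Continuous.aestronglyMeasurable ?_)
    fun_prop
  have hFsum : Summable (fun m : ℕ => ∫ ξ, ‖F m ξ‖) := by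
    refine Summable.of_nonneg_of_le (fun m => integral_nonneg fun ξ => norm_nonneg _)
      (f := fun m : ℕ => (Real.exp (2 * x) * ∫ ξ : ℝ, ‖Lap k2 ((2:ℝ) + 2 * Real.pi * ξ * Complex.I)‖) *
        (1 / (m:ℝ) ^ 2)) ?_ ?_
    · intro m
      calc ∫ ξ, ‖F m ξ‖ ≤ ∫ ξ : ℝ, (Real.exp (2 * x) * (1 / (m:ℝ) ^ 2)) *
            ‖Lap k2 ((2:ℝ) + 2 * Real.pi * ξ * Complex.I)‖ :=
            integral_mono (hFint m).norm (hLint.norm.const_mul _) (hFnorm m)
        _ = _ := by rw [integral_const_mul]; ring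
    · exact (Real.summable_one_div_nat_pow.mpr (by norm_num)).mul_left _
  have key := hasSum_integral_of_summable_integral_norm hFint hFsum
  have e1 : ∀ m : ℕ, ∫ ξ, F m ξ = a m * k2 (x - Real.log m) := by
    intro m
    simp_rw [hFeq]
    rw [integral_const_mul]
    congr 1
    exact (inversion hn2 (by norm_num : (0:ℝ) < 2) (hn1.avg_continuous η) hLint (x - Real.log m)).symm
  have e2 : ∫ ξ, ∑' m, F m ξ = ∫ ξ : ℝ, PG Fc η x k ((2:ℝ) + 2 * Real.pi * ξ * Complex.I) := by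
    refine integral_congr_ae (Eventually.of_forall fun ξ => ?_)
    simp only [hF]
    rw [tsum_mul_left]
    have h1 := hL (((2:ℝ) : ℂ) + 2 * Real.pi * ξ * Complex.I) (hre2 ξ)
    unfold LSeries at h1
    rw [h1]
    unfold PG
    rw [hLap2 _ (by rw [hre2]; norm_num)]
  simp_rw [e1] at key
  rw [e2] at key
  exact key

/-! ## Instances -/

/-- the Liouville function -/
def laR (n : ℕ) : ℝ := ((ArithmeticFunction.liouville n : ℤ) : ℝ)

open Classical in
/-- the indicator of the squares of positive integers -/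
def sqC (n : ℕ) : ℂ := if ∃ m : ℕ, n = (m + 1) ^ 2 then 1 else 0

lemma laR_zero : laR 0 = 0 := by simp [laR]

lemma laR_eq {n : ℕ} (hn : n ≠ 0) : laR n = (-1) ^ ArithmeticFunction.cardFactors n := by
  unfold laR
  rw [ArithmeticFunction.liouville_apply hn]
  push_cast
  rfl

lemma laR_abs (n : ℕ) : |laR n| ≤ 1 := by
  rcases eq_or_ne n 0 with rfl | hn
  · rw [laR_zero]; simp
  · rw [laR_eq hn, abs_pow]
    simp

lemma la_conv {n : ℕ} (hn : n ≠ 0) :
    ((laR n : ℝ) : ℂ) = LSeries.convolution (fun n => ((ArithmeticFunction.moebius n : ℤ) : ℂ)) sqC n := by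
  rw [LSeries.convolution_def]
  have h1 := Pool.Agent.H534R2.BH.lam_eq n n (Finset.mem_Icc.2 ⟨Nat.one_le_iff_ne_zero.2 hn, le_rfl⟩)
  have h2 : ((laR n : ℝ) : ℂ) = (-1 : ℂ) ^ ArithmeticFunction.cardFactors n := by
    rw [laR_eq hn]
    push_cast
    rfl
  rw [h2, h1]
  classical
  show _ = ∑ p ∈ n.divisorsAntidiagonal, ((ArithmeticFunction.moebius p.1 : ℤ) : ℂ) * sqC p.2
  rw [Nat.sum_divisorsAntidiagonal' (f := fun a b => ((ArithmeticFunction.moebius a : ℤ) : ℂ) * sqC b)]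
  rw [← Finset.sum_filter]
  have e1 : ∑ i ∈ n.divisors, ((ArithmeticFunction.moebius (n / i) : ℤ) : ℂ) * sqC i =
      ∑ i ∈ n.divisors.filter (fun i => ∃ m : ℕ, i = (m + 1) ^ 2),
        ((ArithmeticFunction.moebius (n / i) : ℤ) : ℂ) := by
    rw [Finset.sum_filter]
    refine Finset.sum_congr rfl fun i _ => ?_
    unfold sqC
    split_ifs <;> simp
  rw [e1]
  refine Finset.sum_bij (fun m _ => m ^ 2) ?_ ?_ ?_ ?_
  · intro m hm
    rw [Finset.mem_filter, Finset.mem_Icc] at hm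
    rw [Finset.mem_filter, Nat.mem_divisors]
    refine ⟨⟨hm.2, hn⟩, m - 1, ?_⟩
    rw [Nat.sub_add_cancel hm.1.1]
  · intro a ha b hb h
    exact Nat.pow_left_injective (n := 2) (by norm_num) h
  · intro i hi
    rw [Finset.mem_filter, Nat.mem_divisors] at hi
    obtain ⟨⟨hd, _⟩, m, hm⟩ := hi
    refine ⟨m + 1, ?_, hm.symm⟩
    rw [Finset.mem_filter, Finset.mem_Icc]
    refine ⟨⟨by omega, ?_⟩, by rw [← hm]; exact hd⟩
    have h3 := Nat.le_of_dvd (Nat.pos_of_ne_zero hn) hd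
    rw [hm] at h3
    nlinarith
  · intro m hm
    rfl

lemma sqC_summable {s : ℂ} (hs : 1 < s.re) : LSeriesSummable sqC s := by
  refine LSeriesSummable_of_bounded_of_one_lt_re (m := 1) (fun n _ => ?_) hs
  unfold sqC
  split_ifs <;> simp

lemma LS_sq {s : ℂ} (hs : 1 < s.re) : LSeries sqC s = riemannZeta (2 * s) := by
  have h2 : 1 < (2 * s).re := by
    rw [Complex.mul_re]
    simp
    linarith
  rw [zeta_eq_tsum_one_div_nat_add_one_cpow h2]
  unfold LSeries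
  have hinj : Function.Injective (fun m : ℕ => (m + 1) ^ 2) := fun a b h => by
    have := Nat.pow_left_injective (n := 2) (by norm_num) h
    simpa using this
  rw [← hinj.tsum_eq (f := fun n => LSeries.term sqC s n) ?_]
  · refine tsum_congr fun m => ?_
    have hm : (m + 1) ^ 2 ≠ 0 := by positivity
    rw [LSeries.term_of_ne_zero hm]
    unfold sqC
    rw [if_pos ⟨m, rfl⟩]
    congr 1
    have e1 : (((m + 1) ^ 2 : ℕ) : ℂ) = ((m + 1 : ℕ) : ℂ) * ((m + 1 : ℕ) : ℂ) := by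
      push_cast
      ring
    have h3 : ((m + 1 : ℕ) : ℂ) ≠ 0 := by exact_mod_cast (by omega : m + 1 ≠ 0)
    rw [e1, Complex.natCast_mul_natCast_cpow, ← Complex.cpow_add _ _ h3, two_mul]
    push_cast
    rfl
  · intro n hn
    rw [Function.mem_support] at hn
    by_contra h
    apply hn
    rcases eq_or_ne n 0 with rfl | h0
    · simp
    · rw [LSeries.term_of_ne_zero h0]
      have : sqC n = 0 := by
        unfold sqC
        rw [if_neg]
        rintro ⟨m, rfl⟩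
        exact h ⟨m, rfl⟩
      rw [this, zero_div]

lemma LS_la {s : ℂ} (hs : 1 < s.re) :
    LSeries (fun n => ((laR n : ℝ) : ℂ)) s * riemannZeta s = riemannZeta (2 * s) := by
  have e1 : LSeries (fun n => ((laR n : ℝ) : ℂ)) s =
      LSeries (LSeries.convolution (fun n => ((ArithmeticFunction.moebius n : ℤ) : ℂ)) sqC) s :=
    LSeries_congr (fun {n} hn => la_conv hn) s
  have h2 := ArithmeticFunction.LSeries_zeta_mul_Lseries_moebius hs
  rw [ArithmeticFunction.LSeries_zeta_eq_riemannZeta hs] at h2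
  rw [e1, LSeries_convolution' (ArithmeticFunction.LSeriesSummable_moebius_iff.2 hs) (sqC_summable hs),
    LS_sq hs]
  linear_combination riemannZeta (2 * s) * h2


theorem PD_of {a : ℕ → ℝ} {Fc : ℂ → ℂ} {σ : ℝ} (hσ1 : 1 / 4 ≤ σ) (hσ2 : σ ≤ 2) (h0 : a 0 = 0)
    (ha : ∀ n, |a n| ≤ 1) (hFd : ∀ s : ℂ, σ ≤ s.re → s.re ≤ 2 → DifferentiableAt ℂ Fc s)
    (hFb : ∀ ε : ℝ, 0 < ε → ∃ C : ℝ, 0 < C ∧ ∀ s : ℂ, σ ≤ s.re → s.re ≤ 2 → ‖Fc s‖ ≤ C * (1 + |s.im|) ^ ε)
    (hL : ∀ s : ℂ, s.re = 2 → LSeries (fun n => (a n : ℂ)) s = Fc s) : PD a Fc σ := by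
  have hσ0 : 0 < σ := by linarith
  refine ⟨h0, ha, fun ε hε => ?_, ?_, fun η x hη hη1 => ?_⟩
  · obtain ⟨C, hC, hb⟩ := hFb ε hε
    refine ⟨C, hC, fun ξ => ?_⟩
    have := hb (Sp σ ξ) (by rw [Sp_re]) (by rw [Sp_re]; exact hσ2)
    rwa [Sp_im] at this
  · rw [continuous_iff_continuousAt]
    intro ξ
    have h1 := (hFd (Sp σ ξ) (by rw [Sp_re]) (by rw [Sp_re]; exact hσ2)).continuousAt
    exact ContinuousAt.comp (f := Sp σ) h1 (Sp_cont σ).continuousAt
  · obtain ⟨Cf, _, hCf⟩ := hFb (1 / 2) (by norm_num)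
    have key := perron_gen (Fc := Fc) (a := fun n => (a n : ℂ)) (x := x) hσ0 hσ2
      (by simp [h0]) (fun n => by rw [Complex.norm_real, Real.norm_eq_abs]; exact ha n) hFd ⟨Cf, hCf⟩ hL step_nice hη hη1
    have e1 : (∫ ξ : ℝ, PG Fc η x step (σ + 2 * Real.pi * ξ * Complex.I)) =
        ∫ ξ : ℝ, Wk η σ Fc ξ * Complex.exp (Sp σ ξ * x) := by
      refine integral_congr_ae (Eventually.of_forall fun ξ => ?_)
      have e2 : ((σ : ℂ) + 2 * Real.pi * ξ * Complex.I) = Sp σ ξ := rfl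
      simp only [PG, Wk]
      rw [e2, Lap_step (by rw [Sp_re]; exact hσ0)]
      ring
    rw [e1] at key
    exact key

lemma Zs_ne {θ : ℝ} (hz : ∀ s : ℂ, θ < s.re → riemannZeta s ≠ 0) : ∀ s : ℂ, θ < s.re → Zs s ≠ 0 := by
  intro s hs
  by_cases h : s = 1
  · rw [h]
    unfold Zs
    simp
  · rw [← Zs_eq h]
    exact mul_ne_zero (sub_ne_zero.2 h) (hz s hs)

/-- the Moebius function as a real number -/
def muR (n : ℕ) : ℝ := ((ArithmeticFunction.moebius n : ℤ) : ℝ)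

theorem pd_mu {θ σ : ℝ} (hθ : 1 / 2 ≤ θ) (hz : ∀ s : ℂ, θ < s.re → riemannZeta s ≠ 0) (hσ : θ < σ)
    (hσ2 : σ ≤ 2) : PD muR fz σ := by
  have hZ := Zs_ne hz
  refine PD_of (by linarith) hσ2 (by simp [muR]) (fun n => abs_mu_le n)
    (fun s hs _ => fz_differentiableAt (hZ s (by linarith))) (fun ε hε => ?_) fun s hs => ?_
  · exact fz_bound (by linarith) hZ hσ hε
  · have h1 := (moebius_lseries (s := s) (by rw [hs]; norm_num)).LSeries_eq
    rw [← h1]
    congr 1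

/-- the Dirichlet series of the Liouville function -/
def fl (s : ℂ) : ℂ := riemannZeta (2 * s) * fz s

theorem pd_la {θ σ : ℝ} (hθ : 1 / 2 ≤ θ) (hz : ∀ s : ℂ, θ < s.re → riemannZeta s ≠ 0) (hσ : θ < σ)
    (hσ2 : σ ≤ 2) : PD laR fl σ := by
  have hZ := Zs_ne hz
  have h2re : ∀ s : ℂ, (2 * s).re = 2 * s.re := fun s => by simp
  refine PD_of (by linarith) hσ2 laR_zero laR_abs (fun s hs _ => ?_) (fun ε hε => ?_) fun s hs => ?_
  · have h2 : (2 * s : ℂ) ≠ 1 := by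
      intro h
      have := congrArg Complex.re h
      rw [h2re, Complex.one_re] at this
      linarith
    have h3 : DifferentiableAt ℂ (fun s : ℂ => riemannZeta (2 * s)) s :=
      (differentiableAt_riemannZeta h2).comp s (differentiableAt_id.const_mul 2)
    exact h3.mul (fz_differentiableAt (hZ s (by linarith)))
  · obtain ⟨C, hC, hb⟩ := fz_bound (ε := ε) (by linarith : 1 / 4 ≤ θ) hZ hσ hε
    obtain ⟨K, hK1, hK⟩ := zeta_bounds (a := 2 * σ) (by linarith)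
    refine ⟨K * C, by positivity, fun s h1 h2 => ?_⟩
    unfold fl
    rw [norm_mul, mul_assoc]
    exact mul_le_mul (hK (2 * s) (by rw [h2re]; linarith)).1 (hb s h1 h2) (norm_nonneg _) (by linarith)
  · have hs1 : 1 < s.re := by rw [hs]; norm_num
    have h1 := LS_la hs1
    have hne : riemannZeta s ≠ 0 := riemannZeta_ne_zero_of_one_lt_re hs1
    have hs2 : s ≠ 1 := by
      rintro rfl
      simp at hs1
    unfold fl
    rw [fz_eq hs2, ← h1]
    field_simp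

end

end U441.MP
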