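import Pool.Agent.U441.MP.Lp

/-! The Landau step: a one-sided bound for the primitive gives a zero-free half-plane. -/

set_option autoImplicit false

open MeasureTheory Filter Topology Set Complex

namespace U441.MP

open Pool.Agent.W263.BSD (LInt lap lapC lapC_ofReal lapC_differentiableAt_pos)
open Pool.Agent.H295R2 (Zs fz Zs_eq Zs_differentiable)

/-- the primitive -/
noncomputable def Ph (a : ℕ → ℝ) (κ τ : ℝ) : ℝ := ∫ x in (0:ℝ)..τ, Ps a κ x

lemma Ps_ii {a : ℕ → ℝ} (ha : ∀ n, |a n| ≤ 1) (κ : ℝ) (u v : ℝ) : IntervalIntegrable (Ps a κ) volume u v := by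
  have h1 : IntervalIntegrable (fun x : ℝ => Real.exp ((κ + 1) * x)) volume u v :=
    (by fun_prop : Continuous fun x : ℝ => Real.exp ((κ + 1) * x)).intervalIntegrable _ _
  refine h1.mono_fun (Ps_meas a κ).aestronglyMeasurable (Eventually.of_forall fun x => ?_)
  simp only
  rw [Real.norm_eq_abs, Real.norm_of_nonneg (Real.exp_pos _).le]
  exact Ps_bound ha κ x

lemma Ph_cont {a : ℕ → ℝ} (ha : ∀ n, |a n| ≤ 1) (κ : ℝ) : Continuous (Ph a κ) :=
  intervalIntegral.continuous_primitive (fun u v => Ps_ii ha κ u v) 0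

lemma exp_lap {c : ℝ} {w : ℂ} (hw : c < w.re) :
    IntegrableOn (fun τ : ℝ => ((Real.exp (c * τ) : ℝ) : ℂ) * cexp (-(w * τ))) (Ioi 0) ∧
    ∫ τ in Ioi (0:ℝ), ((Real.exp (c * τ) : ℝ) : ℂ) * cexp (-(w * τ)) = 1 / (w - c) := by
  have e1 : ∀ τ : ℝ, ((Real.exp (c * τ) : ℝ) : ℂ) * cexp (-(w * τ)) = cexp ((c - w) * τ) := by
    intro τ
    rw [Complex.ofReal_exp, ← Complex.exp_add]
    congr 1
    push_cast
    ring
  have hre : ((c : ℂ) - w).re < 0 := by
    rw [Complex.sub_re, Complex.ofReal_re]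
    linarith
  simp_rw [e1]
  refine ⟨integrableOn_exp_mul_complex_Ioi hre 0, ?_⟩
  rw [integral_exp_mul_complex_Ioi hre 0]
  simp only [Complex.ofReal_zero, mul_zero, Complex.exp_zero]
  rw [← neg_sub w, neg_div_neg_eq]

/-- the nonnegative function -/
noncomputable def ff (a : ℕ → ℝ) (κ w₂ C₁ sg τ : ℝ) : ℝ := C₁ * Real.exp (w₂ * τ) - sg * Ph a κ τ

lemma ff_int {a : ℕ → ℝ} {F U : ℂ → ℂ} (h : MD a F U) {κ w₂ C₁ sg : ℝ} (hκ : 0 < κ) {w : ℂ}
    (hw : κ + 1 < w.re) (hw2 : w₂ < w.re) :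
    IntegrableOn (fun τ : ℝ => ((ff a κ w₂ C₁ sg τ : ℝ) : ℂ) * cexp (-(w * τ))) (Ioi 0) ∧
    lapC (ff a κ w₂ C₁ sg) w = C₁ / (w - w₂) - sg * (F ((w - 1) / κ) / (w - 1) / w) := by
  obtain ⟨i1, v1⟩ := exp_lap hw2
  obtain ⟨i2, v2⟩ := lapC_prim (Ps_meas a κ) (by linarith : 0 ≤ κ + 1) (Ps_bound h.ha κ) hw
  have e1 : ∀ τ : ℝ, ((ff a κ w₂ C₁ sg τ : ℝ) : ℂ) * cexp (-(w * τ)) =
      C₁ * (((Real.exp (w₂ * τ) : ℝ) : ℂ) * cexp (-(w * τ))) -
      sg * (((∫ x in (0:ℝ)..τ, Ps a κ x : ℝ) : ℂ) * cexp (-(w * τ))) := by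
    intro τ
    unfold ff Ph
    push_cast
    ring
  refine ⟨?_, ?_⟩
  · simp_rw [e1]
    exact (i1.const_mul _).sub (i2.const_mul _)
  · unfold lapC
    simp_rw [e1]
    rw [integral_sub (i1.const_mul _) (i2.const_mul _), integral_const_mul, integral_const_mul, v1]
    have e2 : ∫ τ in Ioi (0:ℝ), ((∫ x in (0:ℝ)..τ, Ps a κ x : ℝ) : ℂ) * cexp (-(w * τ)) = lapC (Ps a κ) w / w := v2
    rw [e2, h.lapPs hκ hw]
    ring

lemma Zs_real_ne {x : ℝ} (hx : 0 < x) : Zs (x : ℂ) ≠ 0 := fun h =>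
  Pool.Agent.Helper791.Cyc.E2_z1_zero_im (s := (x : ℂ)) (by simpa using hx) h (by simp)

lemma U_anal {a : ℕ → ℝ} {F U : ℂ → ℂ} (h : MD a F U) {z : ℂ} (hz : 1 / 2 < z.re) : AnalyticAt ℂ U z := by
  have hd : DifferentiableOn ℂ U {z : ℂ | 1 / 2 < z.re} := fun z hz => (h.Ud z hz).differentiableWithinAt
  exact hd.analyticAt ((isOpen_lt continuous_const Complex.continuous_re).mem_nhds hz)

lemma Zs_anal (z : ℂ) : AnalyticAt ℂ Zs z := Zs_differentiable.analyticAt z

lemma F_anal {a : ℕ → ℝ} {F U : ℂ → ℂ} (h : MD a F U) {z : ℂ} (hz : 1 / 2 < z.re) (hZ : Zs z ≠ 0) :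
    AnalyticAt ℂ F z := by
  have e : F = fun z => U z * ((z - 1) / Zs z) := by
    funext z
    rw [h.fac z]
    rfl
  rw [e]
  exact (U_anal h hz).mul ((analyticAt_id.sub analyticAt_const).div (Zs_anal z) hZ)

/-- **Landau step.** -/
theorem landau_step {a : ℕ → ℝ} {F U : ℂ → ℂ} (h : MD a F U) {κ w₂ C₁ sg : ℝ} (hκ : 0 < κ) (hsg : sg ≠ 0)
    (hw2 : 1 + κ / 2 ≤ w₂) (hC : ∀ τ : ℝ, 0 ≤ τ → sg * Ph a κ τ ≤ C₁ * Real.exp (w₂ * τ)) :
    ∀ z : ℂ, (w₂ - 1) / κ < z.re → riemannZeta z ≠ 0 := by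
  set f : ℝ → ℝ := ff a κ w₂ C₁ sg with hf
  have hκ0 : (κ : ℂ) ≠ 0 := by exact_mod_cast hκ.ne'
  have hfm : Measurable f := by
    have h1 := (Ph_cont h.ha κ).measurable
    rw [hf]
    unfold ff
    exact (by fun_prop : Measurable fun τ : ℝ => C₁ * Real.exp (w₂ * τ)).sub (h1.const_mul sg)
  have hf0 : ∀ u, 0 < u → 0 ≤ f u := by
    intro u hu
    have := hC u hu.le
    rw [hf]
    unfold ff
    linarith
  set w1 : ℝ := max (κ + 1) w₂ with hw1
  have hf1 : ∀ w > w1, LInt f w := by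
    intro w hw
    have h1 : κ + 1 < w := lt_of_le_of_lt (le_max_left _ _) hw
    have h2 : w₂ < w := lt_of_le_of_lt (le_max_right _ _) hw
    have h3 := (ff_int (C₁ := C₁) (sg := sg) (w₂ := w₂) h hκ (w := (w : ℂ)) (by simpa using h1) (by simpa using h2)).1
    have h4 := h3.re
    refine h4.congr (Eventually.of_forall fun u => ?_)
    have e1 : ((ff a κ w₂ C₁ sg u : ℝ) : ℂ) * cexp (-((w : ℂ) * u)) = ((f u * Real.exp (-(w * u)) : ℝ) : ℂ) := by
      rw [hf]
      push_cast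
      rfl
    simp only [RCLike.re_to_complex]
    rw [e1, Complex.ofReal_re]
  set gC : ℂ → ℂ := fun w => C₁ / (w - w₂) - sg * (F ((w - 1) / κ) / (w - 1) / w) with hgC
  have hgA : ∀ w > w₂, AnalyticAt ℝ (fun w : ℝ => (gC w).re) w := by
    intro w hw
    have hw' : 1 < w := by linarith
    have hx : 1 / 2 < (w - 1) / κ := by
      rw [lt_div_iff₀ hκ]
      linarith
    have hA : AnalyticAt ℂ gC (w : ℂ) := by
      have e0 : (((w : ℂ) - 1) / κ) = (((w - 1) / κ : ℝ) : ℂ) := by push_cast; rfl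
      have hF : AnalyticAt ℂ F (((w : ℂ) - 1) / κ) := by
        rw [e0]
        exact F_anal h (by rw [Complex.ofReal_re]; exact hx) (Zs_real_ne (by linarith))
      have hlin : AnalyticAt ℂ (fun w : ℂ => (w - 1) / κ) (w : ℂ) :=
        (analyticAt_id.sub analyticAt_const).div analyticAt_const hκ0
      have hFc : AnalyticAt ℂ (fun w : ℂ => F ((w - 1) / κ)) (w : ℂ) := hF.comp_of_eq hlin rfl
      have n1 : (w : ℂ) - w₂ ≠ 0 := by
        rw [← Complex.ofReal_sub]
        exact_mod_cast (by linarith : w - w₂ ≠ 0)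
      have n2 : (w : ℂ) - 1 ≠ 0 := by
        rw [← Complex.ofReal_one, ← Complex.ofReal_sub]
        exact_mod_cast (by linarith : w - 1 ≠ 0)
      have n3 : (w : ℂ) ≠ 0 := by exact_mod_cast (by linarith : w ≠ 0)
      rw [hgC]
      exact (analyticAt_const.div (analyticAt_id.sub analyticAt_const) n1).sub
        (analyticAt_const.mul ((hFc.div (analyticAt_id.sub analyticAt_const) n2).div analyticAt_id n3))
    exact hA.re_ofReal
  have hheq : ∀ w > w1, w₂ < w → lap f w = (fun w : ℝ => (gC w).re) w := by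
    intro w hw h2
    have h1 : κ + 1 < w := lt_of_le_of_lt (le_max_left _ _) hw
    have h3 := (ff_int (C₁ := C₁) (sg := sg) (w₂ := w₂) h hκ (w := (w : ℂ)) (by simpa using h1) (by simpa using h2)).2
    rw [← hf, lapC_ofReal] at h3
    have h4 := congrArg Complex.re h3
    rw [Complex.ofReal_re] at h4
    rw [h4]
  obtain ⟨hconv, -⟩ := Pool.Agent.TH988.RB.landau_lap hfm hf0 hf1 hgA hheq
  -- analytic continuation
  set Ω : Set ℂ := {w : ℂ | w₂ < w.re} with hΩ
  have hΩo : IsOpen Ω := isOpen_lt continuous_const Complex.continuous_re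
  have hΩc : IsPreconnected Ω := (convex_halfSpace_re_gt w₂).isPreconnected
  have hlin : ∀ w : ℂ, DifferentiableAt ℂ (fun w : ℂ => (w - 1) / κ) w := fun w => by fun_prop
  set Hc : ℂ → ℂ := fun w => (lapC f w - C₁ / (w - w₂)) * w * (w - 1) * Zs ((w - 1) / κ) +
    sg * (U ((w - 1) / κ) * ((w - 1) / κ - 1)) with hHc
  have hre : ∀ w : ℂ, ((w - 1) / κ).re = (w.re - 1) / κ := by
    intro w
    rw [Complex.div_ofReal_re, Complex.sub_re, Complex.one_re]
  have hHd : DifferentiableOn ℂ Hc Ω := by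
    intro w hw
    have hw' : w₂ < w.re := hw
    have d1 : DifferentiableAt ℂ (lapC f) w := lapC_differentiableAt_pos hfm hf0 hconv hw'
    have n1 : w - w₂ ≠ 0 := by
      intro h0
      have := congrArg Complex.re h0
      simp at this
      linarith
    have d2 : DifferentiableAt ℂ (fun w : ℂ => Zs ((w - 1) / κ)) w :=
      (Zs_differentiable _).comp w (hlin w)
    have d3 : DifferentiableAt ℂ (fun w : ℂ => U ((w - 1) / κ)) w := by
      refine DifferentiableAt.comp w (h.Ud _ ?_) (hlin w)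
      rw [hre, lt_div_iff₀ hκ]
      linarith
    have d4 : DifferentiableAt ℂ (fun w : ℂ => (C₁ : ℂ) / (w - w₂)) w :=
      (differentiableAt_const _).div (differentiableAt_id.sub (differentiableAt_const _)) n1
    rw [hHc]
    exact (((((d1.sub d4).mul differentiableAt_id).mul (differentiableAt_id.sub (differentiableAt_const _))).mul d2).add
      ((d3.mul ((hlin w).sub (differentiableAt_const _))).const_mul _)).differentiableWithinAt
  have hzero : ∀ w : ℂ, w1 < w.re → Hc w = 0 := by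
    intro w hw
    have h1 : κ + 1 < w.re := lt_of_le_of_lt (le_max_left _ _) hw
    have h2 : w₂ < w.re := lt_of_le_of_lt (le_max_right _ _) hw
    have h3 := (ff_int (C₁ := C₁) (sg := sg) (w₂ := w₂) h hκ h1 h2).2
    rw [← hf] at h3
    set z : ℂ := (w - 1) / κ with hz
    have hzre : 1 < z.re := by
      rw [hz, hre, lt_div_iff₀ hκ]
      linarith
    have hZ : Zs z ≠ 0 := Pool.Agent.H295R2.Zs_ne_zero_of_one_le hzre.le
    have hw0 : w ≠ 0 := by
      rintro rfl
      simp at h1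
      linarith
    have hw10 : w - 1 ≠ 0 := by
      intro h0
      have := congrArg Complex.re h0
      simp at this
      linarith
    have hFz : F z = U z * ((z - 1) / Zs z) := h.fac z
    rw [hHc]
    simp only
    rw [h3, ← hz, hFz]
    field_simp
    ring
  have hHz : EqOn Hc 0 Ω := by
    have hA : AnalyticOnNhd ℂ Hc Ω := hHd.analyticOnNhd hΩo
    have hw0 : (((w1 + 1 : ℝ) : ℂ)) ∈ Ω := by
      show w₂ < (((w1 + 1 : ℝ) : ℂ)).re
      rw [Complex.ofReal_re]
      have := le_max_right (κ + 1) w₂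
      linarith
    refine hA.eqOn_zero_of_preconnected_of_eventuallyEq_zero hΩc hw0 ?_
    have ho : IsOpen {w : ℂ | w1 < w.re} := isOpen_lt continuous_const Complex.continuous_re
    have hm : (((w1 + 1 : ℝ) : ℂ)) ∈ {w : ℂ | w1 < w.re} := by
      show w1 < (((w1 + 1 : ℝ) : ℂ)).re
      rw [Complex.ofReal_re]
      linarith
    filter_upwards [ho.mem_nhds hm] with w hw
    exact hzero w hw
  intro z hz hζ
  have hz1 : z ≠ 1 := by
    rintro rfl
    exact riemannZeta_one_ne_zero hζ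
  have hZ : Zs z = 0 := by rw [← Zs_eq hz1, hζ, mul_zero]
  have hzh : 1 / 2 < z.re := by
    refine lt_of_le_of_lt ?_ hz
    rw [le_div_iff₀ hκ]
    linarith
  set w : ℂ := κ * z + 1 with hw
  have hwz : (w - 1) / κ = z := by
    rw [hw]
    field_simp
    ring
  have hwΩ : w ∈ Ω := by
    show w₂ < w.re
    rw [hw]
    simp only [Complex.add_re, Complex.mul_re, Complex.ofReal_re, Complex.ofReal_im, zero_mul, sub_zero, Complex.one_re]
    rw [div_lt_iff₀ hκ] at hz
    linarith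
  have h1 := hHz hwΩ
  rw [hHc] at h1
  simp only [Pi.zero_apply] at h1
  rw [hwz, hZ, mul_zero, zero_add] at h1
  have hsgc : (sg : ℂ) ≠ 0 := by exact_mod_cast hsg
  exact (mul_ne_zero hsgc (mul_ne_zero (h.Un z hzh) (sub_ne_zero.2 hz1))) h1

end U441.MP
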