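import Pool.Agent.U441.MP.Ab

/-! Oscillation, part 2: at the edge of the zero-free half-plane. -/

set_option autoImplicit false

open MeasureTheory Filter Topology Set Complex

namespace U441.MP

open Pool.Agent.W263.BSD (LInt lap lapC lapC_ofReal lapC_differentiableAt)
open Pool.Agent.H295R2 (Zs fz Zs_eq Zs_differentiable)

lemma LInt_Ps {a : ℕ → ℝ} {F : ℂ → ℂ} (hF : Fam a F) {β : ℝ} (hβ : 1 / 2 ≤ β) (hβ1 : β ≤ 1)
    (hz : ∀ s : ℂ, β < s.re → riemannZeta s ≠ 0) {κ : ℝ} (hκ : 0 < κ) {w : ℝ} (hw : κ * β + 1 < w) :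
    LInt (Ps a κ) w := by
  set gap : ℝ := w - (κ * β + 1) with hgap
  have hgap0 : 0 < gap := by rw [hgap]; linarith
  set e : ℝ := min (gap / (4 * κ)) (1 / 2) with he
  have he0 : 0 < e := by rw [he]; positivity
  have he1 : κ * e ≤ gap / 4 := by
    have := min_le_left (gap / (4 * κ)) (1 / 2)
    calc κ * e ≤ κ * (gap / (4 * κ)) := by gcongr
      _ = gap / 4 := by field_simp
  have he2 : e ≤ 1 / 2 := min_le_right _ _
  have hp := hF β (β + e) hβ hz (by linarith) (by linarith)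
  obtain ⟨C, hC, hb⟩ := Ps_growth (δ := gap / 4) hp (by linarith) (by linarith) hκ (by positivity)
  unfold LInt
  have h1 : IntegrableOn (fun u : ℝ => C * Real.exp (-(gap / 2) * u)) (Ioi 0) :=
    (integrableOn_exp_mul_Ioi (by linarith) 0).const_mul _
  refine Integrable.mono' h1 ((Ps_meas a κ).mul (by fun_prop)).aestronglyMeasurable
    ((ae_restrict_iff' measurableSet_Ioi).2 (Eventually.of_forall fun u hu => ?_))
  have hu0 : (0:ℝ) < u := hu
  rw [norm_mul, Real.norm_eq_abs, Real.norm_of_nonneg (Real.exp_pos _).le]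
  calc |Ps a κ u| * Real.exp (-(w * u)) ≤
      (C * Real.exp ((κ * (β + e) + gap / 4) * u) * Real.exp u) * Real.exp (-(w * u)) :=
        mul_le_mul_of_nonneg_right (hb u) (Real.exp_pos _).le
    _ = C * Real.exp ((κ * (β + e) + gap / 4) * u + u - w * u) := by
        rw [mul_assoc C, ← Real.exp_add, mul_assoc C, ← Real.exp_add]
        congr 2
    _ ≤ C * Real.exp (-(gap / 2) * u) := by
        refine mul_le_mul_of_nonneg_left (Real.exp_le_exp.2 ?_) hC.le
        have : (κ * (β + e) + gap / 4) + 1 - w ≤ -(gap / 2) := by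
          rw [mul_add]
          linarith
        nlinarith

/-- the Laplace transform in the half-plane of the zero-free region -/
lemma lapPs_half {a : ℕ → ℝ} {F U : ℂ → ℂ} (h : MD a F U) (hF : Fam a F) {β : ℝ} (hβ : 1 / 2 ≤ β) (hβ1 : β ≤ 1)
    (hz : ∀ s : ℂ, β < s.re → riemannZeta s ≠ 0) {κ : ℝ} (hκ : 0 < κ) {w : ℂ} (hw : κ * β + 1 < w.re) :
    lapC (Ps a κ) w = F ((w - 1) / κ) / (w - 1) := by
  have hκ0 : (κ : ℂ) ≠ 0 := by exact_mod_cast hκ.ne'
  set Ω : Set ℂ := {w : ℂ | κ * β + 1 < w.re} with hΩ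
  have hΩo : IsOpen Ω := isOpen_lt continuous_const Complex.continuous_re
  have hΩc : IsPreconnected Ω := (convex_halfSpace_re_gt _).isPreconnected
  have hre : ∀ w : ℂ, ((w - 1) / κ).re = (w.re - 1) / κ := by
    intro w
    rw [Complex.div_ofReal_re, Complex.sub_re, Complex.one_re]
  have hZs := Zs_ne hz
  have hd1 : DifferentiableOn ℂ (lapC (Ps a κ)) Ω := fun w hw =>
    (lapC_differentiableAt (Ps_meas a κ) (fun w hw => LInt_Ps hF hβ hβ1 hz hκ hw) hw).differentiableWithinAt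
  have hd2 : DifferentiableOn ℂ (fun w : ℂ => F ((w - 1) / κ) / (w - 1)) Ω := by
    intro w hw
    have hw' : κ * β + 1 < w.re := hw
    have hzre : β < ((w - 1) / κ).re := by
      rw [hre, lt_div_iff₀ hκ]
      linarith
    have hFd := (F_anal h (z := (w - 1) / κ) (by linarith) (hZs _ hzre)).differentiableAt
    have hlin : DifferentiableAt ℂ (fun w : ℂ => (w - 1) / κ) w := by fun_prop
    have hne : w - 1 ≠ 0 := by
      intro h0
      have := congrArg Complex.re h0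
      simp at this
      nlinarith
    have hc : DifferentiableAt ℂ (fun w : ℂ => F ((w - 1) / κ)) w := DifferentiableAt.comp w hFd hlin
    exact (hc.div (by fun_prop) hne).differentiableWithinAt
  have hA1 := hd1.analyticOnNhd hΩo
  have hA2 := hd2.analyticOnNhd hΩo
  have hx : (((κ + 2 : ℝ) : ℂ)) ∈ Ω := by
    show κ * β + 1 < (((κ + 2 : ℝ) : ℂ)).re
    rw [Complex.ofReal_re]
    nlinarith
  refine hA1.eqOn_of_preconnected_of_eventuallyEq hA2 hΩc hx ?_ hw
  have ho : IsOpen {w : ℂ | κ + 1 < w.re} := isOpen_lt continuous_const Complex.continuous_re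
  have hm : (((κ + 2 : ℝ) : ℂ)) ∈ {w : ℂ | κ + 1 < w.re} := by
    show κ + 1 < (((κ + 2 : ℝ) : ℂ)).re
    rw [Complex.ofReal_re]
    linarith
  filter_upwards [ho.mem_nhds hm] with w hw
  exact h.lapPs hκ hw

/-- the function `bb (e^y) e^y` -/
noncomputable def bh (a : ℕ → ℝ) (κ β c sg R y : ℝ) : ℝ := bb a κ β c sg R (Real.exp y) * Real.exp y

lemma bh_eq (a : ℕ → ℝ) (κ β c sg R y : ℝ) : bh a κ β c sg R y =
    c * Real.exp ((κ * β + 1) * y) + sg * R * Real.exp ((κ * (1 / 2) + 1) * y) - sg * Ps a κ y := by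
  unfold bh bb Ps
  rw [← Real.exp_mul, ← Real.exp_mul, ← Real.exp_mul]
  have e1 : Real.exp ((κ * β + 1) * y) = Real.exp (y * (κ * β)) * Real.exp y := by
    rw [← Real.exp_add]; congr 1; ring
  have e2 : Real.exp ((κ * (1 / 2) + 1) * y) = Real.exp (y * (κ * (1 / 2))) * Real.exp y := by
    rw [← Real.exp_add]; congr 1; ring
  rw [e1, e2, mul_comm y κ]
  ring

lemma lap_bh {a : ℕ → ℝ} {F U : ℂ → ℂ} (h : MD a F U) (hF : Fam a F) {β : ℝ} (hβ : 1 / 2 ≤ β) (hβ1 : β ≤ 1)
    (hz : ∀ s : ℂ, β < s.re → riemannZeta s ≠ 0) {κ c sg R : ℝ} (hκ : 0 < κ) {w : ℂ} (hw : κ * β + 1 < w.re) :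
    IntegrableOn (fun y : ℝ => (bh a κ β c sg R y : ℂ) * cexp (-(w * y))) (Ioi 0) ∧
    lapC (bh a κ β c sg R) w = c / (w - (κ * β + 1)) + sg * R / (w - (κ * (1 / 2) + 1)) -
      sg * (F ((w - 1) / κ) / (w - 1)) := by
  obtain ⟨i1, v1⟩ := exp_lap (c := κ * β + 1) hw
  obtain ⟨i2, v2⟩ := exp_lap (c := κ * (1 / 2) + 1) (w := w) (by nlinarith)
  have i3 : IntegrableOn (fun y : ℝ => ((Ps a κ y : ℝ) : ℂ) * cexp (-(w * y))) (Ioi 0) :=
    LInt.complex (Ps_meas a κ) (LInt_Ps hF hβ hβ1 hz hκ hw)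
  have v3 := lapPs_half h hF hβ hβ1 hz hκ hw
  have e1 : ∀ y : ℝ, (bh a κ β c sg R y : ℂ) * cexp (-(w * y)) =
      c * (((Real.exp ((κ * β + 1) * y) : ℝ) : ℂ) * cexp (-(w * y))) +
      sg * R * (((Real.exp ((κ * (1 / 2) + 1) * y) : ℝ) : ℂ) * cexp (-(w * y))) -
      sg * (((Ps a κ y : ℝ) : ℂ) * cexp (-(w * y))) := by
    intro y
    rw [bh_eq]
    push_cast
    ring
  refine ⟨?_, ?_⟩
  · simp_rw [e1]
    exact ((i1.const_mul _).add (i2.const_mul _)).sub (i3.const_mul _)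
  · unfold lapC at v3 ⊢
    simp_rw [e1]
    have j1 := i1.const_mul (c : ℂ)
    have j2 := i2.const_mul (sg * R : ℂ)
    have j3 := i3.const_mul (sg : ℂ)
    have j12 : IntegrableOn (fun y : ℝ => (c : ℂ) * (((Real.exp ((κ * β + 1) * y) : ℝ) : ℂ) * cexp (-(w * y))) +
      sg * R * (((Real.exp ((κ * (1 / 2) + 1) * y) : ℝ) : ℂ) * cexp (-(w * y)))) (Ioi 0) := j1.add j2
    rw [integral_sub j12 j3, integral_add j1 j2, integral_const_mul, integral_const_mul, integral_const_mul,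
      v1, v2, v3]
    push_cast
    ring

lemma bh_meas (a : ℕ → ℝ) (κ β c sg R : ℝ) : Measurable (bh a κ β c sg R) := by
  unfold bh
  exact ((bb_meas a κ β c sg R).comp Real.measurable_exp).mul Real.measurable_exp

lemma bh_bound {a : ℕ → ℝ} (ha : ∀ n, |a n| ≤ 1) {κ β c sg R L y : ℝ} (hκ : 0 < κ) (hβ : 0 ≤ β) (hy : |y| ≤ L) :
    |bh a κ β c sg R y| ≤ |c| * Real.exp ((κ * β + 1) * L) + |sg * R| * Real.exp ((κ * (1 / 2) + 1) * L) +
      |sg| * Real.exp ((κ + 1) * L) := by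
  have hyL : y ≤ L := (le_abs_self y).trans hy
  have t : ∀ p : ℝ, 0 ≤ p → Real.exp (p * y) ≤ Real.exp (p * L) := fun p hp =>
    Real.exp_le_exp.2 (mul_le_mul_of_nonneg_left hyL hp)
  rw [bh_eq]
  have q1 : |c * Real.exp ((κ * β + 1) * y)| ≤ |c| * Real.exp ((κ * β + 1) * L) := by
    rw [abs_mul, abs_of_pos (Real.exp_pos _)]
    exact mul_le_mul_of_nonneg_left (t _ (by positivity)) (abs_nonneg _)
  have q2 : |sg * R * Real.exp ((κ * (1 / 2) + 1) * y)| ≤ |sg * R| * Real.exp ((κ * (1 / 2) + 1) * L) := by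
    rw [abs_mul, abs_of_pos (Real.exp_pos ((κ * (1 / 2) + 1) * y))]
    exact mul_le_mul_of_nonneg_left (t _ (by positivity)) (abs_nonneg _)
  have q3 : |sg * Ps a κ y| ≤ |sg| * Real.exp ((κ + 1) * L) := by
    rw [abs_mul]
    exact mul_le_mul_of_nonneg_left ((Ps_bound ha κ y).trans (t _ (by positivity))) (abs_nonneg _)
  have t1 := abs_sub (c * Real.exp ((κ * β + 1) * y) + sg * R * Real.exp ((κ * (1 / 2) + 1) * y)) (sg * Ps a κ y)
  have t2 := abs_add_le (c * Real.exp ((κ * β + 1) * y)) (sg * R * Real.exp ((κ * (1 / 2) + 1) * y))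
  linarith

/-- the weighted integral up to `N` -/
noncomputable def Iw (a : ℕ → ℝ) (κ q r β c sg R : ℝ) (w : ℂ) (N : ℕ) : ℂ :=
  ∫ u in (1:ℝ)..N, (bb a κ β c sg R (yy q r u) : ℂ) * gg q r w u

lemma Iw_tendsto {a : ℕ → ℝ} {F U : ℂ → ℂ} (h : MD a F U) (hF : Fam a F) {β : ℝ} (hβ : 1 / 2 ≤ β) (hβ1 : β ≤ 1)
    (hz : ∀ s : ℂ, β < s.re → riemannZeta s ≠ 0) {κ q r c sg R : ℝ} (hκ : 0 < κ) (hq : 0 < q) (hr : 0 ≤ r)
    {w : ℂ} (hw : κ * β + 1 < w.re) :
    Tendsto (fun N : ℕ => Iw a κ q r β c sg R w N) atTop (𝓝 ((1 / q : ℂ) * (lapC (bh a κ β c sg R) w -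
      ∫ y in (0:ℝ)..(Real.log (yy q r 1)), (bh a κ β c sg R y : ℂ) * cexp (-(w * y))))) := by
  obtain ⟨i1, -⟩ := lap_bh (c := c) (sg := sg) (R := R) h hF hβ hβ1 hz hκ hw
  set f : ℝ → ℂ := fun y => (bh a κ β c sg R y : ℂ) * cexp (-(w * y)) with hf
  have hii : ∀ u v : ℝ, IntervalIntegrable f volume u v := by
    intro u v
    rw [intervalIntegrable_iff]
    set L : ℝ := max |u| |v| with hL
    set B : ℝ := |c| * Real.exp ((κ * β + 1) * L) + |sg * R| * Real.exp ((κ * (1 / 2) + 1) * L) +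
      |sg| * Real.exp ((κ + 1) * L) with hB
    have hB0 : 0 ≤ B := by rw [hB]; positivity
    refine Measure.integrableOn_of_bounded (M := B * Real.exp (|w.re| * L)) (by simp) ?_ ?_
    · exact ((Complex.measurable_ofReal.comp (bh_meas a κ β c sg R)).mul (by fun_prop)).aestronglyMeasurable
    · refine (ae_restrict_iff' measurableSet_uIoc).2 (ae_of_all _ fun y hy => ?_)
      have hyL : |y| ≤ L := by
        rw [mem_uIoc] at hy
        rw [hL, abs_le]
        have h1 := le_max_left |u| |v|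
        have h2 := le_max_right |u| |v|
        have h3 := le_abs_self u
        have h4 := le_abs_self v
        have h5 := neg_abs_le u
        have h6 := neg_abs_le v
        rcases hy with ⟨h7, h8⟩ | ⟨h7, h8⟩ <;> constructor <;> linarith
      rw [hf, norm_mul, Complex.norm_real, Real.norm_eq_abs]
      refine mul_le_mul (bh_bound h.ha hκ (by linarith) hyL) ?_ (norm_nonneg _) hB0
      rw [Complex.norm_exp, Real.exp_le_exp]
      simp only [Complex.neg_re, Complex.mul_re, Complex.ofReal_re, Complex.ofReal_im, mul_zero, sub_zero]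
      calc -(w.re * y) ≤ |-(w.re * y)| := le_abs_self _
        _ = |w.re| * |y| := by rw [abs_neg, abs_mul]
        _ ≤ _ := mul_le_mul_of_nonneg_left hyL (abs_nonneg _)
  have hlog : Tendsto (fun N : ℕ => Real.log (yy q r N)) atTop atTop := Real.tendsto_log_atTop.comp (yy_tendsto hq)
  have h1 := intervalIntegral_tendsto_integral_Ioi 0 i1 hlog
  have h2 := (h1.sub_const (∫ y in (0:ℝ)..(Real.log (yy q r 1)), f y)).const_mul (1 / q : ℂ)
  refine h2.congr' ?_
  filter_upwards [eventually_ge_atTop 1] with N hN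
  have hN1 : (1:ℝ) ≤ N := by exact_mod_cast hN
  have e1 := sub_gen hq hr hN1 (fun v => (bb a κ β c sg R v : ℂ) * cexp (-(w * (Real.log v : ℝ))))
  have e2 : Iw a κ q r β c sg R w N = ∫ u in (1:ℝ)..N, (fun v => (bb a κ β c sg R v : ℂ) *
      cexp (-(w * (Real.log v : ℝ)))) (yy q r u) := rfl
  rw [e2, e1]
  have e3 : ∫ y in (Real.log (yy q r 1))..(Real.log (yy q r N)), (fun v => (bb a κ β c sg R v : ℂ) *
      cexp (-(w * (Real.log v : ℝ)))) (Real.exp y) * Real.exp y =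
      ∫ y in (Real.log (yy q r 1))..(Real.log (yy q r N)), f y := by
    refine intervalIntegral.integral_congr fun y _ => ?_
    simp only [hf, bh]
    rw [Real.log_exp]
    push_cast
    ring
  rw [e3, ← intervalIntegral.integral_add_adjacent_intervals (hii 0 (Real.log (yy q r 1))) (hii _ _)]
  ring

/-- **Positivity.** -/
theorem pos_bound {a : ℕ → ℝ} {F U : ℂ → ℂ} (h : MD a F U) (hF : Fam a F) {β : ℝ} (hβ : 1 / 2 ≤ β) (hβ1 : β ≤ 1)
    (hz : ∀ s : ℂ, β < s.re → riemannZeta s ≠ 0) {κ q r c sg R : ℝ} (hκ : 0 < κ) (hq : 0 < q) (hr : 0 ≤ r)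
    (hos : Summable fun n : ℕ => max (-bb a κ β c sg R (yy q r n)) 0 * (n:ℝ) ^ (-(κ * β + 1))) :
    ∃ K : ℝ, 0 < K ∧ ∀ w : ℂ, κ * β + 1 < w.re → w.re ≤ κ * β + 2 →
      ‖lapC (bh a κ β c sg R) w‖ ≤ (lapC (bh a κ β c sg R) (w.re : ℂ)).re + K * (1 + ‖w‖) := by
  set e : ℝ := min (1 / (24 * κ)) (1 / 2) with he
  have he0 : 0 < e := by rw [he]; positivity
  have he1 : κ * e ≤ 1 / 24 := by
    have := min_le_left (1 / (24 * κ)) (1 / 2)
    calc κ * e ≤ κ * (1 / (24 * κ)) := by gcongr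
      _ = 1 / 24 := by field_simp
  have he2 : e ≤ 1 / 2 := min_le_right _ _
  have hp := hF β (β + e) hβ hz (by linarith) (by linarith)
  set w₁ : ℝ := κ * β + 1 with hw₁
  set w₂ : ℝ := max (κ * β + 11 / 12) 1 with hw₂
  have hκβ : 0 < κ * β := by positivity
  have hw21 : w₂ < w₁ := by rw [hw₂, hw₁]; exact max_lt (by linarith) (by linarith)
  have hw2a : κ * β + 11 / 12 ≤ w₂ := le_max_left _ _
  obtain ⟨K, hK, hZ⟩ := Zd_bound (c := c) (sg := sg) (R := R) (δ := 1 / 6) (w₁ := w₁) (w₂ := w₂) (β := β) hp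
    (by linarith) (by linarith) hκ hq hr (by norm_num) hβ (by linarith) (by linarith)
    (by rw [mul_add]; linarith) (le_max_right _ _) hw21
  -- the exceptions
  set m : ℝ := max 1 (1 / q) with hm
  have hm1 : 1 ≤ m := le_max_left _ _
  have hlow : ∀ n : ℕ, 1 ≤ n → ∀ x : ℝ, w₁ ≤ x → x ≤ w₁ + 1 → yy q r n ^ (-x) ≤ m ^ (w₁ + 1) * (n:ℝ) ^ (-w₁) := by
    intro n hn x hx1 hx2
    have hn1 : (1:ℝ) ≤ n := by exact_mod_cast hn
    have hn0 : (0:ℝ) < n := by linarith
    have hqn : 0 < q * n := by positivity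
    have hle : q * n ≤ yy q r n := by unfold yy; linarith
    calc yy q r n ^ (-x) ≤ (q * n) ^ (-x) := Real.rpow_le_rpow_of_nonpos hqn hle (by linarith)
      _ = q ^ (-x) * (n:ℝ) ^ (-x) := Real.mul_rpow hq.le hn0.le
      _ ≤ m ^ (w₁ + 1) * (n:ℝ) ^ (-w₁) := by
          refine mul_le_mul ?_ (Real.rpow_le_rpow_of_exponent_le hn1 (by linarith)) (by positivity) (by positivity)
          have e1 : q ^ (-x) = (1 / q) ^ x := by
            rw [one_div, Real.inv_rpow hq.le, Real.rpow_neg hq.le]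
          rw [e1]
          calc (1 / q) ^ x ≤ m ^ x := Real.rpow_le_rpow (by positivity) (le_max_right _ _) (by linarith)
            _ ≤ _ := Real.rpow_le_rpow_of_exponent_le hm1 hx2
  set T3 : ℝ := ∑' n : ℕ, max (-bb a κ β c sg R (yy q r n)) 0 * (n:ℝ) ^ (-w₁) with hT3
  have hT30 : 0 ≤ T3 := tsum_nonneg fun n => mul_nonneg (le_max_right _ _) (by positivity)
  set K₃ : ℝ := 2 * m ^ (w₁ + 1) * T3 with hK₃
  have hK₃0 : 0 ≤ K₃ := by positivity
  -- the initial piece
  set L : ℝ := |Real.log (yy q r 1)| with hL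
  set B : ℝ := (|c| * Real.exp ((κ * β + 1) * L) + |sg * R| * Real.exp ((κ * (1 / 2) + 1) * L) +
      |sg| * Real.exp ((κ + 1) * L)) * Real.exp ((w₁ + 1) * L) * L with hB
  have hL0 : 0 ≤ L := abs_nonneg _
  have hB0 : 0 ≤ B := by rw [hB]; positivity
  have hJ : ∀ w : ℂ, w₁ < w.re → w.re ≤ w₁ + 1 →
      ‖∫ y in (0:ℝ)..(Real.log (yy q r 1)), (bh a κ β c sg R y : ℂ) * cexp (-(w * y))‖ ≤ B := by
    intro w h1 h2
    refine (intervalIntegral.norm_integral_le_of_norm_le_const (C := (|c| * Real.exp ((κ * β + 1) * L) +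
      |sg * R| * Real.exp ((κ * (1 / 2) + 1) * L) + |sg| * Real.exp ((κ + 1) * L)) * Real.exp ((w₁ + 1) * L))
      fun y hy => ?_).trans ?_
    · have hyL : |y| ≤ L := by
        rw [mem_uIoc] at hy
        rw [hL, abs_le]
        have h3 := le_abs_self (Real.log (yy q r 1))
        have h4 := neg_abs_le (Real.log (yy q r 1))
        have h5 := abs_nonneg (Real.log (yy q r 1))
        rcases hy with ⟨h7, h8⟩ | ⟨h7, h8⟩ <;> constructor <;> linarith
      rw [norm_mul, Complex.norm_real, Real.norm_eq_abs]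
      refine mul_le_mul (bh_bound h.ha hκ (by linarith) hyL) ?_ (norm_nonneg _) (by positivity)
      rw [Complex.norm_exp, Real.exp_le_exp]
      simp only [Complex.neg_re, Complex.mul_re, Complex.ofReal_re, Complex.ofReal_im, mul_zero, sub_zero]
      have hw0 : 0 ≤ w.re := by linarith
      calc -(w.re * y) ≤ |-(w.re * y)| := le_abs_self _
        _ = w.re * |y| := by rw [abs_neg, abs_mul, abs_of_nonneg hw0]
        _ ≤ (w₁ + 1) * L := mul_le_mul h2 hyL (abs_nonneg _) (by linarith)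
    · rw [sub_zero]
  refine ⟨q * (2 * K + K₃) + 2 * B, by positivity, fun w h1 h2 => ?_⟩
  have h2' : w.re ≤ w₁ + 1 := by rw [hw₁]; linarith
  have hw0 : 0 ≤ w.re := by linarith
  set W : ℂ := (w.re : ℂ) with hW
  have hWre : W.re = w.re := by rw [hW, Complex.ofReal_re]
  have hWn : ‖W‖ ≤ ‖w‖ := by
    rw [hW, Complex.norm_real, Real.norm_eq_abs]
    exact Complex.abs_re_le_norm w
  -- the inequality for finite `N`
  have hfin : ∀ N : ℕ, 1 ≤ N → ‖Iw a κ q r β c sg R w N‖ ≤ (Iw a κ q r β c sg R W N).re +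
      (2 * K + K₃) * (1 + ‖w‖) := by
    intro N hN
    have z1 := hZ w h1.le h2' N hN
    have z2 := hZ W (by rw [hWre]; exact h1.le) (by rw [hWre]; exact h2') N hN
    set S1 : ℂ := ∑ n ∈ Finset.Icc 1 N, (bb a κ β c sg R (yy q r n) : ℂ) * gg q r w n with hS1
    set S2 : ℂ := ∑ n ∈ Finset.Icc 1 N, (bb a κ β c sg R (yy q r n) : ℂ) * gg q r W n with hS2
    have eZ1 : Zd a κ q r β c sg R w N = S1 - Iw a κ q r β c sg R w N := rfl
    have eZ2 : Zd a κ q r β c sg R W N = S2 - Iw a κ q r β c sg R W N := rfl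
    have s1 : ‖S1‖ ≤ S2.re + K₃ := by
      have hS2re : S2.re = ∑ n ∈ Finset.Icc 1 N, bb a κ β c sg R (yy q r n) * yy q r n ^ (-w.re) := by
        rw [hS2, Complex.re_sum]
        refine Finset.sum_congr rfl fun n hn => ?_
        rw [Finset.mem_Icc] at hn
        have hn0 : (0:ℝ) < n := by exact_mod_cast hn.1
        rw [Complex.re_ofReal_mul]
        congr 1
        unfold gg
        rw [hW, Real.rpow_def_of_pos (yy_pos hq hr hn0)]
        have : -(((w.re : ℝ) : ℂ) * ((Real.log (yy q r n) : ℝ) : ℂ)) = ((Real.log (yy q r n) * -w.re : ℝ) : ℂ) := by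
          push_cast
          ring
        rw [this, ← Complex.ofReal_exp, Complex.ofReal_re]
      have hle : ‖S1‖ ≤ ∑ n ∈ Finset.Icc 1 N, |bb a κ β c sg R (yy q r n)| * yy q r n ^ (-w.re) := by
        refine (norm_sum_le _ _).trans (le_of_eq ?_)
        refine Finset.sum_congr rfl fun n hn => ?_
        rw [Finset.mem_Icc] at hn
        rw [norm_mul, Complex.norm_real, Real.norm_eq_abs, gg_norm hq hr w (by exact_mod_cast hn.1)]
      have hterm : ∀ n ∈ Finset.Icc 1 N, |bb a κ β c sg R (yy q r n)| * yy q r n ^ (-w.re) ≤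
          bb a κ β c sg R (yy q r n) * yy q r n ^ (-w.re) +
          2 * m ^ (w₁ + 1) * (max (-bb a κ β c sg R (yy q r n)) 0 * (n:ℝ) ^ (-w₁)) := by
        intro n hn
        rw [Finset.mem_Icc] at hn
        have hn0 : (0:ℝ) < n := by exact_mod_cast hn.1
        have hy := yy_pos hq hr hn0
        have hyp : 0 < yy q r n ^ (-w.re) := Real.rpow_pos_of_pos hy _
        have h5 : |bb a κ β c sg R (yy q r n)| ≤ bb a κ β c sg R (yy q r n) +
            2 * max (-bb a κ β c sg R (yy q r n)) 0 := by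
          have h6 := le_max_left (-bb a κ β c sg R (yy q r n)) 0
          have h7 := le_max_right (-bb a κ β c sg R (yy q r n)) 0
          rw [abs_le]
          constructor <;> linarith
        have h8 := hlow n hn.1 w.re h1.le h2'
        have h9 := le_max_right (-bb a κ β c sg R (yy q r n)) 0
        have h10 := mul_le_mul_of_nonneg_right h5 hyp.le
        have h11 := mul_le_mul_of_nonneg_left h8 h9
        nlinarith
      have hsumle := Finset.sum_le_sum hterm
      rw [Finset.sum_add_distrib, ← Finset.mul_sum] at hsumle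
      have hK3' : ∑ n ∈ Finset.Icc 1 N, max (-bb a κ β c sg R (yy q r n)) 0 * (n:ℝ) ^ (-w₁) ≤ T3 :=
        hos.sum_le_tsum _ fun n _ => mul_nonneg (le_max_right _ _) (by positivity)
      have hK3'' := mul_le_mul_of_nonneg_left hK3' (by positivity : 0 ≤ 2 * m ^ (w₁ + 1))
      rw [hS2re]
      linarith
    have t1 : ‖Iw a κ q r β c sg R w N‖ ≤ ‖S1‖ + K * (1 + ‖w‖) := by
      have e5 : Iw a κ q r β c sg R w N = S1 - Zd a κ q r β c sg R w N := by rw [eZ1]; ring
      rw [e5]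
      exact (norm_sub_le _ _).trans (by linarith)
    have t2 : S2.re ≤ (Iw a κ q r β c sg R W N).re + K * (1 + ‖W‖) := by
      have e5 : S2 = Iw a κ q r β c sg R W N + Zd a κ q r β c sg R W N := by rw [eZ2]; ring
      rw [e5, Complex.add_re]
      have := (le_abs_self _).trans (Complex.abs_re_le_norm (Zd a κ q r β c sg R W N))
      linarith
    have t3 : K * (1 + ‖W‖) ≤ K * (1 + ‖w‖) := mul_le_mul_of_nonneg_left (by linarith) hK.le
    have t4 : K₃ ≤ K₃ * (1 + ‖w‖) := le_mul_of_one_le_right hK₃0 (by linarith [norm_nonneg w])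
    linarith
  -- the limit
  have l1 := (Iw_tendsto (q := q) (r := r) (c := c) (sg := sg) (R := R) h hF hβ hβ1 hz hκ hq hr h1).norm
  have l2 := Iw_tendsto (q := q) (r := r) (c := c) (sg := sg) (R := R) h hF hβ hβ1 hz hκ hq hr
    (w := W) (by rw [hWre]; exact h1)
  have l3 := (Complex.continuous_re.tendsto _).comp l2
  have l4 := l3.add_const ((2 * K + K₃) * (1 + ‖w‖))
  have hlim := le_of_tendsto_of_tendsto l1 l4 (by
    filter_upwards [eventually_ge_atTop 1] with N hN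
    exact hfin N hN)
  have hJ1 := hJ w h1 h2'
  have hJ2 := hJ W (by rw [hWre]; exact h1) (by rw [hWre]; exact h2')
  set J1 : ℂ := ∫ y in (0:ℝ)..(Real.log (yy q r 1)), (bh a κ β c sg R y : ℂ) * cexp (-(w * y))
  set J2 : ℂ := ∫ y in (0:ℝ)..(Real.log (yy q r 1)), (bh a κ β c sg R y : ℂ) * cexp (-(W * y))
  set P1 : ℂ := lapC (bh a κ β c sg R) w
  set P2 : ℂ := lapC (bh a κ β c sg R) W
  have hqc : (1 / q : ℂ) = ((1 / q : ℝ) : ℂ) := by push_cast; rfl
  rw [hqc, norm_mul, Complex.norm_real, Real.norm_of_nonneg (by positivity), Complex.re_ofReal_mul, Complex.sub_re] at hlim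
  have hlim2 : ‖P1 - J1‖ ≤ P2.re - J2.re + q * ((2 * K + K₃) * (1 + ‖w‖)) := by
    have := mul_le_mul_of_nonneg_left hlim hq.le
    have e6 : q * (1 / q * ‖P1 - J1‖) = ‖P1 - J1‖ := by field_simp
    have e7 : q * (1 / q * (P2.re - J2.re) + (2 * K + K₃) * (1 + ‖w‖)) =
        P2.re - J2.re + q * ((2 * K + K₃) * (1 + ‖w‖)) := by field_simp
    rwa [e6, e7] at this
  have h8 : ‖P1‖ ≤ ‖P1 - J1‖ + ‖J1‖ := by
    have := norm_add_le (P1 - J1) J1
    rwa [sub_add_cancel] at this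
  have h9 : -J2.re ≤ B := by
    have := (neg_le_abs J2.re).trans (Complex.abs_re_le_norm J2)
    linarith
  have h10 : 2 * B ≤ 2 * B * (1 + ‖w‖) := le_mul_of_one_le_right (by positivity) (by linarith [norm_nonneg w])
  linarith

end U441.MP
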