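import Pool.Agent.U441.MP.Gp
import Pool.Agent.TH988.RB.Lan
import Pool.Agent.Helper791_Cyc.E2

/-! Laplace transforms of the summatory function along powers. -/

set_option autoImplicit false

open MeasureTheory Filter Topology Set Complex

namespace U441.MP

open Pool.Agent.W263.BSD (LInt lap lapC)

/-- the Laplace transform of a primitive -/
theorem lapC_prim {ψ : ℝ → ℝ} (hm : Measurable ψ) {p : ℝ} (hp : 0 ≤ p)
    (hb : ∀ x, |ψ x| ≤ Real.exp (p * x)) {w : ℂ} (hw : p < w.re) :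
    IntegrableOn (fun τ : ℝ => ((∫ x in (0:ℝ)..τ, ψ x : ℝ) : ℂ) * cexp (-(w * τ))) (Ioi 0) ∧
    lapC (fun τ => ∫ x in (0:ℝ)..τ, ψ x) w = lapC ψ w / w := by
  have hw0 : w ≠ 0 := by
    rintro rfl
    simp at hw
    linarith
  have hwre : 0 < w.re := by linarith
  set μ : Measure ℝ := volume.restrict (Ioi (0:ℝ)) with hμ
  set G : ℝ × ℝ → ℂ := fun z => {z : ℝ × ℝ | z.2 < z.1}.indicator (fun z => (ψ z.2 : ℂ) * cexp (-(w * z.1))) z with hG
  have hGm : Measurable G := by
    refine Measurable.indicator ?_ (measurableSet_lt measurable_snd measurable_fst)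
    exact (Complex.measurable_ofReal.comp (hm.comp measurable_snd)).mul (by fun_prop)
  have hnexp : ∀ τ : ℝ, ‖cexp (-(w * τ))‖ = Real.exp (-(w.re * τ)) := by
    intro τ
    rw [Complex.norm_exp]
    simp
  have hexpI : ∀ x : ℝ, IntegrableOn (fun τ : ℝ => Real.exp (-(w.re * τ))) (Ioi x) := by
    intro x
    have := integrableOn_exp_mul_Ioi (a := -w.re) (by linarith) x
    refine this.congr_fun (fun τ _ => ?_) measurableSet_Ioi
    simp only
    congr 1
    ring
  have hexpC : ∀ x : ℝ, ∫ τ in Ioi x, cexp (-(w * τ)) = cexp (-(w * x)) / w := by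
    intro x
    have := integral_exp_mul_complex_Ioi (a := -w) (by simpa using hwre) x
    simp only [neg_mul] at this
    rw [this, neg_div_neg_eq]
  have hexpR : ∀ x : ℝ, ∫ τ in Ioi x, Real.exp (-(w.re * τ)) = Real.exp (-(w.re * x)) / w.re := by
    intro x
    have := integral_exp_mul_Ioi (a := -w.re) (by linarith) x
    simp only [neg_mul] at this
    rw [this, neg_div_neg_eq]
  -- sections in the first variable
  have hsec : ∀ x : ℝ, 0 < x → (fun τ : ℝ => G (τ, x)) =
      (Ioi x).indicator (fun τ : ℝ => (ψ x : ℂ) * cexp (-(w * τ))) := by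
    intro x _
    funext τ
    rfl
  have hcI : ∀ x : ℝ, IntegrableOn (fun τ : ℝ => (ψ x : ℂ) * cexp (-(w * τ))) (Ioi x) := by
    intro x
    refine ((hexpI x).const_mul |ψ x|).mono' ((by fun_prop : Measurable fun τ : ℝ => (ψ x : ℂ) * cexp (-(w * τ))).aestronglyMeasurable)
      (Eventually.of_forall fun τ => ?_)
    rw [norm_mul, hnexp, Complex.norm_real, Real.norm_eq_abs]
  have hres : ∀ x : ℝ, 0 < x → ∀ g : ℝ → ℂ, ∫ τ, (Ioi x).indicator g τ ∂μ = ∫ τ in Ioi x, g τ := by
    intro x hx g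
    rw [hμ, integral_indicator measurableSet_Ioi, Measure.restrict_restrict measurableSet_Ioi,
      inter_eq_left.2 (Ioi_subset_Ioi hx.le)]
  have hresR : ∀ x : ℝ, 0 < x → ∀ g : ℝ → ℝ, ∫ τ, (Ioi x).indicator g τ ∂μ = ∫ τ in Ioi x, g τ := by
    intro x hx g
    rw [hμ, integral_indicator measurableSet_Ioi, Measure.restrict_restrict measurableSet_Ioi,
      inter_eq_left.2 (Ioi_subset_Ioi hx.le)]
  have hψI : Integrable (fun x : ℝ => |ψ x| * (Real.exp (-(w.re * x)) / w.re)) μ := by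
    have h1 : IntegrableOn (fun x : ℝ => (1 / w.re) * Real.exp ((p - w.re) * x)) (Ioi 0) :=
      (integrableOn_exp_mul_Ioi (by linarith) 0).const_mul _
    refine Integrable.mono' h1 ?_ (Eventually.of_forall fun x => ?_)
    · exact (((continuous_abs.measurable.comp hm)).mul (by fun_prop)).aestronglyMeasurable
    · have h2 : 0 ≤ Real.exp (-(w.re * x)) / w.re := by positivity
      rw [Real.norm_of_nonneg (mul_nonneg (abs_nonneg _) h2)]
      calc |ψ x| * (Real.exp (-(w.re * x)) / w.re) ≤ Real.exp (p * x) * (Real.exp (-(w.re * x)) / w.re) :=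
            mul_le_mul_of_nonneg_right (hb x) h2
        _ = _ := by
            rw [mul_div_assoc', ← Real.exp_add, one_div, mul_comm (w.re)⁻¹, ← div_eq_mul_inv]
            congr 2
            ring
  have hprod : Integrable G (μ.prod μ) := by
    rw [integrable_prod_iff' hGm.aestronglyMeasurable]
    refine ⟨?_, ?_⟩
    · refine (ae_restrict_iff' measurableSet_Ioi).2 (Eventually.of_forall fun x hx => ?_)
      rw [hsec x hx, integrable_indicator_iff measurableSet_Ioi]
      exact ((hcI x).mono_measure (Measure.restrict_le_self))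
    · refine hψI.congr ((ae_restrict_iff' measurableSet_Ioi).2 (Eventually.of_forall fun x hx => ?_))
      have e1 : (fun τ : ℝ => ‖G (τ, x)‖) = (Ioi x).indicator (fun τ : ℝ => |ψ x| * Real.exp (-(w.re * τ))) := by
        funext τ
        have := congrFun (hsec x hx) τ
        rw [this, norm_indicator_eq_indicator_norm]
        congr 1
        funext τ
        rw [norm_mul, hnexp, Complex.norm_real, Real.norm_eq_abs]
      show |ψ x| * (Real.exp (-(w.re * x)) / w.re) = ∫ τ, ‖G (τ, x)‖ ∂μ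
      rw [e1, hresR x hx, integral_const_mul, hexpR]
  have hinner : ∀ τ : ℝ, 0 < τ → ∫ x, G (τ, x) ∂μ = ((∫ x in (0:ℝ)..τ, ψ x : ℝ) : ℂ) * cexp (-(w * τ)) := by
    intro τ hτ
    have e1 : (fun x : ℝ => G (τ, x)) = (Iio τ).indicator (fun x : ℝ => (ψ x : ℂ) * cexp (-(w * τ))) := by
      funext x
      rfl
    rw [e1, hμ, integral_indicator measurableSet_Iio, Measure.restrict_restrict measurableSet_Iio,
      show Iio τ ∩ Ioi 0 = Ioo 0 τ by rw [inter_comm, Ioi_inter_Iio], integral_mul_const,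
      ← integral_Ioc_eq_integral_Ioo, intervalIntegral.integral_of_le hτ.le, integral_complex_ofReal]
  have h1 : ∫ τ, ∫ x, G (τ, x) ∂μ ∂μ = ∫ x, ∫ τ, G (τ, x) ∂μ ∂μ := integral_integral_swap hprod
  refine ⟨?_, ?_⟩
  · have h2 : Integrable (fun τ => ∫ x, G (τ, x) ∂μ) μ := hprod.integral_prod_left
    refine h2.congr ((ae_restrict_iff' measurableSet_Ioi).2 (Eventually.of_forall fun τ hτ => ?_))
    exact hinner τ hτ
  · unfold lapC
    have e1 : ∫ u in Ioi (0:ℝ), ((∫ x in (0:ℝ)..u, ψ x : ℝ) : ℂ) * cexp (-(w * u)) = ∫ τ, ∫ x, G (τ, x) ∂μ ∂μ := by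
      refine setIntegral_congr_fun measurableSet_Ioi fun τ hτ => ?_
      exact (hinner τ hτ).symm
    rw [e1, h1, ← integral_div]
    refine setIntegral_congr_fun measurableSet_Ioi fun x hx => ?_
    show ∫ τ, G (τ, x) ∂μ = (ψ x : ℂ) * cexp (-(w * x)) / w
    rw [hsec x hx, hres x hx, integral_const_mul, hexpC]
    ring

/-- `A(e^(κ x)) e^x` -/
noncomputable def Ps (a : ℕ → ℝ) (κ x : ℝ) : ℝ := Sa a (Real.exp (κ * x)) * Real.exp x

lemma Ps_meas (a : ℕ → ℝ) (κ : ℝ) : Measurable (Ps a κ) := by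
  unfold Ps
  exact ((Sa_measurable a).comp (by fun_prop)).mul (by fun_prop)

lemma Ps_bound {a : ℕ → ℝ} (ha : ∀ n, |a n| ≤ 1) (κ x : ℝ) : |Ps a κ x| ≤ Real.exp ((κ + 1) * x) := by
  unfold Ps
  rw [abs_mul, abs_of_pos (Real.exp_pos x)]
  have := Sa_abs ha (Real.exp_pos (κ * x)).le
  calc |Sa a (Real.exp (κ * x))| * Real.exp x ≤ Real.exp (κ * x) * Real.exp x :=
        mul_le_mul_of_nonneg_right this (Real.exp_pos x).le
    _ = _ := by rw [← Real.exp_add]; congr 1; ring

/-- data: the Dirichlet series -/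
structure MD (a : ℕ → ℝ) (F U : ℂ → ℂ) : Prop where
  h0 : a 0 = 0
  ha : ∀ n, |a n| ≤ 1
  mel : ∀ z : ℂ, 1 < z.re → LSeries (fun n => (a n : ℂ)) z = F z
  fac : ∀ z : ℂ, F z = U z * Pool.Agent.H295R2.fz z
  Ud : ∀ z : ℂ, 1 / 2 < z.re → DifferentiableAt ℂ U z
  Un : ∀ z : ℂ, 1 / 2 < z.re → U z ≠ 0

lemma MD.mellin {a : ℕ → ℝ} {F U : ℂ → ℂ} (h : MD a F U) {z : ℂ} (hz : 1 < z.re) :
    ∫ t in Ioi (1:ℝ), ((Sa a t : ℝ) : ℂ) * (t : ℂ) ^ (-(z + 1)) = F z / z := by
  have hz0 : z ≠ 0 := by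
    rintro rfl
    simp at hz
    linarith
  have hS : LSeriesSummable (fun n => (a n : ℂ)) z := by
    refine LSeriesSummable_of_bounded_of_one_lt_re (m := 1) (fun n _ => ?_) hz
    rw [Complex.norm_real, Real.norm_eq_abs]
    exact h.ha n
  have hO : (fun n : ℕ => ∑ k ∈ Finset.Icc 1 n, (a k : ℂ)) =O[atTop] fun n => (n : ℝ) ^ (1:ℝ) := by
    refine Asymptotics.isBigO_of_le _ fun n => ?_
    rw [Real.rpow_one, Real.norm_of_nonneg (Nat.cast_nonneg n)]
    calc ‖∑ k ∈ Finset.Icc 1 n, (a k : ℂ)‖ ≤ ∑ k ∈ Finset.Icc 1 n, ‖(a k : ℂ)‖ := norm_sum_le _ _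
      _ ≤ ∑ k ∈ Finset.Icc 1 n, (1:ℝ) := Finset.sum_le_sum fun k _ => by
          rw [Complex.norm_real, Real.norm_eq_abs]
          exact h.ha k
      _ = n := by simp
  have key := LSeries_eq_mul_integral (fun n => (a n : ℂ)) (r := 1) (by norm_num) hz hS hO
  rw [h.mel z hz] at key
  rw [key, mul_div_cancel_left₀ _ hz0]
  refine setIntegral_congr_fun measurableSet_Ioi fun t _ => ?_
  simp only [Sa]
  rw [Complex.ofReal_sum]

/-- the Laplace transform of `A(e^(κ x)) e^x` -/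
lemma MD.lapPs {a : ℕ → ℝ} {F U : ℂ → ℂ} (h : MD a F U) {κ : ℝ} (hκ : 0 < κ) {w : ℂ} (hw : κ + 1 < w.re) :
    lapC (Ps a κ) w = F ((w - 1) / κ) / (w - 1) := by
  set z : ℂ := (w - 1) / κ with hz
  have hκ0 : (κ : ℂ) ≠ 0 := by exact_mod_cast hκ.ne'
  have hzre : 1 < z.re := by
    rw [hz, Complex.div_ofReal_re, Complex.sub_re, Complex.one_re, lt_div_iff₀ hκ]
    linarith
  have hw1 : w - 1 = κ * z := by rw [hz]; field_simp
  have hz0 : z ≠ 0 := by
    rintro h0
    rw [h0] at hzre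
    simp at hzre
    linarith
  have h1 := h.mellin hzre
  have himg : (fun x : ℝ => Real.exp (κ * x)) '' Ioi 0 = Ioi 1 := by
    ext t
    constructor
    · rintro ⟨x, hx, rfl⟩
      rw [mem_Ioi, Real.one_lt_exp_iff]
      exact mul_pos hκ hx
    · intro ht
      have ht1 : (1:ℝ) < t := ht
      refine ⟨Real.log t / κ, div_pos (Real.log_pos ht1) hκ, ?_⟩
      simp only
      rw [mul_div_cancel₀ _ hκ.ne', Real.exp_log (by linarith)]
  have hsub := integral_image_eq_integral_abs_deriv_smul (s := Ioi (0:ℝ)) (f := fun x : ℝ => Real.exp (κ * x))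
    (f' := fun x => Real.exp (κ * x) * κ) measurableSet_Ioi
    (fun x _ => by
      have h2 : HasDerivAt (fun x : ℝ => κ * x) κ x := by simpa using (hasDerivAt_id x).const_mul κ
      exact h2.exp.hasDerivWithinAt)
    (fun x _ y _ hxy => by
      have h3 := Real.exp_injective hxy
      exact mul_left_cancel₀ hκ.ne' h3)
    (fun t : ℝ => ((Sa a t : ℝ) : ℂ) * (t : ℂ) ^ (-(z + 1)))
  rw [himg, h1] at hsub
  have e2 : ∫ x in Ioi (0:ℝ), |Real.exp (κ * x) * κ| • (((Sa a (Real.exp (κ * x)) : ℝ) : ℂ) *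
      ((Real.exp (κ * x) : ℝ) : ℂ) ^ (-(z + 1))) = κ * lapC (Ps a κ) w := by
    unfold lapC
    rw [← integral_const_mul]
    refine setIntegral_congr_fun measurableSet_Ioi fun x _ => ?_
    rw [abs_of_pos (mul_pos (Real.exp_pos _) hκ), Complex.real_smul]
    have e3 : ((Real.exp (κ * x) : ℝ) : ℂ) ^ (-(z + 1)) = cexp (-(κ * z * x) - κ * x) := by
      rw [Complex.cpow_def_of_ne_zero (by exact_mod_cast (Real.exp_pos _).ne'), ← Complex.ofReal_log (Real.exp_pos _).le,
        Real.log_exp]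
      congr 1
      push_cast
      ring
    have e4 : cexp (-(w * x)) = cexp (-(κ * z * x)) * cexp (-x) := by
      rw [← Complex.exp_add]
      congr 1
      have : w = κ * z + 1 := by linear_combination hw1
      rw [this]
      ring
    unfold Ps
    rw [e3, e4, Complex.exp_sub]
    push_cast
    rw [Complex.exp_neg (x : ℂ)]
    have h5 : cexp (κ * x) ≠ 0 := Complex.exp_ne_zero _
    have h6 : cexp (x : ℂ) ≠ 0 := Complex.exp_ne_zero _
    field_simp
  rw [e2] at hsub
  rw [hw1]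
  have : lapC (Ps a κ) w = (F z / z) / κ := by
    rw [hsub]
    field_simp
  rw [this]
  field_simp

end U441.MP
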