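import Mathlib

/-! Mean value theorem for exponential sums with the frequencies `κ log (q n + r)`. -/

set_option autoImplicit false

open MeasureTheory Filter Topology Set Complex

namespace U441.MP

/-- Fourier transform of the Gaussian -/
lemma gauss_ft {T : ℝ} (hT : 0 < T) (w : ℝ) :
    Integrable (fun ξ : ℝ => ((Real.exp (-(Real.pi * ξ ^ 2 / T ^ 2)) : ℝ) : ℂ) *
      cexp (2 * Real.pi * I * w * ξ)) ∧
    ∫ ξ : ℝ, ((Real.exp (-(Real.pi * ξ ^ 2 / T ^ 2)) : ℝ) : ℂ) * cexp (2 * Real.pi * I * w * ξ) =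
      ((T * Real.exp (-(Real.pi * T ^ 2 * w ^ 2)) : ℝ) : ℂ) := by
  have hT0 : (T : ℂ) ≠ 0 := by exact_mod_cast hT.ne'
  have hpi : (Real.pi : ℂ) ≠ 0 := by exact_mod_cast Real.pi_ne_zero
  set b : ℂ := ((-(Real.pi / T ^ 2) : ℝ) : ℂ) with hb
  have hbre : b.re < 0 := by
    rw [hb, Complex.ofReal_re]
    have : 0 < Real.pi / T ^ 2 := by positivity
    linarith
  have h1 : ∀ ξ : ℝ, ((Real.exp (-(Real.pi * ξ ^ 2 / T ^ 2)) : ℝ) : ℂ) * cexp (2 * Real.pi * I * w * ξ) =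
      cexp (b * (ξ : ℂ) ^ 2 + (2 * Real.pi * I * w) * ξ + 0) := by
    intro ξ
    rw [Complex.ofReal_exp, ← Complex.exp_add]
    congr 1
    rw [hb]
    push_cast
    ring
  simp_rw [h1]
  refine ⟨integrable_cexp_quadratic' hbre _ _, ?_⟩
  rw [integral_cexp_quadratic hbre]
  have e1 : ((Real.pi : ℂ) / -b) ^ (1 / 2 : ℂ) = (T : ℂ) := by
    have e2 : ((Real.pi : ℂ) / -b) = ((T ^ 2 : ℝ) : ℂ) := by
      rw [hb]
      push_cast
      field_simp
    have e3 : (1 / 2 : ℂ) = ((1 / 2 : ℝ) : ℂ) := by push_cast; ring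
    rw [e2, e3, ← Complex.ofReal_cpow (by positivity), ← Real.sqrt_eq_rpow, Real.sqrt_sq hT.le]
  have e4 : (0 - (2 * Real.pi * I * w : ℂ) ^ 2 / (4 * b)) = ((-(Real.pi * T ^ 2 * w ^ 2) : ℝ) : ℂ) := by
    rw [hb]
    push_cast
    field_simp
    ring_nf
    rw [Complex.I_sq]
    ring
  rw [e1, e4]
  push_cast
  ring

/-- bilinear form of the mean value -/
lemma gauss_mv {ι : Type*} {T : ℝ} (hT : 0 < T) (F : Finset ι) (b lam : ι → ℝ) :
    Integrable (fun ξ : ℝ => Real.exp (-(Real.pi * ξ ^ 2 / T ^ 2)) *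
      ‖∑ i ∈ F, (b i : ℂ) * cexp (2 * Real.pi * I * lam i * ξ)‖ ^ 2) ∧
    ∫ ξ : ℝ, Real.exp (-(Real.pi * ξ ^ 2 / T ^ 2)) *
      ‖∑ i ∈ F, (b i : ℂ) * cexp (2 * Real.pi * I * lam i * ξ)‖ ^ 2 =
      ∑ i ∈ F, ∑ j ∈ F, b i * b j * (T * Real.exp (-(Real.pi * T ^ 2 * (lam i - lam j) ^ 2))) := by
  have hpt : ∀ ξ : ℝ, ((Real.exp (-(Real.pi * ξ ^ 2 / T ^ 2)) *
      ‖∑ i ∈ F, (b i : ℂ) * cexp (2 * Real.pi * I * lam i * ξ)‖ ^ 2 : ℝ) : ℂ) =
      ∑ i ∈ F, ∑ j ∈ F, ((b i * b j : ℝ) : ℂ) *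
        (((Real.exp (-(Real.pi * ξ ^ 2 / T ^ 2)) : ℝ) : ℂ) *
          cexp (2 * Real.pi * I * ((lam i - lam j : ℝ) : ℂ) * ξ)) := by
    intro ξ
    have h1 : ((‖∑ i ∈ F, (b i : ℂ) * cexp (2 * Real.pi * I * lam i * ξ)‖ ^ 2 : ℝ) : ℂ) =
        (∑ i ∈ F, (b i : ℂ) * cexp (2 * Real.pi * I * lam i * ξ)) *
          (starRingEnd ℂ) (∑ i ∈ F, (b i : ℂ) * cexp (2 * Real.pi * I * lam i * ξ)) := by
      rw [Complex.mul_conj, Complex.normSq_eq_norm_sq]
    rw [Complex.ofReal_mul, h1, map_sum, Finset.sum_mul_sum, Finset.mul_sum]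
    refine Finset.sum_congr rfl fun i _ => ?_
    rw [Finset.mul_sum]
    refine Finset.sum_congr rfl fun j _ => ?_
    have h2 : (starRingEnd ℂ) ((b j : ℂ) * cexp (2 * Real.pi * I * lam j * ξ)) =
        (b j : ℂ) * cexp (-(2 * Real.pi * I * lam j * ξ)) := by
      rw [map_mul, ← Complex.exp_conj, Complex.conj_ofReal]
      congr 2
      simp [Complex.conj_ofNat]
    have h3 : cexp (2 * Real.pi * I * ((lam i - lam j : ℝ) : ℂ) * ξ) =
        cexp (2 * Real.pi * I * lam i * ξ) * cexp (-(2 * Real.pi * I * lam j * ξ)) := by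
      rw [← Complex.exp_add]
      congr 1
      push_cast
      ring
    rw [h2, h3]
    push_cast
    ring
  have hint : Integrable (fun ξ : ℝ => ((Real.exp (-(Real.pi * ξ ^ 2 / T ^ 2)) *
      ‖∑ i ∈ F, (b i : ℂ) * cexp (2 * Real.pi * I * lam i * ξ)‖ ^ 2 : ℝ) : ℂ)) := by
    simp_rw [hpt]
    exact integrable_finsetSum _ fun i _ => integrable_finsetSum _ fun j _ =>
      (gauss_ft hT _).1.const_mul _
  have hintR : Integrable (fun ξ : ℝ => Real.exp (-(Real.pi * ξ ^ 2 / T ^ 2)) *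
      ‖∑ i ∈ F, (b i : ℂ) * cexp (2 * Real.pi * I * lam i * ξ)‖ ^ 2) := by
    have := hint.re
    simpa only [RCLike.re_to_complex, Complex.ofReal_re] using this
  refine ⟨hintR, ?_⟩
  have h4 : ((∫ ξ : ℝ, Real.exp (-(Real.pi * ξ ^ 2 / T ^ 2)) *
      ‖∑ i ∈ F, (b i : ℂ) * cexp (2 * Real.pi * I * lam i * ξ)‖ ^ 2 : ℝ) : ℂ) =
      ((∑ i ∈ F, ∑ j ∈ F, b i * b j * (T * Real.exp (-(Real.pi * T ^ 2 * (lam i - lam j) ^ 2))) : ℝ) : ℂ) := by
    rw [← integral_complex_ofReal]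
    simp_rw [hpt]
    rw [integral_finsetSum]
    · rw [Complex.ofReal_sum]
      refine Finset.sum_congr rfl fun i _ => ?_
      rw [integral_finsetSum]
      · rw [Complex.ofReal_sum]
        refine Finset.sum_congr rfl fun j _ => ?_
        rw [integral_const_mul, (gauss_ft hT (lam i - lam j)).2, ← Complex.ofReal_mul]
      · exact fun j _ => (gauss_ft hT _).1.const_mul _
    · exact fun i _ => integrable_finsetSum _ fun j _ => (gauss_ft hT _).1.const_mul _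
  exact_mod_cast h4

/-- geometric sums -/
lemma geo_sum {c : ℝ} (hc : 0 < c) (N n : ℕ) :
    ∑ m ∈ Finset.Icc 1 N, Real.exp (-(c * |(m : ℝ) - n|)) ≤ 2 * (1 + 1 / c) := by
  set x : ℝ := Real.exp (-c) with hx
  have hx0 : 0 < x := Real.exp_pos _
  have hx1 : x < 1 := by rw [hx, Real.exp_lt_one_iff]; linarith
  have hgeo : ∀ K : ℕ, ∑ k ∈ Finset.range K, x ^ k ≤ 1 + 1 / c := by
    intro K
    have h1 : ∑ k ∈ Finset.range K, x ^ k ≤ ∑' k : ℕ, x ^ k :=
      (summable_geometric_of_lt_one hx0.le hx1).sum_le_tsum _ fun k _ => by positivity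
    rw [tsum_geometric_of_lt_one hx0.le hx1] at h1
    refine h1.trans ?_
    have h2 : x * (1 + c) ≤ 1 := by
      have h3 := Real.add_one_le_exp c
      have h4 : x * Real.exp c = 1 := by rw [hx, ← Real.exp_add]; simp
      nlinarith
    rw [inv_eq_one_div, div_le_iff₀ (by linarith)]
    have h5 : (1 + 1 / c) * (1 - x) = 1 + (1 - x * (1 + c)) / c := by field_simp; ring
    rw [h5]
    have : 0 ≤ (1 - x * (1 + c)) / c := div_nonneg (by linarith) hc.le
    linarith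
  have hsplit : ∑ m ∈ Finset.Icc 1 N, Real.exp (-(c * |(m : ℝ) - n|)) ≤
      ∑ m ∈ Finset.Icc 1 N, ((if m ≤ n then x ^ (n - m) else 0) + (if n < m then x ^ (m - n) else 0)) := by
    refine Finset.sum_le_sum fun m _ => ?_
    have hp : ∀ k : ℕ, Real.exp (-(c * (k : ℝ))) = x ^ k := by
      intro k
      rw [hx, ← Real.exp_nat_mul]
      congr 1
      ring
    rcases le_or_gt m n with h | h
    · rw [if_pos h, if_neg (by omega), add_zero, ← hp, Nat.cast_sub h]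
      have h1 : (m : ℝ) ≤ n := by exact_mod_cast h
      rw [abs_of_nonpos (by linarith)]
      apply le_of_eq
      congr 1
      ring
    · rw [if_neg (by omega), if_pos h, zero_add, ← hp, Nat.cast_sub h.le]
      have h1 : (n : ℝ) < m := by exact_mod_cast h
      rw [abs_of_pos (by linarith)]
  refine hsplit.trans ?_
  rw [Finset.sum_add_distrib, ← Finset.sum_filter, ← Finset.sum_filter]
  have h1 : ∑ m ∈ (Finset.Icc 1 N).filter (fun m => m ≤ n), x ^ (n - m) ≤ 1 + 1 / c := by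
    refine le_trans ?_ (hgeo (n + 1))
    have e : ∑ m ∈ (Finset.Icc 1 N).filter (fun m => m ≤ n), x ^ (n - m) =
        ∑ k ∈ ((Finset.Icc 1 N).filter (fun m => m ≤ n)).image (fun m => n - m), x ^ k := by
      rw [Finset.sum_image]
      intro a ha b hb hab
      simp only [Finset.coe_filter, Finset.mem_Icc, Set.mem_ofPred_eq] at ha hb
      simp only at hab
      omega
    rw [e]
    refine Finset.sum_le_sum_of_subset_of_nonneg ?_ fun k _ _ => by positivity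
    intro k hk
    simp only [Finset.mem_image, Finset.mem_filter, Finset.mem_Icc] at hk
    obtain ⟨m, hm, rfl⟩ := hk
    rw [Finset.mem_range]
    omega
  have h2 : ∑ m ∈ (Finset.Icc 1 N).filter (fun m => n < m), x ^ (m - n) ≤ 1 + 1 / c := by
    refine le_trans ?_ (hgeo (N + 1))
    have e : ∑ m ∈ (Finset.Icc 1 N).filter (fun m => n < m), x ^ (m - n) =
        ∑ k ∈ ((Finset.Icc 1 N).filter (fun m => n < m)).image (fun m => m - n), x ^ k := by
      rw [Finset.sum_image]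
      intro a ha b hb hab
      simp only [Finset.coe_filter, Finset.mem_Icc, Set.mem_ofPred_eq] at ha hb
      simp only at hab
      omega
    rw [e]
    refine Finset.sum_le_sum_of_subset_of_nonneg ?_ fun k _ _ => by positivity
    intro k hk
    simp only [Finset.mem_image, Finset.mem_filter, Finset.mem_Icc] at hk
    obtain ⟨m, hm, rfl⟩ := hk
    rw [Finset.mem_range]
    omega
  linarith

/-- the positions `q n + r` -/
noncomputable def yy (q r : ℝ) (u : ℝ) : ℝ := q * u + r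

lemma yy_pos {q r u : ℝ} (hq : 0 < q) (hr : 0 ≤ r) (hu : 0 < u) : 0 < yy q r u := by
  unfold yy
  positivity

lemma log_sep {q r : ℝ} (hq : 0 < q) (hr : 0 ≤ r) {N m n : ℕ} (hm : 1 ≤ m) (hmN : m ≤ N) (hn : 1 ≤ n)
    (hnN : n ≤ N) :
    q * |(m : ℝ) - n| / yy q r N ≤ |Real.log (yy q r m) - Real.log (yy q r n)| := by
  wlog h : n ≤ m generalizing m n
  · have := this hn hnN hm hmN (by omega)
    rwa [abs_sub_comm (n : ℝ), abs_sub_comm (Real.log (yy q r n))] at this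
  have hn1 : (1:ℝ) ≤ n := by exact_mod_cast hn
  have hm1 : (1:ℝ) ≤ m := by exact_mod_cast hm
  have hyn : 0 < yy q r n := yy_pos hq hr (by linarith)
  have hym : 0 < yy q r m := yy_pos hq hr (by linarith)
  have hmN' : (m:ℝ) ≤ N := by exact_mod_cast hmN
  have hyN : yy q r m ≤ yy q r N := by unfold yy; nlinarith
  have hnm : (n:ℝ) ≤ m := by exact_mod_cast h
  have h1 := Real.one_sub_inv_le_log_of_pos (div_pos hym hyn)
  rw [Real.log_div hym.ne' hyn.ne'] at h1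
  have h2 : 1 - (yy q r m / yy q r n)⁻¹ = q * ((m:ℝ) - n) / yy q r m := by
    rw [inv_div, eq_div_iff hym.ne', sub_mul, one_mul, div_mul_cancel₀ _ hym.ne']
    unfold yy
    ring
  rw [h2] at h1
  have h3 : 0 ≤ q * ((m:ℝ) - n) := mul_nonneg hq.le (by linarith)
  rw [abs_of_nonneg (by linarith : (0:ℝ) ≤ (m:ℝ) - n)]
  have h4 : q * ((m:ℝ) - n) / yy q r N ≤ q * ((m:ℝ) - n) / yy q r m :=
    div_le_div_of_nonneg_left h3 hym hyN
  exact h4.trans (h1.trans (le_abs_self _))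

/-- the exponential sum -/
noncomputable def Ds (κ q r : ℝ) (N : ℕ) (b : ℕ → ℝ) (ξ : ℝ) : ℂ :=
  ∑ n ∈ Finset.Icc 1 N, (b n : ℂ) * cexp (2 * Real.pi * I * ((κ * Real.log (yy q r n) : ℝ) : ℂ) * ξ)

lemma Ds_cont (κ q r : ℝ) (N : ℕ) (b : ℕ → ℝ) : Continuous (Ds κ q r N b) := by
  unfold Ds
  fun_prop

/-- **Mean value theorem.** -/
theorem mean_value {κ q r T : ℝ} (hκ : 0 < κ) (hq : 0 < q) (hr : 0 ≤ r) (hT : 0 < T) {N : ℕ} (hN : 1 ≤ N)
    (b : ℕ → ℝ) :
    ∫ ξ in (-T)..T, ‖Ds κ q r N b ξ‖ ^ 2 ≤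
      4 * Real.exp Real.pi * (T + yy q r N / (κ * q)) * ∑ n ∈ Finset.Icc 1 N, b n ^ 2 := by
  have hN1 : (1:ℝ) ≤ N := by exact_mod_cast hN
  have hyN : 0 < yy q r N := yy_pos hq hr (by linarith)
  obtain ⟨hi, he⟩ := gauss_mv hT (Finset.Icc 1 N) b (fun n : ℕ => κ * Real.log (yy q r n))
  set G : ℝ → ℝ := fun ξ => Real.exp (-(Real.pi * ξ ^ 2 / T ^ 2)) * ‖Ds κ q r N b ξ‖ ^ 2 with hG
  have hi' : Integrable G := hi
  have he' : ∫ ξ, G ξ = ∑ i ∈ Finset.Icc 1 N, ∑ j ∈ Finset.Icc 1 N, b i * b j *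
      (T * Real.exp (-(Real.pi * T ^ 2 * (κ * Real.log (yy q r i) - κ * Real.log (yy q r j)) ^ 2))) := he
  have h1 : ∫ ξ in (-T)..T, ‖Ds κ q r N b ξ‖ ^ 2 ≤ ∫ ξ in (-T)..T, Real.exp Real.pi * G ξ := by
    refine intervalIntegral.integral_mono_on (by linarith)
      (((Ds_cont κ q r N b).norm.pow 2).intervalIntegrable _ _) ?_ ?_
    · exact (hi'.const_mul _).intervalIntegrable
    · intro ξ hξ
      rw [hG]
      simp only
      rw [← mul_assoc, ← Real.exp_add]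
      have : 1 ≤ Real.exp (Real.pi + -(Real.pi * ξ ^ 2 / T ^ 2)) := by
        rw [Real.one_le_exp_iff]
        have h2 : ξ ^ 2 ≤ T ^ 2 := by
          have := abs_le.2 hξ
          rw [← sq_abs ξ]
          exact pow_le_pow_left₀ (abs_nonneg _) this 2
        have h3 : Real.pi * ξ ^ 2 / T ^ 2 ≤ Real.pi := by
          rw [div_le_iff₀ (by positivity)]
          exact mul_le_mul_of_nonneg_left h2 Real.pi_pos.le
        linarith
      have h4 : 0 ≤ ‖Ds κ q r N b ξ‖ ^ 2 := by positivity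
      nlinarith
  have h2 : ∫ ξ in (-T)..T, Real.exp Real.pi * G ξ ≤ Real.exp Real.pi * ∫ ξ, G ξ := by
    rw [intervalIntegral.integral_const_mul]
    refine mul_le_mul_of_nonneg_left ?_ (Real.exp_pos _).le
    rw [intervalIntegral.integral_of_le (by linarith)]
    refine setIntegral_le_integral hi' (Eventually.of_forall fun ξ => ?_)
    rw [hG]
    positivity
  refine h1.trans (h2.trans ?_)
  rw [he']
  -- the quadratic form
  set c : ℝ := T * κ * q / yy q r N with hc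
  have hc0 : 0 < c := by positivity
  have hK : ∀ i ∈ Finset.Icc 1 N, ∀ j ∈ Finset.Icc 1 N,
      Real.exp (-(Real.pi * T ^ 2 * (κ * Real.log (yy q r i) - κ * Real.log (yy q r j)) ^ 2)) ≤
        2 * Real.exp (-(c * |(i : ℝ) - j|)) := by
    intro i hi j hj
    rw [Finset.mem_Icc] at hi hj
    have hs := log_sep hq hr (N := N) hi.1 hi.2 hj.1 hj.2
    set x : ℝ := T * κ * |Real.log (yy q r i) - Real.log (yy q r j)| with hx
    have hx1 : c * |(i : ℝ) - j| ≤ x := by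
      rw [hx, hc]
      have : T * κ * q / yy q r N * |(i : ℝ) - j| = T * κ * (q * |(i : ℝ) - j| / yy q r N) := by ring
      rw [this]
      exact mul_le_mul_of_nonneg_left hs (by positivity)
    have hx2 : Real.pi * T ^ 2 * (κ * Real.log (yy q r i) - κ * Real.log (yy q r j)) ^ 2 = Real.pi * x ^ 2 := by
      rw [hx, mul_pow, sq_abs]
      ring
    rw [hx2]
    have h5 : -(Real.pi * x ^ 2) ≤ 1 / 2 + -(c * |(i : ℝ) - j|) := by
      have := Real.pi_gt_three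
      nlinarith [sq_nonneg (x - 1 / 2), sq_nonneg x]
    have h6 : Real.exp (1 / 2) ≤ 2 := by
      have h7 : Real.exp (1 / 2) ^ 2 = Real.exp 1 := by
        rw [← Real.exp_nat_mul]
        norm_num
      have h8 := Real.exp_one_lt_d9
      have h9 : 0 < Real.exp (1 / 2) := Real.exp_pos _
      nlinarith
    calc _ ≤ Real.exp (1 / 2 + -(c * |(i : ℝ) - j|)) := Real.exp_le_exp.2 h5
      _ = Real.exp (1 / 2) * Real.exp (-(c * |(i : ℝ) - j|)) := Real.exp_add _ _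
      _ ≤ _ := mul_le_mul_of_nonneg_right h6 (Real.exp_pos _).le
  have hterm : ∀ i ∈ Finset.Icc 1 N, ∀ j ∈ Finset.Icc 1 N, b i * b j *
      (T * Real.exp (-(Real.pi * T ^ 2 * (κ * Real.log (yy q r i) - κ * Real.log (yy q r j)) ^ 2))) ≤
      T * (b i ^ 2 * Real.exp (-(c * |(j : ℝ) - i|)) + b j ^ 2 * Real.exp (-(c * |(i : ℝ) - j|))) := by
    intro i hi j hj
    have h3 := hK i hi j hj
    have h4 := Real.exp_pos (-(Real.pi * T ^ 2 * (κ * Real.log (yy q r i) - κ * Real.log (yy q r j)) ^ 2))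
    have h5 : b i * b j ≤ (b i ^ 2 + b j ^ 2) / 2 := by nlinarith [sq_nonneg (b i - b j)]
    have h6 : 0 ≤ (b i ^ 2 + b j ^ 2) / 2 := by positivity
    rw [abs_sub_comm (j : ℝ)]
    calc _ ≤ (b i ^ 2 + b j ^ 2) / 2 *
          (T * Real.exp (-(Real.pi * T ^ 2 * (κ * Real.log (yy q r i) - κ * Real.log (yy q r j)) ^ 2))) :=
          mul_le_mul_of_nonneg_right h5 (by positivity)
      _ ≤ (b i ^ 2 + b j ^ 2) / 2 * (T * (2 * Real.exp (-(c * |(i : ℝ) - j|)))) := by gcongr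
      _ = _ := by ring
  have hsum : ∑ i ∈ Finset.Icc 1 N, ∑ j ∈ Finset.Icc 1 N, b i * b j *
      (T * Real.exp (-(Real.pi * T ^ 2 * (κ * Real.log (yy q r i) - κ * Real.log (yy q r j)) ^ 2))) ≤
      T * (2 * (∑ n ∈ Finset.Icc 1 N, b n ^ 2) * (2 * (1 + 1 / c))) := by
    refine (Finset.sum_le_sum fun i hi => Finset.sum_le_sum fun j hj => hterm i hi j hj).trans ?_
    simp_rw [← Finset.mul_sum, Finset.sum_add_distrib]
    refine mul_le_mul_of_nonneg_left ?_ hT.le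
    have a1 : ∑ i ∈ Finset.Icc 1 N, ∑ j ∈ Finset.Icc 1 N, b i ^ 2 * Real.exp (-(c * |(j : ℝ) - i|)) ≤
        (∑ n ∈ Finset.Icc 1 N, b n ^ 2) * (2 * (1 + 1 / c)) := by
      rw [Finset.sum_mul]
      refine Finset.sum_le_sum fun i _ => ?_
      rw [← Finset.mul_sum]
      exact mul_le_mul_of_nonneg_left (geo_sum hc0 N i) (sq_nonneg _)
    have a2 : ∑ i ∈ Finset.Icc 1 N, ∑ j ∈ Finset.Icc 1 N, b j ^ 2 * Real.exp (-(c * |(i : ℝ) - j|)) ≤
        (∑ n ∈ Finset.Icc 1 N, b n ^ 2) * (2 * (1 + 1 / c)) := by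
      rw [Finset.sum_comm, Finset.sum_mul]
      refine Finset.sum_le_sum fun i _ => ?_
      rw [← Finset.mul_sum]
      exact mul_le_mul_of_nonneg_left (geo_sum hc0 N i) (sq_nonneg _)
    linarith
  have hfin : T * (2 * (∑ n ∈ Finset.Icc 1 N, b n ^ 2) * (2 * (1 + 1 / c))) =
      4 * (T + yy q r N / (κ * q)) * ∑ n ∈ Finset.Icc 1 N, b n ^ 2 := by
    rw [hc]
    field_simp
    ring
  rw [hfin] at hsum
  calc _ ≤ Real.exp Real.pi * (4 * (T + yy q r N / (κ * q)) * ∑ n ∈ Finset.Icc 1 N, b n ^ 2) :=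
        mul_le_mul_of_nonneg_left hsum (Real.exp_pos _).le
    _ = _ := by ring

end U441.MP
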