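import Pool.Agent.U441.MP.Ld

/-! From a one-sided bound at the points `(q n + r)^κ` to a one-sided bound for the primitive. -/

set_option autoImplicit false

open MeasureTheory Filter Topology Set Complex

namespace U441.MP

/-- substitution -/
lemma sub_u {a : ℕ → ℝ} {κ q r B : ℝ} (hq : 0 < q) (hr : 0 ≤ r) (hB : 1 ≤ B) (g : ℝ → ℂ) :
    ∫ u in (1:ℝ)..B, ((Sa a (yy q r u ^ κ) : ℝ) : ℂ) * g (yy q r u) =
      (1 / q : ℂ) * ∫ y in (Real.log (yy q r 1))..(Real.log (yy q r B)), ((Ps a κ y : ℝ) : ℂ) * g (Real.exp y) := by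
  have hy1 := yy_pos hq hr one_pos
  have hyB := yy_pos hq hr (by linarith : 0 < B)
  have hle : yy q r 1 ≤ yy q r B := by unfold yy; nlinarith
  have hlog := Real.log_le_log hy1 hle
  rw [intervalIntegral.integral_of_le hB, intervalIntegral.integral_of_le hlog]
  have himg : (fun y : ℝ => (Real.exp y - r) / q) '' Ioc (Real.log (yy q r 1)) (Real.log (yy q r B)) = Ioc 1 B := by
    ext t
    constructor
    · rintro ⟨y, ⟨h1, h2⟩, rfl⟩
      rw [Real.log_lt_iff_lt_exp hy1] at h1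
      rw [Real.le_log_iff_exp_le hyB] at h2
      unfold yy at h1 h2
      constructor
      · rw [lt_div_iff₀ hq]
        linarith
      · rw [div_le_iff₀ hq]
        linarith
    · rintro ⟨h1, h2⟩
      have ht : 0 < yy q r t := yy_pos hq hr (by linarith)
      refine ⟨Real.log (yy q r t), ⟨?_, ?_⟩, ?_⟩
      · exact Real.log_lt_log hy1 (by unfold yy; nlinarith)
      · exact Real.log_le_log ht (by unfold yy; nlinarith)
      · simp only
        rw [Real.exp_log ht]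
        unfold yy
        field_simp
        ring
  have hsub := integral_image_eq_integral_abs_deriv_smul (s := Ioc (Real.log (yy q r 1)) (Real.log (yy q r B)))
    (f := fun y : ℝ => (Real.exp y - r) / q) (f' := fun y => Real.exp y / q) measurableSet_Ioc
    (fun y _ => ((((Real.hasDerivAt_exp y).sub_const r).div_const q)).hasDerivWithinAt)
    (fun x _ y _ hxy => by
      simp only at hxy
      rw [div_left_inj' hq.ne'] at hxy
      exact Real.exp_injective (by linarith))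
    (fun u : ℝ => ((Sa a (yy q r u ^ κ) : ℝ) : ℂ) * g (yy q r u))
  rw [himg] at hsub
  rw [hsub, ← integral_const_mul]
  refine setIntegral_congr_fun measurableSet_Ioc fun y _ => ?_
  have e1 : yy q r ((Real.exp y - r) / q) = Real.exp y := by
    unfold yy
    field_simp
    ring
  have e2 : Real.exp y ^ κ = Real.exp (κ * y) := by
    rw [← Real.exp_mul, mul_comm]
  rw [e1, e2, abs_of_pos (by positivity), Complex.real_smul]
  unfold Ps
  push_cast
  ring

lemma sub_u_real {a : ℕ → ℝ} {κ q r B : ℝ} (hq : 0 < q) (hr : 0 ≤ r) (hB : 1 ≤ B) :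
    ∫ u in (1:ℝ)..B, Sa a (yy q r u ^ κ) =
      (1 / q) * ∫ y in (Real.log (yy q r 1))..(Real.log (yy q r B)), Ps a κ y := by
  have h := sub_u (a := a) (κ := κ) hq hr hB (fun _ => 1)
  simp only [mul_one] at h
  rw [intervalIntegral.integral_ofReal, intervalIntegral.integral_ofReal] at h
  have h2 : ((∫ u in (1:ℝ)..B, Sa a (yy q r u ^ κ) : ℝ) : ℂ) =
      (((1 / q) * ∫ y in (Real.log (yy q r 1))..(Real.log (yy q r B)), Ps a κ y : ℝ) : ℂ) := by
    rw [h]
    push_cast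
    ring
  exact_mod_cast h2

/-- bound for the integrand -/
lemma Ps_growth {a : ℕ → ℝ} {F : ℂ → ℂ} {σ : ℝ} (hp : PD a F σ) (hσ1 : 1 / 4 ≤ σ) (hσ2 : σ ≤ 2) {κ δ : ℝ}
    (hκ : 0 < κ) (hδ : 0 < δ) :
    ∃ C : ℝ, 0 < C ∧ ∀ y : ℝ, |Ps a κ y| ≤ C * Real.exp ((κ * σ + δ) * y) * Real.exp y := by
  obtain ⟨C, hC, hb⟩ := Sa_bound hp hσ1 hσ2 (δ := δ / κ) (by positivity)
  refine ⟨C, hC, fun y => ?_⟩
  unfold Ps
  rw [abs_mul, abs_of_pos (Real.exp_pos y)]
  refine mul_le_mul_of_nonneg_right ?_ (Real.exp_pos y).le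
  by_cases hy : 0 ≤ y
  · have h1 : 1 ≤ Real.exp (κ * y) := Real.one_le_exp (by positivity)
    refine (hb _ h1).trans (le_of_eq ?_)
    rw [← Real.exp_mul]
    congr 2
    field_simp
  · have h1 : Real.exp (κ * y) < 1 := by
      rw [Real.exp_lt_one_iff]
      exact mul_neg_of_pos_of_neg hκ (not_le.1 hy)
    have h2 : Sa a (Real.exp (κ * y)) = 0 := by
      unfold Sa
      rw [Nat.floor_eq_zero.2 h1]
      simp
    rw [h2, abs_zero]
    positivity

/-- the index of the last point below `v` -/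
lemma index {q r v : ℝ} (hq : 0 < q) (hr : 0 ≤ r) (hv : yy q r 1 ≤ v) :
    ∃ N : ℕ, 1 ≤ N ∧ yy q r N ≤ v ∧ v - yy q r N ≤ q ∧ (N : ℝ) ≤ v / q := by
  unfold yy at *
  have h1 : 1 ≤ (v - r) / q := by rw [le_div_iff₀ hq]; linarith
  refine ⟨⌊(v - r) / q⌋₊, ?_, ?_, ?_, ?_⟩
  · rw [Nat.one_le_floor_iff]
    exact h1
  · have := Nat.floor_le (by linarith : 0 ≤ (v - r) / q)
    rw [le_div_iff₀ hq] at this
    linarith
  · have := Nat.lt_floor_add_one ((v - r) / q)
    rw [div_lt_iff₀ hq] at this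
    linarith
  · have := Nat.floor_le (by linarith : 0 ≤ (v - r) / q)
    refine this.trans ?_
    exact div_le_div_of_nonneg_right (by linarith) hq.le

theorem prim_bound {a : ℕ → ℝ} {F : ℂ → ℂ} {σ : ℝ} (hp : PD a F σ) (hσ1 : 1 / 4 ≤ σ) (hσ2 : σ ≤ 2)
    {κ q r δ sg c β w₂ : ℝ} (hκ : 0 < κ) (hq : 0 < q) (hr : 0 ≤ r) (hδ : 0 < δ) (hsg : |sg| = 1) (hc : 0 ≤ c)
    (hβ : 0 ≤ β) (h1 : κ * β + 1 ≤ w₂) (h2 : κ * σ + 2 / 3 + δ ≤ w₂) {K₀ : ℝ} (hK₀0 : 0 ≤ K₀)
    (hos : ∀ N : ℕ, 1 ≤ N → ∑ n ∈ Finset.Icc 1 N, max (sg * Sa a (yy q r n ^ κ) - c * yy q r n ^ (κ * β)) 0 ≤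
      K₀ * (N:ℝ) ^ w₂) :
    ∃ C₁ : ℝ, ∀ τ : ℝ, 0 ≤ τ → sg * Ph a κ τ ≤ C₁ * Real.exp (w₂ * τ) := by
  obtain ⟨C, hC, hme⟩ := main_est hp hσ1 hσ2 hκ hq hr hδ
  obtain ⟨Cs, hCs, hPs⟩ := Ps_growth (δ := 1 / 2) hp hσ1 hσ2 hκ (by norm_num)
  set g : ℝ := q + r with hg
  have hg0 : 0 < g := by rw [hg]; linarith
  have hw1 : 1 ≤ w₂ := by
    have : 0 ≤ κ * β := by positivity
    linarith
  have hsg' : ∀ x : ℝ, sg * x ≤ |x| := by
    intro x
    calc sg * x ≤ |sg * x| := le_abs_self _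
      _ = |x| := by rw [abs_mul, hsg, one_mul]
  have hyn : ∀ n : ℕ, 0 ≤ yy q r n := fun n => by unfold yy; positivity
  set C' : ℝ := K₀ + c * g ^ (κ * β) + 2 * C with hC'
  have hC'0 : 0 ≤ C' := by positivity
  -- the sum
  have hsum : ∀ N : ℕ, 1 ≤ N → sg * ∫ u in (1:ℝ)..N, Sa a (yy q r u ^ κ) ≤ C' * (N:ℝ) ^ w₂ := by
    intro N hN
    have hN1 : (1:ℝ) ≤ N := by exact_mod_cast hN
    have hN0 : (0:ℝ) < N := by linarith
    have hYg : yy q r N ≤ g * N := by rw [hg]; unfold yy; nlinarith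
    have s1 : sg * ∑ n ∈ Finset.Icc 1 N, Sa a (yy q r n ^ κ) ≤
        K₀ * (N:ℝ) ^ w₂ + c * g ^ (κ * β) * (N:ℝ) ^ (κ * β + 1) := by
      rw [Finset.mul_sum]
      have t1 : ∀ n ∈ Finset.Icc 1 N, sg * Sa a (yy q r n ^ κ) ≤
          max (sg * Sa a (yy q r n ^ κ) - c * yy q r n ^ (κ * β)) 0 + c * (g * N) ^ (κ * β) := by
        intro n hn
        rw [Finset.mem_Icc] at hn
        have hnN : (n:ℝ) ≤ N := by exact_mod_cast hn.2
        have hyle : yy q r n ≤ g * N := by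
          refine le_trans ?_ hYg
          unfold yy
          nlinarith
        have h5 : c * yy q r n ^ (κ * β) ≤ c * (g * N) ^ (κ * β) :=
          mul_le_mul_of_nonneg_left (Real.rpow_le_rpow (hyn n) hyle (by positivity)) hc
        have h6 := le_max_left (sg * Sa a (yy q r n ^ κ) - c * yy q r n ^ (κ * β)) 0
        linarith
      refine (Finset.sum_le_sum t1).trans ?_
      rw [Finset.sum_add_distrib]
      have t2 := hos N hN
      have t3 : ∑ n ∈ Finset.Icc 1 N, c * (g * N) ^ (κ * β) = c * g ^ (κ * β) * (N:ℝ) ^ (κ * β + 1) := by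
        rw [Finset.sum_const, Nat.card_Icc, nsmul_eq_mul, Nat.add_sub_cancel, Real.mul_rpow hg0.le hN0.le,
          Real.rpow_add hN0, Real.rpow_one]
        ring
      rw [t3]
      linarith
    have s2 := hme N hN
    have s3 : sg * ∫ u in (1:ℝ)..N, Sa a (yy q r u ^ κ) ≤ sg * ∑ n ∈ Finset.Icc 1 N, Sa a (yy q r n ^ κ) +
        |∑ n ∈ Finset.Icc 1 N, Sa a (yy q r n ^ κ) - ∫ u in (1:ℝ)..N, Sa a (yy q r u ^ κ)| := by
      have := hsg' (-(∑ n ∈ Finset.Icc 1 N, Sa a (yy q r n ^ κ) - ∫ u in (1:ℝ)..N, Sa a (yy q r u ^ κ)))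
      rw [abs_neg] at this
      linarith
    have p1 : (N:ℝ) ^ (κ * β + 1) ≤ (N:ℝ) ^ w₂ := Real.rpow_le_rpow_of_exponent_le hN1 h1
    have p2 : (N:ℝ) ^ (κ * σ + 2 / 3 + δ) ≤ (N:ℝ) ^ w₂ := Real.rpow_le_rpow_of_exponent_le hN1 h2
    have p3 : (N:ℝ) ≤ (N:ℝ) ^ w₂ := by
      calc (N:ℝ) = (N:ℝ) ^ (1:ℝ) := (Real.rpow_one _).symm
        _ ≤ _ := Real.rpow_le_rpow_of_exponent_le hN1 hw1
    have p4 : 1 ≤ (N:ℝ) ^ w₂ := by linarith
    have p5 : 0 ≤ c * g ^ (κ * β) := by positivity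
    have p6 := mul_le_mul_of_nonneg_left p1 p5
    have p7 := mul_le_mul_of_nonneg_left (add_le_add p2 p3) hC.le
    have p8 := mul_le_mul_of_nonneg_left p4 hK₀0
    rw [hC']
    linarith
  set K₁ : ℝ := |∫ x in (0:ℝ)..(Real.log (yy q r 1)), Ps a κ x| with hK₁
  have hy1 := yy_pos hq hr one_pos
  refine ⟨K₁ + q * C' * (1 / q) ^ w₂ + Cs * q + yy q r 1 ^ (κ + 2), fun τ hτ => ?_⟩
  have hE : 1 ≤ Real.exp (w₂ * τ) := Real.one_le_exp (by positivity)
  have hK₁0 : 0 ≤ K₁ := abs_nonneg _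
  have hP1 : 0 ≤ q * C' * (1 / q) ^ w₂ := by positivity
  have hP2 : 0 ≤ yy q r 1 ^ (κ + 2) := by positivity
  rcases le_or_gt (yy q r 1) (Real.exp τ) with hcase | hcase
  · obtain ⟨N, hN, hN1, hN2, hN3⟩ := index hq hr hcase
    have hNr : (1:ℝ) ≤ N := by exact_mod_cast hN
    have hyN : 0 < yy q r N := yy_pos hq hr (by linarith)
    have hsplit : Ph a κ τ = (∫ x in (0:ℝ)..(Real.log (yy q r 1)), Ps a κ x) +
        (∫ x in (Real.log (yy q r 1))..(Real.log (yy q r N)), Ps a κ x) +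
        ∫ x in (Real.log (yy q r N))..τ, Ps a κ x := by
      unfold Ph
      rw [intervalIntegral.integral_add_adjacent_intervals (Ps_ii hp.ha κ _ _) (Ps_ii hp.ha κ _ _),
        intervalIntegral.integral_add_adjacent_intervals (Ps_ii hp.ha κ _ _) (Ps_ii hp.ha κ _ _)]
    have b1 := hsg' (∫ x in (0:ℝ)..(Real.log (yy q r 1)), Ps a κ x)
    have b2 : sg * ∫ x in (Real.log (yy q r 1))..(Real.log (yy q r N)), Ps a κ x ≤
        q * C' * (1 / q) ^ w₂ * Real.exp (w₂ * τ) := by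
      have e1 := sub_u_real (a := a) (κ := κ) hq hr hNr
      have e2 := hsum N hN
      rw [e1] at e2
      have e3 : (N:ℝ) ^ w₂ ≤ (1 / q) ^ w₂ * Real.exp (w₂ * τ) := by
        have : (1 / q) ^ w₂ * Real.exp (w₂ * τ) = (Real.exp τ / q) ^ w₂ := by
          rw [Real.div_rpow (Real.exp_pos _).le hq.le, ← Real.exp_mul, one_div, Real.inv_rpow hq.le, mul_comm τ]
          field_simp
        rw [this]
        exact Real.rpow_le_rpow (by linarith) hN3 (by linarith)
      have e4 : sg * (1 / q * ∫ x in (Real.log (yy q r 1))..(Real.log (yy q r N)), Ps a κ x) ≤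
          C' * ((1 / q) ^ w₂ * Real.exp (w₂ * τ)) := e2.trans (mul_le_mul_of_nonneg_left e3 hC'0)
      calc _ = q * (sg * (1 / q * ∫ x in (Real.log (yy q r 1))..(Real.log (yy q r N)), Ps a κ x)) := by
            field_simp
        _ ≤ q * (C' * ((1 / q) ^ w₂ * Real.exp (w₂ * τ))) := mul_le_mul_of_nonneg_left e4 hq.le
        _ = _ := by ring
    have b3 : sg * ∫ x in (Real.log (yy q r N))..τ, Ps a κ x ≤ Cs * q * Real.exp (w₂ * τ) := by
      have hlt : Real.log (yy q r N) ≤ τ := by rwa [Real.log_le_iff_le_exp hyN]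
      refine (hsg' _).trans ?_
      have c1 : |∫ x in (Real.log (yy q r N))..τ, Ps a κ x| ≤
          ∫ x in (Real.log (yy q r N))..τ, Cs * Real.exp (w₂ * τ) * Real.exp x := by
        rw [← Real.norm_eq_abs]
        refine intervalIntegral.norm_integral_le_of_norm_le hlt ?_ ?_
        · refine Eventually.of_forall fun x hx => ?_
          rw [Real.norm_eq_abs]
          refine (hPs x).trans ?_
          refine mul_le_mul_of_nonneg_right (mul_le_mul_of_nonneg_left ?_ hCs.le) (Real.exp_pos _).le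
          rw [Real.exp_le_exp]
          have hx2 : x ≤ τ := hx.2
          have hpos : 0 ≤ κ * σ + 1 / 2 := by positivity
          have : κ * σ + 1 / 2 ≤ w₂ := by linarith
          nlinarith
        · exact (by fun_prop : Continuous fun x : ℝ => Cs * Real.exp (w₂ * τ) * Real.exp x).intervalIntegrable _ _
      rw [intervalIntegral.integral_const_mul, integral_exp, Real.exp_log hyN] at c1
      refine c1.trans ?_
      have : Cs * Real.exp (w₂ * τ) * (Real.exp τ - yy q r N) ≤ Cs * Real.exp (w₂ * τ) * q :=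
        mul_le_mul_of_nonneg_left hN2 (by positivity)
      linarith
    rw [hsplit]
    have b4 := mul_le_mul_of_nonneg_left hE hK₁0
    have b5 := mul_nonneg hP2 (Real.exp_pos (w₂ * τ)).le
    rw [← hK₁] at b1
    nlinarith
  · refine (hsg' _).trans ?_
    have c1 : |Ph a κ τ| ≤ Real.exp ((κ + 1) * τ) * |τ - 0| := by
      rw [← Real.norm_eq_abs]
      unfold Ph
      refine intervalIntegral.norm_integral_le_of_norm_le_const fun x hx => ?_
      rw [uIoc_of_le hτ] at hx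
      rw [Real.norm_eq_abs]
      refine (Ps_bound hp.ha κ x).trans (Real.exp_le_exp.2 ?_)
      have := hx.2
      nlinarith
    have c2 : Real.exp ((κ + 1) * τ) * |τ - 0| ≤ yy q r 1 ^ (κ + 2) := by
      rw [sub_zero, abs_of_nonneg hτ]
      have h5 : τ ≤ Real.exp τ := by linarith [Real.add_one_le_exp τ]
      calc Real.exp ((κ + 1) * τ) * τ ≤ Real.exp ((κ + 1) * τ) * Real.exp τ := by gcongr
        _ = Real.exp τ ^ (κ + 2) := by
            rw [← Real.exp_add, ← Real.exp_mul]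
            congr 1
            ring
        _ ≤ _ := Real.rpow_le_rpow (Real.exp_pos _).le hcase.le (by linarith)
    have c3 : yy q r 1 ^ (κ + 2) ≤ yy q r 1 ^ (κ + 2) * Real.exp (w₂ * τ) := le_mul_of_one_le_right hP2 hE
    have c4 : 0 ≤ (K₁ + q * C' * (1 / q) ^ w₂ + Cs * q) * Real.exp (w₂ * τ) := by positivity
    nlinarith

end U441.MP
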