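import Pool.Agent.U441.MP.On
import Pool.Agent.H332R2.FL.ZeroExists

/-! Oscillation, part 1: exponents below the real part of a zero with real part `> 1/2`. -/

set_option autoImplicit false

open MeasureTheory Filter Topology Set Complex

namespace U441.MP

open Pool.Agent.H295R2 (Zs fz)

/-- the supremum of the real parts of the zeros -/
lemma supre {ρ : ℂ} (hρ : riemannZeta ρ = 0) :
    ∃ θ₀ : ℝ, ρ.re ≤ θ₀ ∧ θ₀ ≤ 1 ∧ (∀ s : ℂ, θ₀ < s.re → riemannZeta s ≠ 0) ∧
      ∀ e : ℝ, 0 < e → ∃ s : ℂ, riemannZeta s = 0 ∧ θ₀ - e < s.re := by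
  set S : Set ℝ := {x | ∃ s : ℂ, riemannZeta s = 0 ∧ s.re = x} with hS
  have hne : S.Nonempty := ⟨ρ.re, ρ, hρ, rfl⟩
  have hub : ∀ x ∈ S, x ≤ 1 := by
    rintro x ⟨s, hs, rfl⟩
    by_contra hcon
    push Not at hcon
    exact riemannZeta_ne_zero_of_one_le_re hcon.le hs
  have hbdd : BddAbove S := ⟨1, hub⟩
  refine ⟨sSup S, le_csSup hbdd ⟨ρ, hρ, rfl⟩, csSup_le hne hub, fun s hs h0 => ?_, fun e he => ?_⟩
  · exact absurd (le_csSup hbdd ⟨s, h0, rfl⟩) (not_le.2 hs)
  · obtain ⟨x, ⟨s, hs, rfl⟩, hx⟩ := exists_lt_of_lt_csSup hne (by linarith : sSup S - e < sSup S)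
    exact ⟨s, hs, hx⟩

/-- the positions tend to infinity -/
lemma yy_tendsto {q r : ℝ} (hq : 0 < q) : Tendsto (fun n : ℕ => yy q r n) atTop atTop := by
  unfold yy
  exact tendsto_atTop_add_const_right _ _ ((tendsto_natCast_atTop_atTop (R := ℝ)).const_mul_atTop hq)

/-- a family of Perron data -/
def Fam (a : ℕ → ℝ) (F : ℂ → ℂ) : Prop :=
  ∀ θ σ : ℝ, 1 / 2 ≤ θ → (∀ s : ℂ, θ < s.re → riemannZeta s ≠ 0) → θ < σ → σ ≤ 2 → PD a F σ

open Classical in
/-- the number of the `n` in `[1, N]` with a property -/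
noncomputable def cnt (E : ℕ → Prop) (N : ℕ) : ℕ := ((Finset.Icc 1 N).filter E).card

theorem osc_off {a : ℕ → ℝ} {F U : ℂ → ℂ} (h : MD a F U) (hF : Fam a F) {κ q r sg θ ε : ℝ} (hκ : 0 < κ) (hq : 0 < q)
    (hr : 0 ≤ r) (hsg : |sg| = 1) (hε : 0 < ε) {ρ : ℂ} (hρ : riemannZeta ρ = 0) (hρ2 : 1 / 2 < ρ.re)
    (hθ : θ < ρ.re) :
    ∃ᶠ N : ℕ in atTop, (N:ℝ) ^ (1 - ε) < cnt (fun n => yy q r n ^ (κ * θ) < sg * Sa a (yy q r n ^ κ)) N := by
  classical
  intro hcon
  obtain ⟨θ₀, h1, h2, h3, h4⟩ := supre hρ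
  set β : ℝ := max θ (1 / 2) with hβ
  have hβ1 : 1 / 2 ≤ β := le_max_right _ _
  have hβ2 : β < θ₀ := max_lt (by linarith) (by linarith)
  set ε' : ℝ := min ε (1 / 2) with hε'
  have hε'0 : 0 < ε' := by rw [hε']; positivity
  have hε'1 : ε' ≤ 1 / 2 := min_le_right _ _
  have hε'2 : ε' ≤ ε := min_le_left _ _
  set e : ℝ := min (ε' / (24 * κ)) (1 / 2) with he
  have he0 : 0 < e := by rw [he]; positivity
  have he1 : κ * e ≤ ε' / 24 := by
    have := min_le_left (ε' / (24 * κ)) (1 / 2)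
    calc κ * e ≤ κ * (ε' / (24 * κ)) := by gcongr
      _ = ε' / 24 := by field_simp
  have he2 : e ≤ 1 / 2 := min_le_right _ _
  have hp := hF θ₀ (θ₀ + e) (by linarith) h3 (by linarith) (by linarith)
  obtain ⟨Cs, hCs, hSb⟩ := Sa_bound hp (by linarith) (by linarith) (δ := e) he0
  set w₂ : ℝ := max (max (κ * β + 1) (κ * (θ₀ + e) + 2 / 3 + 1 / 6)) (κ * (θ₀ + e + e) + 1 - ε') with hw₂
  have hw1 : κ * β + 1 ≤ w₂ := (le_max_left _ _).trans (le_max_left _ _)
  have hw2 : κ * (θ₀ + e) + 2 / 3 + 1 / 6 ≤ w₂ := (le_max_right _ _).trans (le_max_left _ _)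
  have hw3 : κ * (θ₀ + e + e) + 1 - ε' ≤ w₂ := le_max_right _ _
  have hev := hcon.and ((yy_tendsto (r := r) hq).eventually_ge_atTop 1)
  obtain ⟨n₀, hn₀⟩ := eventually_atTop.1 hev
  set g : ℝ := max 1 (q + r) with hg
  have hg1 : 1 ≤ g := le_max_left _ _
  have hg0 : 0 < g := by linarith
  have hθ₀ : 0 < θ₀ := by linarith
  have hyn : ∀ n : ℕ, 0 ≤ yy q r n := fun n => by unfold yy; positivity
  have hsg' : ∀ x : ℝ, sg * x ≤ |x| := by
    intro x
    calc sg * x ≤ |sg * x| := le_abs_self _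
      _ = |x| := by rw [abs_mul, hsg, one_mul]
  set E : ℕ → Prop := fun n => yy q r n ^ (κ * θ) < sg * Sa a (yy q r n ^ κ) with hE
  -- the initial terms
  set K₅ : ℝ := ∑ n ∈ Finset.range n₀, yy q r n ^ κ with hK₅
  have hK₅0 : 0 ≤ K₅ := Finset.sum_nonneg fun n _ => Real.rpow_nonneg (hyn n) _
  -- bound for all values
  have hval : ∀ N : ℕ, 1 ≤ N → ∀ n ∈ Finset.Icc 1 N, |Sa a (yy q r n ^ κ)| ≤ Cs * (g * N) ^ (κ * (θ₀ + e + e)) := by
    intro N hN n hn
    rw [Finset.mem_Icc] at hn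
    have hn1 : (1:ℝ) ≤ n := by exact_mod_cast hn.1
    have hnN : (n:ℝ) ≤ N := by exact_mod_cast hn.2
    have hy := yy_pos hq hr (by linarith : (0:ℝ) < n)
    have hyN : yy q r n ≤ g * N := by
      have : q + r ≤ g := le_max_right _ _
      unfold yy
      nlinarith
    by_cases hy1 : 1 ≤ yy q r n
    · refine (hSb _ (Real.one_le_rpow hy1 hκ.le)).trans ?_
      refine mul_le_mul_of_nonneg_left ?_ hCs.le
      rw [← Real.rpow_mul hy.le]
      exact Real.rpow_le_rpow hy.le hyN (mul_nonneg hκ.le (by linarith))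
    · have h5 : yy q r n ^ κ < 1 := Real.rpow_lt_one hy.le (not_le.1 hy1) hκ
      have h6 : Sa a (yy q r n ^ κ) = 0 := by
        unfold Sa
        rw [Nat.floor_eq_zero.2 h5]
        simp
      rw [h6, abs_zero]
      positivity
  obtain ⟨C₁, hC₁⟩ := prim_bound hp (by linarith) (by linarith) (β := β) (c := 1) (sg := sg) (δ := 1 / 6)
    (w₂ := w₂) (K₀ := K₅ + (n₀ + 1) * (Cs * g ^ (κ * (θ₀ + e + e)))) hκ hq hr (by norm_num) hsg (by norm_num)
    (by linarith) hw1 hw2 (by positivity) (by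
      intro N hN
      have hN1 : (1:ℝ) ≤ N := by exact_mod_cast hN
      have hN0 : (0:ℝ) < N := by linarith
      have hterm : ∀ n ∈ Finset.Icc 1 N, max (sg * Sa a (yy q r n ^ κ) - 1 * yy q r n ^ (κ * β)) 0 ≤
          (if n < n₀ then yy q r n ^ κ else 0) +
          (if E n then Cs * (g * N) ^ (κ * (θ₀ + e + e)) else 0) := by
        intro n hn
        have hb := hval N hN n hn
        rw [Finset.mem_Icc] at hn
        have p1 : 0 ≤ yy q r n ^ (κ * β) := Real.rpow_nonneg (hyn n) _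
        have p2 : 0 ≤ yy q r n ^ κ := Real.rpow_nonneg (hyn n) _
        have p3 : 0 ≤ Cs * (g * N) ^ (κ * (θ₀ + e + e)) := by positivity
        have p4 : 0 ≤ (if n < n₀ then yy q r n ^ κ else 0) := by split_ifs <;> simp [p2]
        refine max_le ?_ ?_
        · rcases lt_or_ge n n₀ with hlt | hge
          · have := (hsg' (Sa a (yy q r n ^ κ))).trans (Sa_abs hp.ha p2)
            rw [if_pos hlt]
            split_ifs <;> linarith
          · by_cases hEn : E n
            · rw [if_pos hEn]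
              have := (hsg' (Sa a (yy q r n ^ κ))).trans hb
              linarith
            · have h5 := (hn₀ n hge).2
              have h6 : sg * Sa a (yy q r n ^ κ) ≤ yy q r n ^ (κ * θ) := not_lt.1 hEn
              have h7 : yy q r n ^ (κ * θ) ≤ yy q r n ^ (κ * β) :=
                Real.rpow_le_rpow_of_exponent_le h5 (mul_le_mul_of_nonneg_left (le_max_left _ _) hκ.le)
              rw [if_neg hEn]
              linarith
        · split_ifs at p4 ⊢ <;> linarith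
      refine (Finset.sum_le_sum hterm).trans ?_
      rw [Finset.sum_add_distrib]
      have t2 : ∑ n ∈ Finset.Icc 1 N, (if n < n₀ then yy q r n ^ κ else 0) ≤ K₅ := by
        rw [← Finset.sum_filter]
        refine Finset.sum_le_sum_of_subset_of_nonneg (fun n hn => ?_) fun n _ _ => Real.rpow_nonneg (hyn n) _
        rw [Finset.mem_filter] at hn
        rw [Finset.mem_range]
        exact hn.2
      have t3 : ∑ n ∈ Finset.Icc 1 N, (if E n then Cs * (g * N) ^ (κ * (θ₀ + e + e)) else 0) =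
          (cnt E N : ℝ) * (Cs * (g * N) ^ (κ * (θ₀ + e + e))) := by
        rw [← Finset.sum_filter, Finset.sum_const, nsmul_eq_mul]
        unfold cnt
        congr 3
      have t4 : (cnt E N : ℝ) ≤ (n₀ + 1) * (N:ℝ) ^ (1 - ε') := by
        have hone : 1 ≤ (N:ℝ) ^ (1 - ε') := Real.one_le_rpow hN1 (by linarith)
        rcases lt_or_ge N n₀ with hlt | hge
        · have h5 : (cnt E N : ℝ) ≤ N := by
            unfold cnt
            have := Finset.card_filter_le (Finset.Icc 1 N) E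
            rw [Nat.card_Icc, Nat.add_sub_cancel] at this
            exact_mod_cast this
          have h6 : (N:ℝ) ≤ n₀ := by exact_mod_cast hlt.le
          nlinarith
        · have h5 := not_lt.1 (hn₀ N hge).1
          have h6 : (N:ℝ) ^ (1 - ε) ≤ (N:ℝ) ^ (1 - ε') := Real.rpow_le_rpow_of_exponent_le hN1 (by linarith)
          have h7 : (0:ℝ) ≤ n₀ := Nat.cast_nonneg _
          nlinarith
      have t5 : (g * N) ^ (κ * (θ₀ + e + e)) = g ^ (κ * (θ₀ + e + e)) * (N:ℝ) ^ (κ * (θ₀ + e + e)) :=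
        Real.mul_rpow (by linarith) hN0.le
      have t6 : (N:ℝ) ^ (1 - ε') * (N:ℝ) ^ (κ * (θ₀ + e + e)) ≤ (N:ℝ) ^ w₂ := by
        rw [← Real.rpow_add hN0]
        exact Real.rpow_le_rpow_of_exponent_le hN1 (by linarith)
      have t7 : 1 ≤ (N:ℝ) ^ w₂ := Real.one_le_rpow hN1 (by
        have : 0 ≤ κ * β := by positivity
        linarith)
      rw [t3, t5]
      have t8 : (cnt E N : ℝ) * (Cs * (g ^ (κ * (θ₀ + e + e)) * (N:ℝ) ^ (κ * (θ₀ + e + e)))) ≤
          ((n₀ + 1) * (Cs * g ^ (κ * (θ₀ + e + e)))) * (N:ℝ) ^ w₂ := by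
        calc _ ≤ ((n₀ + 1) * (N:ℝ) ^ (1 - ε')) * (Cs * (g ^ (κ * (θ₀ + e + e)) * (N:ℝ) ^ (κ * (θ₀ + e + e)))) :=
              mul_le_mul_of_nonneg_right t4 (by positivity)
          _ = ((n₀ + 1) * (Cs * g ^ (κ * (θ₀ + e + e)))) * ((N:ℝ) ^ (1 - ε') * (N:ℝ) ^ (κ * (θ₀ + e + e))) := by ring
          _ ≤ _ := mul_le_mul_of_nonneg_left t6 (by positivity)
      have t9 := mul_le_mul_of_nonneg_left t7 hK₅0
      linarith)
  have hsg0 : sg ≠ 0 := by
    rintro rfl
    simp at hsg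
  have key := landau_step h hκ hsg0 (w₂ := w₂) (by nlinarith) hC₁
  -- a zero to the right of `(w₂ - 1) / κ`
  have hlt : (w₂ - 1) / κ < θ₀ := by
    rw [div_lt_iff₀ hκ, hw₂, sub_lt_iff_lt_add]
    refine max_lt (max_lt ?_ ?_) ?_
    · nlinarith
    · nlinarith
    · nlinarith
  obtain ⟨s, hs0, hs⟩ := h4 (θ₀ - (w₂ - 1) / κ) (by linarith)
  exact key s (by linarith) hs0

end U441.MP
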