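import Pool.Agent.U441.MP.Pg

/-! The residue function at the edge is positive definite. -/

set_option autoImplicit false

open MeasureTheory Filter Topology Set Complex

namespace U441.MP

open Pool.Agent.W263.BSD (LInt lap lapC lapC_ofReal lapC_differentiableAt)
open Pool.Agent.H295R2 (Zs fz Zs_eq Zs_differentiable fz_eq)

open Classical in
/-- the residue of `F(z) / z` at `β - i d`, if this is a simple zero of zeta -/
noncomputable def rr (U : ℂ → ℂ) (β d : ℝ) : ℂ :=
  if riemannZeta (β - I * d) = 0 then U (β - I * d) / ((β - I * d) * deriv riemannZeta (β - I * d)) else 0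

open Classical in
/-- the positive definite function -/
noncomputable def ell (U : ℂ → ℂ) (β c sg d : ℝ) : ℂ := if d = 0 then (c : ℂ) else -(sg * rr U β d)

/-- the residue as a limit -/
lemma rr_limit {a : ℕ → ℝ} {F U : ℂ → ℂ} (h : MD a F U) {β d : ℝ} (hβ : 0 < β) (hd : d ≠ 0)
    (hU : ContinuousAt U (β - I * d)) (hs : riemannZeta (β - I * d) = 0 → deriv riemannZeta (β - I * d) ≠ 0) :
    Tendsto (fun t : ℝ => (t : ℂ) * (F ((β - I * d) + t) / ((β - I * d) + t))) (𝓝[>] 0) (𝓝 (rr U β d)) := by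
  set ρ : ℂ := β - I * d with hρ
  have him : ρ.im = -d := by rw [hρ]; simp
  have hre : ρ.re = β := by rw [hρ]; simp
  have n3 : ∀ t : ℝ, ρ + t ≠ 0 := by
    intro t h0
    have := congrArg Complex.im h0
    simp [him] at this
    exact hd this
  have n4 : ∀ t : ℝ, ρ + t ≠ 1 := by
    intro t h0
    have := congrArg Complex.im h0
    simp [him] at this
    exact hd this
  have hρ1 : ρ ≠ 1 := by simpa using n4 0
  have hρ0 : ρ ≠ 0 := by simpa using n3 0
  have hpath : Tendsto (fun t : ℝ => ρ + (t : ℂ)) (𝓝[>] 0) (𝓝 ρ) := by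
    have hc : Continuous fun t : ℝ => ρ + (t : ℂ) := by fun_prop
    have := hc.tendsto 0
    simp only [Complex.ofReal_zero, add_zero] at this
    exact this.mono_left nhdsWithin_le_nhds
  have l1 : Tendsto (fun t : ℝ => U (ρ + t) / (ρ + t)) (𝓝[>] 0) (𝓝 (U ρ / ρ)) :=
    (hU.tendsto.comp hpath).div hpath hρ0
  have hform : ∀ t : ℝ, (t : ℂ) * (F (ρ + t) / (ρ + t)) =
      (U (ρ + t) / (ρ + t)) * (t * (riemannZeta (ρ + t))⁻¹) := by
    intro t
    rw [h.fac, fz_eq (n4 t)]
    ring
  have hin : Tendsto (fun t : ℝ => (t : ℂ)) (𝓝[>] 0) (𝓝[≠] 0) := by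
    refine tendsto_nhdsWithin_iff.2 ⟨?_, ?_⟩
    · have := Complex.continuous_ofReal.tendsto 0
      rw [Complex.ofReal_zero] at this
      exact this.mono_left nhdsWithin_le_nhds
    · filter_upwards [self_mem_nhdsWithin] with t ht
      have ht0 : (0:ℝ) < t := ht
      simp only [mem_compl_iff, mem_singleton_iff, Complex.ofReal_eq_zero]
      exact ht0.ne'
  simp_rw [hform]
  by_cases hz : riemannZeta ρ = 0
  · have hd' := hs hz
    have e : rr U β d = (U ρ / ρ) * (deriv riemannZeta ρ)⁻¹ := by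
      unfold rr
      rw [← hρ, if_pos hz]
      field_simp
    rw [e]
    refine l1.mul ?_
    have hdv : HasDerivAt riemannZeta (deriv riemannZeta ρ) ρ := (differentiableAt_riemannZeta hρ1).hasDerivAt
    have hsl := (hasDerivAt_iff_tendsto_slope_zero.1 hdv).comp hin
    have := hsl.inv₀ hd'
    refine this.congr fun t => ?_
    simp only [Function.comp, hz, sub_zero, smul_eq_mul, mul_inv_rev, inv_inv]
    ring
  · have e : rr U β d = (U ρ / ρ) * (0 * (riemannZeta ρ)⁻¹) := by
      unfold rr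
      rw [← hρ, if_neg hz]
      ring
    rw [e]
    refine l1.mul ?_
    have hc : ContinuousAt riemannZeta ρ := (differentiableAt_riemannZeta hρ1).continuousAt
    have h2 := (hc.tendsto.comp hpath).inv₀ hz
    exact (hin.mono_right nhdsWithin_le_nhds).mul h2

/-- **Positive definiteness.** -/
theorem posdef {a : ℕ → ℝ} {F U : ℂ → ℂ} (h : MD a F U) (hF : Fam a F) {R : ℝ} (hR : Res F R) {β : ℝ}
    (hβ : 1 / 2 ≤ β) (hβ1 : β < 1) (hz : ∀ s : ℂ, β < s.re → riemannZeta s ≠ 0)
    (hU : ∀ d : ℝ, d ≠ 0 → ContinuousAt U (β - I * d))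
    (hsimple : ∀ d : ℝ, riemannZeta (β - I * d) = 0 → deriv riemannZeta (β - I * d) ≠ 0)
    {κ q r c sg : ℝ} (hκ : 0 < κ) (hq : 0 < q) (hr : 0 ≤ r)
    (hos : Summable fun n : ℕ => max (-bb a κ β c sg R (yy q r n)) 0 * (n:ℝ) ^ (-(κ * β + 1)))
    (S : Finset ℝ) (b : ℝ → ℂ) :
    0 ≤ (∑ s ∈ S, ∑ s' ∈ S, b s * (starRingEnd ℂ) (b s') * ell U β c sg (s - s')).re := by
  obtain ⟨K, hK, hpos⟩ := pos_gen (q := q) (r := r) (c := c) (sg := sg) (R := R) h hF hβ hβ1.le hz hκ hq hr hos S b
  have hκ0 : (κ : ℂ) ≠ 0 := by exact_mod_cast hκ.ne'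
  set P : ℂ → ℂ := lapC (bh a κ β c sg R) with hP
  -- the formula
  have hform : ∀ t : ℝ, 0 < t → ∀ d : ℝ, (κ * t : ℂ) * P (pt κ β t d) =
      c * t / (t - I * d) + sg * R * t / (((β - I * d) + t) - 1 / 2) -
        sg * ((t : ℂ) * (F ((β - I * d) + t) / ((β - I * d) + t))) := by
    intro t ht d
    have hr1 : κ * β + 1 < (pt κ β t d).re := by rw [pt_re]; nlinarith
    rw [hP, (lap_bh (c := c) (sg := sg) (R := R) h hF hβ hβ1.le hz hκ hr1).2]
    have a1 : pt κ β t d - (κ * β + 1) = κ * (t - I * d) := by unfold pt; push_cast; ring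
    have a2 : pt κ β t d - (κ * (1 / 2) + 1) = κ * (((β - I * d) + t) - 1 / 2) := by unfold pt; push_cast; ring
    have a3 : pt κ β t d - 1 = κ * ((β - I * d) + t) := by unfold pt; push_cast; ring
    rw [a1, a2, a3, mul_div_cancel_left₀ _ hκ0]
    generalize (β - I * d : ℂ) + t = x3
    field_simp
  -- the limits
  have hlim : ∀ s ∈ S, ∀ s' ∈ S, Tendsto (fun t : ℝ =>
      (b s * (starRingEnd ℂ) (b s') * ((κ * t : ℂ) * P (pt κ β t (s - s')))).re) (𝓝[>] 0)
      (𝓝 (b s * (starRingEnd ℂ) (b s') * ell U β c sg (s - s')).re) := by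
    intro s _ s' _
    by_cases hd : s - s' = 0
    · have hss : s = s' := by linarith
      subst hss
      have e1 : ∀ x : ℂ, (b s * (starRingEnd ℂ) (b s) * x).re = Complex.normSq (b s) * x.re := by
        intro x
        rw [Complex.mul_conj, Complex.re_ofReal_mul]
      rw [e1]
      simp_rw [e1]
      refine Tendsto.const_mul _ ?_
      have e2 : (ell U β c sg (s - s)).re = c + sg * 0 := by
        unfold ell
        rw [if_pos (sub_self s)]
        simp
      rw [e2]
      refine (((hR β hβ hβ1 hz).const_mul sg).const_add c).congr' ?_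
      filter_upwards [self_mem_nhdsWithin] with t ht
      have ht0 : (0:ℝ) < t := ht
      have htc : (t : ℂ) ≠ 0 := by exact_mod_cast ht0.ne'
      rw [hform t ht0]
      simp only [sub_self, Complex.ofReal_zero, mul_zero, sub_zero]
      have e3 : ((β : ℂ) + t) = ((β + t : ℝ) : ℂ) := by push_cast; rfl
      rw [e3]
      have e4 : (c : ℂ) * t / t + sg * R * t / (((β + t : ℝ) : ℂ) - 1 / 2) -
          sg * (t * (F ((β + t : ℝ) : ℂ) / ((β + t : ℝ) : ℂ))) =
          (c : ℂ) + ((sg * t : ℝ) : ℂ) * ((R : ℂ) / (((β + t : ℝ) : ℂ) - 1 / 2) -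
          F ((β + t : ℝ) : ℂ) / ((β + t : ℝ) : ℂ)) := by
        rw [mul_div_assoc, div_self htc]
        push_cast
        ring
      rw [e4, Complex.add_re, Complex.ofReal_re, Complex.re_ofReal_mul]
      ring
    · refine (Complex.continuous_re.tendsto _).comp ?_
      refine Tendsto.const_mul _ ?_
      have e2 : ell U β c sg (s - s') = 0 + 0 - sg * rr U β (s - s') := by
        unfold ell
        rw [if_neg hd]
        ring
      rw [e2]
      have hpos' : Tendsto (fun t : ℝ => c * t / (t - I * ((s - s' : ℝ) : ℂ)) +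
          sg * R * t / (((β - I * ((s - s' : ℝ) : ℂ)) + t) - 1 / 2) -
          sg * ((t : ℂ) * (F ((β - I * ((s - s' : ℝ) : ℂ)) + t) / ((β - I * ((s - s' : ℝ) : ℂ)) + t)))) (𝓝[>] 0)
          (𝓝 (0 + 0 - sg * rr U β (s - s'))) := by
        refine Tendsto.sub (Tendsto.add ?_ ?_) ?_
        · have hc : Continuous fun t : ℝ => (c : ℂ) * t / (t - I * ((s - s' : ℝ) : ℂ)) := by
            refine Continuous.div (by fun_prop) (by fun_prop) fun t h0 => ?_
            have := congrArg Complex.im h0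
            simp at this
            exact hd (by linarith)
          have := hc.tendsto 0
          simp only [Complex.ofReal_zero, mul_zero, zero_div] at this
          exact this.mono_left nhdsWithin_le_nhds
        · have hc : Continuous fun t : ℝ => (sg : ℂ) * R * t / (((β - I * ((s - s' : ℝ) : ℂ)) + t) - 1 / 2) := by
            refine Continuous.div (by fun_prop) (by fun_prop) fun t h0 => ?_
            have := congrArg Complex.im h0
            simp at this
            exact hd (by linarith)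
          have := hc.tendsto 0
          simp only [Complex.ofReal_zero, mul_zero, zero_div] at this
          exact this.mono_left nhdsWithin_le_nhds
        · exact (rr_limit h (by linarith) hd (hU _ hd) (hsimple _)).const_mul _
      refine hpos'.congr' ?_
      filter_upwards [self_mem_nhdsWithin] with t ht
      exact (hform t ht _).symm
  have hsum : Tendsto (fun t : ℝ => (∑ s ∈ S, ∑ s' ∈ S, b s * (starRingEnd ℂ) (b s') *
      ((κ * t : ℂ) * P (pt κ β t (s - s')))).re) (𝓝[>] 0)
      (𝓝 (∑ s ∈ S, ∑ s' ∈ S, b s * (starRingEnd ℂ) (b s') * ell U β c sg (s - s')).re) := by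
    simp only [Complex.re_sum]
    exact tendsto_finsetSum _ fun s hs => tendsto_finsetSum _ fun s' hs' => hlim s hs s' hs'
  have hlow : Tendsto (fun t : ℝ => -(κ * t * K)) (𝓝[>] 0) (𝓝 0) := by
    have hc : Continuous fun t : ℝ => -(κ * t * K) := by fun_prop
    have := hc.tendsto 0
    simp only [mul_zero, zero_mul, neg_zero] at this
    exact this.mono_left nhdsWithin_le_nhds
  refine le_of_tendsto_of_tendsto hlow hsum ?_
  have hmem : Ioo (0:ℝ) (1 / κ) ∈ 𝓝[>] (0:ℝ) := Ioo_mem_nhdsGT (by positivity)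
  filter_upwards [hmem] with t ht
  obtain ⟨ht0, ht1⟩ := ht
  have hκt : κ * t ≤ 1 := by
    rw [lt_div_iff₀ hκ] at ht1
    linarith
  have h1 := hpos t ht0 hκt
  have e1 : ∑ s ∈ S, ∑ s' ∈ S, b s * (starRingEnd ℂ) (b s') * ((κ * t : ℂ) * P (pt κ β t (s - s'))) =
      ((κ * t : ℝ) : ℂ) * ∑ s ∈ S, ∑ s' ∈ S, b s * (starRingEnd ℂ) (b s') * P (pt κ β t (s - s')) := by
    rw [Finset.mul_sum]
    refine Finset.sum_congr rfl fun s _ => ?_
    rw [Finset.mul_sum]
    refine Finset.sum_congr rfl fun s' _ => ?_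
    push_cast
    ring
  rw [e1, Complex.re_ofReal_mul]
  have h2 := mul_le_mul_of_nonneg_left h1 (by positivity : 0 ≤ κ * t)
  linarith

end U441.MP
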