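import Pool.Agent.U441.MP.Fi

/-! Weighted positivity: nonnegative trigonometric weights. -/

set_option autoImplicit false

open MeasureTheory Filter Topology Set Complex

namespace U441.MP

open Pool.Agent.W263.BSD (LInt lap lapC lapC_ofReal lapC_differentiableAt)
open Pool.Agent.H295R2 (Zs fz Zs_eq Zs_differentiable)

/-- the point `κ (β + t) + 1 - i κ d` -/
noncomputable def pt (κ β t d : ℝ) : ℂ := κ * ((β + t : ℝ) - I * d) + 1

lemma pt_re (κ β t d : ℝ) : (pt κ β t d).re = κ * (β + t) + 1 := by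
  unfold pt
  simp

lemma pt_im (κ β t d : ℝ) : (pt κ β t d).im = -(κ * d) := by
  unfold pt
  simp

/-- a square as a double sum -/
lemma sq_sum (S : Finset ℝ) (b : ℝ → ℂ) (x : ℝ) :
    ∑ s ∈ S, ∑ s' ∈ S, b s * (starRingEnd ℂ) (b s') * cexp (I * ((s - s' : ℝ) : ℂ) * x) =
      ((‖∑ s ∈ S, b s * cexp (I * s * x)‖ ^ 2 : ℝ) : ℂ) := by
  rw [← Complex.normSq_eq_norm_sq, ← Complex.mul_conj, map_sum, Finset.sum_mul_sum]
  refine Finset.sum_congr rfl fun s _ => Finset.sum_congr rfl fun s' _ => ?_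
  rw [map_mul, ← Complex.exp_conj]
  have e1 : cexp (I * ((s - s' : ℝ) : ℂ) * x) = cexp (I * s * x) * cexp ((starRingEnd ℂ) (I * s' * x)) := by
    rw [← Complex.exp_add]
    congr 1
    simp only [map_mul, Complex.conj_I, Complex.conj_ofReal]
    push_cast
    ring
  rw [e1]
  ring

/-- **Weighted positivity.** -/
theorem pos_gen {a : ℕ → ℝ} {F U : ℂ → ℂ} (h : MD a F U) (hF : Fam a F) {β : ℝ} (hβ : 1 / 2 ≤ β) (hβ1 : β ≤ 1)
    (hz : ∀ s : ℂ, β < s.re → riemannZeta s ≠ 0) {κ q r c sg R : ℝ} (hκ : 0 < κ) (hq : 0 < q) (hr : 0 ≤ r)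
    (hos : Summable fun n : ℕ => max (-bb a κ β c sg R (yy q r n)) 0 * (n:ℝ) ^ (-(κ * β + 1)))
    (S : Finset ℝ) (b : ℝ → ℂ) :
    ∃ K : ℝ, 0 < K ∧ ∀ t : ℝ, 0 < t → κ * t ≤ 1 →
      -K ≤ (∑ s ∈ S, ∑ s' ∈ S, b s * (starRingEnd ℂ) (b s') * lapC (bh a κ β c sg R) (pt κ β t (s - s'))).re := by
  set e : ℝ := min (1 / (24 * κ)) (1 / 2) with he
  have he0 : 0 < e := by rw [he]; positivity
  have he1 : κ * e ≤ 1 / 24 := by
    have := min_le_left (1 / (24 * κ)) (1 / 2)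
    calc κ * e ≤ κ * (1 / (24 * κ)) := by gcongr
      _ = 1 / 24 := by field_simp
  have he2 : e ≤ 1 / 2 := min_le_right _ _
  have hp := hF β (β + e) hβ hz (by linarith) (by linarith)
  set w₁ : ℝ := κ * β + 1 with hw₁
  set w₂ : ℝ := max (κ * β + 11 / 12) 1 with hw₂
  have hκβ : 0 < κ * β := by positivity
  have hw21 : w₂ < w₁ := by rw [hw₂, hw₁]; exact max_lt (by linarith) (by linarith)
  have hw2a : κ * β + 11 / 12 ≤ w₂ := le_max_left _ _
  obtain ⟨K, hK, hZ⟩ := Zd_bound (c := c) (sg := sg) (R := R) (δ := 1 / 6) (w₁ := w₁) (w₂ := w₂) (β := β) hp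
    (by linarith) (by linarith) hκ hq hr (by norm_num) hβ (by linarith) (by linarith)
    (by rw [mul_add]; linarith) (le_max_right _ _) hw21
  -- the exceptions
  set m : ℝ := max 1 (1 / q) with hm
  have hm1 : 1 ≤ m := le_max_left _ _
  have hlow : ∀ n : ℕ, 1 ≤ n → ∀ x : ℝ, w₁ ≤ x → x ≤ w₁ + 1 → yy q r n ^ (-x) ≤ m ^ (w₁ + 1) * (n:ℝ) ^ (-w₁) := by
    intro n hn x hx1 hx2
    have hn1 : (1:ℝ) ≤ n := by exact_mod_cast hn
    have hn0 : (0:ℝ) < n := by linarith
    have hqn : 0 < q * n := by positivity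
    have hle : q * n ≤ yy q r n := by unfold yy; linarith
    calc yy q r n ^ (-x) ≤ (q * n) ^ (-x) := Real.rpow_le_rpow_of_nonpos hqn hle (by linarith)
      _ = q ^ (-x) * (n:ℝ) ^ (-x) := Real.mul_rpow hq.le hn0.le
      _ ≤ m ^ (w₁ + 1) * (n:ℝ) ^ (-w₁) := by
          refine mul_le_mul ?_ (Real.rpow_le_rpow_of_exponent_le hn1 (by linarith)) (by positivity) (by positivity)
          have e1 : q ^ (-x) = (1 / q) ^ x := by
            rw [one_div, Real.inv_rpow hq.le, Real.rpow_neg hq.le]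
          rw [e1]
          calc (1 / q) ^ x ≤ m ^ x := Real.rpow_le_rpow (by positivity) (le_max_right _ _) (by linarith)
            _ ≤ _ := Real.rpow_le_rpow_of_exponent_le hm1 hx2
  set T3 : ℝ := ∑' n : ℕ, max (-bb a κ β c sg R (yy q r n)) 0 * (n:ℝ) ^ (-w₁) with hT3
  have hT30 : 0 ≤ T3 := tsum_nonneg fun n => mul_nonneg (le_max_right _ _) (by positivity)
  -- the initial piece
  set L : ℝ := |Real.log (yy q r 1)| with hL
  set B : ℝ := (|c| * Real.exp ((κ * β + 1) * L) + |sg * R| * Real.exp ((κ * (1 / 2) + 1) * L) +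
      |sg| * Real.exp ((κ + 1) * L)) * Real.exp ((w₁ + 1) * L) * L with hB
  have hL0 : 0 ≤ L := abs_nonneg _
  have hB0 : 0 ≤ B := by rw [hB]; positivity
  have hJ : ∀ w : ℂ, w₁ < w.re → w.re ≤ w₁ + 1 →
      ‖∫ y in (0:ℝ)..(Real.log (yy q r 1)), (bh a κ β c sg R y : ℂ) * cexp (-(w * y))‖ ≤ B := by
    intro w h1 h2
    refine (intervalIntegral.norm_integral_le_of_norm_le_const (C := (|c| * Real.exp ((κ * β + 1) * L) +
      |sg * R| * Real.exp ((κ * (1 / 2) + 1) * L) + |sg| * Real.exp ((κ + 1) * L)) * Real.exp ((w₁ + 1) * L))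
      fun y hy => ?_).trans ?_
    · have hyL : |y| ≤ L := by
        rw [mem_uIoc] at hy
        rw [hL, abs_le]
        have h3 := le_abs_self (Real.log (yy q r 1))
        have h4 := neg_abs_le (Real.log (yy q r 1))
        have h5 := abs_nonneg (Real.log (yy q r 1))
        rcases hy with ⟨h7, h8⟩ | ⟨h7, h8⟩ <;> constructor <;> linarith
      rw [norm_mul, Complex.norm_real, Real.norm_eq_abs]
      refine mul_le_mul (bh_bound h.ha hκ (by linarith) hyL) ?_ (norm_nonneg _) (by positivity)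
      rw [Complex.norm_exp, Real.exp_le_exp]
      simp only [Complex.neg_re, Complex.mul_re, Complex.ofReal_re, Complex.ofReal_im, mul_zero, sub_zero]
      have hw0 : 0 ≤ w.re := by linarith
      calc -(w.re * y) ≤ |-(w.re * y)| := le_abs_self _
        _ = w.re * |y| := by rw [abs_neg, abs_mul, abs_of_nonneg hw0]
        _ ≤ (w₁ + 1) * L := mul_le_mul h2 hyL (abs_nonneg _) (by linarith)
    · rw [sub_zero]
  -- constants of the family
  set D : ℝ := ∑ s ∈ S, ∑ s' ∈ S, ‖b s‖ * ‖b s'‖ * (1 + (w₁ + 1 + κ * |s - s'|)) with hD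
  have hD0 : 0 ≤ D := Finset.sum_nonneg fun s _ => Finset.sum_nonneg fun s' _ => by positivity
  set D1 : ℝ := ∑ s ∈ S, ‖b s‖ with hD1
  have hD10 : 0 ≤ D1 := Finset.sum_nonneg fun s _ => norm_nonneg _
  set D2 : ℝ := ∑ s ∈ S, ∑ s' ∈ S, ‖b s‖ * ‖b s'‖ with hD2
  have hD20 : 0 ≤ D2 := Finset.sum_nonneg fun s _ => Finset.sum_nonneg fun s' _ => by positivity
  set Kf : ℝ := K * D + D1 ^ 2 * (m ^ (w₁ + 1) * T3) with hKf
  have hKf0 : 0 ≤ Kf := by positivity
  refine ⟨q * Kf + D2 * B + 1, by positivity, fun t ht hκt => ?_⟩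
  have hκt0 : 0 < κ * t := by positivity
  have hre : ∀ d : ℝ, (pt κ β t d).re = w₁ + κ * t := fun d => by rw [pt_re, hw₁]; ring
  have hre1 : ∀ d : ℝ, w₁ < (pt κ β t d).re := fun d => by rw [hre]; linarith
  have hre2 : ∀ d : ℝ, (pt κ β t d).re ≤ w₁ + 1 := fun d => by rw [hre]; linarith
  have hnorm : ∀ d : ℝ, ‖pt κ β t d‖ ≤ w₁ + 1 + κ * |d| := by
    intro d
    have h1 := Complex.norm_le_abs_re_add_abs_im (pt κ β t d)
    rw [pt_im, hre, abs_neg, abs_mul, abs_of_pos hκ, abs_of_nonneg (by linarith : 0 ≤ w₁ + κ * t)] at h1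
    linarith
  -- the inequality for finite `N`
  have hfin : ∀ N : ℕ, 1 ≤ N → -Kf ≤ (∑ s ∈ S, ∑ s' ∈ S, b s * (starRingEnd ℂ) (b s') *
      Iw a κ q r β c sg R (pt κ β t (s - s')) N).re := by
    intro N hN
    set S1 : ℂ → ℂ := fun w => ∑ n ∈ Finset.Icc 1 N, (bb a κ β c sg R (yy q r n) : ℂ) * gg q r w n with hS1
    have eZ : ∀ w, Iw a κ q r β c sg R w N = S1 w - Zd a κ q r β c sg R w N := fun w => by
      have : Zd a κ q r β c sg R w N = S1 w - Iw a κ q r β c sg R w N := rfl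
      rw [this]
      ring
    have e1 : ∑ s ∈ S, ∑ s' ∈ S, b s * (starRingEnd ℂ) (b s') * Iw a κ q r β c sg R (pt κ β t (s - s')) N =
        ∑ s ∈ S, ∑ s' ∈ S, b s * (starRingEnd ℂ) (b s') * S1 (pt κ β t (s - s')) -
        ∑ s ∈ S, ∑ s' ∈ S, b s * (starRingEnd ℂ) (b s') * Zd a κ q r β c sg R (pt κ β t (s - s')) N := by
      rw [← Finset.sum_sub_distrib]
      refine Finset.sum_congr rfl fun s _ => ?_
      rw [← Finset.sum_sub_distrib]
      refine Finset.sum_congr rfl fun s' _ => ?_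
      rw [eZ]
      ring
    have z1 : ‖∑ s ∈ S, ∑ s' ∈ S, b s * (starRingEnd ℂ) (b s') * Zd a κ q r β c sg R (pt κ β t (s - s')) N‖ ≤
        K * D := by
      rw [hD, Finset.mul_sum]
      refine norm_sum_le_of_le _ fun s _ => ?_
      rw [Finset.mul_sum]
      refine norm_sum_le_of_le _ fun s' _ => ?_
      rw [norm_mul, norm_mul, RCLike.norm_conj]
      have h1 := hZ (pt κ β t (s - s')) (hre1 _).le (hre2 _) N hN
      have h2 : K * (1 + ‖pt κ β t (s - s')‖) ≤ K * (1 + (w₁ + 1 + κ * |s - s'|)) :=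
        mul_le_mul_of_nonneg_left (by linarith [hnorm (s - s')]) hK.le
      calc ‖b s‖ * ‖b s'‖ * ‖Zd a κ q r β c sg R (pt κ β t (s - s')) N‖ ≤
          ‖b s‖ * ‖b s'‖ * (K * (1 + (w₁ + 1 + κ * |s - s'|))) :=
            mul_le_mul_of_nonneg_left (h1.trans h2) (by positivity)
        _ = _ := by ring
    have e2 : ∑ s ∈ S, ∑ s' ∈ S, b s * (starRingEnd ℂ) (b s') * S1 (pt κ β t (s - s')) =
        ((∑ n ∈ Finset.Icc 1 N, bb a κ β c sg R (yy q r n) * (yy q r n ^ (-(w₁ + κ * t)) *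
          ‖∑ s ∈ S, b s * cexp (I * s * ((κ * Real.log (yy q r n) : ℝ) : ℂ))‖ ^ 2) : ℝ) : ℂ) := by
      rw [Complex.ofReal_sum]
      have : ∀ n ∈ Finset.Icc 1 N, ((bb a κ β c sg R (yy q r n) * (yy q r n ^ (-(w₁ + κ * t)) *
          ‖∑ s ∈ S, b s * cexp (I * s * ((κ * Real.log (yy q r n) : ℝ) : ℂ))‖ ^ 2) : ℝ) : ℂ) =
          ∑ s ∈ S, ∑ s' ∈ S, b s * (starRingEnd ℂ) (b s') *
            ((bb a κ β c sg R (yy q r n) : ℂ) * gg q r (pt κ β t (s - s')) n) := by
        intro n hn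
        rw [Finset.mem_Icc] at hn
        have hn0 : (0:ℝ) < n := by exact_mod_cast hn.1
        have hy := yy_pos hq hr hn0
        rw [Complex.ofReal_mul, Complex.ofReal_mul, ← sq_sum, Finset.mul_sum, Finset.mul_sum]
        refine Finset.sum_congr rfl fun s _ => ?_
        rw [Finset.mul_sum, Finset.mul_sum]
        refine Finset.sum_congr rfl fun s' _ => ?_
        have e3 : gg q r (pt κ β t (s - s')) n = ((yy q r n ^ (-(w₁ + κ * t)) : ℝ) : ℂ) *
            cexp (I * ((s - s' : ℝ) : ℂ) * ((κ * Real.log (yy q r n) : ℝ) : ℂ)) := by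
          unfold gg pt
          rw [Real.rpow_def_of_pos hy, Complex.ofReal_exp, ← Complex.exp_add]
          congr 1
          rw [hw₁]
          push_cast
          ring
        rw [e3]
        ring
      rw [Finset.sum_congr rfl this]
      symm
      refine (Finset.sum_comm).trans (Finset.sum_congr rfl fun s _ => ?_)
      refine (Finset.sum_comm).trans (Finset.sum_congr rfl fun s' _ => ?_)
      rw [hS1]
      simp only
      rw [Finset.mul_sum]
    have z2 : -(D1 ^ 2 * (m ^ (w₁ + 1) * T3)) ≤ ∑ n ∈ Finset.Icc 1 N, bb a κ β c sg R (yy q r n) *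
        (yy q r n ^ (-(w₁ + κ * t)) *
          ‖∑ s ∈ S, b s * cexp (I * s * ((κ * Real.log (yy q r n) : ℝ) : ℂ))‖ ^ 2) := by
      have hterm : ∀ n ∈ Finset.Icc 1 N, -(D1 ^ 2 * (m ^ (w₁ + 1) *
          (max (-bb a κ β c sg R (yy q r n)) 0 * (n:ℝ) ^ (-w₁)))) ≤ bb a κ β c sg R (yy q r n) *
          (yy q r n ^ (-(w₁ + κ * t)) *
          ‖∑ s ∈ S, b s * cexp (I * s * ((κ * Real.log (yy q r n) : ℝ) : ℂ))‖ ^ 2) := by
        intro n hn
        rw [Finset.mem_Icc] at hn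
        have hn0 : (0:ℝ) < n := by exact_mod_cast hn.1
        have hy := yy_pos hq hr hn0
        have hyp : 0 < yy q r n ^ (-(w₁ + κ * t)) := Real.rpow_pos_of_pos hy _
        have h1 : ‖∑ s ∈ S, b s * cexp (I * s * ((κ * Real.log (yy q r n) : ℝ) : ℂ))‖ ≤ D1 := by
          refine norm_sum_le_of_le _ fun s _ => ?_
          rw [norm_mul]
          have : ‖cexp (I * s * ((κ * Real.log (yy q r n) : ℝ) : ℂ))‖ = 1 := by
            rw [Complex.norm_exp]
            simp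
          rw [this, mul_one]
        have h2 : ‖∑ s ∈ S, b s * cexp (I * s * ((κ * Real.log (yy q r n) : ℝ) : ℂ))‖ ^ 2 ≤ D1 ^ 2 :=
          pow_le_pow_left₀ (norm_nonneg _) h1 2
        have h8 := hlow n hn.1 (w₁ + κ * t) (by linarith) (by linarith)
        set X : ℝ := yy q r n ^ (-(w₁ + κ * t)) *
          ‖∑ s ∈ S, b s * cexp (I * s * ((κ * Real.log (yy q r n) : ℝ) : ℂ))‖ ^ 2 with hX
        have hX0 : 0 ≤ X := by positivity
        have hXle : X ≤ (m ^ (w₁ + 1) * (n:ℝ) ^ (-w₁)) * D1 ^ 2 := mul_le_mul h8 h2 (by positivity) (by positivity)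
        set bm : ℝ := max (-bb a κ β c sg R (yy q r n)) 0 with hbm
        have h9 : 0 ≤ bm := le_max_right _ _
        have h10 : -bm ≤ bb a κ β c sg R (yy q r n) := by
          have := le_max_left (-bb a κ β c sg R (yy q r n)) 0
          rw [← hbm] at this
          linarith
        have h11 := mul_le_mul_of_nonneg_right h10 hX0
        have h12 := mul_le_mul_of_nonneg_left hXle h9
        calc -(D1 ^ 2 * (m ^ (w₁ + 1) * (bm * (n:ℝ) ^ (-w₁)))) =
            -(bm * ((m ^ (w₁ + 1) * (n:ℝ) ^ (-w₁)) * D1 ^ 2)) := by ring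
          _ ≤ -(bm * X) := by linarith
          _ ≤ _ := by linarith
      have hsumle := Finset.sum_le_sum hterm
      rw [Finset.sum_neg_distrib, ← Finset.mul_sum, ← Finset.mul_sum] at hsumle
      have hK3' : ∑ n ∈ Finset.Icc 1 N, max (-bb a κ β c sg R (yy q r n)) 0 * (n:ℝ) ^ (-w₁) ≤ T3 :=
        hos.sum_le_tsum _ fun n _ => mul_nonneg (le_max_right _ _) (by positivity)
      have hK3'' := mul_le_mul_of_nonneg_left (mul_le_mul_of_nonneg_left hK3' (by positivity : 0 ≤ m ^ (w₁ + 1)))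
        (by positivity : 0 ≤ D1 ^ 2)
      linarith
    rw [e1, Complex.sub_re, e2, Complex.ofReal_re]
    have h3 := (le_abs_self _).trans (Complex.abs_re_le_norm (∑ s ∈ S, ∑ s' ∈ S, b s * (starRingEnd ℂ) (b s') *
      Zd a κ q r β c sg R (pt κ β t (s - s')) N))
    linarith
  -- the limit
  have hlimI : Tendsto (fun N : ℕ => (∑ s ∈ S, ∑ s' ∈ S, b s * (starRingEnd ℂ) (b s') *
      Iw a κ q r β c sg R (pt κ β t (s - s')) N).re) atTop (𝓝 (∑ s ∈ S, ∑ s' ∈ S, b s * (starRingEnd ℂ) (b s') *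
      ((1 / q : ℂ) * (lapC (bh a κ β c sg R) (pt κ β t (s - s')) -
      ∫ y in (0:ℝ)..(Real.log (yy q r 1)), (bh a κ β c sg R y : ℂ) * cexp (-(pt κ β t (s - s') * y))))).re) := by
    refine (Complex.continuous_re.tendsto _).comp ?_
    refine tendsto_finsetSum _ fun s _ => tendsto_finsetSum _ fun s' _ => ?_
    exact (Iw_tendsto h hF hβ hβ1 hz hκ hq hr (hre1 _)).const_mul _
  have hlim := ge_of_tendsto hlimI (by
    filter_upwards [eventually_ge_atTop 1] with N hN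
    exact hfin N hN)
  have e4 : ∑ s ∈ S, ∑ s' ∈ S, b s * (starRingEnd ℂ) (b s') *
      ((1 / q : ℂ) * (lapC (bh a κ β c sg R) (pt κ β t (s - s')) -
      ∫ y in (0:ℝ)..(Real.log (yy q r 1)), (bh a κ β c sg R y : ℂ) * cexp (-(pt κ β t (s - s') * y)))) =
      ((1 / q : ℝ) : ℂ) * (∑ s ∈ S, ∑ s' ∈ S, b s * (starRingEnd ℂ) (b s') *
        lapC (bh a κ β c sg R) (pt κ β t (s - s')) -
      ∑ s ∈ S, ∑ s' ∈ S, b s * (starRingEnd ℂ) (b s') *
        ∫ y in (0:ℝ)..(Real.log (yy q r 1)), (bh a κ β c sg R y : ℂ) * cexp (-(pt κ β t (s - s') * y))) := by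
    rw [← Finset.sum_sub_distrib, Finset.mul_sum]
    refine Finset.sum_congr rfl fun s _ => ?_
    rw [← Finset.sum_sub_distrib, Finset.mul_sum]
    refine Finset.sum_congr rfl fun s' _ => ?_
    push_cast
    ring
  rw [e4, Complex.re_ofReal_mul, Complex.sub_re] at hlim
  have hJs : ‖∑ s ∈ S, ∑ s' ∈ S, b s * (starRingEnd ℂ) (b s') *
        ∫ y in (0:ℝ)..(Real.log (yy q r 1)), (bh a κ β c sg R y : ℂ) * cexp (-(pt κ β t (s - s') * y))‖ ≤ D2 * B := by
    rw [hD2, Finset.sum_mul]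
    refine norm_sum_le_of_le _ fun s _ => ?_
    rw [Finset.sum_mul]
    refine norm_sum_le_of_le _ fun s' _ => ?_
    rw [norm_mul, norm_mul, RCLike.norm_conj]
    exact mul_le_mul_of_nonneg_left (hJ _ (hre1 _) (hre2 _)) (by positivity)
  set P1 : ℂ := ∑ s ∈ S, ∑ s' ∈ S, b s * (starRingEnd ℂ) (b s') * lapC (bh a κ β c sg R) (pt κ β t (s - s'))
  set J1 : ℂ := ∑ s ∈ S, ∑ s' ∈ S, b s * (starRingEnd ℂ) (b s') *
        ∫ y in (0:ℝ)..(Real.log (yy q r 1)), (bh a κ β c sg R y : ℂ) * cexp (-(pt κ β t (s - s') * y))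
  have h5 : -(q * Kf) ≤ P1.re - J1.re := by
    have := mul_le_mul_of_nonneg_left hlim hq.le
    have e6 : q * (1 / q * (P1.re - J1.re)) = P1.re - J1.re := by field_simp
    rw [e6] at this
    linarith
  have h6 := (neg_le_abs J1.re).trans (Complex.abs_re_le_norm J1)
  linarith

end U441.MP
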