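import Pool.Agent.U441.MP.Ed

/-! Sparse sets. -/

set_option autoImplicit false

open MeasureTheory Filter Topology Set Complex

namespace U441.MP

lemma cnt_succ (E : ℕ → Prop) [DecidablePred E] (N : ℕ) :
    cnt E (N + 1) = cnt E N + if E (N + 1) then 1 else 0 := by
  classical
  have e : cnt E = fun N => ((Finset.Icc 1 N).filter E).card := by
    funext N
    unfold cnt
    congr
  rw [e]
  simp only
  rw [← Finset.insert_Icc_right_eq_Icc_add_one (by omega : 1 ≤ N + 1), Finset.filter_insert]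
  split_ifs with h
  · rw [Finset.card_insert_of_notMem]
    simp
  · simp

lemma cnt_zero (E : ℕ → Prop) : cnt E 0 = 0 := by
  unfold cnt
  simp

lemma cnt_le (E : ℕ → Prop) (N : ℕ) : cnt E N ≤ N := by
  classical
  unfold cnt
  have := Finset.card_filter_le (Finset.Icc 1 N) E
  rw [Nat.card_Icc, Nat.add_sub_cancel] at this
  exact_mod_cast this

/-- the tangent bound -/
lemma tangent {x p : ℝ} (hx : 0 < x) (hp : 0 ≤ p) : x ^ (-p) - (x + 1) ^ (-p) ≤ p * x ^ (-p - 1) := by
  have h1 : (x + 1) ^ (-p) = x ^ (-p) * (1 + 1 / x) ^ (-p) := by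
    rw [← Real.mul_rpow hx.le (by positivity)]
    congr 1
    field_simp
  have h2 : 1 - p / x ≤ (1 + 1 / x) ^ (-p) := by
    rw [Real.rpow_def_of_pos (by positivity)]
    have h3 := Real.add_one_le_exp (Real.log (1 + 1 / x) * -p)
    have h4 : Real.log (1 + 1 / x) ≤ 1 / x := by
      have := Real.log_le_sub_one_of_pos (by positivity : 0 < 1 + 1 / x)
      linarith
    have h5 : Real.log (1 + 1 / x) * p ≤ 1 / x * p := mul_le_mul_of_nonneg_right h4 hp
    have h6 : 1 / x * p = p / x := by ring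
    linarith
  have h7 : x ^ (-p - 1) = x ^ (-p) / x := Real.rpow_sub_one hx.ne' _
  have h8 : 0 < x ^ (-p) := Real.rpow_pos_of_pos hx _
  rw [h1, h7]
  have h9 := mul_le_mul_of_nonneg_left h2 h8.le
  have h10 : x ^ (-p) * (1 - p / x) = x ^ (-p) - p * (x ^ (-p) / x) := by ring
  linarith

/-- sums over sparse sets converge -/
theorem sparse {E : ℕ → Prop} [DecidablePred E] {A w p : ℝ} (hA : 0 ≤ A) (hw : 0 ≤ w) (hwp : w < p)
    (h : ∀ n : ℕ, 1 ≤ n → (cnt E n : ℝ) ≤ A * (n:ℝ) ^ w) :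
    Summable fun n : ℕ => if E n then (n:ℝ) ^ (-p) else 0 := by
  have hp : 0 < p := by linarith
  have hs : Summable fun n : ℕ => (n:ℝ) ^ (w - p - 1) := Real.summable_nat_rpow.2 (by linarith)
  set S : ℝ := ∑' n : ℕ, (n:ℝ) ^ (w - p - 1) with hS
  -- the induction
  have ind : ∀ N : ℕ, 1 ≤ N → ∑ n ∈ Finset.Icc 1 N, (if E n then (n:ℝ) ^ (-p) else 0) - (cnt E N : ℝ) * (N:ℝ) ^ (-p) ≤
      ∑ n ∈ Finset.range N, A * p * (n:ℝ) ^ (w - p - 1) := by
    intro N hN
    induction N, hN using Nat.le_induction with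
    | base =>
      have e1 : (cnt E 1 : ℝ) = if E 1 then 1 else 0 := by
        rw [show (1:ℕ) = 0 + 1 from rfl, cnt_succ, cnt_zero]
        push_cast
        simp
      simp only [Finset.Icc_self, Finset.sum_singleton, Nat.cast_one, Real.one_rpow, mul_one]
      rw [e1, sub_self]
      exact Finset.sum_nonneg fun n _ => by positivity
    | succ N hN ih =>
      have hN0 : (0:ℝ) < N := by exact_mod_cast hN
      rw [← Finset.insert_Icc_right_eq_Icc_add_one (by omega : 1 ≤ N + 1), Finset.sum_insert (by simp),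
        Finset.sum_range_succ]
      have e1 : (cnt E (N + 1) : ℝ) = cnt E N + if E (N + 1) then 1 else 0 := by
        rw [cnt_succ]
        push_cast
        rfl
      have e2 : (if E (N + 1) then (((N + 1 : ℕ) : ℝ)) ^ (-p) else 0) =
          (if E (N + 1) then (1:ℝ) else 0) * (((N + 1 : ℕ) : ℝ)) ^ (-p) := by
        split_ifs <;> simp
      rw [e1, e2]
      have e3 := tangent hN0 hp.le
      have e4 : (cnt E N : ℝ) * ((N:ℝ) ^ (-p) - ((N:ℝ) + 1) ^ (-p)) ≤ A * p * (N:ℝ) ^ (w - p - 1) := by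
        calc (cnt E N : ℝ) * ((N:ℝ) ^ (-p) - ((N:ℝ) + 1) ^ (-p)) ≤ (cnt E N : ℝ) * (p * (N:ℝ) ^ (-p - 1)) :=
              mul_le_mul_of_nonneg_left e3 (Nat.cast_nonneg _)
          _ ≤ (A * (N:ℝ) ^ w) * (p * (N:ℝ) ^ (-p - 1)) := mul_le_mul_of_nonneg_right (h N hN) (by positivity)
          _ = A * p * ((N:ℝ) ^ w * (N:ℝ) ^ (-p - 1)) := by ring
          _ = _ := by
              rw [← Real.rpow_add hN0]
              congr 2
              ring
      push_cast
      nlinarith
  refine summable_of_sum_range_le (c := A + A * p * S + 1) (fun n => by split_ifs <;> positivity) fun N => ?_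
  rcases Nat.eq_zero_or_pos N with rfl | hN
  · simp only [Finset.range_zero, Finset.sum_empty]
    have : 0 ≤ S := tsum_nonneg fun n => by positivity
    positivity
  have hN0 : (0:ℝ) < N := by exact_mod_cast hN
  have hN1 : (1:ℝ) ≤ N := by exact_mod_cast hN
  have h1 := ind N hN
  have h2 : ∑ n ∈ Finset.range N, A * p * (n:ℝ) ^ (w - p - 1) ≤ A * p * S := by
    rw [← Finset.mul_sum]
    exact mul_le_mul_of_nonneg_left (hs.sum_le_tsum _ fun n _ => by positivity) (by positivity)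
  have h3 : (cnt E N : ℝ) * (N:ℝ) ^ (-p) ≤ A := by
    calc (cnt E N : ℝ) * (N:ℝ) ^ (-p) ≤ (A * (N:ℝ) ^ w) * (N:ℝ) ^ (-p) :=
          mul_le_mul_of_nonneg_right (h N hN) (by positivity)
      _ = A * (N:ℝ) ^ (w + -p) := by rw [Real.rpow_add hN0]; ring
      _ ≤ A * 1 := mul_le_mul_of_nonneg_left (Real.rpow_le_one_of_one_le_of_nonpos hN1 (by linarith)) hA
      _ = A := mul_one _
  have h4 : ∑ n ∈ Finset.range N, (if E n then (n:ℝ) ^ (-p) else 0) ≤
      (if E 0 then ((0:ℕ):ℝ) ^ (-p) else 0) + ∑ n ∈ Finset.Icc 1 N, (if E n then (n:ℝ) ^ (-p) else 0) := by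
    rw [← Finset.sum_insert (f := fun n : ℕ => if E n then (n:ℝ) ^ (-p) else 0) (by simp : 0 ∉ Finset.Icc 1 N)]
    refine Finset.sum_le_sum_of_subset_of_nonneg (fun n hn => ?_) fun n _ _ => by split_ifs <;> positivity
    rw [Finset.mem_range] at hn
    rw [Finset.mem_insert, Finset.mem_Icc]
    omega
  have h5 : (if E 0 then ((0:ℕ):ℝ) ^ (-p) else 0) ≤ 0 := by
    split_ifs
    · rw [Nat.cast_zero, Real.zero_rpow (by linarith)]
    · exact le_rfl
  linarith

end U441.MP
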