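import Pool.Agent.U441.MP.Ab
import Pool.Agent.H313R3.TK.G

/-! Windows, part 1: weighted sums over the powers against integrals. -/

set_option autoImplicit false

open MeasureTheory Filter Topology Set Complex

namespace U441.MP

/-- an admissible kernel -/
structure Ker (g : ℝ → ℂ) (g' : ℝ → ℂ) (G : ℝ) : Prop where
  d : ∀ v, HasDerivAt g (g' v) v
  b : ∀ v, ‖g v‖ ≤ G * Real.exp (-(3 * |v|))
  b' : ∀ v, ‖g' v‖ ≤ G * Real.exp (-(3 * |v|))

lemma Ker.cont {g g' : ℝ → ℂ} {G : ℝ} (h : Ker g g' G) : Continuous g :=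
  continuous_iff_continuousAt.2 fun v => (h.d v).continuousAt

/-- the weight -/
noncomputable def wt (κ q r t : ℝ) (g : ℝ → ℂ) (u : ℝ) : ℂ :=
  g (t - κ * Real.log (yy q r u)) * ((κ * (q / yy q r u) : ℝ) : ℂ)

lemma wt_deriv {g g' : ℝ → ℂ} {G : ℝ} (h : Ker g g' G) {κ q r t : ℝ} (hq : 0 < q) (hr : 0 ≤ r) {u : ℝ}
    (hu : 0 < u) : HasDerivAt (wt κ q r t g)
      ((-(κ * (q / yy q r u)) : ℝ) • g' (t - κ * Real.log (yy q r u)) * ((κ * (q / yy q r u) : ℝ) : ℂ) +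
        g (t - κ * Real.log (yy q r u)) * ((-(κ * (q / yy q r u) ^ 2) : ℝ) : ℂ)) u := by
  have hy := yy_pos hq hr hu
  have h1 : HasDerivAt (fun u : ℝ => yy q r u) q u := by
    unfold yy
    simpa using ((hasDerivAt_id u).const_mul q).add_const r
  have h2 : HasDerivAt (fun u : ℝ => t - κ * Real.log (yy q r u)) (-(κ * (q / yy q r u))) u :=
    ((h1.log hy.ne').const_mul κ).const_sub t
  have h3 := (h.d (t - κ * Real.log (yy q r u))).scomp u h2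
  have h4 : HasDerivAt (fun u : ℝ => κ * (q / yy q r u)) (-(κ * (q / yy q r u) ^ 2)) u := by
    have h5 := ((h1.fun_inv hy.ne').const_mul (κ * q))
    refine HasDerivAt.congr_deriv (h5.congr_of_eventuallyEq (Eventually.of_forall fun x => ?_)) ?_
    · simp only [div_eq_mul_inv]
      ring
    · rw [div_eq_mul_inv, div_eq_mul_inv]
      ring
  exact h3.mul h4.ofReal_comp

lemma ex_le {κ q r t lam μ N u : ℝ} (hκ : 0 < κ) (hq : 0 < q) (hr : 0 ≤ r) (hlam : lam * κ = μ) (h0 : 0 ≤ μ)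
    (h3 : μ ≤ 3 * κ) (hN : 1 ≤ N) (hu : N ≤ u) :
    Real.exp (-(3 * |t - κ * Real.log (yy q r u)|)) ≤ Real.exp (lam * t) * (q ^ (-μ) * N ^ (-μ)) := by
  have hN0 : 0 < N := by linarith
  have hy := yy_pos hq hr (by linarith : 0 < u)
  have hl0 : 0 ≤ lam := by
    by_contra hcon
    push Not at hcon
    nlinarith
  have hl3 : lam ≤ 3 := by
    by_contra hcon
    push Not at hcon
    nlinarith
  have hqN : 0 < q * N := by positivity
  have hle : q * N ≤ yy q r u := by unfold yy; nlinarith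
  have e1 : q ^ (-μ) * N ^ (-μ) = (q * N) ^ (-μ) := (Real.mul_rpow hq.le hN0.le).symm
  have e2 : yy q r u ^ (-μ) ≤ (q * N) ^ (-μ) := Real.rpow_le_rpow_of_nonpos hqN hle (by linarith)
  have e3 : Real.exp (-(3 * |t - κ * Real.log (yy q r u)|)) ≤ Real.exp (lam * (t - κ * Real.log (yy q r u))) := by
    apply Real.exp_le_exp.2
    have := neg_abs_le (t - κ * Real.log (yy q r u))
    have h4 := abs_nonneg (t - κ * Real.log (yy q r u))
    nlinarith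
  have e4 : Real.exp (lam * (t - κ * Real.log (yy q r u))) = Real.exp (lam * t) * yy q r u ^ (-μ) := by
    rw [Real.rpow_def_of_pos hy, ← Real.exp_add]
    congr 1
    rw [← hlam]
    ring
  rw [e1]
  refine e3.trans ?_
  rw [e4]
  exact mul_le_mul_of_nonneg_left e2 (Real.exp_pos _).le

lemma q_le {q r N u : ℝ} (hq : 0 < q) (hr : 0 ≤ r) (hN : 1 ≤ N) (hu : N ≤ u) :
    0 < q / yy q r u ∧ q / yy q r u ≤ N⁻¹ := by
  have hN0 : 0 < N := by linarith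
  have hy := yy_pos hq hr (by linarith : 0 < u)
  refine ⟨by positivity, ?_⟩
  rw [div_le_iff₀ hy, inv_mul_eq_div, le_div_iff₀ hN0]
  unfold yy
  nlinarith

lemma wt_norm {g g' : ℝ → ℂ} {G : ℝ} (hG : 0 < G) (h : Ker g g' G) {κ q r t lam μ N u : ℝ} (hκ : 0 < κ)
    (hq : 0 < q) (hr : 0 ≤ r) (hlam : lam * κ = μ) (h0 : 0 ≤ μ) (h3 : μ ≤ 3 * κ) (hN : 1 ≤ N) (hu : N ≤ u) :
    ‖wt κ q r t g u‖ ≤ (κ * G * q ^ (-μ)) * Real.exp (lam * t) * (N ^ (-μ) * N⁻¹) := by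
  have hN0 : 0 < N := by linarith
  obtain ⟨a1, a2⟩ := q_le hq hr hN hu
  have h1 := ex_le (t := t) hκ hq hr hlam h0 h3 hN hu
  have h2 := h.b (t - κ * Real.log (yy q r u))
  unfold wt
  rw [norm_mul, Complex.norm_real, Real.norm_of_nonneg (by positivity)]
  calc ‖g (t - κ * Real.log (yy q r u))‖ * (κ * (q / yy q r u)) ≤
      (G * (Real.exp (lam * t) * (q ^ (-μ) * N ^ (-μ)))) * (κ * N⁻¹) := by
        refine mul_le_mul (h2.trans (mul_le_mul_of_nonneg_left h1 hG.le)) (mul_le_mul_of_nonneg_left a2 hκ.le)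
          (by positivity) (by positivity)
    _ = _ := by ring

lemma wt_diff {g g' : ℝ → ℂ} {G : ℝ} (hG : 0 < G) (h : Ker g g' G) {κ q r t lam μ N u v : ℝ} (hκ : 0 < κ)
    (hq : 0 < q) (hr : 0 ≤ r) (hlam : lam * κ = μ) (h0 : 0 ≤ μ) (h3 : μ ≤ 3 * κ) (hN : 1 ≤ N) (hu : N ≤ u)
    (huv : u ≤ v) :
    ‖wt κ q r t g v - wt κ q r t g u‖ ≤
      ((κ ^ 2 + κ) * G * q ^ (-μ)) * Real.exp (lam * t) * (N ^ (-μ) * (N⁻¹ * N⁻¹)) * (v - u) := by
  have hN0 : 0 < N := by linarith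
  have hb : ∀ x ∈ Icc u v, ‖(-(κ * (q / yy q r x)) : ℝ) • g' (t - κ * Real.log (yy q r x)) *
      ((κ * (q / yy q r x) : ℝ) : ℂ) + g (t - κ * Real.log (yy q r x)) * ((-(κ * (q / yy q r x) ^ 2) : ℝ) : ℂ)‖ ≤
      ((κ ^ 2 + κ) * G * q ^ (-μ)) * Real.exp (lam * t) * (N ^ (-μ) * (N⁻¹ * N⁻¹)) := by
    intro x hx
    obtain ⟨a1, a2⟩ := q_le hq hr hN (hu.trans hx.1)
    have h1 := ex_le (t := t) hκ hq hr hlam h0 h3 hN (hu.trans hx.1)
    have b1 := (h.b (t - κ * Real.log (yy q r x))).trans (mul_le_mul_of_nonneg_left h1 hG.le)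
    have b2 := (h.b' (t - κ * Real.log (yy q r x))).trans (mul_le_mul_of_nonneg_left h1 hG.le)
    have a3 : (q / yy q r x) * (q / yy q r x) ≤ N⁻¹ * N⁻¹ := mul_le_mul a2 a2 a1.le (by positivity)
    refine (norm_add_le _ _).trans ?_
    rw [norm_mul, norm_mul, norm_smul, Complex.norm_real, Complex.norm_real, norm_neg, norm_neg,
      Real.norm_of_nonneg (by positivity : 0 ≤ κ * (q / yy q r x)),
      Real.norm_of_nonneg (by positivity : 0 ≤ κ * (q / yy q r x) ^ 2)]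
    have c1 : κ * (q / yy q r x) * ‖g' (t - κ * Real.log (yy q r x))‖ * (κ * (q / yy q r x)) ≤
        κ ^ 2 * (N⁻¹ * N⁻¹) * (G * (Real.exp (lam * t) * (q ^ (-μ) * N ^ (-μ)))) := by
      calc κ * (q / yy q r x) * ‖g' (t - κ * Real.log (yy q r x))‖ * (κ * (q / yy q r x)) =
          (κ ^ 2 * ((q / yy q r x) * (q / yy q r x))) * ‖g' (t - κ * Real.log (yy q r x))‖ := by ring
        _ ≤ _ := mul_le_mul (mul_le_mul_of_nonneg_left a3 (by positivity)) b2 (norm_nonneg _) (by positivity)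
    have c2 : ‖g (t - κ * Real.log (yy q r x))‖ * (κ * (q / yy q r x) ^ 2) ≤
        κ * (N⁻¹ * N⁻¹) * (G * (Real.exp (lam * t) * (q ^ (-μ) * N ^ (-μ)))) := by
      calc ‖g (t - κ * Real.log (yy q r x))‖ * (κ * (q / yy q r x) ^ 2) =
          (κ * ((q / yy q r x) * (q / yy q r x))) * ‖g (t - κ * Real.log (yy q r x))‖ := by ring
        _ ≤ _ := mul_le_mul (mul_le_mul_of_nonneg_left a3 (by positivity)) b1 (norm_nonneg _) (by positivity)
    refine (add_le_add c1 c2).trans (le_of_eq ?_)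
    ring
  have h2 := Convex.norm_image_sub_le_of_norm_hasDerivWithin_le (s := Icc u v) (x := u) (y := v)
    (f := wt κ q r t g) (fun x hx => (wt_deriv h hq hr (by linarith [hx.1] : 0 < x)).hasDerivWithinAt) hb
    (convex_Icc u v) (left_mem_Icc.2 huv) (right_mem_Icc.2 huv)
  rwa [Real.norm_of_nonneg (by linarith : 0 ≤ v - u)] at h2

lemma wt_contOn {g g' : ℝ → ℂ} {G : ℝ} (h : Ker g g' G) {κ q r t : ℝ} (hq : 0 < q) (hr : 0 ≤ r) {u v : ℝ}
    (hu : 0 < u) : ContinuousOn (wt κ q r t g) (Icc u v) := fun x hx =>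
  (wt_deriv h hq hr (lt_of_lt_of_le hu hx.1)).continuousAt.continuousWithinAt

/-- **Partial summation.** -/
theorem Wa_bound {S : ℝ → ℝ} {B w₂ : ℝ} (hB : 0 < B) (hw0 : 0 ≤ w₂)
    (hSi : ∀ u v : ℝ, 1 ≤ u → u ≤ v → IntervalIntegrable S volume u v)
    (hSb : ∀ u : ℝ, 1 ≤ u → |S u| ≤ B * u ^ w₂)
    (hSd : ∀ N : ℕ, 1 ≤ N → |∑ n ∈ Finset.Icc 1 N, S n - ∫ u in (1:ℝ)..N, S u| ≤ B * (N:ℝ) ^ w₂)
    {g g' : ℝ → ℂ} {G : ℝ} (hG : 0 < G) (h : Ker g g' G) {κ q r lam μ : ℝ} (hκ : 0 < κ)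
    (hq : 0 < q) (hr : 0 ≤ r) (hlam : lam * κ = μ) (h0 : 0 ≤ μ) (h3 : μ ≤ 3 * κ) (hμ : w₂ < μ + 1) :
    ∃ C : ℝ, 0 < C ∧ ∀ t : ℝ, ∀ N : ℕ, 1 ≤ N →
      ‖∑ n ∈ Finset.Icc 1 N, (S n : ℂ) * wt κ q r t g n - ∫ u in (1:ℝ)..N, (S u : ℂ) * wt κ q r t g u‖ ≤
        C * Real.exp (lam * t) := by
  set E : ℝ := μ + 1 - w₂ with hE
  have hE0 : 0 < E := by rw [hE]; linarith
  set K : ℝ := (κ ^ 2 + κ) * G * q ^ (-μ) with hK
  have hK0 : 0 < K := by positivity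
  set D : ℝ := K * (B * 2 ^ w₂ + B) with hD
  have hD0 : 0 < D := by positivity
  have hsummable : Summable fun n : ℕ => (n:ℝ) ^ (-(1 + E)) := by
    have := Real.summable_nat_rpow (p := -(1 + E))
    exact this.2 (by linarith)
  set Su : ℝ := ∑' n : ℕ, (n:ℝ) ^ (-(1 + E)) with hSu
  have hS0 : 0 ≤ Su := tsum_nonneg fun n => by positivity
  refine ⟨D * Su + κ * G * q ^ (-μ) * B, by positivity, fun t N hN => ?_⟩
  -- abbreviations
  set Z : ℕ → ℂ := fun N => ∑ n ∈ Finset.Icc 1 N, (S n : ℂ) * wt κ q r t g n -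
    ∫ u in (1:ℝ)..N, (S u : ℂ) * wt κ q r t g u with hZ
  set Q : ℕ → ℝ := fun N => ∑ n ∈ Finset.Icc 1 N, S n - ∫ u in (1:ℝ)..N, S u with hQ
  have hii : ∀ u v : ℝ, 1 ≤ u → u ≤ v → IntervalIntegrable (fun u : ℝ => (S u : ℂ) * wt κ q r t g u) volume u v := by
    intro u v hu huv
    have h1 : IntervalIntegrable (fun u : ℝ => (S u : ℂ)) volume u v := by
      have h2 := hSi u v hu huv
      rw [intervalIntegrable_iff] at h2 ⊢
      exact h2.ofReal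
    refine h1.mul_continuousOn ?_
    rw [uIcc_of_le huv]
    exact wt_contOn h hq hr (by linarith)
  have hstep : ∀ N : ℕ, 1 ≤ N →
      (Z (N + 1) - wt κ q r t g ((N + 1 : ℕ) : ℝ) * (Q (N + 1) : ℂ)) - (Z N - wt κ q r t g N * (Q N : ℂ)) =
      (∫ u in (N:ℝ)..((N + 1 : ℕ) : ℝ), (S u : ℂ) * (wt κ q r t g ((N + 1 : ℕ) : ℝ) - wt κ q r t g u)) -
      (wt κ q r t g ((N + 1 : ℕ) : ℝ) - wt κ q r t g N) * (Q N : ℂ) := by
    intro N hN
    have hN1 : (1:ℝ) ≤ N := by exact_mod_cast hN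
    have hNN : (N:ℝ) ≤ ((N + 1 : ℕ) : ℝ) := by push_cast; linarith
    have i1 := hii 1 N le_rfl hN1
    have i2 := hii N ((N + 1 : ℕ) : ℝ) hN1 hNN
    have j1 := hSi 1 N le_rfl hN1
    have j2 := hSi N ((N + 1 : ℕ) : ℝ) hN1 hNN
    have j2c : IntervalIntegrable (fun u : ℝ => (S u : ℂ)) volume N ((N + 1 : ℕ) : ℝ) := by
      rw [intervalIntegrable_iff] at j2 ⊢
      exact j2.ofReal
    have e1 : ∫ u in (N:ℝ)..((N + 1 : ℕ) : ℝ), (S u : ℂ) * (wt κ q r t g ((N + 1 : ℕ) : ℝ) - wt κ q r t g u) =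
        ((∫ u in (N:ℝ)..((N + 1 : ℕ) : ℝ), S u : ℝ) : ℂ) * wt κ q r t g ((N + 1 : ℕ) : ℝ) -
        ∫ u in (N:ℝ)..((N + 1 : ℕ) : ℝ), (S u : ℂ) * wt κ q r t g u := by
      rw [← intervalIntegral.integral_ofReal, ← intervalIntegral.integral_mul_const,
        ← intervalIntegral.integral_sub (j2c.mul_const _) i2]
      refine intervalIntegral.integral_congr fun u _ => ?_
      ring
    simp only [hZ, hQ]
    rw [e1, Finset.sum_Icc_succ_top (by omega), Finset.sum_Icc_succ_top (by omega),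
      ← intervalIntegral.integral_add_adjacent_intervals i1 i2,
      ← intervalIntegral.integral_add_adjacent_intervals j1 j2]
    push_cast
    ring
  have ind : ∀ N : ℕ, 1 ≤ N → ‖Z N - wt κ q r t g N * (Q N : ℂ)‖ ≤
      D * Real.exp (lam * t) * ∑ n ∈ Finset.range N, (n:ℝ) ^ (-(1 + E)) := by
    intro N hN
    induction N, hN using Nat.le_induction with
    | base =>
      have e1 : Z 1 - wt κ q r t g ((1:ℕ) : ℝ) * (Q 1 : ℂ) = 0 := by
        simp only [hZ, hQ, Finset.Icc_self, Finset.sum_singleton, Nat.cast_one, intervalIntegral.integral_same,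
          sub_zero]
        ring
      rw [e1, norm_zero]
      positivity
    | succ N hN ih =>
      have hN1 : (1:ℝ) ≤ N := by exact_mod_cast hN
      have hN0 : (0:ℝ) < N := by linarith
      have hNN : (N:ℝ) ≤ ((N + 1 : ℕ) : ℝ) := by push_cast; linarith
      have hdg : ∀ u ∈ Icc (N:ℝ) ((N + 1 : ℕ) : ℝ), ‖wt κ q r t g ((N + 1 : ℕ) : ℝ) - wt κ q r t g u‖ ≤
          K * Real.exp (lam * t) * ((N:ℝ) ^ (-μ) * ((N:ℝ)⁻¹ * (N:ℝ)⁻¹)) := by
        intro u hu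
        refine (wt_diff hG h hκ hq hr hlam h0 h3 hN1 hu.1 hu.2).trans ?_
        have t2 : ((N + 1 : ℕ) : ℝ) - u ≤ 1 := by
          push_cast
          linarith [hu.1]
        calc K * Real.exp (lam * t) * ((N:ℝ) ^ (-μ) * ((N:ℝ)⁻¹ * (N:ℝ)⁻¹)) * (((N + 1 : ℕ) : ℝ) - u) ≤
            K * Real.exp (lam * t) * ((N:ℝ) ^ (-μ) * ((N:ℝ)⁻¹ * (N:ℝ)⁻¹)) * 1 :=
              mul_le_mul_of_nonneg_left t2 (by positivity)
          _ = _ := mul_one _
      have hNw : (N:ℝ) ^ w₂ * ((N:ℝ) ^ (-μ) * ((N:ℝ)⁻¹ * (N:ℝ)⁻¹)) = (N:ℝ) ^ (-(1 + E)) := by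
        rw [← Real.rpow_neg_one, ← Real.rpow_add hN0, ← Real.rpow_add hN0, ← Real.rpow_add hN0]
        congr 1
        rw [hE]
        ring
      have b1 : ‖∫ u in (N:ℝ)..((N + 1 : ℕ) : ℝ), (S u : ℂ) * (wt κ q r t g ((N + 1 : ℕ) : ℝ) - wt κ q r t g u)‖ ≤
          (B * (2 * N) ^ w₂) * (K * Real.exp (lam * t) * ((N:ℝ) ^ (-μ) * ((N:ℝ)⁻¹ * (N:ℝ)⁻¹))) := by
        have := intervalIntegral.norm_integral_le_of_norm_le_const (a := (N:ℝ)) (b := ((N + 1 : ℕ) : ℝ))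
          (f := fun u => (S u : ℂ) * (wt κ q r t g ((N + 1 : ℕ) : ℝ) - wt κ q r t g u))
          (C := (B * (2 * N) ^ w₂) * (K * Real.exp (lam * t) * ((N:ℝ) ^ (-μ) * ((N:ℝ)⁻¹ * (N:ℝ)⁻¹)))) ?_
        · refine this.trans (le_of_eq ?_)
          push_cast
          simp
        · intro u hu
          rw [uIoc_of_le hNN] at hu
          rw [norm_mul, Complex.norm_real, Real.norm_eq_abs]
          have hu1 : 1 ≤ u := by linarith [hu.1]
          have hu2 : u ≤ 2 * N := by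
            have := hu.2
            push_cast at this
            linarith
          have hb1 : |S u| ≤ B * (2 * N) ^ w₂ := (hSb u hu1).trans
            (mul_le_mul_of_nonneg_left (Real.rpow_le_rpow (by linarith) hu2 hw0) hB.le)
          exact mul_le_mul hb1 (hdg u ⟨hu.1.le, hu.2⟩) (norm_nonneg _) (by positivity)
      have b2 : ‖(wt κ q r t g ((N + 1 : ℕ) : ℝ) - wt κ q r t g N) * (Q N : ℂ)‖ ≤
          (K * Real.exp (lam * t) * ((N:ℝ) ^ (-μ) * ((N:ℝ)⁻¹ * (N:ℝ)⁻¹))) * (B * (N:ℝ) ^ w₂) := by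
        rw [norm_mul, Complex.norm_real, Real.norm_eq_abs]
        exact mul_le_mul (hdg N ⟨le_rfl, hNN⟩) (hSd N hN) (abs_nonneg _) (by positivity)
      have hdec : Z (N + 1) - wt κ q r t g ((N + 1 : ℕ) : ℝ) * (Q (N + 1) : ℂ) =
          (Z N - wt κ q r t g N * (Q N : ℂ)) +
          ((∫ u in (N:ℝ)..((N + 1 : ℕ) : ℝ), (S u : ℂ) * (wt κ q r t g ((N + 1 : ℕ) : ℝ) - wt κ q r t g u)) -
          (wt κ q r t g ((N + 1 : ℕ) : ℝ) - wt κ q r t g N) * (Q N : ℂ)) := by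
        rw [← hstep N hN]
        ring
      rw [hdec, Finset.sum_range_succ, mul_add]
      refine (norm_add_le _ _).trans (add_le_add ih ?_)
      refine (norm_sub_le _ _).trans ((add_le_add b1 b2).trans (le_of_eq ?_))
      rw [Real.mul_rpow (by positivity) hN0.le, hD, ← hNw]
      ring
  have hN1 : (1:ℝ) ≤ N := by exact_mod_cast hN
  have hN0 : (0:ℝ) < N := by linarith
  have c1 := ind N hN
  have c2 : ∑ n ∈ Finset.range N, (n:ℝ) ^ (-(1 + E)) ≤ Su :=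
    hsummable.sum_le_tsum _ fun n _ => by positivity
  have c3 : ‖wt κ q r t g N * (Q N : ℂ)‖ ≤ κ * G * q ^ (-μ) * B * Real.exp (lam * t) := by
    rw [norm_mul, Complex.norm_real, Real.norm_eq_abs]
    have d1 := wt_norm (t := t) hG h hκ hq hr hlam h0 h3 hN1 le_rfl
    have d2 := hSd N hN
    calc ‖wt κ q r t g N‖ * |Q N| ≤ ((κ * G * q ^ (-μ)) * Real.exp (lam * t) * ((N:ℝ) ^ (-μ) * (N:ℝ)⁻¹)) *
          (B * (N:ℝ) ^ w₂) := mul_le_mul d1 d2 (abs_nonneg _) (by positivity)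
      _ = κ * G * q ^ (-μ) * B * Real.exp (lam * t) * ((N:ℝ) ^ (-μ) * (N:ℝ)⁻¹ * (N:ℝ) ^ w₂) := by ring
      _ ≤ κ * G * q ^ (-μ) * B * Real.exp (lam * t) * 1 := by
          refine mul_le_mul_of_nonneg_left ?_ (by positivity)
          rw [← Real.rpow_neg_one, ← Real.rpow_add hN0, ← Real.rpow_add hN0]
          exact Real.rpow_le_one_of_one_le_of_nonpos hN1 (by linarith)
      _ = _ := mul_one _
  have c4 : ‖Z N‖ ≤ ‖Z N - wt κ q r t g N * (Q N : ℂ)‖ + ‖wt κ q r t g N * (Q N : ℂ)‖ := by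
    have := norm_add_le (Z N - wt κ q r t g N * (Q N : ℂ)) (wt κ q r t g N * (Q N : ℂ))
    rwa [sub_add_cancel] at this
  have c5 : D * Real.exp (lam * t) * ∑ n ∈ Finset.range N, (n:ℝ) ^ (-(1 + E)) ≤ D * Real.exp (lam * t) * Su :=
    mul_le_mul_of_nonneg_left c2 (by positivity)
  calc ‖Z N‖ ≤ D * Real.exp (lam * t) * Su + κ * G * q ^ (-μ) * B * Real.exp (lam * t) := by linarith
    _ = _ := by ring

end U441.MP
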