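import Pool.Agent.U441.MP.Wa
import Pool.Agent.U645.LB.D

/-! Windows, part 2: sums over the powers against averages in the logarithmic scale. -/

set_option autoImplicit false

open MeasureTheory Filter Topology Set Complex

namespace U441.MP

open H313.TK (int_exp_abs)
open Pool.Agent.U645.LB (Tw)

/-- a function which may be sampled along the powers -/
structure Samp (φ : ℝ → ℝ) (κ q r w₂ : ℝ) : Prop where
  meas : Measurable φ
  neg : ∃ B : ℝ, 0 < B ∧ ∀ v : ℝ, v < 0 → |φ v| ≤ B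
  bd : ∀ v : ℝ, 0 ≤ v → |φ v| ≤ Real.exp v
  ub : ∃ B : ℝ, 0 < B ∧ ∀ u : ℝ, 1 ≤ u → |φ (κ * Real.log (yy q r u))| ≤ B * u ^ w₂
  disc : ∃ B : ℝ, 0 < B ∧ ∀ N : ℕ, 1 ≤ N → |∑ n ∈ Finset.Icc 1 N, φ (κ * Real.log (yy q r n)) -
    ∫ u in (1:ℝ)..N, φ (κ * Real.log (yy q r u))| ≤ B * (N:ℝ) ^ w₂

/-- the function without its values at the negative numbers -/
noncomputable def cut (φ : ℝ → ℝ) : ℝ → ℝ := (Ici (0:ℝ)).indicator φ

lemma cut_meas {φ : ℝ → ℝ} (h : Measurable φ) : Measurable (cut φ) := h.indicator measurableSet_Ici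

lemma cut_of {φ : ℝ → ℝ} {v : ℝ} (h : 0 ≤ v) : cut φ v = φ v := indicator_of_mem (show v ∈ Ici (0:ℝ) from h) φ

lemma cut_neg {φ : ℝ → ℝ} {v : ℝ} (h : v < 0) : cut φ v = 0 :=
  indicator_of_notMem (show v ∉ Ici (0:ℝ) from fun h2 => absurd h (not_lt.2 h2)) φ

lemma cut_bd {φ : ℝ → ℝ} (h : ∀ v : ℝ, 0 ≤ v → |φ v| ≤ Real.exp v) (v : ℝ) : |cut φ v| ≤ Real.exp v := by
  rcases le_or_gt 0 v with hv | hv
  · rw [cut_of hv]
    exact h v hv
  · rw [cut_neg hv, abs_zero]
    exact (Real.exp_pos v).le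

lemma avg_integrable {f : ℝ → ℝ} (hm : Measurable f) (hf : ∀ v, |f v| ≤ Real.exp v) {g : ℝ → ℂ} (hc : Continuous g)
    {G : ℝ} (hb : ∀ v, ‖g v‖ ≤ G * Real.exp (-(3 * |v|))) (t : ℝ) :
    Integrable (fun v => (f (t - v) : ℂ) * g v) := by
  have hi := (int_exp_abs 2 (by norm_num)).const_mul (Real.exp t * G)
  have hG : 0 ≤ G := by
    have h1 := (norm_nonneg _).trans (hb 0)
    simpa using h1
  refine hi.mono' ?_ (Eventually.of_forall fun v => ?_)
  · have hm : Measurable fun v : ℝ => f (t - v) := hm.comp (measurable_const.sub measurable_id)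
    exact (Complex.measurable_ofReal.comp hm).aestronglyMeasurable.mul hc.aestronglyMeasurable
  · rw [norm_mul, Complex.norm_real, Real.norm_eq_abs]
    calc |f (t - v)| * ‖g v‖ ≤ Real.exp (t - v) * (G * Real.exp (-(3 * |v|))) :=
          mul_le_mul (hf _) (hb v) (norm_nonneg _) (Real.exp_pos _).le
      _ = Real.exp t * G * (Real.exp (-v) * Real.exp (-(3 * |v|))) := by
          rw [sub_eq_add_neg, Real.exp_add]
          ring
      _ ≤ _ := by
          refine mul_le_mul_of_nonneg_left ?_ (by positivity)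
          rw [← Real.exp_add]
          apply Real.exp_le_exp.2
          have := neg_abs_le v
          linarith

/-- substitution in the integral -/
lemma subst_int (φ : ℝ → ℝ) (g : ℝ → ℂ) {κ q r t : ℝ} (hq : 0 < q) (hr : 0 ≤ r) {B : ℝ} (hB : 1 ≤ B) :
    ∫ u in (1:ℝ)..B, (φ (κ * Real.log (yy q r u)) : ℂ) * wt κ q r t g u =
      ∫ v in (κ * Real.log (yy q r 1))..(κ * Real.log (yy q r B)), (φ v : ℂ) * g (t - v) := by
  have h1 := sub_gen hq hr hB (fun x => (φ (κ * Real.log x) : ℂ) * (g (t - κ * Real.log x) *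
    ((κ * (q / x) : ℝ) : ℂ)))
  have e0 : ∫ u in (1:ℝ)..B, (φ (κ * Real.log (yy q r u)) : ℂ) * wt κ q r t g u =
      ∫ u in (1:ℝ)..B, (fun x => (φ (κ * Real.log x) : ℂ) * (g (t - κ * Real.log x) *
        ((κ * (q / x) : ℝ) : ℂ))) (yy q r u) := rfl
  rw [e0, h1, ← intervalIntegral.smul_integral_comp_mul_left (fun v => (φ v : ℂ) * g (t - v)) κ,
    ← intervalIntegral.integral_const_mul, ← intervalIntegral.integral_smul]
  refine intervalIntegral.integral_congr fun y _ => ?_
  simp only [Complex.real_smul]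
  rw [Real.log_exp]
  have hq' : (q : ℂ) ≠ 0 := by exact_mod_cast hq.ne'
  have hy' : ((Real.exp y : ℝ) : ℂ) ≠ 0 := by exact_mod_cast (Real.exp_pos y).ne'
  push_cast
  push_cast at hy'
  field_simp

/-- comparison with the average -/
theorem cmp {φ : ℝ → ℝ} {κ q r w₂ : ℝ} (hκ : 0 < κ) (hq : 0 < q) (hr : 0 ≤ r) (hw0 : 0 ≤ w₂)
    (hφ : Samp φ κ q r w₂) {g g' : ℝ → ℂ} {G : ℝ} (hG : 0 < G) (h : Ker g g' G) {lam : ℝ}
    (hl0 : 0 < lam) (hl3 : lam ≤ 3) (hl : w₂ < lam * κ + 1) :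
    ∃ C : ℝ, 0 < C ∧ ∀ t : ℝ, 0 ≤ t → ∀ᶠ N : ℕ in atTop,
      ‖∑ n ∈ Finset.Icc 1 N, (φ (κ * Real.log (yy q r n)) : ℂ) * wt κ q r t g n - Tw (cut φ) g t‖ ≤
        C * Real.exp (lam * t) := by
  obtain ⟨B₀, hB₀, hneg⟩ := hφ.neg
  obtain ⟨B₁, hB₁, hub⟩ := hφ.ub
  obtain ⟨B₂, hB₂, hdisc⟩ := hφ.disc
  have hym : Measurable fun u : ℝ => κ * Real.log (yy q r u) := by
    have : Measurable (yy q r) := (yy_cont q r).measurable
    fun_prop
  have hSi : ∀ u v : ℝ, 1 ≤ u → u ≤ v → IntervalIntegrable (fun u => φ (κ * Real.log (yy q r u))) volume u v := by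
    intro u v hu huv
    rw [intervalIntegrable_iff_integrableOn_Ioc_of_le huv]
    refine Measure.integrableOn_of_bounded (by simp) (hφ.meas.comp hym).aestronglyMeasurable (M := B₁ * v ^ w₂)
      ((ae_restrict_iff' measurableSet_Ioc).2 (ae_of_all _ fun t ht => ?_))
    rw [Real.norm_eq_abs]
    exact (hub t (by linarith [ht.1])).trans
      (mul_le_mul_of_nonneg_left (Real.rpow_le_rpow (by linarith [ht.1]) ht.2 hw0) hB₁.le)
  obtain ⟨C, hC, hW⟩ := Wa_bound (S := fun u => φ (κ * Real.log (yy q r u))) (B := B₁ + B₂) (by positivity) hw0 hSi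
    (fun u hu => (hub u hu).trans (by
      have : 0 < u ^ w₂ := Real.rpow_pos_of_pos (by linarith) _
      nlinarith))
    (fun N hN => (hdisc N hN).trans (by
      have : 0 < (N:ℝ) ^ w₂ := Real.rpow_pos_of_pos (by exact_mod_cast hN) _
      nlinarith)) hG h
    hκ hq hr (rfl : lam * κ = lam * κ) (by positivity) (by nlinarith) hl
  set v₁ : ℝ := κ * Real.log (yy q r 1) with hv₁
  refine ⟨C + 1 + G * Real.exp v₁ + B₀ * G * Real.exp (-v₁), by positivity, fun t ht => ?_⟩
  -- the integral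
  set F : ℝ → ℂ := fun v => (cut φ v : ℂ) * g (t - v) with hF
  have hg1 : ∀ v, ‖g v‖ ≤ G := by
    intro v
    refine (h.b v).trans ?_
    have : Real.exp (-(3 * |v|)) ≤ 1 := by
      rw [Real.exp_le_one_iff]
      have := abs_nonneg v
      linarith
    calc G * Real.exp (-(3 * |v|)) ≤ G * 1 := mul_le_mul_of_nonneg_left this hG.le
      _ = G := mul_one _
  have hFi : Integrable F := by
    have h1 := avg_integrable (cut_meas hφ.meas) (cut_bd hφ.bd) h.cont h.b t
    have h2 := h1.comp_sub_left t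
    refine h2.congr (Eventually.of_forall fun v => ?_)
    simp only [hF, sub_sub_cancel]
  have hFe : Tw (cut φ) g t = ∫ v : ℝ, F v := by
    rw [← integral_sub_left_eq_self F volume t]
    simp only [hF, sub_sub_cancel]
    rfl
  have hF1 : ‖∫ v in Iic v₁, F v‖ ≤ G * Real.exp v₁ := by
    calc ‖∫ v in Iic v₁, F v‖ ≤ ∫ v in Iic v₁, G * Real.exp v := by
          refine norm_integral_le_of_norm_le ((integrableOn_exp_Iic v₁).const_mul G)
            (ae_of_all _ fun v => ?_)
          simp only [hF]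
          rw [norm_mul, Complex.norm_real, Real.norm_eq_abs, mul_comm G]
          exact mul_le_mul (cut_bd hφ.bd v) (hg1 _) (norm_nonneg _) (Real.exp_pos _).le
      _ = G * Real.exp v₁ := by rw [integral_const_mul, integral_exp_Iic]
  have hlim : Tendsto (fun N : ℕ => ∫ v in v₁..(κ * Real.log (yy q r N)), F v) atTop (𝓝 (∫ v in Ioi v₁, F v)) := by
    refine intervalIntegral_tendsto_integral_Ioi v₁ hFi.integrableOn ?_
    exact (Real.tendsto_log_atTop.comp (yy_tendsto hq)).const_mul_atTop hκ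
  have hev : ∀ᶠ N : ℕ in atTop, ‖(∫ v in v₁..(κ * Real.log (yy q r N)), F v) - ∫ v in Ioi v₁, F v‖ < 1 := by
    have := (Metric.tendsto_nhds.1 hlim) 1 one_pos
    filter_upwards [this] with N hN
    rwa [dist_eq_norm] at hN
  filter_upwards [hev, eventually_ge_atTop 1] with N hN hN1
  have hN1' : (1:ℝ) ≤ N := by exact_mod_cast hN1
  have hvN : v₁ ≤ κ * Real.log (yy q r N) := by
    refine mul_le_mul_of_nonneg_left (Real.log_le_log (yy_pos hq hr one_pos) ?_) hκ.le
    unfold yy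
    nlinarith
  set vN : ℝ := κ * Real.log (yy q r N) with hvN'
  have a1 := hW t N hN1
  have a2 := subst_int (κ := κ) (t := t) φ g hq hr hN1'
  rw [← hv₁, ← hvN'] at a2
  -- the values at the negative numbers
  have hgm : Measurable fun v : ℝ => g (t - v) := h.cont.measurable.comp (measurable_const.sub measurable_id)
  have hii : IntervalIntegrable (fun v => (φ v : ℂ) * g (t - v)) volume v₁ vN := by
    rw [intervalIntegrable_iff_integrableOn_Ioc_of_le hvN]
    refine Measure.integrableOn_of_bounded (by simp)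
      ((Complex.measurable_ofReal.comp hφ.meas).mul hgm).aestronglyMeasurable (M := (B₀ + Real.exp vN) * G)
      ((ae_restrict_iff' measurableSet_Ioc).2 (ae_of_all _ fun v hv => ?_))
    rw [norm_mul, Complex.norm_real, Real.norm_eq_abs]
    refine mul_le_mul ?_ (hg1 _) (norm_nonneg _) (by positivity)
    rcases le_or_gt 0 v with h0 | h0
    · have := (hφ.bd v h0).trans (Real.exp_le_exp.2 hv.2)
      linarith
    · have := hneg v h0
      have := Real.exp_pos vN
      linarith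
  have hd : ‖(∫ v in v₁..vN, (φ v : ℂ) * g (t - v)) - ∫ v in v₁..vN, F v‖ ≤ B₀ * G * Real.exp (-v₁) := by
    rw [← intervalIntegral.integral_sub hii hFi.intervalIntegrable]
    have hb : ∀ v ∈ Set.uIoc v₁ vN, ‖(φ v : ℂ) * g (t - v) - F v‖ ≤ B₀ * G * Real.exp (-v) := by
      intro v _
      simp only [hF]
      rcases le_or_gt 0 v with h0 | h0
      · rw [cut_of h0, sub_self, norm_zero]
        positivity
      · rw [cut_neg h0]
        simp only [Complex.ofReal_zero, zero_mul, sub_zero]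
        rw [norm_mul, Complex.norm_real, Real.norm_eq_abs]
        have e1 : 1 ≤ Real.exp (-v) := Real.one_le_exp (by linarith)
        calc |φ v| * ‖g (t - v)‖ ≤ B₀ * G := mul_le_mul (hneg v h0) (hg1 _) (norm_nonneg _) hB₀.le
          _ = B₀ * G * 1 := (mul_one _).symm
          _ ≤ _ := mul_le_mul_of_nonneg_left e1 (by positivity)
    refine (intervalIntegral.norm_integral_le_of_norm_le hvN (ae_of_all _ fun v hv => hb v (by
      rw [uIoc_of_le hvN]; exact hv)) ?_).trans ?_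
    · exact (by fun_prop : Continuous fun v : ℝ => B₀ * G * Real.exp (-v)).intervalIntegrable _ _
    · rw [intervalIntegral.integral_const_mul]
      refine mul_le_mul_of_nonneg_left ?_ (by positivity)
      rw [intervalIntegral.integral_comp_neg (fun v => Real.exp v), integral_exp]
      have := Real.exp_pos (-vN)
      linarith
  have a3 : ∫ v : ℝ, F v = (∫ v in Iic v₁, F v) + ∫ v in Ioi v₁, F v :=
    (intervalIntegral.integral_Iic_add_Ioi hFi.integrableOn hFi.integrableOn).symm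
  have a4 : 1 ≤ Real.exp (lam * t) := Real.one_le_exp (by positivity)
  rw [hFe, a3]
  rw [a2] at a1
  have a5 : ∑ n ∈ Finset.Icc 1 N, (φ (κ * Real.log (yy q r n)) : ℂ) * wt κ q r t g n -
      ((∫ v in Iic v₁, F v) + ∫ v in Ioi v₁, F v) =
      ((∑ n ∈ Finset.Icc 1 N, (φ (κ * Real.log (yy q r n)) : ℂ) * wt κ q r t g n -
        ∫ v in v₁..vN, (φ v : ℂ) * g (t - v)) + ((∫ v in v₁..vN, (φ v : ℂ) * g (t - v)) - ∫ v in v₁..vN, F v)) +
      (((∫ v in v₁..vN, F v) - ∫ v in Ioi v₁, F v) - ∫ v in Iic v₁, F v) := by ring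
  rw [a5]
  refine (norm_add_le _ _).trans ?_
  refine (add_le_add ((norm_add_le _ _).trans (add_le_add a1 hd))
    ((norm_sub_le _ _).trans (add_le_add hN.le hF1))).trans ?_
  have a6 : 0 ≤ G * Real.exp v₁ := by positivity
  have a7 : 0 ≤ B₀ * G * Real.exp (-v₁) := by positivity
  nlinarith

/-- the antiderivative used below -/
noncomputable def Lg (v : ℝ) : ℝ := (1 + Real.exp (-(2 * v)))⁻¹

lemma Lg_deriv (v : ℝ) : HasDerivAt Lg (2 * Real.exp (-(2 * v)) / (1 + Real.exp (-(2 * v))) ^ 2) v := by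
  have h0 : 0 < 1 + Real.exp (-(2 * v)) := by positivity
  have h1 : HasDerivAt (fun v : ℝ => -(2 * v)) (-2) v := by
    simpa using ((hasDerivAt_id v).const_mul 2).fun_neg
  have h2 := (h1.exp.const_add 1).fun_inv h0.ne'
  refine HasDerivAt.congr_deriv h2 ?_
  field_simp

lemma Lg_pos (v : ℝ) : 0 < Lg v := by unfold Lg; positivity

lemma Lg_le (v : ℝ) : Lg v ≤ 1 := by
  unfold Lg
  exact inv_le_one_of_one_le₀ (by have := Real.exp_pos (-(2 * v)); linarith)

lemma Lg_low (v : ℝ) : 1 / 2 * Real.exp (-(2 * |v|)) ≤ 2 * Real.exp (-(2 * v)) / (1 + Real.exp (-(2 * v))) ^ 2 := by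
  have h0 := Real.exp_pos (-(2 * v))
  rw [le_div_iff₀ (by positivity)]
  rcases le_total 0 v with hv | hv
  · rw [abs_of_nonneg hv]
    have h1 : Real.exp (-(2 * v)) ≤ 1 := by rw [Real.exp_le_one_iff]; linarith
    nlinarith [mul_nonneg h0.le (sub_nonneg.2 h1)]
  · rw [abs_of_nonpos hv]
    have h1 : 1 ≤ Real.exp (-(2 * v)) := Real.one_le_exp (by linarith)
    have h2 : Real.exp (-(2 * -v)) * Real.exp (-(2 * v)) = 1 := by
      rw [← Real.exp_add]
      ring_nf
      exact Real.exp_zero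
    have h3 := Real.exp_pos (-(2 * -v))
    have h4 : Real.exp (-(2 * -v)) ≤ 1 := by rw [Real.exp_le_one_iff]; linarith
    nlinarith [mul_pos h3 h0]

/-- total weight -/
lemma weight_sum {κ q r : ℝ} (hκ : 0 < κ) (hq : 0 < q) (hr : 0 ≤ r) :
    ∃ C : ℝ, 0 < C ∧ ∀ t : ℝ, ∀ N : ℕ,
      ∑ n ∈ Finset.Icc 1 N, Real.exp (-(2 * |t - κ * Real.log (yy q r n)|)) * (κ * (q / yy q r n)) ≤ C := by
  set A : ℝ := 2 * Real.exp (2 * (κ * Real.log 2)) with hA
  have hA0 : 0 < A := by positivity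
  refine ⟨κ + A, by positivity, fun t N => ?_⟩
  have hterm : ∀ n : ℕ, 1 ≤ n → Real.exp (-(2 * |t - κ * Real.log (yy q r ((n + 1 : ℕ) : ℝ))|)) *
      (κ * (q / yy q r ((n + 1 : ℕ) : ℝ))) ≤
      A * (Lg (t - κ * Real.log (yy q r n)) - Lg (t - κ * Real.log (yy q r ((n + 1 : ℕ) : ℝ)))) := by
    intro n hn
    have hn1 : (1:ℝ) ≤ n := by exact_mod_cast hn
    have hy := yy_pos hq hr (by linarith : (0:ℝ) < n)
    have hy' := yy_pos hq hr (by positivity : (0:ℝ) < ((n + 1 : ℕ) : ℝ))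
    have hd : yy q r ((n + 1 : ℕ) : ℝ) = yy q r n + q := by unfold yy; push_cast; ring
    have hqy : q ≤ yy q r n := by unfold yy; nlinarith
    have hlt : yy q r n < yy q r ((n + 1 : ℕ) : ℝ) := by rw [hd]; linarith
    have hlog : Real.log (yy q r n) < Real.log (yy q r ((n + 1 : ℕ) : ℝ)) := Real.log_lt_log hy hlt
    have hlog2 : Real.log (yy q r ((n + 1 : ℕ) : ℝ)) ≤ Real.log (yy q r n) + Real.log 2 := by
      rw [← Real.log_mul hy.ne' (by norm_num)]
      exact Real.log_le_log hy' (by rw [hd]; linarith)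
    have hlog3 : q / yy q r ((n + 1 : ℕ) : ℝ) ≤ Real.log (yy q r ((n + 1 : ℕ) : ℝ)) - Real.log (yy q r n) := by
      have h1 := Real.log_le_sub_one_of_pos (div_pos hy hy')
      rw [Real.log_div hy.ne' hy'.ne'] at h1
      have h2 : yy q r n / yy q r ((n + 1 : ℕ) : ℝ) = 1 - q / yy q r ((n + 1 : ℕ) : ℝ) := by
        rw [hd]
        field_simp
        ring
      rw [h2] at h1
      linarith
    set b : ℝ := t - κ * Real.log (yy q r n) with hb
    set a : ℝ := t - κ * Real.log (yy q r ((n + 1 : ℕ) : ℝ)) with ha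
    have hab : a < b := by rw [ha, hb]; nlinarith
    have hba : b - a = κ * (Real.log (yy q r ((n + 1 : ℕ) : ℝ)) - Real.log (yy q r n)) := by rw [ha, hb]; ring
    obtain ⟨ξ, hξ, hξ2⟩ := exists_hasDerivAt_eq_slope Lg _ hab
      (fun x _ => (Lg_deriv x).continuousAt.continuousWithinAt) (fun x _ => Lg_deriv x)
    have h3 : Lg b - Lg a = 2 * Real.exp (-(2 * ξ)) / (1 + Real.exp (-(2 * ξ))) ^ 2 * (b - a) := by
      rw [hξ2]
      field_simp [(sub_pos.2 hab).ne']
    have h4 : |ξ| ≤ |a| + κ * Real.log 2 := by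
      have h5 : |ξ - a| ≤ κ * Real.log 2 := by
        rw [abs_of_pos (sub_pos.2 hξ.1)]
        have : b - a ≤ κ * Real.log 2 := by rw [hba]; nlinarith
        linarith [hξ.2]
      calc |ξ| = |a + (ξ - a)| := by ring_nf
        _ ≤ |a| + |ξ - a| := abs_add_le _ _
        _ ≤ _ := by linarith
    have h5 : Real.exp (-(2 * |a|)) ≤ Real.exp (2 * (κ * Real.log 2)) * Real.exp (-(2 * |ξ|)) := by
      rw [← Real.exp_add]
      apply Real.exp_le_exp.2
      linarith
    have h6 := Lg_low ξ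
    have h7 : κ * (q / yy q r ((n + 1 : ℕ) : ℝ)) ≤ b - a := by rw [hba]; nlinarith
    have h8 : 0 < b - a := sub_pos.2 hab
    rw [h3]
    calc Real.exp (-(2 * |a|)) * (κ * (q / yy q r ((n + 1 : ℕ) : ℝ))) ≤
        (Real.exp (2 * (κ * Real.log 2)) * Real.exp (-(2 * |ξ|))) * (b - a) :=
          mul_le_mul h5 h7 (by positivity) (by positivity)
      _ = A * ((1 / 2 * Real.exp (-(2 * |ξ|))) * (b - a)) := by rw [hA]; ring
      _ ≤ _ := mul_le_mul_of_nonneg_left (mul_le_mul_of_nonneg_right h6 h8.le) hA0.le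
  have hall : ∀ N : ℕ, 1 ≤ N →
      ∑ n ∈ Finset.Icc 1 N, Real.exp (-(2 * |t - κ * Real.log (yy q r n)|)) * (κ * (q / yy q r n)) ≤
      κ + A * (Lg (t - κ * Real.log (yy q r ((1:ℕ) : ℝ))) - Lg (t - κ * Real.log (yy q r N))) := by
    intro N hN
    induction N, hN using Nat.le_induction with
    | base =>
      simp only [Finset.Icc_self, Finset.sum_singleton, sub_self, mul_zero, add_zero]
      obtain ⟨a1, a2⟩ := q_le hq hr (le_refl (1:ℝ)) (le_refl (1:ℝ))
      have e1 : Real.exp (-(2 * |t - κ * Real.log (yy q r ((1:ℕ) : ℝ))|)) ≤ 1 := by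
        rw [Real.exp_le_one_iff]
        have := abs_nonneg (t - κ * Real.log (yy q r ((1:ℕ) : ℝ)))
        linarith
      rw [Nat.cast_one] at e1 ⊢
      rw [inv_one] at a2
      calc Real.exp (-(2 * |t - κ * Real.log (yy q r 1)|)) * (κ * (q / yy q r 1)) ≤ 1 * (κ * 1) :=
            mul_le_mul e1 (mul_le_mul_of_nonneg_left a2 hκ.le) (by positivity) zero_le_one
        _ = κ := by ring
    | succ N hN ih =>
      rw [Finset.sum_Icc_succ_top (by omega)]
      have := hterm N hN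
      linarith
  rcases Nat.eq_zero_or_pos N with hN | hN
  · rw [hN]
    simp
    positivity
  · refine (hall N hN).trans ?_
    have h1 := Lg_le (t - κ * Real.log (yy q r ((1:ℕ) : ℝ)))
    have h2 := Lg_pos (t - κ * Real.log (yy q r N))
    nlinarith

end U441.MP
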