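import Pool.Agent.U441.MP.Wb

/-! Windows, part 3: the kernels. -/

set_option autoImplicit false

open MeasureTheory Filter Topology Set Complex

namespace U441.MP

open H313.TK
open Pool.Agent.U645.LB (Tw kn kn_DK DK.decay Ist_deriv)

/-- the smoothed positive kernel -/
noncomputable def kp2 (v : ℝ) : ℝ := ∫ z in (v - 1 / 8)..(v + 1 / 8), kp z

lemma kp_ii (a b : ℝ) : IntervalIntegrable kp volume a b := kp_cont.intervalIntegrable _ _

lemma kp2_deriv (v : ℝ) : HasDerivAt kp2 (kp (v + 1 / 8) - kp (v - 1 / 8)) v := by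
  have h1 := (kp_cont.integral_hasStrictDerivAt 0 (v + 1 / 8)).hasDerivAt.comp_add_const v (1 / 8)
  have h2 := (kp_cont.integral_hasStrictDerivAt 0 (v - 1 / 8)).hasDerivAt.comp_sub_const v (1 / 8)
  refine (h1.sub h2).congr_of_eventuallyEq (Eventually.of_forall fun x => ?_)
  simp only [kp2, Pi.sub_apply]
  rw [intervalIntegral.integral_interval_sub_left (kp_ii _ _) (kp_ii _ _)]

lemma kp_le (z : ℝ) : kp z ≤ (C0 * 4) * Real.exp (-(3 * |z|)) := by
  have := kp_bd z
  rwa [Complex.norm_real, Real.norm_of_nonneg (kp_nonneg z)] at this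

lemma exp_near {v z : ℝ} (h : |v - z| ≤ 1) : Real.exp (-(3 * |z|)) ≤ Real.exp 3 * Real.exp (-(3 * |v|)) := by
  rw [← Real.exp_add]
  apply Real.exp_le_exp.2
  have : |v| ≤ |z| + |v - z| := by
    calc |v| = |z + (v - z)| := by ring_nf
      _ ≤ _ := abs_add_le _ _
  linarith

lemma kp2_ker : Ker (fun v => (kp2 v : ℂ)) (fun v => ((kp (v + 1 / 8) - kp (v - 1 / 8) : ℝ) : ℂ))
    (2 * ((C0 * 4) * Real.exp 3) + 1) where
  d v := (kp2_deriv v).ofReal_comp
  b v := by
    have hC := C0_nonneg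
    rw [Complex.norm_real]
    have h1 := intervalIntegral.norm_integral_le_of_norm_le_const (a := v - 1 / 8) (b := v + 1 / 8) (f := kp)
      (C := (C0 * 4) * (Real.exp 3 * Real.exp (-(3 * |v|)))) (fun z hz => by
        rw [uIoc_of_le (by linarith)] at hz
        rw [Real.norm_of_nonneg (kp_nonneg z)]
        refine (kp_le z).trans (mul_le_mul_of_nonneg_left (exp_near ?_) (by positivity))
        rw [abs_le]
        constructor <;> linarith [hz.1, hz.2])
    have h2 : |v + 1 / 8 - (v - 1 / 8)| = 1 / 4 := by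
      rw [show v + 1 / 8 - (v - 1 / 8) = 1 / 4 by ring]
      norm_num
    rw [h2] at h1
    refine h1.trans ?_
    have h3 := Real.exp_pos (-(3 * |v|))
    have h4 : 0 ≤ C0 * 4 * (Real.exp 3 * Real.exp (-(3 * |v|))) := by positivity
    nlinarith
  b' v := by
    have hC := C0_nonneg
    rw [Complex.norm_real]
    have a1 := (kp_le (v + 1 / 8)).trans (mul_le_mul_of_nonneg_left (exp_near (v := v) (z := v + 1 / 8) (by
      rw [show v - (v + 1 / 8) = -(1 / 8) by ring]; norm_num)) (by positivity : 0 ≤ C0 * 4))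
    have a2 := (kp_le (v - 1 / 8)).trans (mul_le_mul_of_nonneg_left (exp_near (v := v) (z := v - 1 / 8) (by
      rw [show v - (v - 1 / 8) = 1 / 8 by ring]; norm_num)) (by positivity : 0 ≤ C0 * 4))
    have a3 := kp_nonneg (v + 1 / 8)
    have a4 := kp_nonneg (v - 1 / 8)
    have h3 := Real.exp_pos (-(3 * |v|))
    rw [Real.norm_eq_abs, abs_le]
    constructor <;> nlinarith

lemma kp2_nonneg (v : ℝ) : 0 ≤ kp2 v :=
  intervalIntegral.integral_nonneg (by linarith) fun z _ => kp_nonneg z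

lemma kp2_le (v : ℝ) : kp2 v ≤ (2 * ((C0 * 4) * Real.exp 3) + 1) * Real.exp (-(3 * |v|)) := by
  have := kp2_ker.b v
  rwa [Complex.norm_real, Real.norm_of_nonneg (kp2_nonneg v)] at this

/-- lower bound on a subinterval -/
lemma kp2_sub {v a b m : ℝ} (ha : v - 1 / 8 ≤ a) (hab : a ≤ b) (hb : b ≤ v + 1 / 8) (hm : ∀ z ∈ Icc a b, m ≤ kp z) :
    m * (b - a) ≤ kp2 v := by
  have h1 : ∫ z in a..b, kp z ≤ kp2 v :=
    intervalIntegral.integral_mono_interval ha hab hb (ae_of_all _ fun z => kp_nonneg z) (kp_ii _ _)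
  have h2 : ∫ _ in a..b, m ≤ ∫ z in a..b, kp z :=
    intervalIntegral.integral_mono_on hab (by simp) (kp_ii _ _) hm
  rw [intervalIntegral.integral_const, smul_eq_mul] at h2
  linarith

lemma W_in {v z : ℝ} (h : (v ≤ z ∧ z ≤ 0) ∨ (0 ≤ z ∧ z ≤ v)) : W v ≤ 4 * W z := by
  have h1 := W_dom z v h
  have h2 : 1 ≤ Real.exp (2 * |z - v|) := Real.one_le_exp (by have := abs_nonneg (z - v); linarith)
  have h3 : Real.exp (-|z - v|) ≤ 1 := by rw [Real.exp_le_one_iff]; have := abs_nonneg (z - v); linarith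
  have h4 := W_pos v
  have h5 := W_pos z
  nlinarith

lemma W_le (z : ℝ) : W z ≤ 4 * Real.exp (-(3 * |z|)) := by
  have h1 := W_decay z
  have h2 : Real.exp (2 * |z|) * Real.exp (-(2 * |z|)) = 1 := by
    rw [← Real.exp_add]
    simp
  have h3 := Real.exp_pos (-(2 * |z|))
  calc W z = (W z * Real.exp (2 * |z|)) * Real.exp (-(2 * |z|)) := by rw [mul_assoc, h2, mul_one]
    _ ≤ (4 * Real.exp (-|z|)) * Real.exp (-(2 * |z|)) := mul_le_mul_of_nonneg_right h1 h3.le
    _ = 4 * Real.exp (-(3 * |z|)) := by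
        rw [mul_assoc, ← Real.exp_add]
        congr 2
        ring

lemma kp2_low : ∃ c : ℝ, 0 < c ∧ ∀ v, c * W v ≤ kp2 v := by
  obtain ⟨x₀, _, hx₀⟩ := isCompact_Icc.exists_isMinOn (s := Icc (-2:ℝ) 2) ⟨0, by norm_num⟩ kp_cont.continuousOn
  set m : ℝ := kp x₀ with hm
  have hm0 : 0 < m := by
    have := (kp_bounds x₀).1
    have := W_pos x₀
    linarith
  refine ⟨min (1 / 64) (m / 32), by positivity, fun v => ?_⟩
  have hW := W_pos v
  rcases le_total 1 v with hv | hv
  · have h1 := kp2_sub (v := v) (a := v - 1 / 8) (b := v) (m := 1 / 8 * W v) le_rfl (by linarith) (by linarith)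
      (fun z hz => by
        have h2 := W_in (v := v) (z := z) (Or.inr ⟨by linarith [hz.1], hz.2⟩)
        have h3 := (kp_bounds z).1
        linarith)
    have h4 := min_le_left (1 / 64) (m / 32)
    nlinarith
  rcases le_total v (-1) with hv' | hv'
  · have h1 := kp2_sub (v := v) (a := v) (b := v + 1 / 8) (m := 1 / 8 * W v) (by linarith) (by linarith) le_rfl
      (fun z hz => by
        have h2 := W_in (v := v) (z := z) (Or.inl ⟨hz.1, by linarith [hz.2]⟩)
        have h3 := (kp_bounds z).1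
        linarith)
    have h4 := min_le_left (1 / 64) (m / 32)
    nlinarith
  · have h1 := kp2_sub (v := v) (a := v) (b := v + 1 / 8) (m := m) (by linarith) (by linarith) le_rfl
      (fun z hz => hx₀ ⟨by linarith [hz.1], by linarith [hz.2]⟩)
    have h4 := min_le_right (1 / 64) (m / 32)
    have h5 : W v ≤ 4 := by
      refine (W_le v).trans ?_
      have : Real.exp (-(3 * |v|)) ≤ 1 := by
        rw [Real.exp_le_one_iff]
        have := abs_nonneg v
        linarith
      linarith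
    nlinarith

/-- the tail of the kernel -/
lemma kp2_tail : ∃ C : ℝ, 0 < C ∧ ∀ a v : ℝ, 1 ≤ a → a ≤ |v| →
    kp2 v ≤ C * Real.exp (-(3 / 4 * Real.exp (2 * (a - 1 / 8)))) * Real.exp (-(3 * |v|)) := by
  refine ⟨2 * (C0 * Real.exp 60) + 1, by have := C0_nonneg; positivity, fun a v ha hv => ?_⟩
  have hC := C0_nonneg
  set E : ℝ := Real.exp (-(3 / 4 * Real.exp (2 * (a - 1 / 8)))) * Real.exp (-(3 * |v|)) with hE
  have hE0 : 0 < E := by positivity
  have hz : ∀ z ∈ uIoc (v - 1 / 8) (v + 1 / 8), ‖kp z‖ ≤ C0 * (Real.exp 60 * E) := by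
    intro z hz
    rw [uIoc_of_le (by linarith)] at hz
    rw [Real.norm_of_nonneg (kp_nonneg z)]
    refine ((kp_bounds z).2).trans (mul_le_mul_of_nonneg_left ?_ hC)
    rw [hE, ← Real.exp_add, ← Real.exp_add]
    unfold W
    apply Real.exp_le_exp.2
    have h1 : |v| ≤ |z| + 1 / 8 := by
      have : |v - z| ≤ 1 / 8 := by
        rw [abs_le]
        constructor <;> linarith [hz.1, hz.2]
      calc |v| = |z + (v - z)| := by ring_nf
        _ ≤ |z| + |v - z| := abs_add_le _ _
        _ ≤ _ := by linarith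
    have h2 : max z 0 ≤ |z| := max_le (le_abs_self z) (abs_nonneg z)
    have h3 : 1 + 2 * |z| + (2 * |z|) ^ 2 / 2 ≤ Real.exp (2 * |z|) :=
      Real.quadratic_le_exp_of_nonneg (by positivity)
    have h4 : Real.exp (2 * (a - 1 / 8)) ≤ Real.exp (2 * |z|) := Real.exp_le_exp.2 (by linarith)
    have h5 := Real.pi_gt_d2
    have h6 := Real.exp_pos (2 * |z|)
    have h7 : (3 / 4 + 7 / 200) * Real.exp (2 * |z|) ≤ Real.pi / 4 * Real.exp (2 * |z|) := by
      refine mul_le_mul_of_nonneg_right ?_ h6.le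
      norm_num at h5
      linarith
    nlinarith [sq_nonneg (|z| - 200 / 7), abs_nonneg z]
  have h1 := intervalIntegral.norm_integral_le_of_norm_le_const hz
  have h2 : |v + 1 / 8 - (v - 1 / 8)| = 1 / 4 := by
    rw [show v + 1 / 8 - (v - 1 / 8) = 1 / 4 by ring]
    norm_num
  rw [h2] at h1
  have h3 : kp2 v ≤ C0 * (Real.exp 60 * E) * (1 / 4) := by
    rw [show kp2 v = ‖∫ z in (v - 1 / 8)..(v + 1 / 8), kp z‖ from (Real.norm_of_nonneg (kp2_nonneg v)).symm]
    exact h1
  have h4 : 0 ≤ C0 * (Real.exp 60 * E) := by positivity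
  calc kp2 v ≤ C0 * (Real.exp 60 * E) * (1 / 4) := h3
    _ ≤ (2 * (C0 * Real.exp 60) + 1) * E := by nlinarith
    _ = _ := by rw [hE]; ring

/-- averages against the smoothed kernel -/
lemma avg_kp2 {f : ℝ → ℝ} (hm : Measurable f) (hf : ∀ v, |f v| ≤ Real.exp v) {A : ℝ}
    (hA : ∀ t, ‖Tw f kc t‖ ≤ A) (t : ℝ) : ‖Tw f (fun v => (kp2 v : ℂ)) t‖ ≤ A * (1 / 4) := by
  have hC := C0_nonneg
  set ν : Measure ℝ := volume.restrict (Ioc (-(1 / 8):ℝ) (1 / 8)) with hν
  set F : ℝ → ℝ → ℂ := fun v x => (f (t - v) : ℂ) * kc (v + x) with hF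
  have hkc : Continuous kc := kc_DK.cont
  -- integrability on the product
  have hprod : Integrable (Function.uncurry F) (volume.prod ν) := by
    have b1 : Integrable (fun v : ℝ => (Real.exp t * (C0 * 4)) * Real.exp (-(2 * |v|))) :=
      (int_exp_abs 2 (by norm_num)).const_mul _
    have b2 : Integrable (fun x : ℝ => Real.exp (3 * |x|)) ν := by
      have : Continuous fun x : ℝ => Real.exp (3 * |x|) := by fun_prop
      exact (this.integrableOn_Icc (a := -(1 / 8)) (b := 1 / 8)).mono_set Ioc_subset_Icc_self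
    refine (b1.mul_prod b2).mono' ?_ (Eventually.of_forall fun p => ?_)
    · have m1 : Measurable fun p : ℝ × ℝ => f (t - p.1) := hm.comp (measurable_const.sub measurable_fst)
      have m2 : Measurable fun p : ℝ × ℝ => kc (p.1 + p.2) :=
        hkc.measurable.comp (measurable_fst.add measurable_snd)
      exact ((Complex.measurable_ofReal.comp m1).mul m2).aestronglyMeasurable
    · obtain ⟨v, x⟩ := p
      simp only [Function.uncurry, hF]
      rw [norm_mul, Complex.norm_real, Real.norm_eq_abs]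
      have h1 : ‖kc (v + x)‖ ≤ (C0 * 4) * Real.exp (-(3 * |v + x|)) := kp_bd (v + x)
      have h2 : Real.exp (t - v) * Real.exp (-(3 * |v + x|)) ≤
          Real.exp t * Real.exp (-(2 * |v|)) * Real.exp (3 * |x|) := by
        rw [← Real.exp_add, ← Real.exp_add, ← Real.exp_add]
        apply Real.exp_le_exp.2
        have h3 : |v| ≤ |v + x| + |x| := by
          calc |v| = |(v + x) + (-x)| := by ring_nf
            _ ≤ |v + x| + |-x| := abs_add_le _ _
            _ = _ := by rw [abs_neg]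
        have h4 := neg_abs_le v
        linarith
      calc |f (t - v)| * ‖kc (v + x)‖ ≤ Real.exp (t - v) * ((C0 * 4) * Real.exp (-(3 * |v + x|))) :=
            mul_le_mul (hf _) h1 (norm_nonneg _) (Real.exp_pos _).le
        _ = (C0 * 4) * (Real.exp (t - v) * Real.exp (-(3 * |v + x|))) := by ring
        _ ≤ (C0 * 4) * (Real.exp t * Real.exp (-(2 * |v|)) * Real.exp (3 * |x|)) :=
            mul_le_mul_of_nonneg_left h2 (by positivity)
        _ = _ := by ring
  have e1 : Tw f (fun v => (kp2 v : ℂ)) t = ∫ v : ℝ, ∫ x, F v x ∂ν := by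
    unfold Tw
    refine integral_congr_ae (ae_of_all _ fun v => ?_)
    simp only [hF]
    rw [hν, integral_const_mul]
    congr 1
    rw [← intervalIntegral.integral_of_le (by norm_num : (-(1 / 8):ℝ) ≤ 1 / 8),
      intervalIntegral.integral_comp_add_left (fun z => kc z) v]
    unfold kp2
    rw [← intervalIntegral.integral_ofReal, ← sub_eq_add_neg]
    rfl
  have e2 : ∫ v : ℝ, ∫ x, F v x ∂ν = ∫ x, Tw f kc (t + x) ∂ν := by
    rw [integral_integral_swap hprod]
    refine integral_congr_ae (ae_of_all _ fun x => ?_)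
    simp only [hF]
    unfold Tw
    rw [← integral_add_right_eq_self (fun w => (f (t + x - w) : ℂ) * kc w) x]
    refine integral_congr_ae (ae_of_all _ fun v => ?_)
    simp only
    rw [show t + x - (v + x) = t - v by ring]
  rw [e1, e2, hν]
  have h3 := norm_setIntegral_le_of_norm_le_const (μ := volume) (s := Ioc (-(1 / 8):ℝ) (1 / 8)) (f := fun x => Tw f kc (t + x))
    (C := A) (by simp) (fun x _ => hA (t + x))
  refine h3.trans (le_of_eq ?_)
  rw [Real.volume_real_Ioc_of_le (by norm_num)]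
  norm_num

/-- the kernels which detect a zero -/
lemma kn_ker {ρ : ℂ} (h0 : 0 < ρ.re) (h1 : ρ.re < 1) {j : ℕ}
    (hm : ((j + 1 : ℕ) : ℕ∞) ≤ analyticOrderAt riemannZeta ρ) :
    ∃ G : ℝ, 0 < G ∧ Ker (kn ρ (j + 1)) (fun v => ρ * kn ρ (j + 1) v + kn ρ j v) G ∧
      ∀ v, ‖kn ρ (j + 1) v‖ ≤ G * W v := by
  have hre : |ρ.re| ≤ 2 := by rw [abs_of_pos h0]; linarith
  have hD := (kn_DK h0 h1 hm (j + 1) le_rfl).1
  have hD' := (kn_DK h0 h1 hm j (by omega)).1
  obtain ⟨B, hB, hb⟩ := hD.bd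
  obtain ⟨B₁, hB₁, hb₁⟩ := DK.decay hD
  obtain ⟨B₂, hB₂, hb₂⟩ := DK.decay hD'
  refine ⟨B + B₁ + (‖ρ‖ * B₁ + B₂) + 1, by positivity, ⟨fun v => ?_, fun v => ?_, fun v => ?_⟩, fun v => ?_⟩
  · exact Ist_deriv hD'.cont (fun w => (tw_int hD' ρ hre).integrableOn) v
  · have h3 := Real.exp_pos (-(3 * |v|))
    refine (hb₁ v).trans (mul_le_mul_of_nonneg_right ?_ h3.le)
    have : 0 ≤ ‖ρ‖ * B₁ := by positivity
    linarith
  · have h3 := Real.exp_pos (-(3 * |v|))
    calc ‖ρ * kn ρ (j + 1) v + kn ρ j v‖ ≤ ‖ρ‖ * ‖kn ρ (j + 1) v‖ + ‖kn ρ j v‖ :=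
          (norm_add_le _ _).trans (by rw [norm_mul])
      _ ≤ ‖ρ‖ * (B₁ * Real.exp (-(3 * |v|))) + B₂ * Real.exp (-(3 * |v|)) :=
          add_le_add (mul_le_mul_of_nonneg_left (hb₁ v) (norm_nonneg _)) (hb₂ v)
      _ = (‖ρ‖ * B₁ + B₂) * Real.exp (-(3 * |v|)) := by ring
      _ ≤ _ := mul_le_mul_of_nonneg_right (by linarith) h3.le
  · refine (hb v).trans (mul_le_mul_of_nonneg_right ?_ (W_pos v).le)
    have : 0 ≤ ‖ρ‖ * B₁ := by positivity
    linarith

end U441.MP
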