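import Pool.Agent.U441.MP.Wc

/-! Windows, part 4: both signs in every window. -/

set_option autoImplicit false

open MeasureTheory Filter Topology Set Complex

namespace U441.MP

open H313.TK
open Pool.Agent.U645.LB (Tw)

/-- the value at the `n`-th power -/
noncomputable def Sn (φ : ℝ → ℝ) (κ q r : ℝ) (n : ℕ) : ℝ := φ (κ * Real.log (yy q r n))

/-- the weight of the `n`-th power -/
noncomputable def cn (κ q r : ℝ) (n : ℕ) : ℝ := κ * (q / yy q r n)

/-- the position of the `n`-th power -/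
noncomputable def vn (κ q r t : ℝ) (n : ℕ) : ℝ := t - κ * Real.log (yy q r n)

lemma cn_pos {κ q r : ℝ} (hκ : 0 < κ) (hq : 0 < q) (hr : 0 ≤ r) {n : ℕ} (hn : 1 ≤ n) : 0 < cn κ q r n := by
  have := yy_pos hq hr (by exact_mod_cast hn : (0:ℝ) < n)
  unfold cn
  positivity

/-- the positive part is large -/
theorem big_of {φ : ℝ → ℝ} {κ q r w₂ : ℝ} (hκ : 0 < κ) (hq : 0 < q) (hr : 0 ≤ r) (hw0 : 0 ≤ w₂)
    (hφ : Samp φ κ q r w₂) {lam : ℝ} (hl0 : 0 < lam) (hl3 : lam ≤ 3) (hl : w₂ < lam * κ + 1)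
    {A : ℝ} (hA0 : 0 ≤ A) (hA : ∀ t, ‖Tw (cut φ) kc t‖ ≤ A)
    {g g' : ℝ → ℂ} {G : ℝ} (hG : 0 < G) (h : Ker g g' G) (hW : ∀ v, ‖g v‖ ≤ G * W v) :
    ∃ c C : ℝ, 0 < c ∧ 0 < C ∧ ∀ t : ℝ, 0 ≤ t → ∀ s : ℝ, s = 1 ∨ s = -1 → ∀ᶠ N : ℕ in atTop,
      c * ‖Tw (cut φ) g t‖ - C * Real.exp (lam * t) ≤
        ∑ n ∈ Finset.Icc 1 N, max (s * Sn φ κ q r n) 0 * (kp2 (vn κ q r t n) * cn κ q r n) := by
  have hC0 := C0_nonneg
  obtain ⟨C₁, hC₁, h1⟩ := cmp hκ hq hr hw0 hφ (by positivity) kp2_ker hl0 hl3 hl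
  obtain ⟨C₂, hC₂, h2⟩ := cmp hκ hq hr hw0 hφ hG h hl0 hl3 hl
  obtain ⟨c₀, hc₀, hlow⟩ := kp2_low
  set b : ℝ := c₀ / G with hb
  have hb0 : 0 < b := by positivity
  refine ⟨b / 2, (b * C₂ + (C₁ + A * (1 / 4))) / 2, by positivity, by positivity, fun t ht s hs => ?_⟩
  filter_upwards [h1 t ht, h2 t ht] with N a1 a2
  -- the sum with the positive kernel
  have e1 : ∑ n ∈ Finset.Icc 1 N, (φ (κ * Real.log (yy q r n)) : ℂ) * wt κ q r t (fun v => (kp2 v : ℂ)) n =
      ((∑ n ∈ Finset.Icc 1 N, Sn φ κ q r n * (kp2 (vn κ q r t n) * cn κ q r n) : ℝ) : ℂ) := by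
    push_cast
    refine Finset.sum_congr rfl fun n _ => ?_
    unfold wt Sn vn cn
    push_cast
    ring
  rw [e1] at a1
  have b1 := avg_kp2 (cut_meas hφ.meas) (cut_bd hφ.bd) hA t
  have c1 : 1 ≤ Real.exp (lam * t) := Real.one_le_exp (by positivity)
  have d1 : |∑ n ∈ Finset.Icc 1 N, Sn φ κ q r n * (kp2 (vn κ q r t n) * cn κ q r n)| ≤
      (C₁ + A * (1 / 4)) * Real.exp (lam * t) := by
    rw [← Real.norm_eq_abs, ← Complex.norm_real]
    have := norm_add_le (((∑ n ∈ Finset.Icc 1 N, Sn φ κ q r n * (kp2 (vn κ q r t n) * cn κ q r n) : ℝ) : ℂ) -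
      Tw (cut φ) (fun v => (kp2 v : ℂ)) t) (Tw (cut φ) (fun v => (kp2 v : ℂ)) t)
    rw [sub_add_cancel] at this
    nlinarith
  -- the sum with the other kernel
  have d2 : ‖∑ n ∈ Finset.Icc 1 N, (φ (κ * Real.log (yy q r n)) : ℂ) * wt κ q r t g n‖ ≤
      b⁻¹ * ∑ n ∈ Finset.Icc 1 N, |Sn φ κ q r n| * (kp2 (vn κ q r t n) * cn κ q r n) := by
    rw [Finset.mul_sum]
    refine (norm_sum_le _ _).trans (Finset.sum_le_sum fun n hn => ?_)
    rw [Finset.mem_Icc] at hn
    have hc := cn_pos hκ hq hr hn.1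
    have f1 : wt κ q r t g n = g (vn κ q r t n) * ((cn κ q r n : ℝ) : ℂ) := rfl
    rw [f1, norm_mul, norm_mul, Complex.norm_real, Complex.norm_real, Real.norm_eq_abs,
      Real.norm_of_nonneg hc.le]
    have f2 := hW (vn κ q r t n)
    have f3 := hlow (vn κ q r t n)
    have f4 : ‖g (vn κ q r t n)‖ ≤ b⁻¹ * kp2 (vn κ q r t n) := by
      rw [hb, inv_div]
      calc ‖g (vn κ q r t n)‖ ≤ G * W (vn κ q r t n) := f2
        _ = G / c₀ * (c₀ * W (vn κ q r t n)) := by field_simp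
        _ ≤ _ := mul_le_mul_of_nonneg_left f3 (by positivity)
    calc |φ (κ * Real.log (yy q r n))| * (‖g (vn κ q r t n)‖ * cn κ q r n) ≤
        |φ (κ * Real.log (yy q r n))| * ((b⁻¹ * kp2 (vn κ q r t n)) * cn κ q r n) := by
          refine mul_le_mul_of_nonneg_left (mul_le_mul_of_nonneg_right f4 hc.le) (abs_nonneg _)
      _ = _ := by unfold Sn; ring
  have d3 : ‖Tw (cut φ) g t‖ - C₂ * Real.exp (lam * t) ≤
      b⁻¹ * ∑ n ∈ Finset.Icc 1 N, |Sn φ κ q r n| * (kp2 (vn κ q r t n) * cn κ q r n) := by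
    have := norm_sub_norm_le (Tw (cut φ) g t)
      (∑ n ∈ Finset.Icc 1 N, (φ (κ * Real.log (yy q r n)) : ℂ) * wt κ q r t g n)
    rw [norm_sub_rev] at this
    linarith
  have d4 : b * (‖Tw (cut φ) g t‖ - C₂ * Real.exp (lam * t)) ≤
      ∑ n ∈ Finset.Icc 1 N, |Sn φ κ q r n| * (kp2 (vn κ q r t n) * cn κ q r n) := by
    have := mul_le_mul_of_nonneg_left d3 hb0.le
    rwa [← mul_assoc, mul_inv_cancel₀ hb0.ne', one_mul] at this
  -- the decomposition
  have e2 : ∑ n ∈ Finset.Icc 1 N, |Sn φ κ q r n| * (kp2 (vn κ q r t n) * cn κ q r n) =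
      2 * (∑ n ∈ Finset.Icc 1 N, max (s * Sn φ κ q r n) 0 * (kp2 (vn κ q r t n) * cn κ q r n)) -
      s * ∑ n ∈ Finset.Icc 1 N, Sn φ κ q r n * (kp2 (vn κ q r t n) * cn κ q r n) := by
    rw [Finset.mul_sum, Finset.mul_sum, ← Finset.sum_sub_distrib]
    refine Finset.sum_congr rfl fun n _ => ?_
    rw [part_id s hs (Sn φ κ q r n)]
    ring
  have e3 : |s * ∑ n ∈ Finset.Icc 1 N, Sn φ κ q r n * (kp2 (vn κ q r t n) * cn κ q r n)| ≤
      (C₁ + A * (1 / 4)) * Real.exp (lam * t) := by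
    rw [abs_mul]
    have : |s| = 1 := by rcases hs with h | h <;> rw [h] <;> simp
    rw [this, one_mul]
    exact d1
  have e4 := (abs_le.1 e3).1
  rw [e2] at d4
  linarith

/-- both signs in a window around `e^t`, with the number of points -/
theorem win {φ : ℝ → ℝ} {κ q r w₂ β c : ℝ} (hκ : 0 < κ) (hq : 0 < q) (hr : 0 ≤ r) (hφ : Samp φ κ q r w₂)
    (hβ0 : 1 / 2 ≤ β) (hβ1 : β ≤ 1) (hc : 0 < c) (k : ℕ)
    (hbig : ∀ᶠ t : ℝ in atTop, ∀ s : ℝ, s = 1 ∨ s = -1 → ∀ᶠ N : ℕ in atTop,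
      c * (t ^ k * Real.exp (β * t)) ≤
        ∑ n ∈ Finset.Icc 1 N, max (s * Sn φ κ q r n) 0 * (kp2 (vn κ q r t n) * cn κ q r n)) :
    ∃ d C : ℝ, 0 < d ∧ 0 < C ∧ ∀ᶠ t : ℝ in atTop, ∀ s : ℝ, s = 1 ∨ s = -1 → ∃ G : Finset ℕ,
      (∀ n ∈ G, 1 ≤ n ∧ |vn κ q r t n| ≤ 1 / 8 + 1 / 2 * Real.log (7 / 10 * t) ∧
        d * (t ^ k * (yy q r n ^ κ) ^ β) ≤ s * Sn φ κ q r n) ∧
      t ^ k * Real.exp (β * t) ≤ C * ∑ n ∈ G, |Sn φ κ q r n| * cn κ q r n := by
  classical
  have hC0 := C0_nonneg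
  obtain ⟨C₁, hC₁, htail⟩ := kp2_tail
  obtain ⟨C₄, hC₄, hwt⟩ := weight_sum hκ hq hr
  obtain ⟨B₀, hB₀, hneg⟩ := hφ.neg
  set C₂ : ℝ := 2 * ((C0 * 4) * Real.exp 3) + 1 with hC₂
  have hC₂0 : 0 < C₂ := by positivity
  set d : ℝ := c / (2 * (C₂ * C₄)) with hd
  have hd0 : 0 < d := by positivity
  set C₃ : ℝ := (1 + B₀) * C₁ with hC₃
  have hC₃0 : 0 < C₃ := by positivity
  have hsmall : ∀ᶠ t : ℝ in atTop, C₃ * C₄ * Real.exp (-(1 / 40 * t)) < c / 4 := by
    have h1 : Tendsto (fun t : ℝ => C₃ * C₄ * Real.exp (-(1 / 40 * t))) atTop (𝓝 (C₃ * C₄ * 0)) := by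
      refine Tendsto.const_mul _ (Real.tendsto_exp_atBot.comp ?_)
      exact tendsto_neg_atTop_atBot.comp (tendsto_id.const_mul_atTop (by norm_num))
    rw [mul_zero] at h1
    exact h1.eventually (gt_mem_nhds (by positivity))
  have hlarge : ∀ᶠ t : ℝ in atTop, 7 / 4 ≤ Real.log (7 / 10 * t) :=
    (Real.tendsto_log_atTop.comp (tendsto_id.const_mul_atTop (by norm_num : (0:ℝ) < 7 / 10))).eventually_ge_atTop _
  refine ⟨d, 4 * C₂ / c, hd0, by positivity, ?_⟩
  filter_upwards [hbig, hsmall, hlarge, eventually_ge_atTop 1] with t hb hs1 hlg ht1 s hs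
  obtain ⟨N, hN⟩ := (hb s hs).exists
  set a : ℝ := 1 / 8 + 1 / 2 * Real.log (7 / 10 * t) with ha
  have ha1 : 1 ≤ a := by rw [ha]; linarith
  have hae : Real.exp (2 * (a - 1 / 8)) = 7 / 10 * t := by
    rw [ha, show 2 * (1 / 8 + 1 / 2 * Real.log (7 / 10 * t) - 1 / 8) = Real.log (7 / 10 * t) by ring,
      Real.exp_log (by linarith)]
  have habs : |s| = 1 := by rcases hs with h | h <;> rw [h] <;> simp
  set P : ℕ → Prop := fun n => |vn κ q r t n| ≤ a ∧ d * (t ^ k * (yy q r n ^ κ) ^ β) ≤ s * Sn φ κ q r n with hP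
  have hmax : ∀ n : ℕ, max (s * Sn φ κ q r n) 0 ≤ |Sn φ κ q r n| := by
    intro n
    refine max_le ((le_abs_self _).trans ?_) (abs_nonneg _)
    rw [abs_mul, habs, one_mul]
  have hterm : ∀ n ∈ Finset.Icc 1 N, max (s * Sn φ κ q r n) 0 * (kp2 (vn κ q r t n) * cn κ q r n) ≤
      (d * (t ^ k * Real.exp (β * t)) * C₂ + C₃ * Real.exp (19 / 40 * t)) *
        (Real.exp (-(2 * |t - κ * Real.log (yy q r n)|)) * (κ * (q / yy q r n))) +
      (if P n then C₂ * (|Sn φ κ q r n| * cn κ q r n) else 0) := by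
    intro n hn
    rw [Finset.mem_Icc] at hn
    have hy := yy_pos hq hr (by exact_mod_cast hn.1 : (0:ℝ) < n)
    have hcn := cn_pos hκ hq hr hn.1
    set v : ℝ := vn κ q r t n with hv
    have hk0 := kp2_nonneg v
    have ht0 : 0 < t := by linarith
    by_cases hPn : P n
    · rw [if_pos hPn]
      have h1 : kp2 v ≤ C₂ := by
        refine (kp2_le v).trans ?_
        rw [← hC₂]
        have : Real.exp (-(3 * |v|)) ≤ 1 := by
          rw [Real.exp_le_one_iff]
          have := abs_nonneg v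
          linarith
        calc C₂ * Real.exp (-(3 * |v|)) ≤ C₂ * 1 := mul_le_mul_of_nonneg_left this hC₂0.le
          _ = C₂ := mul_one _
      have h2 : max (s * Sn φ κ q r n) 0 * (kp2 v * cn κ q r n) ≤ |Sn φ κ q r n| * (C₂ * cn κ q r n) :=
        mul_le_mul (hmax n) (mul_le_mul_of_nonneg_right h1 hcn.le) (by positivity) (abs_nonneg _)
      have h3 : 0 ≤ (d * (t ^ k * Real.exp (β * t)) * C₂ + C₃ * Real.exp (19 / 40 * t)) *
        (Real.exp (-(2 * |t - κ * Real.log (yy q r n)|)) * (κ * (q / yy q r n))) := by positivity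
      calc _ ≤ |Sn φ κ q r n| * (C₂ * cn κ q r n) := h2
        _ = C₂ * (|Sn φ κ q r n| * cn κ q r n) := by ring
        _ ≤ _ := by linarith
    rw [if_neg hPn, add_zero]
    have hkv : κ * Real.log (yy q r n) = t - v := by rw [hv]; unfold vn; ring
    have hx : yy q r n ^ κ = Real.exp (t - v) := by
      rw [Real.rpow_def_of_pos hy, ← hkv, mul_comm]
    have hev : Real.exp (-(3 * |v|)) * Real.exp |v| = Real.exp (-(2 * |v|)) := by
      rw [← Real.exp_add]
      congr 1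
      ring
    have hS0 : |Sn φ κ q r n| ≤ (1 + B₀) * (Real.exp t * Real.exp |v|) := by
      unfold Sn
      have h0 : 1 ≤ Real.exp t * Real.exp |v| := by
        rw [← Real.exp_add]
        exact Real.one_le_exp (by have := abs_nonneg v; linarith)
      rcases le_or_gt 0 (κ * Real.log (yy q r n)) with h1 | h1
      · have h2 : Real.exp (κ * Real.log (yy q r n)) ≤ Real.exp t * Real.exp |v| := by
          rw [hkv, ← Real.exp_add]
          exact Real.exp_le_exp.2 (by have := neg_abs_le v; linarith)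
        have h3 := hφ.bd _ h1
        nlinarith
      · have h3 := hneg _ h1
        nlinarith
    have hcc : cn κ q r n = κ * (q / yy q r n) := rfl
    have hvv : t - κ * Real.log (yy q r n) = v := rfl
    rw [hvv, ← hcc, ← mul_assoc, ← mul_assoc]
    refine mul_le_mul_of_nonneg_right ?_ hcn.le
    have hm0 : 0 ≤ max (s * Sn φ κ q r n) 0 := le_max_right _ _
    rcases le_or_gt |v| a with hva | hva
    · have h1 : s * Sn φ κ q r n < d * (t ^ k * (yy q r n ^ κ) ^ β) := by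
        by_contra hcon
        exact hPn ⟨hva, not_lt.1 hcon⟩
      have h2 : (yy q r n ^ κ) ^ β ≤ Real.exp (β * t) * Real.exp |v| := by
        rw [hx, ← Real.exp_mul, ← Real.exp_add]
        apply Real.exp_le_exp.2
        have h3 := neg_abs_le v
        have h4 := abs_nonneg v
        nlinarith
      have h3 : 0 < (yy q r n ^ κ) ^ β := Real.rpow_pos_of_pos (Real.rpow_pos_of_pos hy _) _
      have h4 : max (s * Sn φ κ q r n) 0 ≤ d * (t ^ k * (Real.exp (β * t) * Real.exp |v|)) := by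
        refine max_le (h1.le.trans ?_) (by positivity)
        gcongr
      have h5 := kp2_le v
      rw [← hC₂] at h5
      have h6 : 0 ≤ C₃ * Real.exp (19 / 40 * t) * Real.exp (-(2 * |v|)) := by positivity
      calc max (s * Sn φ κ q r n) 0 * kp2 v ≤
          (d * (t ^ k * (Real.exp (β * t) * Real.exp |v|))) * (C₂ * Real.exp (-(3 * |v|))) :=
            mul_le_mul h4 h5 hk0 (by positivity)
        _ = d * (t ^ k * Real.exp (β * t)) * C₂ * (Real.exp (-(3 * |v|)) * Real.exp |v|) := by ring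
        _ = d * (t ^ k * Real.exp (β * t)) * C₂ * Real.exp (-(2 * |v|)) := by rw [hev]
        _ ≤ _ := by rw [add_mul]; linarith
    · have h1 := htail a v ha1 hva.le
      rw [hae] at h1
      have h2 : max (s * Sn φ κ q r n) 0 ≤ (1 + B₀) * (Real.exp t * Real.exp |v|) := (hmax n).trans hS0
      have h6 : 0 ≤ d * (t ^ k * Real.exp (β * t)) * C₂ * Real.exp (-(2 * |v|)) := by positivity
      have h7 : Real.exp t * Real.exp (-(3 / 4 * (7 / 10 * t))) = Real.exp (19 / 40 * t) := by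
        rw [← Real.exp_add]
        congr 1
        ring
      calc max (s * Sn φ κ q r n) 0 * kp2 v ≤
          ((1 + B₀) * (Real.exp t * Real.exp |v|)) *
            (C₁ * Real.exp (-(3 / 4 * (7 / 10 * t))) * Real.exp (-(3 * |v|))) :=
            mul_le_mul h2 h1 hk0 (by positivity)
        _ = C₃ * (Real.exp t * Real.exp (-(3 / 4 * (7 / 10 * t)))) * (Real.exp (-(3 * |v|)) * Real.exp |v|) := by
            rw [hC₃]; ring
        _ = C₃ * Real.exp (19 / 40 * t) * Real.exp (-(2 * |v|)) := by rw [hev, h7]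
        _ ≤ _ := by rw [add_mul]; linarith
  have hsum := Finset.sum_le_sum hterm
  rw [Finset.sum_add_distrib, ← Finset.mul_sum, ← Finset.sum_filter, ← Finset.mul_sum] at hsum
  have ht0 : 0 < t := by linarith
  have h8 : (d * (t ^ k * Real.exp (β * t)) * C₂ + C₃ * Real.exp (19 / 40 * t)) *
      ∑ n ∈ Finset.Icc 1 N, Real.exp (-(2 * |t - κ * Real.log (yy q r n)|)) * (κ * (q / yy q r n)) ≤
      (d * (t ^ k * Real.exp (β * t)) * C₂ + C₃ * Real.exp (19 / 40 * t)) * C₄ :=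
    mul_le_mul_of_nonneg_left (hwt t N) (by positivity)
  have h9 : d * C₂ * C₄ = c / 2 := by rw [hd]; field_simp
  have h10 : Real.exp (1 / 2 * t) ≤ t ^ k * Real.exp (β * t) := by
    have i1 : 1 ≤ t ^ k := one_le_pow₀ ht1
    have i2 : Real.exp (1 / 2 * t) ≤ Real.exp (β * t) := Real.exp_le_exp.2 (by nlinarith)
    have i3 := Real.exp_pos (β * t)
    nlinarith
  have h11 : (d * (t ^ k * Real.exp (β * t)) * C₂ + C₃ * Real.exp (19 / 40 * t)) * C₄ =
      c / 2 * (t ^ k * Real.exp (β * t)) + (C₃ * C₄ * Real.exp (-(1 / 40 * t))) * Real.exp (1 / 2 * t) := by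
    have : Real.exp (-(1 / 40 * t)) * Real.exp (1 / 2 * t) = Real.exp (19 / 40 * t) := by
      rw [← Real.exp_add]
      congr 1
      ring
    rw [← h9, mul_assoc (C₃ * C₄), this]
    ring
  rw [h11] at h8
  have h12 := Real.exp_pos (1 / 2 * t)
  have h13 : (C₃ * C₄ * Real.exp (-(1 / 40 * t))) * Real.exp (1 / 2 * t) ≤ c / 4 * Real.exp (1 / 2 * t) :=
    mul_le_mul_of_nonneg_right hs1.le h12.le
  refine ⟨(Finset.Icc 1 N).filter P, fun n hn => ?_, ?_⟩
  · rw [Finset.mem_filter, Finset.mem_Icc] at hn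
    exact ⟨hn.1.1, hn.2.1, hn.2.2⟩
  · have h14 : c / 4 * (t ^ k * Real.exp (β * t)) ≤
        C₂ * ∑ n ∈ (Finset.Icc 1 N).filter P, |Sn φ κ q r n| * cn κ q r n := by
      have h15 := mul_le_mul_of_nonneg_left h10 (by positivity : 0 ≤ c / 4)
      linarith
    calc t ^ k * Real.exp (β * t) = (4 / c) * (c / 4 * (t ^ k * Real.exp (β * t))) := by field_simp
      _ ≤ (4 / c) * (C₂ * ∑ n ∈ (Finset.Icc 1 N).filter P, |Sn φ κ q r n| * cn κ q r n) :=
          mul_le_mul_of_nonneg_left h14 (by positivity)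
      _ = _ := by ring

/-- both signs in every window `[x, x log x]`, with the number of points -/
theorem win_x {φ : ℝ → ℝ} {κ q r β d C : ℝ} (hκ : 0 < κ) (hq : 0 < q) (hr : 0 ≤ r) (hβ : 0 ≤ β) (hd : 0 < d)
    (hC : 0 < C) (k : ℕ)
    (hw : ∀ᶠ t : ℝ in atTop, ∀ s : ℝ, s = 1 ∨ s = -1 → ∃ G : Finset ℕ,
      (∀ n ∈ G, 1 ≤ n ∧ |vn κ q r t n| ≤ 1 / 8 + 1 / 2 * Real.log (7 / 10 * t) ∧
        d * (t ^ k * (yy q r n ^ κ) ^ β) ≤ s * Sn φ κ q r n) ∧
      t ^ k * Real.exp (β * t) ≤ C * ∑ n ∈ G, |Sn φ κ q r n| * cn κ q r n) :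
    ∃ c : ℝ, 0 < c ∧ ∀ η B : ℝ, 0 ≤ η → 0 < B → (∀ v : ℝ, 0 ≤ v → |φ v| ≤ B * Real.exp (η * v)) →
      ∀ e : ℝ, e < 1 / κ - (η - β) → ∀ᶠ x : ℝ in atTop, ∀ s : ℝ, s = 1 ∨ s = -1 → ∃ G : Finset ℕ,
      (∀ n ∈ G, 1 ≤ n ∧ x ≤ yy q r n ^ κ ∧ yy q r n ^ κ ≤ x * Real.log x ∧
        c * ((yy q r n ^ κ) ^ β * Real.log (yy q r n ^ κ) ^ k) ≤ s * Sn φ κ q r n) ∧ x ^ e ≤ G.card := by
  refine ⟨d / 2 ^ k, by positivity, fun η B hη hB hgr e he => ?_⟩
  have hlog : Tendsto Real.log atTop atTop := Real.tendsto_log_atTop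
  -- the shift
  have hsh : ∀ ε : ℝ, 0 < ε → ∀ᶠ X : ℝ in atTop, Real.log X ≤ ε * X := by
    intro ε hε
    have h2 := Real.isLittleO_log_id_atTop.def hε
    filter_upwards [h2, eventually_ge_atTop 1] with X hX hX1
    rw [Real.norm_eq_abs, Real.norm_eq_abs] at hX
    simp only [id] at hX
    rw [abs_of_nonneg (by linarith : 0 ≤ X)] at hX
    exact (le_abs_self (Real.log X)).trans hX
  have htend : Tendsto (fun x : ℝ => Real.log x + 1 / 2 * Real.log (Real.log x)) atTop atTop := by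
    refine tendsto_atTop_mono' _ ?_ hlog
    filter_upwards [hlog.eventually_ge_atTop 1] with x hx
    have : 0 ≤ Real.log (Real.log x) := Real.log_nonneg (by linarith)
    linarith
  set γ : ℝ := β - η + 1 / κ - e with hγ
  have hγ0 : 0 < γ := by rw [hγ]; linarith
  have hsm1 := hlog.eventually (hsh (γ / (2 * (η + 1))) (by positivity))
  have hsm2 : ∀ᶠ x : ℝ in atTop, C * (B * (κ * q)) ≤ Real.exp (γ / 2 * Real.log x) :=
    (Real.tendsto_exp_atTop.comp (hlog.const_mul_atTop (by positivity : 0 < γ / 2))).eventually_ge_atTop _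
  filter_upwards [htend.eventually hw, hlog.eventually (hsh (1 / 5) (by norm_num)), hlog.eventually_ge_atTop 1,
    eventually_gt_atTop 1, hsm1, hsm2]
    with x h1 h2 h3 h4 k1 k2 s hs
  obtain ⟨G, hG1, hG2⟩ := h1 s hs
  set X : ℝ := Real.log x with hX
  set t : ℝ := X + 1 / 2 * Real.log X with ht
  have hl0 : 0 ≤ Real.log X := Real.log_nonneg (by linarith)
  have ht1 : 1 ≤ t := by rw [ht]; linarith
  have hx0 : 0 < x := by linarith
  have hcmp : 1 / 8 + 1 / 2 * Real.log (7 / 10 * t) ≤ 1 / 2 * Real.log X := by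
    have e1 : Real.log (Real.exp (1 / 4) * (7 / 10 * t)) = 1 / 4 + Real.log (7 / 10 * t) := by
      rw [Real.log_mul (Real.exp_pos _).ne' (by linarith), Real.log_exp]
    have e2 : Real.exp (1 / 4) * (7 / 10 * t) ≤ X := by
      have h8 : Real.exp (1 / 4) ≤ 1.2875 := by
        have h6 := Real.exp_one_lt_d9
        by_contra hcon
        push Not at hcon
        have h7 : Real.exp 1 = Real.exp (1 / 4) ^ 4 := by
          rw [← Real.exp_nat_mul]
          norm_num
        have h9 : (1.2875:ℝ) ^ 4 < Real.exp (1 / 4) ^ 4 := pow_lt_pow_left₀ hcon (by norm_num) (by norm_num)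
        norm_num at h9 h6 h7
        linarith
      have h9 : t ≤ 11 / 10 * X := by rw [ht]; linarith
      have h10 := Real.exp_pos (1 / 4)
      have h11 : 0 < X := by linarith
      calc Real.exp (1 / 4) * (7 / 10 * t) ≤ 1.2875 * (7 / 10 * (11 / 10 * X)) := by gcongr
        _ ≤ X := by linarith
    have e3 := Real.log_le_log (by positivity) e2
    rw [e1] at e3
    linarith
  have hpos : ∀ n ∈ G, X ≤ κ * Real.log (yy q r n) ∧ κ * Real.log (yy q r n) ≤ X + Real.log X := by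
    intro n hn
    obtain ⟨hn1, hn2, hn3⟩ := hG1 n hn
    have hab := abs_le.1 (hn2.trans hcmp)
    have hvn : vn κ q r t n = t - κ * Real.log (yy q r n) := rfl
    rw [hvn] at hab
    rw [ht] at hab
    constructor
    · linarith [hab.2]
    · linarith [hab.1]
  refine ⟨G, fun n hn => ?_, ?_⟩
  · obtain ⟨hn1, hn2, hn3⟩ := hG1 n hn
    obtain ⟨hlow, hup⟩ := hpos n hn
    have hy := yy_pos hq hr (by exact_mod_cast hn1 : (0:ℝ) < n)
    have hxn : yy q r n ^ κ = Real.exp (κ * Real.log (yy q r n)) := by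
      rw [Real.rpow_def_of_pos hy, mul_comm]
    have hlogn : Real.log (yy q r n ^ κ) = κ * Real.log (yy q r n) := by rw [hxn, Real.log_exp]
    refine ⟨hn1, ?_, ?_, ?_⟩
    · rw [hxn]
      calc x = Real.exp X := (Real.exp_log hx0).symm
        _ ≤ _ := Real.exp_le_exp.2 hlow
    · rw [hxn]
      calc Real.exp (κ * Real.log (yy q r n)) ≤ Real.exp (X + Real.log X) := Real.exp_le_exp.2 hup
        _ = x * Real.log x := by rw [Real.exp_add, hX, Real.exp_log hx0, Real.exp_log (by linarith)]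
    · refine le_trans ?_ hn3
      have h5 : 0 < (yy q r n ^ κ) ^ β := Real.rpow_pos_of_pos (Real.rpow_pos_of_pos hy _) _
      have h6 : Real.log (yy q r n ^ κ) ≤ 2 * t := by
        rw [hlogn, ht]
        linarith
      have h7 : 0 ≤ Real.log (yy q r n ^ κ) := by rw [hlogn]; linarith
      have h8 : Real.log (yy q r n ^ κ) ^ k ≤ 2 ^ k * t ^ k := by
        rw [← mul_pow]
        exact pow_le_pow_left₀ h7 h6 k
      calc d / 2 ^ k * ((yy q r n ^ κ) ^ β * Real.log (yy q r n ^ κ) ^ k) ≤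
          d / 2 ^ k * ((yy q r n ^ κ) ^ β * (2 ^ k * t ^ k)) := by gcongr
        _ = _ := by field_simp
  · -- the number of points
    have hb : ∑ n ∈ G, |Sn φ κ q r n| * cn κ q r n ≤
        ∑ _n ∈ G, (B * Real.exp (η * (X + Real.log X))) * (κ * (q * Real.exp (-(X / κ)))) := by
      refine Finset.sum_le_sum fun n hn => ?_
      obtain ⟨hn1, hn2, hn3⟩ := hG1 n hn
      obtain ⟨hlow, hup⟩ := hpos n hn
      have hy := yy_pos hq hr (by exact_mod_cast hn1 : (0:ℝ) < n)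
      have f1 : |Sn φ κ q r n| ≤ B * Real.exp (η * (X + Real.log X)) := by
        refine (hgr _ (by linarith)).trans (mul_le_mul_of_nonneg_left (Real.exp_le_exp.2 ?_) hB.le)
        exact mul_le_mul_of_nonneg_left hup hη
      have f2 : cn κ q r n ≤ κ * (q * Real.exp (-(X / κ))) := by
        unfold cn
        refine mul_le_mul_of_nonneg_left ?_ hκ.le
        rw [div_eq_mul_inv]
        refine mul_le_mul_of_nonneg_left ?_ hq.le
        rw [Real.exp_neg]
        refine inv_anti₀ (Real.exp_pos _) ?_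
        rw [← Real.le_log_iff_exp_le hy, div_le_iff₀ hκ]
        linarith
      exact mul_le_mul f1 f2 (cn_pos hκ hq hr hn1).le (by positivity)
    rw [Finset.sum_const, nsmul_eq_mul] at hb
    have hT : Real.exp (β * X) ≤ t ^ k * Real.exp (β * t) := by
      have i1 : 1 ≤ t ^ k := one_le_pow₀ ht1
      have i2 : Real.exp (β * X) ≤ Real.exp (β * t) :=
        Real.exp_le_exp.2 (mul_le_mul_of_nonneg_left (by rw [ht]; linarith) hβ)
      have i3 := Real.exp_pos (β * t)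
      nlinarith
    have hxe : x ^ e = Real.exp (e * X) := by rw [Real.rpow_def_of_pos hx0, mul_comm]
    have k3 : η * Real.log X ≤ γ / 2 * X := by
      have j1 : η * Real.log X ≤ η * (γ / (2 * (η + 1)) * X) := mul_le_mul_of_nonneg_left k1 hη
      have j2 : η * (γ / (2 * (η + 1)) * X) = (η / (η + 1)) * (γ / 2 * X) := by field_simp
      have j3 : η / (η + 1) ≤ 1 := by rw [div_le_one (by positivity)]; linarith
      have j4 : 0 ≤ γ / 2 * X := by positivity
      nlinarith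
    have k4 : Real.exp (β * X) ≤ (G.card : ℝ) * ((C * (B * (κ * q))) *
        (Real.exp (η * (X + Real.log X)) * Real.exp (-(X / κ)))) := by
      calc Real.exp (β * X) ≤ C * ∑ n ∈ G, |Sn φ κ q r n| * cn κ q r n := hT.trans hG2
        _ ≤ C * ((G.card : ℝ) * ((B * Real.exp (η * (X + Real.log X))) * (κ * (q * Real.exp (-(X / κ)))))) :=
            mul_le_mul_of_nonneg_left hb hC.le
        _ = _ := by ring
    have k5 : (C * (B * (κ * q))) * (Real.exp (η * (X + Real.log X)) * Real.exp (-(X / κ))) ≤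
        Real.exp (β * X - e * X) := by
      calc (C * (B * (κ * q))) * (Real.exp (η * (X + Real.log X)) * Real.exp (-(X / κ))) ≤
          Real.exp (γ / 2 * X) * (Real.exp (η * (X + Real.log X)) * Real.exp (-(X / κ))) :=
            mul_le_mul_of_nonneg_right k2 (by positivity)
        _ = Real.exp (γ / 2 * X + (η * (X + Real.log X) + -(X / κ))) := by rw [Real.exp_add, Real.exp_add]
        _ ≤ _ := by
            apply Real.exp_le_exp.2
            have : X / κ = 1 / κ * X := by ring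
            rw [this, hγ]
            rw [hγ] at k3
            linarith
    have k6 : Real.exp (β * X) ≤ (G.card : ℝ) * Real.exp (β * X - e * X) :=
      k4.trans (mul_le_mul_of_nonneg_left k5 (Nat.cast_nonneg _))
    rw [hxe]
    have k7 : Real.exp (β * X) = Real.exp (e * X) * Real.exp (β * X - e * X) := by
      rw [← Real.exp_add]
      congr 1
      ring
    rw [k7] at k6
    exact le_of_mul_le_mul_right k6 (Real.exp_pos _)

end U441.MP
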