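import Pool.Agent.U441.MP.Wd
import Pool.Agent.U441.MP.Fi
import Pool.Agent.U645.LB.E

/-! Windows, part 5: summatory functions. -/

set_option autoImplicit false

open MeasureTheory Filter Topology Set Complex

namespace U441.MP

open H313.TK
open Pool.Agent.U645.LB (Tw kn kn_DK fub ces ff ff_meas ff_bd AA AA_bd AA_int AA_zero D2_qc D2.tr Gg_eq cen Z lam_pos)

/-- centered summatory function in the logarithmic scale -/
noncomputable def psi (a : ℕ → ℝ) (R lm u : ℝ) : ℝ := lm * (Sa a (Real.exp u) - R * Real.exp (u / 2))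

lemma psi_at {a : ℕ → ℝ} {R lm κ q r u : ℝ} (hy : 0 < yy q r u) :
    psi a R lm (κ * Real.log (yy q r u)) = lm * (Sa a (yy q r u ^ κ) - R * yy q r u ^ (κ * (1 / 2))) := by
  unfold psi
  rw [Real.rpow_def_of_pos hy, Real.rpow_def_of_pos hy]
  congr 3
  · rw [mul_comm]
  · congr 2
    ring

lemma psi_meas (a : ℕ → ℝ) (R lm : ℝ) : Measurable (psi a R lm) := by
  have h := (Sa_measurable a).comp Real.measurable_exp
  unfold psi
  exact ((h.sub (by fun_prop : Measurable fun u : ℝ => R * Real.exp (u / 2))).const_mul lm)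

theorem samp {a : ℕ → ℝ} {F : ℂ → ℂ} {σ : ℝ} (hp : PD a F σ) (hσ1 : 1 / 4 ≤ σ) (hσ2 : σ ≤ 2)
    {κ q r R lm δ w₂ : ℝ} (hκ : 0 < κ) (hq : 0 < q) (hr : 0 ≤ r) (hδ : 0 < δ)
    (hbd : ∀ v : ℝ, 0 ≤ v → |psi a R lm v| ≤ Real.exp v)
    (h1 : κ * σ + 2 / 3 + δ ≤ w₂) (h2 : 1 ≤ w₂) (h3 : κ * (1 / 2) ≤ w₂) : Samp (psi a R lm) κ q r w₂ := by
  have hS0 : ∀ x : ℝ, x < 1 → Sa a x = 0 := by
    intro x hx
    unfold Sa
    rw [Nat.floor_eq_zero.2 hx]
    simp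
  have hw0 : 0 ≤ w₂ := by linarith
  set g : ℝ := max 1 (q + r) with hg
  have hg1 : 1 ≤ g := le_max_left _ _
  have hg0 : 0 < g := by linarith
  have hyg : ∀ u : ℝ, 1 ≤ u → yy q r u ≤ g * u := by
    intro u hu
    have : q + r ≤ g := le_max_right _ _
    unfold yy
    nlinarith
  have hgw : ∀ u : ℝ, 1 ≤ u → ∀ p : ℝ, 0 ≤ p → p ≤ w₂ → yy q r u ^ p ≤ g ^ w₂ * u ^ w₂ := by
    intro u hu p hp0 hp1
    have hy := yy_pos hq hr (by linarith : 0 < u)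
    calc yy q r u ^ p ≤ (g * u) ^ p := Real.rpow_le_rpow hy.le (hyg u hu) hp0
      _ ≤ (g * u) ^ w₂ := Real.rpow_le_rpow_of_exponent_le (by nlinarith) hp1
      _ = _ := Real.mul_rpow hg0.le (by linarith)
  refine ⟨psi_meas a R lm, ?_, hbd, ?_, ?_⟩
  · refine ⟨|lm| * |R| + 1, by positivity, fun v hv => ?_⟩
    unfold psi
    rw [hS0 _ (Real.exp_lt_one_iff.2 hv), zero_sub, mul_neg, abs_neg, abs_mul, abs_mul,
      abs_of_pos (Real.exp_pos (v / 2))]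
    have : Real.exp (v / 2) ≤ 1 := by rw [Real.exp_le_one_iff]; linarith
    calc |lm| * (|R| * Real.exp (v / 2)) ≤ |lm| * (|R| * 1) := by gcongr
      _ ≤ _ := by linarith
  · obtain ⟨Cs, hCs, hS⟩ := Sa_bound hp hσ1 hσ2 (δ := 1 / (2 * κ)) (by positivity)
    refine ⟨|lm| * ((Cs + |R|) * g ^ w₂) + 1, by positivity, fun u hu => ?_⟩
    have hy := yy_pos hq hr (by linarith : 0 < u)
    have hu0 : 0 < u ^ w₂ := Real.rpow_pos_of_pos (by linarith) _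
    have e1 : |Sa a (yy q r u ^ κ)| ≤ Cs * (g ^ w₂ * u ^ w₂) := by
      by_cases hy1 : 1 ≤ yy q r u
      · refine (hS _ (Real.one_le_rpow hy1 hκ.le)).trans ?_
        refine mul_le_mul_of_nonneg_left ?_ hCs.le
        rw [← Real.rpow_mul hy.le]
        have e2 : κ * (σ + 1 / (2 * κ)) = κ * σ + 1 / 2 := by field_simp
        rw [e2]
        have : 0 ≤ κ * σ := by positivity
        exact hgw u hu _ (by linarith) (by linarith)
      · rw [hS0 _ (Real.rpow_lt_one hy.le (not_le.1 hy1) hκ), abs_zero]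
        positivity
    have e3 := hgw u hu (κ * (1 / 2)) (by positivity) h3
    have e4 : 0 ≤ yy q r u ^ (κ * (1 / 2)) := Real.rpow_nonneg hy.le _
    rw [psi_at hy, abs_mul]
    have e5 : |Sa a (yy q r u ^ κ) - R * yy q r u ^ (κ * (1 / 2))| ≤ (Cs + |R|) * (g ^ w₂ * u ^ w₂) := by
      refine (abs_sub _ _).trans ?_
      rw [abs_mul R, abs_of_nonneg e4]
      have := mul_le_mul_of_nonneg_left e3 (abs_nonneg R)
      linarith
    calc |lm| * |Sa a (yy q r u ^ κ) - R * yy q r u ^ (κ * (1 / 2))| ≤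
        |lm| * ((Cs + |R|) * (g ^ w₂ * u ^ w₂)) := mul_le_mul_of_nonneg_left e5 (abs_nonneg _)
      _ = |lm| * ((Cs + |R|) * g ^ w₂) * u ^ w₂ := by ring
      _ ≤ _ := by linarith
  · obtain ⟨C, hC, hM⟩ := main_est hp hσ1 hσ2 hκ hq hr hδ
    refine ⟨|lm| * (2 * C + |R| * g ^ w₂) + 1, by positivity, fun N hN => ?_⟩
    have hN1 : (1:ℝ) ≤ N := by exact_mod_cast hN
    have hN0 : (0:ℝ) < N := by linarith
    have hNw : 0 < (N:ℝ) ^ w₂ := Real.rpow_pos_of_pos hN0 _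
    have s1 := hM N hN
    have s2 := pow_sum hκ hq hr (by norm_num : (0:ℝ) < 1 / 2) hN
    have s3 := hgw N hN1 (κ * (1 / 2)) (by positivity) h3
    have s4 : (N:ℝ) ^ (κ * σ + 2 / 3 + δ) + N ≤ 2 * (N:ℝ) ^ w₂ := by
      have a1 : (N:ℝ) ^ (κ * σ + 2 / 3 + δ) ≤ (N:ℝ) ^ w₂ := Real.rpow_le_rpow_of_exponent_le hN1 h1
      have a2 : (N:ℝ) ≤ (N:ℝ) ^ w₂ := by
        calc (N:ℝ) = (N:ℝ) ^ (1:ℝ) := (Real.rpow_one _).symm
          _ ≤ _ := Real.rpow_le_rpow_of_exponent_le hN1 h2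
      linarith
    have e1 : ∑ n ∈ Finset.Icc 1 N, psi a R lm (κ * Real.log (yy q r n)) -
        ∫ u in (1:ℝ)..N, psi a R lm (κ * Real.log (yy q r u)) =
        lm * ((∑ n ∈ Finset.Icc 1 N, Sa a (yy q r n ^ κ) - ∫ u in (1:ℝ)..N, Sa a (yy q r u ^ κ)) -
          R * (∑ n ∈ Finset.Icc 1 N, yy q r n ^ (κ * (1 / 2)) - ∫ u in (1:ℝ)..N, yy q r u ^ (κ * (1 / 2)))) := by
      have i1 : ∫ u in (1:ℝ)..N, psi a R lm (κ * Real.log (yy q r u)) =
          ∫ u in (1:ℝ)..N, lm * (Sa a (yy q r u ^ κ) - R * yy q r u ^ (κ * (1 / 2))) := by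
        refine intervalIntegral.integral_congr fun u hu => ?_
        rw [uIcc_of_le hN1] at hu
        exact psi_at (yy_pos hq hr (by linarith [hu.1]))
      have i2 : ∑ n ∈ Finset.Icc 1 N, psi a R lm (κ * Real.log (yy q r n)) =
          ∑ n ∈ Finset.Icc 1 N, lm * (Sa a (yy q r n ^ κ) - R * yy q r n ^ (κ * (1 / 2))) := by
        refine Finset.sum_congr rfl fun n hn => ?_
        rw [Finset.mem_Icc] at hn
        exact psi_at (yy_pos hq hr (by exact_mod_cast hn.1))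
      rw [i1, i2, intervalIntegral.integral_const_mul,
        intervalIntegral.integral_sub (Sa_ii hp.ha hκ hq hr one_pos hN1)
          ((yy_rpow_ii hq hr one_pos hN1).const_mul _), intervalIntegral.integral_const_mul,
        ← Finset.mul_sum, Finset.sum_sub_distrib, ← Finset.mul_sum]
      ring
    rw [e1, abs_mul]
    have e2 : |(∑ n ∈ Finset.Icc 1 N, Sa a (yy q r n ^ κ) - ∫ u in (1:ℝ)..N, Sa a (yy q r u ^ κ)) -
        R * (∑ n ∈ Finset.Icc 1 N, yy q r n ^ (κ * (1 / 2)) - ∫ u in (1:ℝ)..N, yy q r u ^ (κ * (1 / 2)))| ≤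
        (2 * C + |R| * g ^ w₂) * (N:ℝ) ^ w₂ := by
      refine (abs_sub _ _).trans ?_
      rw [abs_mul R]
      have a1 := mul_le_mul_of_nonneg_left (s2.trans s3) (abs_nonneg R)
      have a2 := s1.trans (mul_le_mul_of_nonneg_left s4 hC.le)
      linarith
    calc |lm| * _ ≤ |lm| * ((2 * C + |R| * g ^ w₂) * (N:ℝ) ^ w₂) := mul_le_mul_of_nonneg_left e2 (abs_nonneg _)
      _ = |lm| * (2 * C + |R| * g ^ w₂) * (N:ℝ) ^ w₂ := by ring
      _ ≤ _ := by linarith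

/-- functions with bounded averages against the kernel and nonzero transform at the zeros -/
structure Avg (f : ℝ → ℝ) : Prop where
  meas : Measurable f
  bd : ∀ u, |f u| ≤ Real.exp u
  avg : ∃ A : ℝ, 0 ≤ A ∧ ∀ t, ‖Tw f kc t‖ ≤ A
  int : ∀ ρ : ℂ, 0 < ρ.re → ρ.re < 1 → Integrable (fun w : ℝ => cexp (-ρ * w) * Tw f kc w)
  ne : ∀ ρ : ℂ, riemannZeta ρ = 0 → 1 / 2 ≤ ρ.re → ρ.re < 1 → ∫ w : ℝ, cexp (-ρ * w) * Tw f kc w ≠ 0

/-- asymptotics of the twisted averages -/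
theorem asyG {f : ℝ → ℝ} (hf : Avg f) {ρ : ℂ} (h0 : 1 / 2 ≤ ρ.re) (h1 : ρ.re < 1) {m : ℕ}
    (hm : (m : ℕ∞) ≤ analyticOrderAt riemannZeta ρ) : ∀ j : ℕ, j + 1 ≤ m →
    Tendsto (fun t : ℝ => (cexp (-ρ * t) * Tw f (kn ρ (j + 1)) t) / (t : ℂ) ^ j) atTop
      (𝓝 ((∫ w : ℝ, cexp (-ρ * w) * Tw f kc w) / (j.factorial : ℂ))) := by
  have hp : 0 < ρ.re := by linarith
  have hK := kn_DK hp h1 hm
  intro j
  induction j with
  | zero =>
    intro hj
    have h2 := fun t : ℝ => (fub hf.meas hf.bd kc_DK ρ hp h1 t).2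
    have h3 : Tendsto (fun t : ℝ => ∫ w in Iic t, cexp (-ρ * w) * Tw f kc w) atTop
        (𝓝 (∫ w : ℝ, cexp (-ρ * w) * Tw f kc w)) :=
      (aecover_Iic tendsto_id).integral_tendsto_of_countably_generated (hf.int ρ hp h1)
    simp only [pow_zero, div_one, Nat.factorial_zero, Nat.cast_one]
    refine h3.congr fun t => ?_
    exact (h2 t).symm
  | succ j ih =>
    intro hj
    have h2 := fun t : ℝ => fub hf.meas hf.bd (hK (j + 1) (by omega)).1 ρ hp h1 t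
    have h3 := ces (φ := fun w : ℝ => cexp (-ρ * w) * Tw f (kn ρ (j + 1)) w) (fun t => (h2 t).1) (ih (by omega))
    have e : (∫ w : ℝ, cexp (-ρ * w) * Tw f kc w) / ((j + 1).factorial : ℂ) =
        (∫ w : ℝ, cexp (-ρ * w) * Tw f kc w) / (j.factorial : ℂ) / ((j : ℂ) + 1) := by
      rw [Nat.factorial_succ]
      push_cast
      rw [div_div]
      congr 1
      ring
    rw [e]
    refine h3.congr fun t => ?_
    rw [← (h2 t).2]
    rfl

/-- lower bound for the twisted averages -/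
theorem low {f : ℝ → ℝ} (hf : Avg f) {ρ : ℂ} (hz : riemannZeta ρ = 0) (h0 : 1 / 2 ≤ ρ.re) (h1 : ρ.re < 1) {j : ℕ}
    (hm : ((j + 1 : ℕ) : ℕ∞) ≤ analyticOrderAt riemannZeta ρ) :
    ∃ A : ℝ, 0 < A ∧ ∀ᶠ t : ℝ in atTop, A * (t ^ j * Real.exp (ρ.re * t)) ≤ ‖Tw f (kn ρ (j + 1)) t‖ := by
  have hlim := asyG hf h0 h1 hm j le_rfl
  set A : ℝ := ‖(∫ w : ℝ, cexp (-ρ * w) * Tw f kc w) / (j.factorial : ℂ)‖ with hA
  have hA0 : 0 < A := norm_pos_iff.2 (div_ne_zero (hf.ne ρ hz h0 h1) (by exact_mod_cast j.factorial_ne_zero))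
  refine ⟨A / 2, by positivity, ?_⟩
  have h5 := hlim.norm.eventually (lt_mem_nhds (show A / 2 < A by linarith))
  filter_upwards [h5, eventually_gt_atTop (0:ℝ)] with t ht ht0
  rw [norm_div, norm_mul, norm_tw, norm_pow, Complex.norm_real, Real.norm_of_nonneg ht0.le,
    lt_div_iff₀ (by positivity)] at ht
  have h6 : Real.exp (ρ.re * t) * Real.exp (-ρ.re * t) = 1 := by
    rw [← Real.exp_add]
    simp
  calc A / 2 * (t ^ j * Real.exp (ρ.re * t)) = (A / 2 * t ^ j) * Real.exp (ρ.re * t) := by ring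
    _ ≤ (Real.exp (-ρ.re * t) * ‖Tw f (kn ρ (j + 1)) t‖) * Real.exp (ρ.re * t) :=
        mul_le_mul_of_nonneg_right ht.le (Real.exp_pos _).le
    _ = (Real.exp (ρ.re * t) * Real.exp (-ρ.re * t)) * ‖Tw f (kn ρ (j + 1)) t‖ := by ring
    _ = _ := by rw [h6, one_mul]

/-- windows for one zero -/
theorem winZ {φ : ℝ → ℝ} {κ q r w₂ lam : ℝ} (hκ : 0 < κ) (hq : 0 < q) (hr : 0 ≤ r) (hw0 : 0 ≤ w₂)
    (hφ : Samp φ κ q r w₂) (hf : Avg (cut φ)) {ρ : ℂ} (hz : riemannZeta ρ = 0) (h0 : 1 / 2 ≤ ρ.re) (h1 : ρ.re < 1)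
    {j : ℕ} (hm : ((j + 1 : ℕ) : ℕ∞) ≤ analyticOrderAt riemannZeta ρ) (hl0 : 0 < lam) (hl1 : lam < ρ.re)
    (hl : w₂ < lam * κ + 1) :
    ∃ c : ℝ, 0 < c ∧ ∀ η B : ℝ, 0 ≤ η → 0 < B → (∀ v : ℝ, 0 ≤ v → |φ v| ≤ B * Real.exp (η * v)) →
      ∀ e : ℝ, e < 1 / κ - (η - ρ.re) → ∀ᶠ x : ℝ in atTop, ∀ s : ℝ, s = 1 ∨ s = -1 → ∃ G : Finset ℕ,
      (∀ n ∈ G, 1 ≤ n ∧ x ≤ yy q r n ^ κ ∧ yy q r n ^ κ ≤ x * Real.log x ∧
        c * ((yy q r n ^ κ) ^ ρ.re * Real.log (yy q r n ^ κ) ^ j) ≤ s * Sn φ κ q r n) ∧ x ^ e ≤ G.card := by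
  have hp : 0 < ρ.re := by linarith
  obtain ⟨G, hG, hker, hW⟩ := kn_ker hp h1 hm
  obtain ⟨A₀, hA₀, hA⟩ := hf.avg
  obtain ⟨c, C, hc, hC, hb⟩ := big_of hκ hq hr hw0 hφ hl0 (by linarith) hl hA₀ hA hG hker hW
  obtain ⟨A, hA1, hlow⟩ := low hf hz h0 h1 hm
  have hsmall : ∀ᶠ t : ℝ in atTop, C * Real.exp (lam * t) ≤ c * A / 2 * (t ^ j * Real.exp (ρ.re * t)) := by
    have h7 : Tendsto (fun t : ℝ => Real.exp ((ρ.re - lam) * t)) atTop atTop :=
      Real.tendsto_exp_atTop.comp (Tendsto.const_mul_atTop (by linarith) tendsto_id)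
    filter_upwards [h7.eventually_ge_atTop (C / (c * A / 2)), eventually_ge_atTop (1:ℝ)] with t ht ht1
    rw [div_le_iff₀ (by positivity)] at ht
    have e1 : Real.exp ((ρ.re - lam) * t) * Real.exp (lam * t) = Real.exp (ρ.re * t) := by
      rw [← Real.exp_add]
      congr 1
      ring
    have e2 : Real.exp (ρ.re * t) ≤ t ^ j * Real.exp (ρ.re * t) :=
      le_mul_of_one_le_left (Real.exp_pos _).le (one_le_pow₀ ht1)
    calc C * Real.exp (lam * t) ≤ (Real.exp ((ρ.re - lam) * t) * (c * A / 2)) * Real.exp (lam * t) :=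
          mul_le_mul_of_nonneg_right ht (Real.exp_pos _).le
      _ = c * A / 2 * (Real.exp ((ρ.re - lam) * t) * Real.exp (lam * t)) := by ring
      _ = c * A / 2 * Real.exp (ρ.re * t) := by rw [e1]
      _ ≤ _ := mul_le_mul_of_nonneg_left e2 (by positivity)
  have hbig : ∀ᶠ t : ℝ in atTop, ∀ s : ℝ, s = 1 ∨ s = -1 → ∀ᶠ N : ℕ in atTop,
      c * A / 2 * (t ^ j * Real.exp (ρ.re * t)) ≤
        ∑ n ∈ Finset.Icc 1 N, max (s * Sn φ κ q r n) 0 * (kp2 (vn κ q r t n) * cn κ q r n) := by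
    filter_upwards [hlow, hsmall, eventually_ge_atTop (0:ℝ)] with t k1 k2 k3 s hs
    filter_upwards [hb t k3 s hs] with N hN
    have := mul_le_mul_of_nonneg_left k1 hc.le
    linarith
  obtain ⟨d, D, hd, hD, hw⟩ := win hκ hq hr hφ h0 h1.le (by positivity : 0 < c * A / 2) j hbig
  exact win_x hκ hq hr hp.le hd hD j hw

end U441.MP
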