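import Pool.Agent.U441.MP.We

/-! Windows, part 6: the Mertens function and the centered Liouville function. -/

set_option autoImplicit false

open MeasureTheory Filter Topology Set Complex

namespace U441.MP

open H313.TK
open Pool.Agent.H295R2 (fz)
open Pool.Agent.U645.LB (Tw kn kn_DK fub ces AA AA_bd AA_int AA_zero D2_qc D2.tr Gg_eq cen Z lam_pos
  order_pos order_two)

lemma Sa_exp_neg (a : ℕ → ℝ) {u : ℝ} (hu : u < 0) : Sa a (Real.exp u) = 0 := by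
  unfold Sa
  rw [Nat.floor_eq_zero.2 (Real.exp_lt_one_iff.2 hu)]
  simp

lemma cut_mu : cut (psi muR 0 1) = mm := by
  funext u
  rcases le_or_gt 0 u with hu | hu
  · rw [cut_of hu]
    unfold psi
    rw [one_mul, zero_mul, sub_zero]
    rfl
  · rw [cut_neg hu, mm_neg hu]

lemma cut_la : cut (psi laR (1 / Z) Pool.Agent.U645.LB.lam) = Pool.Agent.U645.LB.ff := by
  funext u
  have e : ∀ x : ℝ, Pool.Agent.R303.LW.LL x = Sa laR x := fun x => rfl
  rcases le_or_gt 0 u with hu | hu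
  · rw [cut_of hu]
    unfold psi Pool.Agent.U645.LB.ff cen Pool.Agent.R303.LW.ll
    rw [indicator_of_mem (show u ∈ Ici (0:ℝ) from hu), e]
  · rw [cut_neg hu]
    unfold Pool.Agent.U645.LB.ff cen Pool.Agent.R303.LW.ll
    rw [indicator_of_notMem (show u ∉ Ici (0:ℝ) from fun h2 => absurd hu (not_lt.2 h2)), e, Sa_exp_neg laR hu]
    ring

lemma Tw_mm (t : ℝ) : Tw mm kc t = Ist 0 qc t := by
  rw [← Gg_eq]
  unfold Tw
  rw [kc_eq]
  exact moeb qc_QQ t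

lemma avgM : Avg mm where
  meas := mm_meas
  bd := abs_mm_le
  avg := by
    refine ⟨48 * ∫ x : ℝ, Real.exp (-(2 * |x|)), mul_nonneg (by norm_num)
      (integral_nonneg fun x => (Real.exp_pos _).le), fun t => ?_⟩
    have h2 : Tw mm kc t = ((∫ v : ℝ, mm (t - v) * kp v : ℝ) : ℂ) := by
      unfold Tw
      rw [← integral_complex_ofReal]
      refine integral_congr_ae (ae_of_all _ fun v => ?_)
      simp [kc]
    rw [h2, Complex.norm_real, Real.norm_eq_abs]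
    exact avg_mm t
  int := fun ρ h0 h1 => by
    have h := (D2_qc.tr (τ := 0) (s := ρ) (by simp) (by simpa using h0) (by linarith)).1
    refine h.congr (Eventually.of_forall fun w => ?_)
    simp only [Tw_mm]
  ne := fun ρ hz h0 h1 => by
    have h := (D2_qc.tr (τ := 0) (s := ρ) (by simp) (by simpa using (by linarith : 0 < ρ.re)) (by linarith)).2
    simp only [Tw_mm]
    rw [h, sub_zero]
    have hρ : ρ ≠ 0 := by
      rintro rfl
      simp at h0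
      linarith
    exact div_ne_zero (qh_ne ρ (by linarith) h1) hρ

lemma avgL : Avg Pool.Agent.U645.LB.ff where
  meas := Pool.Agent.U645.LB.ff_meas
  bd := Pool.Agent.U645.LB.ff_bd
  avg := by
    obtain ⟨C, hC, hb⟩ := AA_bd
    refine ⟨C, hC, fun t => (hb t).trans ?_⟩
    have : Real.exp (0 * max t 0 + 2 * min t 0) ≤ 1 := by
      rw [Real.exp_le_one_iff]
      have := min_le_right t 0
      linarith
    calc C * _ ≤ C * 1 := mul_le_mul_of_nonneg_left this hC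
      _ = C := mul_one C
  int := fun ρ h0 h1 => AA_int h0 (by linarith)
  ne := fun ρ hz h0 h1 => AA_zero hz h0 h1

/-- a summatory function to which the theorem applies -/
structure Good (a : ℕ → ℝ) (R lm : ℝ) : Prop where
  fam : ∃ F : ℂ → ℂ, Fam a F
  pos : 0 < lm
  avg : Avg (cut (psi a R lm))

lemma goodM : Good muR 0 1 := ⟨⟨fz, fam_mu⟩, one_pos, by rw [cut_mu]; exact avgM⟩

lemma goodL : Good laR (1 / Z) Pool.Agent.U645.LB.lam := ⟨⟨fl, fam_la⟩, lam_pos, by rw [cut_la]; exact avgL⟩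

lemma Good.bd {a : ℕ → ℝ} {R lm : ℝ} (h : Good a R lm) (v : ℝ) (hv : 0 ≤ v) : |psi a R lm v| ≤ Real.exp v := by
  have := h.avg.bd v
  rwa [cut_of hv] at this

/-- growth -/
lemma Good.growth {a : ℕ → ℝ} {R lm : ℝ} (h : Good a R lm) {θ η : ℝ} (hθ : 1 / 2 ≤ θ) (hθ1 : θ ≤ 1)
    (hθz : ∀ s : ℂ, θ < s.re → riemannZeta s ≠ 0) (hη : θ < η) :
    ∃ B : ℝ, 0 < B ∧ ∀ v : ℝ, 0 ≤ v → |psi a R lm v| ≤ B * Real.exp (η * v) := by
  obtain ⟨F, hF⟩ := h.fam
  have hlm := h.pos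
  set e : ℝ := min (η - θ) 1 / 2 with he
  have he0 : 0 < e := by
    have : 0 < min (η - θ) 1 := lt_min (by linarith) one_pos
    rw [he]; linarith
  have he1 : e ≤ 1 / 2 := by
    have := min_le_right (η - θ) 1
    rw [he]; linarith
  have he2 : θ + e + e ≤ η := by
    have := min_le_left (η - θ) 1
    rw [he]; linarith
  have hp := hF θ (θ + e) hθ hθz (by linarith) (by linarith)
  obtain ⟨C, hC, hS⟩ := Sa_bound hp (by linarith) (by linarith) (δ := e) he0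
  refine ⟨lm * (C + |R|), by positivity, fun v hv => ?_⟩
  have h1 := hS (Real.exp v) (Real.one_le_exp hv)
  have h2 : Real.exp v ^ (θ + e + e) ≤ Real.exp (η * v) := by
    rw [← Real.exp_mul]
    apply Real.exp_le_exp.2
    nlinarith
  have h3 : Real.exp (v / 2) ≤ Real.exp (η * v) := Real.exp_le_exp.2 (by nlinarith)
  unfold psi
  rw [abs_mul, abs_of_pos hlm, mul_assoc]
  refine mul_le_mul_of_nonneg_left ?_ hlm.le
  refine (abs_sub _ _).trans ?_
  rw [abs_mul, abs_of_pos (Real.exp_pos (v / 2)), add_mul]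
  exact add_le_add (h1.trans (mul_le_mul_of_nonneg_left h2 hC.le)) (mul_le_mul_of_nonneg_left h3 (abs_nonneg R))

/-- windows for a zero close to the supremum of the real parts -/
theorem winA {a : ℕ → ℝ} {R lm : ℝ} (h : Good a R lm) {κ q r : ℝ} (hκ : 0 < κ) (hq : 0 < q) (hr : 0 ≤ r)
    {ρ : ℂ} (hz : riemannZeta ρ = 0) (h0 : 1 / 2 ≤ ρ.re) (h1 : ρ.re < 1) {θ : ℝ} (hθ : ρ.re ≤ θ) (hθ1 : θ ≤ 1)
    (hθz : ∀ s : ℂ, θ < s.re → riemannZeta s ≠ 0) (hθ2 : θ - 1 / (3 * κ) < ρ.re) {j : ℕ}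
    (hm : ((j + 1 : ℕ) : ℕ∞) ≤ analyticOrderAt riemannZeta ρ) :
    ∃ c : ℝ, 0 < c ∧ ∀ e : ℝ, e < 1 / κ - (θ - ρ.re) → ∀ᶠ x : ℝ in atTop, ∀ s : ℝ, s = 1 ∨ s = -1 →
      ∃ G : Finset ℕ, (∀ n ∈ G, 1 ≤ n ∧ x ≤ yy q r n ^ κ ∧ yy q r n ^ κ ≤ x * Real.log x ∧
        c * ((yy q r n ^ κ) ^ ρ.re * Real.log (yy q r n ^ κ) ^ j) ≤
          s * (Sa a (yy q r n ^ κ) - R * (yy q r n ^ κ) ^ (1 / 2 : ℝ))) ∧ x ^ e ≤ G.card := by
  obtain ⟨F, hF⟩ := h.fam
  have hlm := h.pos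
  set β : ℝ := ρ.re with hβ
  set m₀ : ℝ := max (θ - 1 / (3 * κ)) 0 with hm₀
  have hm1 : m₀ < β := max_lt hθ2 (by linarith)
  have hm2 : 0 ≤ m₀ := le_max_right _ _
  have hm3 : θ - 1 / (3 * κ) ≤ m₀ := le_max_left _ _
  set lam : ℝ := (m₀ + β) / 2 with hlam
  have hl0 : 0 < lam := by rw [hlam]; linarith
  have hl1 : lam < β := by rw [hlam]; linarith
  have hl2 : θ - 1 / (3 * κ) < lam := by rw [hlam]; linarith
  have hl3 : κ * θ + 2 / 3 < lam * κ + 1 := by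
    have e1 : κ * (1 / (3 * κ)) = 1 / 3 := by field_simp
    have e2 := mul_lt_mul_of_pos_left hl2 hκ
    rw [mul_sub, e1] at e2
    linarith
  set d : ℝ := (lam * κ + 1 - (κ * θ + 2 / 3)) / 3 with hd
  have hd0 : 0 < d := by rw [hd]; linarith
  set e : ℝ := min (d / κ) 1 with he
  have he0 : 0 < e := by rw [he]; positivity
  have he1 : κ * e ≤ d := by
    calc κ * e ≤ κ * (d / κ) := mul_le_mul_of_nonneg_left (min_le_left _ _) hκ.le
      _ = d := by field_simp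
  have he2 : e ≤ 1 := min_le_right _ _
  have hp := hF θ (θ + e) (by linarith) hθz (by linarith) (by linarith)
  set w₂ : ℝ := max (max (κ * (θ + e) + 2 / 3 + d) 1) (κ * (1 / 2)) with hw₂
  have hw1 : κ * (θ + e) + 2 / 3 + d ≤ w₂ := (le_max_left _ _).trans (le_max_left _ _)
  have hw2 : 1 ≤ w₂ := (le_max_right _ _).trans (le_max_left _ _)
  have hw3 : κ * (1 / 2) ≤ w₂ := le_max_right _ _
  have hw4 : w₂ < lam * κ + 1 := by
    rw [hw₂]
    refine max_lt (max_lt ?_ ?_) ?_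
    · rw [mul_add]
      linarith
    · have : 0 < lam * κ := by positivity
      linarith
    · nlinarith
  have hS := samp hp (by linarith) (by linarith) (q := q) (r := r) (R := R) (lm := lm) hκ hq hr hd0 h.bd hw1 hw2 hw3
  obtain ⟨c, hc, hev⟩ := winZ hκ hq hr (by linarith) hS h.avg hz h0 h1 hm hl0 hl1 hw4
  refine ⟨c / lm, by positivity, fun e₁ he₁ => ?_⟩
  set η : ℝ := θ + (1 / κ - (θ - β) - e₁) / 2 with hη
  have hη1 : θ < η := by rw [hη]; linarith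
  obtain ⟨B, hB, hgr⟩ := h.growth (by linarith) hθ1 hθz hη1
  refine (hev η B (by linarith) hB hgr e₁ (by rw [hη]; linarith)).mono fun x hx s hs => ?_
  obtain ⟨G, hG, hcard⟩ := hx s hs
  refine ⟨G, fun n hn => ?_, hcard⟩
  obtain ⟨hn1, hn2, hn3, hn4⟩ := hG n hn
  refine ⟨hn1, hn2, hn3, ?_⟩
  have hy := yy_pos hq hr (by exact_mod_cast hn1 : (0:ℝ) < n)
  unfold Sn at hn4
  rw [psi_at hy, Real.rpow_mul hy.le] at hn4
  rw [div_mul_eq_mul_div, div_le_iff₀ hlm]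
  linarith

/-- **Both signs along the powers in every window.** -/
theorem winF {a : ℕ → ℝ} {R lm : ℝ} (h : Good a R lm) {κ q r : ℝ} (hκ : 0 < κ) (hq : 0 < q) (hr : 0 ≤ r)
    {ρ : ℂ} (hz : riemannZeta ρ = 0) (h0 : 1 / 2 ≤ ρ.re) {j : ℕ}
    (hm : ((j + 1 : ℕ) : ℕ∞) ≤ analyticOrderAt riemannZeta ρ) :
    ∃ c : ℝ, 0 < c ∧ ∀ ε : ℝ, 0 < ε → ∀ᶠ x : ℝ in atTop, ∀ s : ℝ, s = 1 ∨ s = -1 →
      ∃ G : Finset ℕ, (∀ n ∈ G, 1 ≤ n ∧ x ≤ yy q r n ^ κ ∧ yy q r n ^ κ ≤ x * Real.log x ∧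
        c * ((yy q r n ^ κ) ^ ρ.re * Real.log (yy q r n ^ κ) ^ j) ≤
          s * (Sa a (yy q r n ^ κ) - R * (yy q r n ^ κ) ^ (1 / 2 : ℝ))) ∧ x ^ (1 / κ - ε) ≤ G.card := by
  have hlt1 : ∀ s : ℂ, riemannZeta s = 0 → s.re < 1 := by
    intro s hs
    by_contra hcon
    exact riemannZeta_ne_zero_of_one_le_re (not_lt.1 hcon) hs
  obtain ⟨θ, t1, t2, t3, t4⟩ := supre hz
  rcases eq_or_lt_of_le t1 with hc | hc
  · obtain ⟨c, hc0, hev⟩ := winA h hκ hq hr hz h0 (hlt1 ρ hz) t1 t2 t3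
      (by have : 0 < 1 / (3 * κ) := by positivity
          linarith) hm
    exact ⟨c, hc0, fun ε hε => hev _ (by linarith)⟩
  · refine ⟨1, one_pos, fun ε hε => ?_⟩
    obtain ⟨ρ', hz', hρ'⟩ := t4 (min (min (1 / (3 * κ)) ε) (θ - ρ.re)) (by
      refine lt_min (lt_min (by positivity) hε) (by linarith))
    have m1 : min (min (1 / (3 * κ)) ε) (θ - ρ.re) ≤ 1 / (3 * κ) := (min_le_left _ _).trans (min_le_left _ _)
    have m2 : min (min (1 / (3 * κ)) ε) (θ - ρ.re) ≤ ε := (min_le_left _ _).trans (min_le_right _ _)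
    have m3 : min (min (1 / (3 * κ)) ε) (θ - ρ.re) ≤ θ - ρ.re := min_le_right _ _
    have hgt : ρ.re < ρ'.re := by linarith
    have hθ' : ρ'.re ≤ θ := by
      by_contra hcon
      exact t3 ρ' (not_le.1 hcon) hz'
    have hm' : ((0 + 1 : ℕ) : ℕ∞) ≤ analyticOrderAt riemannZeta ρ' := by
      refine le_trans ?_ (order_pos hz' (hlt1 ρ' hz'))
      exact_mod_cast (by omega : 0 + 1 ≤ analyticOrderNatAt riemannZeta ρ' - 1 + 1)
    obtain ⟨c, hc0, hev⟩ := winA h hκ hq hr hz' (by linarith) (hlt1 ρ' hz') hθ' t2 t3 (by linarith) hm'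
    have hlog : ∀ᶠ X : ℝ in atTop, Real.log X ^ j ≤ c * X ^ (ρ'.re - ρ.re) := by
      have h4 := (isLittleO_log_rpow_rpow_atTop (s := ρ'.re - ρ.re) (j : ℝ) (by linarith)).bound hc0
      filter_upwards [h4, eventually_ge_atTop (1:ℝ)] with X hX hX1
      rw [Real.rpow_natCast, Real.norm_of_nonneg (pow_nonneg (Real.log_nonneg hX1) _),
        Real.norm_of_nonneg (Real.rpow_nonneg (by linarith) _)] at hX
      exact hX
    obtain ⟨X₀, hX₀⟩ := eventually_atTop.1 hlog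
    filter_upwards [hev (1 / κ - ε) (by linarith), eventually_ge_atTop (max X₀ 1)] with x hx hx1 s hs
    obtain ⟨G, hG, hcard⟩ := hx s hs
    refine ⟨G, fun n hn => ?_, hcard⟩
    obtain ⟨hn1, hn2, hn3, hn4⟩ := hG n hn
    refine ⟨hn1, hn2, hn3, le_trans ?_ hn4⟩
    have hX := hX₀ (yy q r n ^ κ) (((le_max_left _ _).trans hx1).trans hn2)
    have hpos : 0 < yy q r n ^ κ := lt_of_lt_of_le (by linarith [(le_max_right X₀ 1).trans hx1]) hn2
    rw [pow_zero, mul_one, one_mul]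
    have e1 : (yy q r n ^ κ) ^ ρ.re * (yy q r n ^ κ) ^ (ρ'.re - ρ.re) = (yy q r n ^ κ) ^ ρ'.re := by
      rw [← Real.rpow_add hpos]
      congr 1
      ring
    rw [← e1]
    have e2 := mul_le_mul_of_nonneg_left hX (Real.rpow_nonneg hpos.le ρ.re)
    linarith

/-- one-sided bounds on sparse windows, up to a small set of exceptions -/
theorem one_sided {a : ℕ → ℝ} {R lm : ℝ} (h : Good a R lm) {κ q r : ℝ} (hκ : 0 < κ) (hq : 0 < q) (hr : 0 ≤ r)
    {s δ : ℝ} (hs : s = 1 ∨ s = -1) (hδ : 0 < δ)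
    (hb : ∀ ε : ℝ, 0 < ε → ∃ᶠ x : ℝ in atTop, ∀ G : Finset ℕ, (∀ n ∈ G, 1 ≤ n ∧ x ≤ yy q r n ^ κ ∧
      yy q r n ^ κ ≤ x * Real.log x ∧
      ε * ((yy q r n ^ κ) ^ (1 / 2 : ℝ) * Real.log (yy q r n ^ κ)) < s * Sa a (yy q r n ^ κ)) →
      (G.card : ℝ) ≤ x ^ (1 / κ - δ))
    (ρ : ℂ) (hz : riemannZeta ρ = 0) (h0 : 0 < ρ.re) : ρ.re = 1 / 2 ∧ deriv riemannZeta ρ ≠ 0 := by
  have hlt1 : ∀ s : ℂ, riemannZeta s = 0 → s.re < 1 := by
    intro s hs
    by_contra hcon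
    exact riemannZeta_ne_zero_of_one_le_re (not_lt.1 hcon) hs
  have habs : |s| = 1 := by rcases hs with h | h <;> rw [h] <;> simp
  -- the centered version
  have hcen : ∀ ε : ℝ, 0 < ε → ∃ᶠ x : ℝ in atTop, ∀ G : Finset ℕ, (∀ n ∈ G, 1 ≤ n ∧ x ≤ yy q r n ^ κ ∧
      yy q r n ^ κ ≤ x * Real.log x ∧
      ε * ((yy q r n ^ κ) ^ (1 / 2 : ℝ) * Real.log (yy q r n ^ κ)) <
        s * (Sa a (yy q r n ^ κ) - R * (yy q r n ^ κ) ^ (1 / 2 : ℝ))) →
      (G.card : ℝ) ≤ x ^ (1 / κ - δ) := by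
    intro ε hε
    have h3 : ∀ᶠ x : ℝ in atTop, |R| ≤ ε / 2 * Real.log x :=
      (Real.tendsto_log_atTop.const_mul_atTop (by positivity : 0 < ε / 2)).eventually_ge_atTop _
    refine ((hb (ε / 2) (by positivity)).and_eventually (h3.and (eventually_ge_atTop (1:ℝ)))).mono
      fun x hx G hG => ?_
    obtain ⟨hx1, hx2, hx3⟩ := hx
    refine hx1 G fun n hn => ?_
    obtain ⟨hn1, hn2, hn3, hn4⟩ := hG n hn
    refine ⟨hn1, hn2, hn3, ?_⟩
    have hxy : Real.log x ≤ Real.log (yy q r n ^ κ) := Real.log_le_log (by linarith) hn2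
    have hpos : 0 < yy q r n ^ κ := by linarith
    have hsq : 0 ≤ (yy q r n ^ κ) ^ (1 / 2 : ℝ) := Real.rpow_nonneg hpos.le _
    have h5 : -(s * (R * (yy q r n ^ κ) ^ (1 / 2 : ℝ))) ≤ |R| * (yy q r n ^ κ) ^ (1 / 2 : ℝ) := by
      calc -(s * (R * (yy q r n ^ κ) ^ (1 / 2 : ℝ))) ≤ |s * (R * (yy q r n ^ κ) ^ (1 / 2 : ℝ))| := neg_le_abs _
        _ = |R| * (yy q r n ^ κ) ^ (1 / 2 : ℝ) := by
            rw [abs_mul, habs, one_mul, abs_mul, abs_of_nonneg hsq]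
    have h7 : |R| * (yy q r n ^ κ) ^ (1 / 2 : ℝ) ≤
        (ε / 2 * Real.log (yy q r n ^ κ)) * (yy q r n ^ κ) ^ (1 / 2 : ℝ) := by
      refine mul_le_mul_of_nonneg_right ?_ hsq
      have : ε / 2 * Real.log x ≤ ε / 2 * Real.log (yy q r n ^ κ) := mul_le_mul_of_nonneg_left hxy (by positivity)
      linarith
    have h8 : s * (Sa a (yy q r n ^ κ) - R * (yy q r n ^ κ) ^ (1 / 2 : ℝ)) =
        s * Sa a (yy q r n ^ κ) + -(s * (R * (yy q r n ^ κ) ^ (1 / 2 : ℝ))) := by ring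
    rw [h8] at hn4
    linarith
  have key : ∀ ρ : ℂ, riemannZeta ρ = 0 → 1 / 2 ≤ ρ.re → ρ.re = 1 / 2 ∧ deriv riemannZeta ρ ≠ 0 := by
    intro ρ hz h0
    have h1 := hlt1 ρ hz
    -- the comparison
    have main : ∀ (j : ℕ) (ε : ℝ), 0 < ε → ((j + 1 : ℕ) : ℕ∞) ≤ analyticOrderAt riemannZeta ρ →
        (∀ c : ℝ, 0 < c → ∃ ε : ℝ, 0 < ε ∧ ∀ᶠ x : ℝ in atTop, ∀ y ≥ x,
          ε * (y ^ (1 / 2 : ℝ) * Real.log y) < c * (y ^ ρ.re * Real.log y ^ j)) → False := by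
      intro j _ _ hm hcmp
      obtain ⟨c, hc, hev⟩ := winF h hκ hq hr hz h0 hm
      obtain ⟨ε, hε, hy⟩ := hcmp c hc
      obtain ⟨x, hx1, hx2, hx3, hx4⟩ := ((hcen ε hε).and_eventually
        ((hev (δ / 2) (by positivity)).and (hy.and (eventually_gt_atTop (1:ℝ))))).exists
      obtain ⟨G, hG, hcard⟩ := hx2 s hs
      have h2 := hx1 G fun n hn => by
        obtain ⟨hn1, hn2, hn3, hn4⟩ := hG n hn
        exact ⟨hn1, hn2, hn3, (hx3 _ hn2).trans_le hn4⟩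
      have h3 : x ^ (1 / κ - δ) < x ^ (1 / κ - δ / 2) := Real.rpow_lt_rpow_of_exponent_lt hx4 (by linarith)
      linarith
    have e1 : ρ.re = 1 / 2 := by
      by_contra hne
      have hgt : 1 / 2 < ρ.re := lt_of_le_of_ne h0 (Ne.symm hne)
      refine main 0 1 one_pos (by
        refine le_trans ?_ (order_pos hz h1)
        exact_mod_cast (by omega : 0 + 1 ≤ analyticOrderNatAt riemannZeta ρ - 1 + 1)) fun c hc => ⟨1, one_pos, ?_⟩
      have h4 := (isLittleO_log_rpow_atTop (r := ρ.re - 1 / 2) (by linarith)).bound (c := c / 2) (by positivity)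
      obtain ⟨N, hN⟩ := (h4.and (eventually_ge_atTop (1:ℝ))).exists_forall_of_atTop
      filter_upwards [eventually_ge_atTop N] with x hx y hy
      obtain ⟨h5, h6⟩ := hN y (hx.trans hy)
      have hy0 : 0 < y := by linarith
      rw [Real.norm_of_nonneg (Real.log_nonneg h6), Real.norm_of_nonneg (by positivity)] at h5
      have h7 : y ^ (1 / 2 : ℝ) * y ^ (ρ.re - 1 / 2) = y ^ ρ.re := by
        rw [← Real.rpow_add hy0]
        congr 1
        ring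
      have h8 : 0 < y ^ ρ.re := Real.rpow_pos_of_pos hy0 _
      have h9 : 0 ≤ y ^ (1 / 2 : ℝ) := Real.rpow_nonneg hy0.le _
      rw [one_mul, pow_zero, mul_one]
      calc y ^ (1 / 2 : ℝ) * Real.log y ≤ y ^ (1 / 2 : ℝ) * (c / 2 * y ^ (ρ.re - 1 / 2)) :=
            mul_le_mul_of_nonneg_left h5 h9
        _ = c / 2 * (y ^ (1 / 2 : ℝ) * y ^ (ρ.re - 1 / 2)) := by ring
        _ = c / 2 * y ^ ρ.re := by rw [h7]
        _ < _ := by nlinarith
    refine ⟨e1, fun hz' => ?_⟩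
    refine main 1 1 one_pos (order_two hz hz' h1) fun c hc => ⟨c / 2, by positivity, ?_⟩
    filter_upwards [eventually_gt_atTop (1:ℝ)] with x hx y hy
    have hy1 : 1 < y := lt_of_lt_of_le hx hy
    rw [pow_one, e1]
    have h10 : 0 < y ^ (1 / 2 : ℝ) * Real.log y :=
      mul_pos (Real.rpow_pos_of_pos (by linarith) _) (Real.log_pos hy1)
    nlinarith
  have h1 := hlt1 ρ hz
  rcases le_total (1 / 2) ρ.re with h' | h'
  · exact key ρ hz h'
  · have hz2 := refl_zero ρ hz h0 h1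
    have hre : (1 - ρ).re = 1 - ρ.re := by simp
    have h2 := (key (1 - ρ) hz2 (by rw [hre]; linarith)).1
    rw [hre] at h2
    exact key ρ hz (by linarith)

end U441.MP
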