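import Pool.Agent.U441.MP.Wd

/-! Weak Mertens along powers, part 1: smooth kernels with compact support. -/

set_option autoImplicit false

open MeasureTheory Filter Topology Set Complex

namespace U441.MP

/-- the bump -/
noncomputable def bq (x : ℝ) : ℝ := 30 * (max 0 (x - x ^ 2)) ^ 2

/-- its derivative -/
noncomputable def bd (x : ℝ) : ℝ := 60 * (max 0 (x - x ^ 2)) * (1 - 2 * x)

lemma sqmax_deriv (y : ℝ) : HasDerivAt (fun y : ℝ => (max 0 y) ^ 2) (2 * max 0 y) y := by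
  rcases lt_trichotomy y 0 with h | h | h
  · have e : (fun y : ℝ => (max 0 y) ^ 2) =ᶠ[𝓝 y] fun _ => 0 := by
      filter_upwards [Iio_mem_nhds h] with z hz
      have hz' : z < 0 := hz
      rw [max_eq_left hz'.le]
      simp
    rw [max_eq_left h.le, mul_zero]
    exact (hasDerivAt_const y (0:ℝ)).congr_of_eventuallyEq e
  · subst h
    rw [max_self, mul_zero, hasDerivAt_iff_isLittleO]
    have h1 : (fun y : ℝ => (max 0 y) ^ 2 - (max 0 0) ^ 2 - (y - 0) • (0:ℝ)) =O[𝓝 0] fun y : ℝ => y ^ 2 := by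
      refine Asymptotics.IsBigO.of_bound 1 (Eventually.of_forall fun y => ?_)
      rw [max_self, smul_zero, sub_zero, one_mul, Real.norm_eq_abs, Real.norm_eq_abs, abs_of_nonneg (sq_nonneg y)]
      have h2 : |max 0 y| ≤ |y| := by
        rcases le_total 0 y with h | h
        · rw [max_eq_right h]
        · rw [max_eq_left h, abs_zero]
          exact abs_nonneg y
      have h3 : (max 0 y) ^ 2 - 0 ^ 2 = (max 0 y) ^ 2 := by ring
      rw [h3, abs_of_nonneg (sq_nonneg _)]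
      exact sq_le_sq.2 h2
    have h4 : (fun y : ℝ => y ^ 2) =o[𝓝 0] fun y : ℝ => y - 0 := by
      have := Asymptotics.isLittleO_pow_id (𝕜 := ℝ) (n := 2) (by norm_num)
      simpa using this
    exact h1.trans_isLittleO h4
  · have e : (fun y : ℝ => (max 0 y) ^ 2) =ᶠ[𝓝 y] fun z => z ^ 2 := by
      filter_upwards [Ioi_mem_nhds h] with z hz
      have hz' : 0 < z := hz
      rw [max_eq_right hz'.le]
    rw [max_eq_right h.le]
    have h5 : HasDerivAt (fun z : ℝ => z ^ 2) (2 * y) y := by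
      simpa using hasDerivAt_pow 2 y
    exact h5.congr_of_eventuallyEq e

lemma bq_deriv (x : ℝ) : HasDerivAt bq (bd x) x := by
  have h1 : HasDerivAt (fun x : ℝ => x - x ^ 2) (1 - 2 * x) x := by
    have := (hasDerivAt_id' x).fun_sub (hasDerivAt_pow 2 x)
    refine HasDerivAt.congr_deriv this ?_
    push_cast
    ring
  have h2 := ((sqmax_deriv (x - x ^ 2)).comp x h1).const_mul 30
  refine HasDerivAt.congr_deriv h2 ?_
  unfold bd
  ring

lemma bq_zero {x : ℝ} (h : x ≤ 0 ∨ 1 ≤ x) : bq x = 0 := by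
  unfold bq
  have : x - x ^ 2 ≤ 0 := by
    rcases h with h | h <;> nlinarith
  rw [max_eq_left this]
  ring

lemma bd_zero {x : ℝ} (h : x ≤ 0 ∨ 1 ≤ x) : bd x = 0 := by
  unfold bd
  have : x - x ^ 2 ≤ 0 := by
    rcases h with h | h <;> nlinarith
  rw [max_eq_left this]
  ring

lemma bq_nonneg (x : ℝ) : 0 ≤ bq x := by unfold bq; positivity

lemma mx_le (x : ℝ) : max 0 (x - x ^ 2) ≤ 1 / 4 := max_le (by norm_num) (by nlinarith [sq_nonneg (x - 1 / 2)])

lemma bq_le (x : ℝ) : bq x ≤ 2 := by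
  unfold bq
  have h1 := mx_le x
  have h2 : 0 ≤ max 0 (x - x ^ 2) := le_max_left _ _
  nlinarith

lemma bd_le (x : ℝ) : |bd x| ≤ 15 := by
  by_cases h : x ≤ 0 ∨ 1 ≤ x
  · rw [bd_zero h, abs_zero]
    norm_num
  · push Not at h
    unfold bd
    have h1 := mx_le x
    have h2 : 0 ≤ max 0 (x - x ^ 2) := le_max_left _ _
    rw [abs_mul, abs_mul, abs_of_nonneg h2, abs_of_pos (by norm_num : (0:ℝ) < 60)]
    have h3 : |1 - 2 * x| ≤ 1 := abs_le.2 ⟨by linarith, by linarith⟩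
    calc 60 * max 0 (x - x ^ 2) * |1 - 2 * x| ≤ 60 * (1 / 4) * 1 := by gcongr
      _ = 15 := by norm_num

lemma bq_cont : Continuous bq := by unfold bq; fun_prop

lemma bq_ind (x : ℝ) : bq x = (Ioc (0:ℝ) 1).indicator bq x := by
  by_cases h : x ∈ Ioc (0:ℝ) 1
  · rw [indicator_of_mem h]
  · rw [indicator_of_notMem h]
    rw [mem_Ioc, not_and_or, not_lt, not_le] at h
    exact bq_zero (h.imp id le_of_lt)

lemma bq_int : Integrable bq := by
  have h : Integrable ((Ioc (0:ℝ) 1).indicator bq) := by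
    rw [integrable_indicator_iff measurableSet_Ioc]
    exact bq_cont.integrableOn_Icc.mono_set Ioc_subset_Icc_self
  exact h.congr (Eventually.of_forall fun x => (bq_ind x).symm)

lemma bq_one : ∫ x, bq x = 1 := by
  rw [integral_congr_ae (Eventually.of_forall bq_ind), integral_indicator measurableSet_Ioc,
    ← intervalIntegral.integral_of_le zero_le_one]
  have h1 : ∀ x ∈ uIcc (0:ℝ) 1, HasDerivAt (fun x : ℝ => 10 * x ^ 3 - 15 * x ^ 4 + 6 * x ^ 5) (bq x) x := by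
    intro x hx
    rw [uIcc_of_le zero_le_one] at hx
    have e : bq x = 30 * x ^ 2 - 60 * x ^ 3 + 30 * x ^ 4 := by
      unfold bq
      rw [max_eq_right (by nlinarith [hx.1, hx.2] : 0 ≤ x - x ^ 2)]
      ring
    rw [e]
    have h2 := (((hasDerivAt_pow 3 x).const_mul 10).sub ((hasDerivAt_pow 4 x).const_mul 15)).add
      ((hasDerivAt_pow 5 x).const_mul 6)
    refine HasDerivAt.congr_deriv h2 ?_
    push_cast
    ring
  rw [intervalIntegral.integral_eq_sub_of_hasDerivAt h1 (bq_cont.intervalIntegrable _ _)]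
  norm_num

/-- the kernel of width `h` -/
noncomputable def kb (h x : ℝ) : ℝ := h⁻¹ * bq (x / h)

variable {h : ℝ}

lemma kb_nonneg (h0 : 0 < h) (x : ℝ) : 0 ≤ kb h x := mul_nonneg (inv_nonneg.2 h0.le) (bq_nonneg _)

lemma kb_zero (h0 : 0 < h) {x : ℝ} (hx : x ≤ 0 ∨ h ≤ x) : kb h x = 0 := by
  unfold kb
  rw [bq_zero, mul_zero]
  rcases hx with hx | hx
  · exact Or.inl (div_nonpos_of_nonpos_of_nonneg hx h0.le)
  · exact Or.inr ((one_le_div h0).2 hx)

lemma kb_cont (h : ℝ) : Continuous (kb h) := by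
  unfold kb
  exact continuous_const.mul (bq_cont.comp (by fun_prop))

lemma kb_int (h0 : 0 < h) : Integrable (kb h) := (bq_int.comp_div h0.ne').const_mul _

lemma kb_one (h0 : 0 < h) : ∫ x, kb h x = 1 := by
  unfold kb
  rw [integral_const_mul, Measure.integral_comp_div, bq_one, abs_of_pos h0]
  simp [h0.ne']

lemma kb_deriv (h0 : 0 < h) (x : ℝ) : HasDerivAt (kb h) (h⁻¹ * (bd (x / h) * h⁻¹)) x := by
  have h1 : HasDerivAt (fun x : ℝ => x / h) h⁻¹ x := by
    have := (hasDerivAt_id x).div_const h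
    simpa [one_div] using this
  exact ((bq_deriv (x / h)).comp x h1).const_mul _

lemma kb_le (h0 : 0 < h) (x : ℝ) : kb h x ≤ 2 * h⁻¹ := by
  unfold kb
  have := bq_le (x / h)
  have h1 : 0 < h⁻¹ := inv_pos.2 h0
  nlinarith

lemma kb_d_le (h0 : 0 < h) (x : ℝ) : |h⁻¹ * (bd (x / h) * h⁻¹)| ≤ 15 * (h⁻¹ * h⁻¹) := by
  have := bd_le (x / h)
  have h1 : 0 < h⁻¹ := inv_pos.2 h0
  rw [abs_mul, abs_mul, abs_of_pos h1]
  calc h⁻¹ * (|bd (x / h)| * h⁻¹) ≤ h⁻¹ * (15 * h⁻¹) := by gcongr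
    _ = _ := by ring

lemma kb_ker (h0 : 0 < h) (h1 : h ≤ 1) : ∃ G : ℝ, 0 < G ∧
    Ker (fun v => (kb h v : ℂ)) (fun v => ((h⁻¹ * (bd (v / h) * h⁻¹) : ℝ) : ℂ)) G := by
  have hi : 0 < h⁻¹ := inv_pos.2 h0
  refine ⟨(2 * h⁻¹ + 15 * (h⁻¹ * h⁻¹)) * Real.exp 3, by positivity, ⟨?_, ?_, ?_⟩⟩
  · intro v
    exact (kb_deriv h0 v).ofReal_comp
  · intro v
    rw [Complex.norm_real, Real.norm_of_nonneg (kb_nonneg h0 v)]
    by_cases hv : v ≤ 0 ∨ h ≤ v
    · rw [kb_zero h0 hv]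
      positivity
    · push Not at hv
      have e1 : 1 ≤ Real.exp 3 * Real.exp (-(3 * |v|)) := by
        rw [← Real.exp_add]
        apply Real.one_le_exp
        rw [abs_of_pos hv.1]
        linarith
      calc kb h v ≤ 2 * h⁻¹ := kb_le h0 v
        _ ≤ (2 * h⁻¹ + 15 * (h⁻¹ * h⁻¹)) * 1 := by nlinarith [mul_pos hi hi]
        _ ≤ (2 * h⁻¹ + 15 * (h⁻¹ * h⁻¹)) * (Real.exp 3 * Real.exp (-(3 * |v|))) := by gcongr
        _ = _ := by ring
  · intro v
    rw [Complex.norm_real, Real.norm_eq_abs]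
    by_cases hv : v ≤ 0 ∨ h ≤ v
    · have : bd (v / h) = 0 := by
        apply bd_zero
        rcases hv with hv | hv
        · exact Or.inl (div_nonpos_of_nonpos_of_nonneg hv h0.le)
        · exact Or.inr ((one_le_div h0).2 hv)
      rw [this, zero_mul, mul_zero, abs_zero]
      positivity
    · push Not at hv
      have e1 : 1 ≤ Real.exp 3 * Real.exp (-(3 * |v|)) := by
        rw [← Real.exp_add]
        apply Real.one_le_exp
        rw [abs_of_pos hv.1]
        linarith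
      calc |h⁻¹ * (bd (v / h) * h⁻¹)| ≤ 15 * (h⁻¹ * h⁻¹) := kb_d_le h0 v
        _ ≤ (2 * h⁻¹ + 15 * (h⁻¹ * h⁻¹)) * 1 := by nlinarith [mul_pos hi hi]
        _ ≤ (2 * h⁻¹ + 15 * (h⁻¹ * h⁻¹)) * (Real.exp 3 * Real.exp (-(3 * |v|))) := by gcongr
        _ = _ := by ring

/-- the transform of the kernel -/
noncomputable def kh (h : ℝ) (ρ : ℂ) : ℂ := ∫ u : ℝ, (kb h u : ℂ) * cexp (-(ρ * u))

lemma kh_near (h0 : 0 < h) {ρ : ℂ} (hρ : ‖ρ‖ * h ≤ 1) : ‖kh h ρ - 1‖ ≤ 2 * (‖ρ‖ * h) := by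
  have e1 : (1:ℂ) = ∫ u : ℝ, (kb h u : ℂ) := by
    rw [integral_complex_ofReal, kb_one h0, Complex.ofReal_one]
  have i1 : Integrable (fun u : ℝ => (kb h u : ℂ)) := (kb_int h0).ofReal
  have hb : ∀ u : ℝ, ‖(kb h u : ℂ) * (cexp (-(ρ * u)) - 1)‖ ≤ kb h u * (2 * (‖ρ‖ * h)) := by
    intro u
    rw [norm_mul, Complex.norm_real, Real.norm_of_nonneg (kb_nonneg h0 u)]
    by_cases hu : u ≤ 0 ∨ h ≤ u
    · rw [kb_zero h0 hu, zero_mul, zero_mul]
    · push Not at hu
      refine mul_le_mul_of_nonneg_left ?_ (kb_nonneg h0 u)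
      have h2 : ‖-(ρ * (u:ℂ))‖ ≤ ‖ρ‖ * h := by
        rw [norm_neg, norm_mul, Complex.norm_real, Real.norm_of_nonneg hu.1.le]
        exact mul_le_mul_of_nonneg_left hu.2.le (norm_nonneg _)
      have h3 := Complex.norm_exp_sub_one_le (h2.trans hρ)
      linarith
  have i2 : Integrable (fun u : ℝ => (kb h u : ℂ) * (cexp (-(ρ * u)) - 1)) := by
    refine ((kb_int h0).mul_const (2 * (‖ρ‖ * h))).mono' ?_ (Eventually.of_forall hb)
    have hc := kb_cont h
    exact Continuous.aestronglyMeasurable (by fun_prop)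
  have e2 : kh h ρ = (∫ u : ℝ, (kb h u : ℂ) * (cexp (-(ρ * u)) - 1)) + ∫ u : ℝ, (kb h u : ℂ) := by
    unfold kh
    rw [← integral_add i2 i1]
    refine integral_congr_ae (Eventually.of_forall fun u => ?_)
    simp only
    ring
  rw [e2, ← e1, add_sub_cancel_right]
  refine (norm_integral_le_of_norm_le ((kb_int h0).mul_const _) (Eventually.of_forall hb)).trans ?_
  rw [integral_mul_const, kb_one h0, one_mul]

end U441.MP
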