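import Pool.Agent.H295R2.WM6
import Pool.Agent.U441.MP.Xa

/-! Weak Mertens along powers, part 2: the smoothed function and its correlations. -/

set_option autoImplicit false

open MeasureTheory Filter Topology Set Complex

namespace U441.MP

open Pool.Agent.H295R2 (mf af RA mom c0 xp Cv prod_integrable mf_meas mf_zero norm_mf_le' norm_mf_le af_zero xp_neg
  xp_meas af_meas RA_bounded RA_neg RA_sub' Cv_weighted fub mom_zeroth two_pow_ne cs_ineq Mx Mx_meas ee ww)

noncomputable section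

/-- associativity of the convolution -/
theorem conv_swap {A B C : ℝ → ℂ} (mA : Measurable A) (mB : Measurable B) (mC : Measurable C)
    (zA : ∀ x < 0, A x = 0) (zB : ∀ x < 0, B x = 0) (zC : ∀ x < 0, C x = 0) {L K : ℝ} (hK : 0 ≤ K)
    (bA : ∀ x ≤ L, ‖A x‖ ≤ K) (bB : ∀ x ≤ L, ‖B x‖ ≤ K) (bC : ∀ x ≤ L, ‖C x‖ ≤ K) :
    ∫ t, C (L - t) * ∫ u, A (t - u) * B u = ∫ u, B u * ∫ s, A s * C (L - u - s) := by
  have hm : Measurable (fun z : ℝ × ℝ => C (L - z.1) * (A (z.1 - z.2) * B z.2)) :=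
    (mC.comp (measurable_const.sub measurable_fst)).mul
      ((mA.comp (measurable_fst.sub measurable_snd)).mul (mB.comp measurable_snd))
  have hi : Integrable (fun z : ℝ × ℝ => C (L - z.1) * (A (z.1 - z.2) * B z.2)) (volume.prod volume) := by
    refine prod_integrable hm (L := L) (B := K * (K * K)) ?_ ?_
    · rintro ⟨t, u⟩
      simp only
      have h0 : 0 ≤ K * (K * K) := by positivity
      rcases lt_or_ge t 0 with h2 | h2
      · rcases lt_or_ge u 0 with h3 | h3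
        · rw [zB u h3]; simpa using h0
        · rw [zA _ (by linarith : t - u < 0)]; simpa using h0
      rcases lt_or_ge (L - t) 0 with h3 | h3
      · rw [zC _ h3]; simpa using h0
      rcases lt_or_ge u 0 with h4 | h4
      · rw [zB u h4]; simpa using h0
      rcases lt_or_ge (t - u) 0 with h5 | h5
      · rw [zA _ h5]; simpa using h0
      rw [norm_mul, norm_mul]
      have a1 := bC (L - t) (by linarith)
      have a2 := bA (t - u) (by linarith)
      have a3 := bB u (by linarith)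
      gcongr
    · rintro ⟨t, u⟩ hz'
      simp only
      rw [mem_prod, not_and_or] at hz'
      simp only [mem_Icc, not_and_or, not_le] at hz'
      rcases lt_or_ge u 0 with h4 | h4
      · rw [zB u h4]; simp
      rcases lt_or_ge (L - t) 0 with h3 | h3
      · rw [zC _ h3]; simp
      rw [zA _ (by rcases hz' with (h | h) | (h | h) <;> linarith : t - u < 0)]
      simp
  have hpull : ∀ t : ℝ, C (L - t) * ∫ u, A (t - u) * B u = ∫ u, C (L - t) * (A (t - u) * B u) :=
    fun t => (integral_const_mul _ _).symm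
  simp only [hpull]
  rw [integral_integral_swap (f := fun t u => C (L - t) * (A (t - u) * B u)) hi]
  refine integral_congr_ae (Eventually.of_forall fun u => ?_)
  simp only
  have := integral_sub_right_eq_self (μ := (volume : Measure ℝ))
    (fun s : ℝ => C (L - (s + u)) * (A s * B u)) u
  rw [← integral_const_mul]
  refine Eq.trans ?_ (this.trans ?_)
  · refine integral_congr_ae (Eventually.of_forall fun t => ?_)
    simp only [sub_add_cancel]
  · refine integral_congr_ae (Eventually.of_forall fun s => ?_)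
    simp only
    have e : L - (s + u) = L - u - s := by ring
    rw [e]; ring

/-- the twisted kernel -/
def gr (h : ℝ) (ρ : ℂ) (u : ℝ) : ℂ := (kb h u : ℂ) * cexp (-(ρ * u))

/-- the twisted smoothed function -/
def mg (h : ℝ) (ρ : ℂ) (t : ℝ) : ℂ := ∫ u, mf ρ (t - u) * gr h ρ u

/-- the iterated integral -/
def Hh (ρ : ℂ) (x : ℝ) : ℂ := ∫ s, mf ρ s * RA 0 ρ (x - s)

variable {h : ℝ} {ρ : ℂ}

lemma gr_cont (h : ℝ) (ρ : ℂ) : Continuous (gr h ρ) := by
  unfold gr
  have := kb_cont h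
  fun_prop

lemma gr_zero (h0 : 0 < h) {u : ℝ} (hu : u ≤ 0 ∨ h ≤ u) : gr h ρ u = 0 := by
  unfold gr
  rw [kb_zero h0 hu, Complex.ofReal_zero, zero_mul]

lemma gr_norm (h0 : 0 < h) (hρ : 0 ≤ ρ.re) (u : ℝ) : ‖gr h ρ u‖ ≤ kb h u := by
  by_cases hu : u ≤ 0 ∨ h ≤ u
  · rw [gr_zero h0 hu, norm_zero]
    exact kb_nonneg h0 u
  · push Not at hu
    unfold gr
    rw [norm_mul, Complex.norm_real, Real.norm_of_nonneg (kb_nonneg h0 u), Complex.norm_exp]
    have : Real.exp (-(ρ * (u:ℂ))).re ≤ 1 := by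
      rw [Real.exp_le_one_iff]
      simp
      exact mul_nonneg hρ hu.1.le
    exact mul_le_of_le_one_right (kb_nonneg h0 u) this

lemma gr_int (h0 : 0 < h) (hρ : 0 ≤ ρ.re) : Integrable (gr h ρ) :=
  (kb_int h0).mono' (gr_cont h ρ).aestronglyMeasurable (Eventually.of_forall (gr_norm h0 hρ))

lemma gr_total : ∫ u, gr h ρ u = kh h ρ := rfl

lemma RA0_meas (ρ : ℂ) : Measurable (RA 0 ρ) := by
  unfold RA
  have hm2 : StronglyMeasurable (fun z : ℝ × ℝ => ((xp 0 (z.1 - z.2) : ℝ) : ℂ) * af ρ z.2) := by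
    refine Measurable.stronglyMeasurable ?_
    refine (Complex.measurable_ofReal.comp ((xp_meas 0).comp (measurable_fst.sub measurable_snd))).mul ?_
    exact (af_meas ρ).comp measurable_snd
  exact hm2.integral_prod_right.measurable

lemma mg_meas (h : ℝ) (ρ : ℂ) : Measurable (mg h ρ) := by
  unfold mg
  have hm2 : StronglyMeasurable (fun z : ℝ × ℝ => mf ρ (z.1 - z.2) * gr h ρ z.2) := by
    refine Measurable.stronglyMeasurable ?_
    exact ((mf_meas ρ).comp (measurable_fst.sub measurable_snd)).mul ((gr_cont h ρ).measurable.comp measurable_snd)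
  exact hm2.integral_prod_right.measurable

lemma mg_zero (h0 : 0 < h) {t : ℝ} (ht : t < 0) : mg h ρ t = 0 := by
  unfold mg
  have : ∀ u, mf ρ (t - u) * gr h ρ u = 0 := by
    intro u
    rcases lt_or_ge u 0 with h | h
    · rw [gr_zero h0 (Or.inl h.le), mul_zero]
    · rw [mf_zero (by linarith), zero_mul]
  simp [this]

lemma mg_norm (h0 : 0 < h) (hρ : 0 ≤ ρ.re) {t L : ℝ} (ht : t ≤ L) : ‖mg h ρ t‖ ≤ Real.exp L := by
  unfold mg
  have hb : ∀ u, ‖mf ρ (t - u) * gr h ρ u‖ ≤ Real.exp L * kb h u := by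
    intro u
    rw [norm_mul]
    by_cases hu : u ≤ 0 ∨ h ≤ u
    · rw [gr_zero h0 hu, norm_zero, mul_zero]
      have := kb_nonneg h0 u
      positivity
    · push Not at hu
      exact mul_le_mul (norm_mf_le' hρ (by linarith)) (gr_norm h0 hρ u) (norm_nonneg _) (Real.exp_pos _).le
  refine (norm_integral_le_of_norm_le ((kb_int h0).const_mul _) (Eventually.of_forall hb)).trans ?_
  rw [integral_const_mul, kb_one h0, mul_one]

lemma Hh_meas (ρ : ℂ) : Measurable (Hh ρ) := by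
  unfold Hh
  have hm2 : StronglyMeasurable (fun z : ℝ × ℝ => mf ρ z.2 * RA 0 ρ (z.1 - z.2)) := by
    refine Measurable.stronglyMeasurable ?_
    exact ((mf_meas ρ).comp measurable_snd).mul ((RA0_meas ρ).comp (measurable_fst.sub measurable_snd))
  exact hm2.integral_prod_right.measurable

lemma Hh_lin (h14 : 1 / 4 < ρ.re) (h1 : ρ.re < 1) (hz : riemannZeta ρ = 0) :
    ∃ C : ℝ, 0 < C ∧ ∀ x : ℝ, 0 ≤ x → ‖Hh ρ x - c0 ρ * x‖ ≤ C := by
  obtain ⟨C, hC, hw⟩ := Cv_weighted h14 h1 hz 0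
  refine ⟨C, hC, fun x hx => ?_⟩
  have h2 := hw x hx
  obtain ⟨-, hf⟩ := fub (by linarith) h1 hz 0 hx
  have hf' : ∫ t, ((xp 0 (x - t) : ℝ) : ℂ) * Cv ρ t = Hh ρ x := hf
  rw [hf'] at h2
  simpa using h2

/-- the main identity -/
theorem main_id (h0 : 0 < h) (h1' : h ≤ 1) (h14 : 1 / 4 < ρ.re) (h1 : ρ.re < 1) (hz : riemannZeta ρ = 0) :
    ∃ C : ℝ, 0 < C ∧ ∀ L : ℝ, 1 ≤ L →
      ‖(∫ t, RA 0 ρ (L - t) * mg h ρ t) - c0 ρ * (kh h ρ * L)‖ ≤ C := by
  have hρ : 0 ≤ ρ.re := by linarith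
  obtain ⟨C, hC, hlin⟩ := Hh_lin h14 h1 hz
  obtain ⟨B, hB, hRA⟩ := RA_bounded (by linarith : 0 < ρ.re) h1 hz (p := 0) (by intro j hj; omega)
  refine ⟨C + ‖c0 ρ‖ + 1, by positivity, fun L hL => ?_⟩
  set K : ℝ := max (Real.exp L) (max (2 * h⁻¹) B) with hK
  have hK0 : 0 ≤ K := (Real.exp_pos L).le.trans (le_max_left _ _)
  have e1 : ∫ t, RA 0 ρ (L - t) * mg h ρ t = ∫ u, gr h ρ u * Hh ρ (L - u) := by
    refine conv_swap (mf_meas ρ) (gr_cont h ρ).measurable (RA0_meas ρ) (fun x hx => mf_zero hx)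
      (fun x hx => gr_zero h0 (Or.inl hx.le)) (fun x hx => RA_neg hx) hK0
      (fun x hx => (norm_mf_le' hρ hx).trans (le_max_left _ _))
      (fun x hx => ((gr_norm h0 hρ x).trans (kb_le h0 x)).trans ((le_max_left _ _).trans (le_max_right _ _)))
      (fun x hx => (hRA x).trans ((le_max_right _ _).trans (le_max_right _ _)))
  have hb : ∀ u, ‖gr h ρ u * (Hh ρ (L - u) - c0 ρ * L)‖ ≤ kb h u * (C + ‖c0 ρ‖) := by
    intro u
    rw [norm_mul]
    by_cases hu : u ≤ 0 ∨ h ≤ u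
    · rw [gr_zero h0 hu, norm_zero, zero_mul]
      have := kb_nonneg h0 u
      positivity
    · push Not at hu
      refine mul_le_mul (gr_norm h0 hρ u) ?_ (norm_nonneg _) (kb_nonneg h0 u)
      have h2 := hlin (L - u) (by linarith)
      have e : Hh ρ (L - u) - c0 ρ * L = (Hh ρ (L - u) - c0 ρ * ((L - u : ℝ) : ℂ)) - c0 ρ * (u : ℂ) := by
        push_cast; ring
      rw [e]
      refine (norm_sub_le _ _).trans (add_le_add h2 ?_)
      rw [norm_mul, Complex.norm_real, Real.norm_of_nonneg hu.1.le]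
      exact mul_le_of_le_one_right (norm_nonneg _) (by linarith)
  have hm : Measurable (fun u => gr h ρ u * (Hh ρ (L - u) - c0 ρ * L)) :=
    (gr_cont h ρ).measurable.mul (((Hh_meas ρ).comp (measurable_const.sub measurable_id)).sub measurable_const)
  have i1 : Integrable (fun u => gr h ρ u * (Hh ρ (L - u) - c0 ρ * L)) :=
    ((kb_int h0).mul_const _).mono' hm.aestronglyMeasurable (Eventually.of_forall hb)
  have i2 : Integrable (fun u => gr h ρ u * (c0 ρ * L)) := (gr_int h0 hρ).mul_const _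
  have e2 : ∫ u, gr h ρ u * Hh ρ (L - u) =
      (∫ u, gr h ρ u * (Hh ρ (L - u) - c0 ρ * L)) + kh h ρ * (c0 ρ * L) := by
    rw [← gr_total, ← integral_mul_const, ← integral_add i1 i2]
    refine integral_congr_ae (Eventually.of_forall fun u => ?_)
    simp only
    ring
  rw [e1, e2]
  have e3 : (∫ u, gr h ρ u * (Hh ρ (L - u) - c0 ρ * L)) + kh h ρ * (c0 ρ * L) - c0 ρ * (kh h ρ * L) =
      ∫ u, gr h ρ u * (Hh ρ (L - u) - c0 ρ * L) := by ring
  rw [e3]
  refine (norm_integral_le_of_norm_le ((kb_int h0).mul_const _) (Eventually.of_forall hb)).trans ?_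
  rw [integral_mul_const, kb_one h0, one_mul]
  linarith

/-- energy -/
def Je (f : ℝ → ℂ) (L : ℝ) : ℝ := ∫ s in Ioc 0 L, ‖f s‖ ^ 2

lemma Je_nonneg (f : ℝ → ℂ) (L : ℝ) : 0 ≤ Je f L := integral_nonneg fun s => by positivity

lemma iOn_of_bd {f : ℝ → ℂ} (hm : Measurable f) {L K : ℝ} (hb : ∀ s ≤ L, ‖f s‖ ≤ K) : IntegrableOn f (Ioc 0 L) := by
  refine Integrable.mono' (g := fun _ => K) (integrableOn_const (by simp)) hm.aestronglyMeasurable ?_
  exact (ae_restrict_mem measurableSet_Ioc).mono fun s hs => hb s hs.2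

lemma iOn_sq {f : ℝ → ℂ} (hm : Measurable f) {L K : ℝ} (hb : ∀ s ≤ L, ‖f s‖ ≤ K) :
    IntegrableOn (fun s => ‖f s‖ ^ 2) (Ioc 0 L) := by
  refine Integrable.mono' (g := fun _ => K ^ 2) (integrableOn_const (by simp))
    (hm.norm.pow_const 2).aestronglyMeasurable ?_
  refine (ae_restrict_mem measurableSet_Ioc).mono fun s hs => ?_
  rw [Real.norm_of_nonneg (by positivity)]
  exact pow_le_pow_left₀ (norm_nonneg _) (hb s hs.2) 2

/-- correlation of the smoothed function with a zero -/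
theorem corr_bound (h0 : 0 < h) (h1' : h ≤ 1) (hre : ρ.re = 1 / 2) (hz : riemannZeta ρ = 0) :
    ∃ C : ℝ, 0 < C ∧ ∀ L : ℝ, 1 ≤ L →
      ‖deriv riemannZeta ρ * (∫ s in Ioc 0 L, mg h ρ s) - kh h ρ * L / ρ‖ ≤ C * (1 + Real.sqrt (Je (mg h ρ) L)) := by
  have hp0 : 0 < ρ.re := by linarith
  have h14 : 1 / 4 < ρ.re := by linarith
  have h1 : ρ.re < 1 := by linarith
  obtain ⟨K, hK, hRA⟩ := RA_sub' hp0 h1 hz 0
  obtain ⟨C, hC, hw⟩ := main_id h0 h1' h14 h1 hz
  have hq := two_pow_ne h1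
  have hq0 : 0 < ‖(1:ℂ) - (2:ℂ) ^ (1 - ρ)‖ := norm_pos_iff.2 hq
  refine ⟨(C + K) / ‖(1:ℂ) - (2:ℂ) ^ (1 - ρ)‖, by positivity, fun L hL => ?_⟩
  have h2 := hw L hL
  set F : ℝ → ℂ := fun x => RA 0 ρ x - (Ici (0:ℝ)).indicator (fun _ => mom ρ 0) x with hF
  have hFb : ∀ x, 0 ≤ x → ‖F x‖ ≤ K * Real.exp (-(ρ.re * x)) := by
    intro x hx
    have h4 := hRA x hx
    simp only [pow_zero, one_mul] at h4
    rw [hF]
    simp only
    rw [indicator_of_mem (show x ∈ Ici (0:ℝ) from hx)]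
    have h5 : mom ρ 0 = ∫ u : ℝ, af ρ u := by unfold mom; simp
    rw [h5]
    exact h4
  have hF0 : ∀ x < 0, F x = 0 := by
    intro x hx
    rw [hF]
    simp only
    rw [RA_neg hx, indicator_of_notMem (by simpa using hx), sub_zero]
  have hFm : Measurable F := (RA0_meas ρ).sub (measurable_const.indicator measurableSet_Ici)
  have hbd : ∀ s ≤ L, ‖mg h ρ s‖ ≤ Real.exp L := fun s hs => mg_norm h0 hp0.le hs
  have i0 : IntegrableOn (mg h ρ) (Ioc 0 L) := iOn_of_bd (mg_meas h ρ) hbd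
  have hae : ∀ᵐ s : ℝ, s ≠ 0 := by
    rw [ae_iff]
    simp
  have h3 : ∀ᵐ s : ℝ, RA 0 ρ (L - s) * mg h ρ s =
      (Ioc 0 L).indicator (fun s => F (L - s) * mg h ρ s) s + mom ρ 0 * (Ioc 0 L).indicator (mg h ρ) s := by
    filter_upwards [hae] with s hs0
    by_cases hs : s ∈ Ioc 0 L
    · rw [indicator_of_mem hs, indicator_of_mem hs, hF]
      simp only
      rw [indicator_of_mem (show L - s ∈ Ici (0:ℝ) by simpa using hs.2)]
      ring
    · rw [indicator_of_notMem hs, indicator_of_notMem hs]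
      rw [mem_Ioc, not_and_or, not_lt, not_le] at hs
      rcases hs with hs | hs
      · rw [mg_zero h0 (lt_of_le_of_ne hs hs0)]; simp
      · rw [RA_neg (by linarith : L - s < 0)]; simp
  have hexp : ∀ s ∈ Ioc 0 L, ‖F (L - s) * mg h ρ s‖ ≤ K * (Real.exp (-((L - s) / 2)) * ‖mg h ρ s‖) := by
    intro s hs
    rw [norm_mul]
    have h5 := hFb (L - s) (by linarith [hs.2])
    rw [hre] at h5
    have e : -(1 / 2 * (L - s)) = -((L - s) / 2) := by ring
    rw [e] at h5
    calc ‖F (L - s)‖ * ‖mg h ρ s‖ ≤ (K * Real.exp (-((L - s) / 2))) * ‖mg h ρ s‖ :=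
          mul_le_mul_of_nonneg_right h5 (norm_nonneg _)
      _ = _ := by ring
  have hexp1 : ∀ s ∈ Ioc 0 L, Real.exp (-((L - s) / 2)) ≤ 1 := by
    intro s hs
    rw [Real.exp_le_one_iff]
    linarith [hs.2]
  have i1' : IntegrableOn (fun s => Real.exp (-((L - s) / 2)) * ‖mg h ρ s‖) (Ioc 0 L) := by
    refine i0.norm.mono' ?_ ?_
    · exact ((Continuous.measurable (by fun_prop)).mul (mg_meas h ρ).norm).aestronglyMeasurable
    · refine (ae_restrict_mem measurableSet_Ioc).mono fun s hs => ?_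
      rw [Real.norm_of_nonneg (by positivity)]
      exact mul_le_of_le_one_left (norm_nonneg _) (hexp1 s hs)
  have i1 : IntegrableOn (fun s => F (L - s) * mg h ρ s) (Ioc 0 L) := by
    refine (i1'.const_mul K).mono' ?_ ((ae_restrict_mem measurableSet_Ioc).mono hexp)
    exact ((hFm.comp (measurable_const.sub measurable_id)).mul (mg_meas h ρ)).aestronglyMeasurable
  have h4 : ∫ t, RA 0 ρ (L - t) * mg h ρ t = (∫ s in Ioc 0 L, F (L - s) * mg h ρ s) +
      mom ρ 0 * ∫ s in Ioc 0 L, mg h ρ s := by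
    rw [integral_congr_ae h3, integral_add, integral_const_mul, integral_indicator measurableSet_Ioc,
      integral_indicator measurableSet_Ioc]
    · exact (integrable_indicator_iff measurableSet_Ioc).2 i1
    · exact ((integrable_indicator_iff measurableSet_Ioc).2 i0).const_mul _
  -- Cauchy Schwarz
  have hcs : (∫ s in Ioc 0 L, Real.exp (-((L - s) / 2)) * ‖mg h ρ s‖) ^ 2 ≤ Je (mg h ρ) L := by
    have i2 : IntegrableOn (fun s => Real.exp (-((L - s) / 2)) ^ 2) (Ioc 0 L) :=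
      (Continuous.integrableOn_Icc (by fun_prop)).mono_set Ioc_subset_Icc_self
    have i3 := iOn_sq (mg_meas h ρ) hbd
    have h5 := cs_ineq i2 i3 i1'
    have h6 : ∫ s in Ioc 0 L, Real.exp (-((L - s) / 2)) ^ 2 ≤ 1 := by
      rw [← intervalIntegral.integral_of_le (by linarith : (0:ℝ) ≤ L)]
      have e : ∀ s : ℝ, Real.exp (-((L - s) / 2)) ^ 2 = Real.exp (-L) * Real.exp s := by
        intro s
        rw [← Real.exp_nat_mul, ← Real.exp_add]
        congr 1
        push_cast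
        ring
      simp only [e]
      rw [intervalIntegral.integral_const_mul, integral_exp, mul_sub, ← Real.exp_add]
      have : 0 < Real.exp (-L) * Real.exp 0 := by positivity
      simp only [neg_add_cancel, Real.exp_zero]
      simp only [Real.exp_zero] at this
      linarith
    refine h5.trans ?_
    have h7 := Je_nonneg (mg h ρ) L
    unfold Je at h7 ⊢
    nlinarith
  have h8 : ∫ s in Ioc 0 L, Real.exp (-((L - s) / 2)) * ‖mg h ρ s‖ ≤ Real.sqrt (Je (mg h ρ) L) :=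
    Real.le_sqrt_of_sq_le hcs
  have h9 : ‖∫ s in Ioc 0 L, F (L - s) * mg h ρ s‖ ≤ K * Real.sqrt (Je (mg h ρ) L) := by
    refine (norm_integral_le_of_norm_le (i1'.const_mul K) ((ae_restrict_mem measurableSet_Ioc).mono hexp)).trans ?_
    rw [integral_const_mul]
    exact mul_le_mul_of_nonneg_left h8 hK.le
  have h10 : ‖mom ρ 0 * (∫ s in Ioc 0 L, mg h ρ s) - c0 ρ * (kh h ρ * L)‖ ≤
      (C + K) * (1 + Real.sqrt (Je (mg h ρ) L)) := by
    have e : mom ρ 0 * (∫ s in Ioc 0 L, mg h ρ s) - c0 ρ * (kh h ρ * L) =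
        ((∫ t, RA 0 ρ (L - t) * mg h ρ t) - c0 ρ * (kh h ρ * L)) - ∫ s in Ioc 0 L, F (L - s) * mg h ρ s := by
      rw [h4]; ring
    rw [e]
    refine (norm_sub_le _ _).trans ?_
    have h11 := Real.sqrt_nonneg (Je (mg h ρ) L)
    nlinarith
  have hρ0 : ρ ≠ 0 := by
    rintro rfl
    norm_num at hre
  have e9 : mom ρ 0 * (∫ s in Ioc 0 L, mg h ρ s) - c0 ρ * (kh h ρ * L) =
      (1 - (2:ℂ) ^ (1 - ρ)) * (deriv riemannZeta ρ * (∫ s in Ioc 0 L, mg h ρ s) - kh h ρ * L / ρ) := by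
    rw [mom_zeroth hp0 h1 hz]
    unfold c0
    ring
  rw [e9, norm_mul] at h10
  rw [div_mul_eq_mul_div, le_div_iff₀ hq0]
  linarith

end

end U441.MP
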