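import Pool.Agent.U441.MP.Xb

/-! Weak Mertens along powers, part 3: Bessel's inequality for the smoothed function. -/

set_option autoImplicit false

open MeasureTheory Filter Topology Set Complex

namespace U441.MP

open Pool.Agent.H295R2 (mf ee ee_mul GR GR_zero GR_bound cont_iOn ww)

noncomputable section

/-- correlation -/
def Pc (f : ℝ → ℂ) (ρ : ℂ) (L : ℝ) : ℂ := ∫ s in Ioc 0 L, f s * (starRingEnd ℂ) (ee ρ s)

lemma ee_cont (ρ : ℂ) : Continuous (ee ρ) := by unfold Pool.Agent.H295R2.ee; fun_prop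

lemma ee_norm {ρ : ℂ} (h : ρ.re = 1 / 2) (s : ℝ) : ‖ee ρ s‖ = 1 := by
  unfold Pool.Agent.H295R2.ee
  rw [Complex.norm_exp]
  simp [h]

lemma fc_iOn {f : ℝ → ℂ} (hm : Measurable f) {L K : ℝ} (hb : ∀ s ≤ L, ‖f s‖ ≤ K) {ρ : ℂ} (h : ρ.re = 1 / 2) :
    IntegrableOn (fun s => f s * (starRingEnd ℂ) (ee ρ s)) (Ioc 0 L) := by
  refine iOn_of_bd (K := K) (hm.mul ((Complex.continuous_conj.comp (ee_cont ρ)).measurable)) fun s hs => ?_
  show ‖f s * (starRingEnd ℂ) (ee ρ s)‖ ≤ K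
  rw [norm_mul, RCLike.norm_conj, ee_norm h, mul_one]
  exact hb s hs

/-- the finite Bessel identity/inequality -/
lemma bessel_raw' {f : ℝ → ℂ} (hm : Measurable f) {L K : ℝ} (hb : ∀ s ≤ L, ‖f s‖ ≤ K) (Z : Finset ℂ)
    (hZ : ∀ ρ ∈ Z, ρ.re = 1 / 2) (w : ℂ → ℂ) :
    0 ≤ Je f L - 2 * (∑ ρ ∈ Z, (starRingEnd ℂ) (w ρ) * Pc f ρ L).re +
      (∑ ρ ∈ Z, ∑ ρ' ∈ Z, w ρ * (starRingEnd ℂ) (w ρ') * GR (ρ - ρ') L).re := by
  set S : ℝ → ℂ := fun s => ∑ ρ ∈ Z, w ρ * ee ρ s with hS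
  have hpt : ∀ s, Complex.normSq (f s - S s) = ‖f s‖ ^ 2 -
      2 * (∑ ρ ∈ Z, (starRingEnd ℂ) (w ρ) * (f s * (starRingEnd ℂ) (ee ρ s))).re +
      (∑ ρ ∈ Z, ∑ ρ' ∈ Z, w ρ * (starRingEnd ℂ) (w ρ') * Complex.exp ((ρ - ρ') * s)).re := by
    intro s
    rw [Complex.normSq_sub]
    have e1 : Complex.normSq (f s) = ‖f s‖ ^ 2 := Complex.normSq_eq_norm_sq _
    have e2 : (f s * (starRingEnd ℂ) (S s)) =
        ∑ ρ ∈ Z, (starRingEnd ℂ) (w ρ) * (f s * (starRingEnd ℂ) (ee ρ s)) := by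
      rw [hS]
      simp only
      rw [map_sum, Finset.mul_sum]
      refine Finset.sum_congr rfl fun ρ hρ => ?_
      rw [map_mul]; ring
    have e3 : Complex.normSq (S s) =
        (∑ ρ ∈ Z, ∑ ρ' ∈ Z, w ρ * (starRingEnd ℂ) (w ρ') * Complex.exp ((ρ - ρ') * s)).re := by
      have h1 : ((Complex.normSq (S s) : ℝ) : ℂ) = ∑ ρ ∈ Z, ∑ ρ' ∈ Z, w ρ * (starRingEnd ℂ) (w ρ') * Complex.exp ((ρ - ρ') * s) := by
        rw [Complex.normSq_eq_conj_mul_self, mul_comm, hS]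
        simp only
        rw [map_sum, Finset.sum_mul_sum]
        refine Finset.sum_congr rfl fun ρ _ => Finset.sum_congr rfl fun ρ' hρ' => ?_
        rw [map_mul, ← ee_mul (ρ := ρ) (hZ ρ' hρ') s]; ring
      rw [← h1, Complex.ofReal_re]
    rw [e1, e2, e3]; ring
  have h0 : 0 ≤ ∫ s in Ioc 0 L, Complex.normSq (f s - S s) := integral_nonneg fun s => Complex.normSq_nonneg _
  have i0 : IntegrableOn (fun s => ‖f s‖ ^ 2) (Ioc 0 L) := iOn_sq hm hb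
  have i1 : IntegrableOn (fun s => ∑ ρ ∈ Z, (starRingEnd ℂ) (w ρ) * (f s * (starRingEnd ℂ) (ee ρ s))) (Ioc 0 L) :=
    integrable_finsetSum _ fun ρ hρ => (fc_iOn hm hb (hZ ρ hρ)).const_mul _
  have i2 : IntegrableOn (fun s : ℝ => ∑ ρ ∈ Z, ∑ ρ' ∈ Z, w ρ * (starRingEnd ℂ) (w ρ') * Complex.exp ((ρ - ρ') * s)) (Ioc 0 L) :=
    cont_iOn (by fun_prop) L
  have i3 := i1.re
  have i4 := i2.re
  simp only [hpt] at h0
  have i5 : IntegrableOn (fun s => 2 * (∑ ρ ∈ Z, (starRingEnd ℂ) (w ρ) * (f s * (starRingEnd ℂ) (ee ρ s))).re) (Ioc 0 L) := i3.const_mul 2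
  have i6 : IntegrableOn (fun s => ‖f s‖ ^ 2 - 2 * (∑ ρ ∈ Z, (starRingEnd ℂ) (w ρ) * (f s * (starRingEnd ℂ) (ee ρ s))).re) (Ioc 0 L) :=
    i0.sub i5
  have i7 : IntegrableOn (fun s : ℝ => (∑ ρ ∈ Z, ∑ ρ' ∈ Z, w ρ * (starRingEnd ℂ) (w ρ') * Complex.exp ((ρ - ρ') * s)).re) (Ioc 0 L) := i4
  have e4 := integral_add i6 i7
  have e5 := integral_sub i0 i5
  rw [e4, e5, integral_const_mul] at h0
  have e6 : ∫ s in Ioc 0 L, (∑ ρ ∈ Z, (starRingEnd ℂ) (w ρ) * (f s * (starRingEnd ℂ) (ee ρ s))).re =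
      (∑ ρ ∈ Z, (starRingEnd ℂ) (w ρ) * Pc f ρ L).re := by
    have := integral_re i1
    simp only [RCLike.re_eq_complex_re] at this
    rw [this, integral_finsetSum]
    · congr 1
      refine Finset.sum_congr rfl fun ρ _ => ?_
      rw [integral_const_mul]; rfl
    · exact fun ρ hρ => (fc_iOn hm hb (hZ ρ hρ)).const_mul _
  have e7 : ∫ s in Ioc 0 L, (∑ ρ ∈ Z, ∑ ρ' ∈ Z, w ρ * (starRingEnd ℂ) (w ρ') * Complex.exp ((ρ - ρ') * s)).re =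
      (∑ ρ ∈ Z, ∑ ρ' ∈ Z, w ρ * (starRingEnd ℂ) (w ρ') * GR (ρ - ρ') L).re := by
    have := integral_re i2
    simp only [RCLike.re_eq_complex_re] at this
    rw [this, integral_finsetSum]
    · congr 1
      refine Finset.sum_congr rfl fun ρ _ => ?_
      rw [integral_finsetSum]
      · refine Finset.sum_congr rfl fun ρ' _ => ?_
        rw [integral_const_mul]; rfl
      · exact fun ρ' _ => cont_iOn (by fun_prop) L
    · exact fun ρ _ => cont_iOn (by fun_prop) L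
  rw [e6, e7] at h0
  exact h0

/-- finite Bessel inequality with error terms -/
theorem bessel_fin' {f : ℝ → ℂ} (hm : Measurable f) (hb : ∀ L : ℝ, ∃ K : ℝ, ∀ s ≤ L, ‖f s‖ ≤ K) (Z : Finset ℂ)
    (hZ : ∀ ρ ∈ Z, ρ.re = 1 / 2) (w : ℂ → ℂ)
    (hP : ∀ ρ ∈ Z, ∃ C : ℝ, 0 < C ∧ ∀ L : ℝ, 1 ≤ L → ‖Pc f ρ L - w ρ * L‖ ≤ C * (1 + Real.sqrt (Je f L))) :
    ∃ C : ℝ, 0 < C ∧ ∀ L : ℝ, 1 ≤ L → (∑ ρ ∈ Z, ‖w ρ‖ ^ 2) * L ≤ Je f L + C * (1 + Real.sqrt (Je f L)) := by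
  classical
  choose! Cf hCf hCb using hP
  set C1 : ℝ := ∑ ρ ∈ Z, ‖w ρ‖ * |Cf ρ| with hC1
  set C2 : ℝ := ∑ ρ ∈ Z, ∑ ρ' ∈ Z, ‖w ρ‖ * ‖w ρ'‖ * (2 / ‖ρ - ρ'‖) with hC2
  have hC1' : 0 ≤ C1 := Finset.sum_nonneg fun _ _ => by positivity
  have hC2' : 0 ≤ C2 := Finset.sum_nonneg fun _ _ => Finset.sum_nonneg fun _ _ => by positivity
  refine ⟨2 * C1 + C2 + 1, by positivity, fun L hL1 => ?_⟩
  have hL : 0 ≤ L := by linarith
  obtain ⟨K, hK⟩ := hb L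
  have h0 := bessel_raw' hm hK Z hZ w
  have hsq : ∀ ρ : ℂ, (starRingEnd ℂ) (w ρ) * (w ρ * L) = ((‖w ρ‖ ^ 2 * L : ℝ) : ℂ) := by
    intro ρ
    rw [← mul_assoc, ← Complex.normSq_eq_conj_mul_self, Complex.normSq_eq_norm_sq]
    push_cast; ring
  have h1 : (∑ ρ ∈ Z, ‖w ρ‖ ^ 2) * L - C1 * (1 + Real.sqrt (Je f L)) ≤
      (∑ ρ ∈ Z, (starRingEnd ℂ) (w ρ) * Pc f ρ L).re := by
    have e1 : ∑ ρ ∈ Z, (starRingEnd ℂ) (w ρ) * Pc f ρ L =
        (((∑ ρ ∈ Z, ‖w ρ‖ ^ 2) * L : ℝ) : ℂ) + ∑ ρ ∈ Z, (starRingEnd ℂ) (w ρ) * (Pc f ρ L - w ρ * L) := by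
      rw [Finset.sum_mul]
      push_cast
      rw [← Finset.sum_add_distrib]
      refine Finset.sum_congr rfl fun ρ _ => ?_
      have := hsq ρ
      push_cast at this
      rw [← this]; ring
    rw [e1, Complex.add_re, Complex.ofReal_re]
    have h2 : ‖∑ ρ ∈ Z, (starRingEnd ℂ) (w ρ) * (Pc f ρ L - w ρ * L)‖ ≤ C1 * (1 + Real.sqrt (Je f L)) := by
      rw [hC1, Finset.sum_mul]
      refine norm_sum_le_of_le _ fun ρ hρ => ?_
      rw [norm_mul, RCLike.norm_conj, mul_assoc]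
      refine mul_le_mul_of_nonneg_left ?_ (norm_nonneg _)
      refine (hCb ρ hρ L hL1).trans ?_
      gcongr
      exact le_abs_self _
    have h3 := (abs_le.1 ((Complex.abs_re_le_norm _).trans h2)).1
    linarith
  have h2 : (∑ ρ ∈ Z, ∑ ρ' ∈ Z, w ρ * (starRingEnd ℂ) (w ρ') * GR (ρ - ρ') L).re ≤
      (∑ ρ ∈ Z, ‖w ρ‖ ^ 2) * L + C2 := by
    rw [Complex.re_sum, Finset.sum_mul, hC2, ← Finset.sum_add_distrib]
    refine Finset.sum_le_sum fun ρ hρ => ?_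
    rw [Complex.re_sum]
    have h3 : ∀ ρ' ∈ Z, (w ρ * (starRingEnd ℂ) (w ρ') * GR (ρ - ρ') L).re ≤
        (if ρ' = ρ then ‖w ρ‖ ^ 2 * L else 0) + ‖w ρ‖ * ‖w ρ'‖ * (2 / ‖ρ - ρ'‖) := by
      intro ρ' hρ'
      by_cases he : ρ' = ρ
      · subst he
        rw [if_pos rfl, sub_self, GR_zero hL]
        have e2 : w ρ' * (starRingEnd ℂ) (w ρ') * (L : ℂ) = ((‖w ρ'‖ ^ 2 * L : ℝ) : ℂ) := by
          rw [← hsq ρ']; ring
        rw [e2, Complex.ofReal_re]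
        have : 0 ≤ ‖w ρ'‖ * ‖w ρ'‖ * (2 / ‖(0:ℂ)‖) := by positivity
        linarith
      · rw [if_neg he, zero_add]
        refine (Complex.re_le_norm _).trans ?_
        rw [norm_mul, norm_mul, RCLike.norm_conj]
        gcongr
        apply GR_bound (sub_ne_zero.2 (Ne.symm he)) _ hL
        rw [Complex.sub_re, hZ ρ hρ, hZ ρ' hρ', sub_self]
    refine (Finset.sum_le_sum h3).trans ?_
    rw [Finset.sum_add_distrib, Finset.sum_ite_eq' Z ρ, if_pos hρ]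
  have h3 := Real.sqrt_nonneg (Je f L)
  nlinarith

/-- Bessel's inequality at infinitely many scales -/
theorem bessel_freq' {f : ℝ → ℂ} (hm : Measurable f) (hb : ∀ L : ℝ, ∃ K : ℝ, ∀ s ≤ L, ‖f s‖ ≤ K) (Z : Finset ℂ)
    (hZ : ∀ ρ ∈ Z, ρ.re = 1 / 2) (w : ℂ → ℂ)
    (hP : ∀ ρ ∈ Z, ∃ C : ℝ, 0 < C ∧ ∀ L : ℝ, 1 ≤ L → ‖Pc f ρ L - w ρ * L‖ ≤ C * (1 + Real.sqrt (Je f L)))
    {C : ℝ} (hf : ∃ᶠ L in atTop, Je f L ≤ C * L) : ∑ ρ ∈ Z, ‖w ρ‖ ^ 2 ≤ C := by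
  obtain ⟨K, hK, hb'⟩ := bessel_fin' hm hb Z hZ w hP
  by_contra hcon
  push Not at hcon
  set S : ℝ := ∑ ρ ∈ Z, ‖w ρ‖ ^ 2
  have hε : 0 < S - C := by linarith
  have hlim : Tendsto (fun L : ℝ => K * (1 + Real.sqrt (|C| * L)) / L) atTop (𝓝 0) := by
    have h1 : Tendsto (fun L : ℝ => K * (L⁻¹ + Real.sqrt |C| * (Real.sqrt L)⁻¹)) atTop (𝓝 (K * (0 + Real.sqrt |C| * 0))) := by
      refine Tendsto.const_mul _ (Tendsto.add tendsto_inv_atTop_zero (Tendsto.const_mul _ ?_))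
      exact tendsto_inv_atTop_zero.comp Real.tendsto_sqrt_atTop
    have h2 : K * (0 + Real.sqrt |C| * 0) = 0 := by ring
    rw [h2] at h1
    refine h1.congr' ?_
    filter_upwards [eventually_gt_atTop 0] with L hL
    rw [Real.sqrt_mul (abs_nonneg C)]
    have h3 : Real.sqrt L * Real.sqrt L = L := Real.mul_self_sqrt hL.le
    have h4 : 0 < Real.sqrt L := Real.sqrt_pos.2 hL
    have h5 : (Real.sqrt L)⁻¹ = Real.sqrt L / L := by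
      rw [eq_div_iff hL.ne', inv_mul_eq_div, div_eq_iff h4.ne']; exact h3.symm
    rw [h5]; field_simp
  have hev := hlim.eventually (gt_mem_nhds hε)
  have hev2 := hev.and (eventually_ge_atTop 1)
  obtain ⟨L, h1, h2, h3⟩ := (hf.and_eventually hev2).exists
  have h4 := hb' L h3
  have h5 : Real.sqrt (Je f L) ≤ Real.sqrt (|C| * L) := by
    apply Real.sqrt_le_sqrt
    exact h1.trans (by have := le_abs_self C; nlinarith)
  rw [div_lt_iff₀ (by linarith)] at h2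
  nlinarith

variable {h : ℝ} {ρ : ℂ}

/-- the smoothed function, normalised -/
def fs (h : ℝ) (t : ℝ) : ℂ := mg h (1 / 2) t

lemma conj_ee (hre : ρ.re = 1 / 2) (s : ℝ) : (starRingEnd ℂ) (ee ρ s) = cexp (-((ρ - 1 / 2) * s)) := by
  unfold Pool.Agent.H295R2.ee
  rw [← Complex.exp_conj]
  congr 1
  rw [map_mul, Complex.conj_ofReal, ← neg_mul]
  congr 1
  apply Complex.ext
  · simp [hre]
  · simp

lemma fs_mul (hre : ρ.re = 1 / 2) (t : ℝ) : fs h t * (starRingEnd ℂ) (ee ρ t) = mg h ρ t := by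
  rw [conj_ee hre]
  unfold fs mg
  rw [← integral_mul_const]
  refine integral_congr_ae (Eventually.of_forall fun u => ?_)
  simp only
  unfold Pool.Agent.H295R2.mf gr
  have e : cexp (-(1 / 2 * ((t - u : ℝ) : ℂ))) * cexp (-(1 / 2 * (u:ℂ))) * cexp (-((ρ - 1 / 2) * t)) =
      cexp (-(ρ * ((t - u : ℝ) : ℂ))) * cexp (-(ρ * u)) := by
    rw [← Complex.exp_add, ← Complex.exp_add, ← Complex.exp_add]
    congr 1
    push_cast
    ring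
  linear_combination ((Pool.Agent.H295R2.Mx (Real.exp (t - u)) : ℝ) : ℂ) * (kb h u : ℂ) * e

lemma fs_norm (hre : ρ.re = 1 / 2) (t : ℝ) : ‖mg h ρ t‖ = ‖fs h t‖ := by
  rw [← fs_mul hre, norm_mul, RCLike.norm_conj, ee_norm hre, mul_one]

/-- **Bessel's inequality for the smoothed function.** -/
theorem bessel_k (h0 : 0 < h) (h1 : h ≤ 1) (Z : Finset ℂ)
    (hZ : ∀ ρ ∈ Z, ρ.re = 1 / 2 ∧ riemannZeta ρ = 0 ∧ deriv riemannZeta ρ ≠ 0)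
    {C : ℝ} (hf : ∃ᶠ L in atTop, Je (fs h) L ≤ C * L) : ∑ ρ ∈ Z, ‖kh h ρ * ww ρ‖ ^ 2 ≤ C := by
  refine bessel_freq' (f := fs h) (mg_meas h _) (fun L => ⟨Real.exp L, fun s hs => mg_norm h0 (by norm_num) hs⟩) Z
    (fun ρ hρ => (hZ ρ hρ).1) (fun ρ => kh h ρ * ww ρ) (fun ρ hρ => ?_) hf
  obtain ⟨hre, hz, hd⟩ := hZ ρ hρ
  obtain ⟨C', hC', hb⟩ := corr_bound h0 h1 hre hz
  have hd0 := norm_pos_iff.2 hd
  refine ⟨C' / ‖deriv riemannZeta ρ‖, by positivity, fun L hL => ?_⟩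
  have h2 := hb L hL
  have hρ0 : ρ ≠ 0 := by
    rintro rfl
    norm_num at hre
  have eJ : Je (mg h ρ) L = Je (fs h) L := by
    unfold Je
    simp only [fs_norm hre]
  have eP : Pc (fs h) ρ L = ∫ s in Ioc 0 L, mg h ρ s := by
    unfold Pc
    simp only [fs_mul hre]
  have h3 : deriv riemannZeta ρ * (∫ s in Ioc 0 L, mg h ρ s) - kh h ρ * L / ρ =
      deriv riemannZeta ρ * (Pc (fs h) ρ L - kh h ρ * ww ρ * L) := by
    rw [eP]
    unfold Pool.Agent.H295R2.ww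
    field_simp
  rw [h3, norm_mul, eJ] at h2
  rw [div_mul_eq_mul_div, le_div_iff₀ hd0]
  linarith

end

end U441.MP
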