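import Pool.Agent.U441.MP.Wf

/-! Weak Mertens along powers, part 4: the energy along the powers is large if the Riemann hypothesis fails or if
there is a multiple zero. -/

set_option autoImplicit false

open MeasureTheory Filter Topology Set Complex

namespace U441.MP

open H313.TK
open Pool.Agent.H295R2 (fz)
open Pool.Agent.U645.LB (Tw kn kn_DK order_pos order_two)

/-- the `n`-th point on the logarithmic scale -/
noncomputable def Vn (κ q r : ℝ) (n : ℕ) : ℝ := κ * Real.log (yy q r n)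

/-- energy along the powers -/
noncomputable def Qn (φ : ℝ → ℝ) (κ q r : ℝ) (N : ℕ) : ℝ :=
  ∑ n ∈ Finset.Icc 1 N, Sn φ κ q r n ^ 2 * Real.exp (-Vn κ q r n) * cn κ q r n

/-- lower bound for the energy -/
theorem energy_low {φ : ℝ → ℝ} {κ q r w₂ β c : ℝ} (hκ : 0 < κ) (hq : 0 < q) (hr : 0 ≤ r) (hφ : Samp φ κ q r w₂)
    (hβ0 : 1 / 2 ≤ β) (hc : 0 < c) (k : ℕ)
    (hbig : ∀ᶠ t : ℝ in atTop, ∀ s : ℝ, s = 1 ∨ s = -1 → ∀ᶠ N : ℕ in atTop,
      c * (t ^ k * Real.exp (β * t)) ≤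
        ∑ n ∈ Finset.Icc 1 N, max (s * Sn φ κ q r n) 0 * (kp2 (vn κ q r t n) * cn κ q r n)) :
    ∃ d : ℝ, 0 < d ∧ ∀ᶠ t : ℝ in atTop, ∀ N : ℕ, (∀ n : ℕ, N < n → 2 * t ≤ Vn κ q r n) →
      d * (t ^ (2 * k) * Real.exp ((2 * β - 1) * t)) ≤ Qn φ κ q r N := by
  have hC0 := C0_nonneg
  obtain ⟨C₁, hC₁, htail⟩ := kp2_tail
  obtain ⟨C₄, hC₄, hwt⟩ := weight_sum hκ hq hr
  obtain ⟨B₀, hB₀, hneg⟩ := hφ.neg
  set C₂ : ℝ := 2 * ((C0 * 4) * Real.exp 3) + 1 with hC₂
  have hC₂0 : 0 < C₂ := by positivity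
  set C₃ : ℝ := (1 + B₀) * C₁ with hC₃
  have hC₃0 : 0 < C₃ := by positivity
  have hsmall : ∀ᶠ t : ℝ in atTop, C₃ * C₄ * Real.exp (-(1 / 40 * t)) < c / 2 := by
    have h1 : Tendsto (fun t : ℝ => C₃ * C₄ * Real.exp (-(1 / 40 * t))) atTop (𝓝 (C₃ * C₄ * 0)) := by
      refine Tendsto.const_mul _ (Real.tendsto_exp_atBot.comp ?_)
      exact tendsto_neg_atTop_atBot.comp (tendsto_id.const_mul_atTop (by norm_num))
    rw [mul_zero] at h1
    exact h1.eventually (gt_mem_nhds (by positivity))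
  have hlarge : ∀ᶠ t : ℝ in atTop, 7 / 4 ≤ Real.log (7 / 10 * t) :=
    (Real.tendsto_log_atTop.comp (tendsto_id.const_mul_atTop (by norm_num : (0:ℝ) < 7 / 10))).eventually_ge_atTop _
  refine ⟨(c / 2) ^ 2 / (C₂ * C₄ * C₂), by positivity, ?_⟩
  filter_upwards [hbig, hsmall, hlarge, eventually_ge_atTop 1] with t hb hs1 hlg ht1 N hN
  obtain ⟨N', hN', hNN⟩ := ((hb 1 (Or.inl rfl)).and (hb (-1) (Or.inr rfl))).and (eventually_ge_atTop N) |>.exists
  have hN1 := hN'.1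
  have ht0 : 0 < t := by linarith
  set a : ℝ := 1 / 8 + 1 / 2 * Real.log (7 / 10 * t) with ha
  have ha1 : 1 ≤ a := by rw [ha]; linarith
  have hat : a ≤ t := by
    have := Real.log_le_sub_one_of_pos (by linarith : 0 < 7 / 10 * t)
    rw [ha]
    linarith
  have hae : Real.exp (2 * (a - 1 / 8)) = 7 / 10 * t := by
    rw [ha, show 2 * (1 / 8 + 1 / 2 * Real.log (7 / 10 * t) - 1 / 8) = Real.log (7 / 10 * t) by ring,
      Real.exp_log (by linarith)]
  -- the first terms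
  have hcc : ∀ n : ℕ, cn κ q r n = κ * (q / yy q r n) := fun n => rfl
  have hterm : ∀ n ∈ Finset.Icc 1 N', max (1 * Sn φ κ q r n) 0 * (kp2 (vn κ q r t n) * cn κ q r n) ≤
      (if n ≤ N then |Sn φ κ q r n| * (kp2 (vn κ q r t n) * cn κ q r n) else 0) +
      C₃ * Real.exp (19 / 40 * t) * (Real.exp (-(2 * |t - κ * Real.log (yy q r n)|)) * (κ * (q / yy q r n))) := by
    intro n hn
    rw [Finset.mem_Icc] at hn
    have hy := yy_pos hq hr (by exact_mod_cast hn.1 : (0:ℝ) < n)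
    have hcn := cn_pos hκ hq hr hn.1
    have hk0 := kp2_nonneg (vn κ q r t n)
    have hmax : max (1 * Sn φ κ q r n) 0 ≤ |Sn φ κ q r n| := by
      rw [one_mul]
      exact max_le (le_abs_self _) (abs_nonneg _)
    by_cases hnN : n ≤ N
    · rw [if_pos hnN]
      have h3 : 0 ≤ C₃ * Real.exp (19 / 40 * t) *
        (Real.exp (-(2 * |t - κ * Real.log (yy q r n)|)) * (κ * (q / yy q r n))) := by positivity
      have := mul_le_mul_of_nonneg_right hmax (mul_nonneg hk0 hcn.le)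
      linarith
    rw [if_neg hnN, zero_add]
    have hV := hN n (not_le.1 hnN)
    set v : ℝ := vn κ q r t n with hv
    have hkv : κ * Real.log (yy q r n) = t - v := by rw [hv]; unfold vn; ring
    have hvv : t - κ * Real.log (yy q r n) = v := rfl
    have hVv : Vn κ q r n = t - v := hkv
    rw [hVv] at hV
    have hvneg : v < 0 := by linarith
    have hva : a ≤ |v| := by
      rw [abs_of_neg hvneg]
      linarith
    have hev : Real.exp (-(3 * |v|)) * Real.exp |v| = Real.exp (-(2 * |v|)) := by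
      rw [← Real.exp_add]
      congr 1
      ring
    have hS0 : |Sn φ κ q r n| ≤ (1 + B₀) * (Real.exp t * Real.exp |v|) := by
      unfold Sn
      have h0 : 1 ≤ Real.exp t * Real.exp |v| := by
        rw [← Real.exp_add]
        exact Real.one_le_exp (by have := abs_nonneg v; linarith)
      have h1 : 0 ≤ κ * Real.log (yy q r n) := by rw [hkv]; linarith
      have h2 : Real.exp (κ * Real.log (yy q r n)) ≤ Real.exp t * Real.exp |v| := by
        rw [hkv, ← Real.exp_add]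
        exact Real.exp_le_exp.2 (by have := neg_abs_le v; linarith)
      have h3 := hφ.bd _ h1
      nlinarith
    have h1 := htail a v ha1 hva
    rw [hae] at h1
    rw [hvv, ← hcc, ← mul_assoc, ← mul_assoc]
    refine mul_le_mul_of_nonneg_right ?_ hcn.le
    have h2 : max (1 * Sn φ κ q r n) 0 ≤ (1 + B₀) * (Real.exp t * Real.exp |v|) := hmax.trans hS0
    have e1 : Real.exp t * Real.exp (-(3 / 4 * (7 / 10 * t))) = Real.exp (19 / 40 * t) := by
      rw [← Real.exp_add]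
      congr 1
      ring
    calc max (1 * Sn φ κ q r n) 0 * kp2 v ≤
        ((1 + B₀) * (Real.exp t * Real.exp |v|)) *
          (C₁ * Real.exp (-(3 / 4 * (7 / 10 * t))) * Real.exp (-(3 * |v|))) :=
          mul_le_mul h2 h1 hk0 (by positivity)
      _ = C₃ * (Real.exp t * Real.exp (-(3 / 4 * (7 / 10 * t)))) * (Real.exp (-(3 * |v|)) * Real.exp |v|) := by
          rw [hC₃]; ring
      _ = _ := by rw [e1, hev]
  have hsum := hN1.trans (Finset.sum_le_sum hterm)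
  rw [Finset.sum_add_distrib, ← Finset.mul_sum, ← Finset.sum_filter] at hsum
  have hfil : (Finset.Icc 1 N').filter (fun n => n ≤ N) = Finset.Icc 1 N := by
    ext n
    simp only [Finset.mem_filter, Finset.mem_Icc]
    omega
  rw [hfil] at hsum
  have h5 := mul_le_mul_of_nonneg_left (hwt t N') (by positivity : 0 ≤ C₃ * Real.exp (19 / 40 * t))
  have h6 : C₃ * Real.exp (19 / 40 * t) * C₄ ≤ c / 2 * (t ^ k * Real.exp (β * t)) := by
    have e2 : Real.exp (19 / 40 * t) = Real.exp (-(1 / 40 * t)) * Real.exp (1 / 2 * t) := by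
      rw [← Real.exp_add]
      congr 1
      ring
    have e3 : Real.exp (1 / 2 * t) ≤ Real.exp (β * t) := Real.exp_le_exp.2 (by nlinarith)
    have e4 : Real.exp (β * t) ≤ t ^ k * Real.exp (β * t) :=
      le_mul_of_one_le_left (Real.exp_pos _).le (one_le_pow₀ ht1)
    calc C₃ * Real.exp (19 / 40 * t) * C₄ = (C₃ * C₄ * Real.exp (-(1 / 40 * t))) * Real.exp (1 / 2 * t) := by
          rw [e2]; ring
      _ ≤ c / 2 * Real.exp (1 / 2 * t) := mul_le_mul_of_nonneg_right hs1.le (Real.exp_pos _).le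
      _ ≤ _ := mul_le_mul_of_nonneg_left (e3.trans e4) (by positivity)
  have h7 : c / 2 * (t ^ k * Real.exp (β * t)) ≤
      ∑ n ∈ Finset.Icc 1 N, |Sn φ κ q r n| * (kp2 (vn κ q r t n) * cn κ q r n) := by linarith
  -- Cauchy Schwarz
  have h8 := Finset.sum_sq_le_sum_mul_sum_of_sq_eq_mul (Finset.Icc 1 N)
    (r := fun n => |Sn φ κ q r n| * (kp2 (vn κ q r t n) * cn κ q r n))
    (f := fun n => kp2 (vn κ q r t n) * cn κ q r n)
    (g := fun n => Sn φ κ q r n ^ 2 * (kp2 (vn κ q r t n) * cn κ q r n))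
    (fun n hn => by
      rw [Finset.mem_Icc] at hn
      exact mul_nonneg (kp2_nonneg _) (cn_pos hκ hq hr hn.1).le)
    (fun n hn => by
      rw [Finset.mem_Icc] at hn
      exact mul_nonneg (sq_nonneg _) (mul_nonneg (kp2_nonneg _) (cn_pos hκ hq hr hn.1).le))
    (fun n _ => by
      rw [mul_pow, sq_abs]
      ring)
  have h9 : ∑ n ∈ Finset.Icc 1 N, kp2 (vn κ q r t n) * cn κ q r n ≤ C₂ * C₄ := by
    refine le_trans ?_ (mul_le_mul_of_nonneg_left (hwt t N) hC₂0.le)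
    rw [Finset.mul_sum]
    refine Finset.sum_le_sum fun n hn => ?_
    rw [Finset.mem_Icc] at hn
    have hcn := cn_pos hκ hq hr hn.1
    rw [← hcc, ← mul_assoc]
    refine mul_le_mul_of_nonneg_right ?_ hcn.le
    refine (kp2_le _).trans (mul_le_mul_of_nonneg_left ?_ hC₂0.le)
    apply Real.exp_le_exp.2
    have h : vn κ q r t n = t - κ * Real.log (yy q r n) := rfl
    rw [← h]
    have := abs_nonneg (vn κ q r t n)
    linarith
  have h10 : ∑ n ∈ Finset.Icc 1 N, Sn φ κ q r n ^ 2 * (kp2 (vn κ q r t n) * cn κ q r n) ≤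
      (C₂ * Real.exp t) * Qn φ κ q r N := by
    unfold Qn
    rw [Finset.mul_sum]
    refine Finset.sum_le_sum fun n hn => ?_
    rw [Finset.mem_Icc] at hn
    have hcn := cn_pos hκ hq hr hn.1
    have h11 : kp2 (vn κ q r t n) ≤ C₂ * Real.exp t * Real.exp (-Vn κ q r n) := by
      refine (kp2_le _).trans ?_
      rw [← hC₂, mul_assoc C₂, ← Real.exp_add]
      refine mul_le_mul_of_nonneg_left (Real.exp_le_exp.2 ?_) hC₂0.le
      have h : t + -Vn κ q r n = vn κ q r t n := by unfold Vn vn; ring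
      rw [h]
      have h12 := neg_abs_le (vn κ q r t n)
      have := abs_nonneg (vn κ q r t n)
      linarith
    calc Sn φ κ q r n ^ 2 * (kp2 (vn κ q r t n) * cn κ q r n) ≤
        Sn φ κ q r n ^ 2 * ((C₂ * Real.exp t * Real.exp (-Vn κ q r n)) * cn κ q r n) := by gcongr
      _ = _ := by ring
  have h13 : (c / 2 * (t ^ k * Real.exp (β * t))) ^ 2 ≤ (C₂ * C₄) * ((C₂ * Real.exp t) * Qn φ κ q r N) := by
    refine (pow_le_pow_left₀ (by positivity) h7 2).trans (h8.trans ?_)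
    refine mul_le_mul h9 h10 (Finset.sum_nonneg fun n hn => ?_) (by positivity)
    rw [Finset.mem_Icc] at hn
    exact mul_nonneg (sq_nonneg _) (mul_nonneg (kp2_nonneg _) (cn_pos hκ hq hr hn.1).le)
  rw [div_mul_eq_mul_div, div_le_iff₀ (by positivity)]
  have e5 : Real.exp ((2 * β - 1) * t) * Real.exp t = Real.exp (β * t) * Real.exp (β * t) := by
    rw [← Real.exp_add, ← Real.exp_add]
    congr 1
    ring
  have e6 : (c / 2) ^ 2 * (t ^ (2 * k) * Real.exp ((2 * β - 1) * t)) * Real.exp t =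
      (c / 2 * (t ^ k * Real.exp (β * t))) ^ 2 := by
    rw [two_mul k, pow_add]
    linear_combination ((c / 2) ^ 2 * (t ^ k * t ^ k)) * e5
  have e7 : (C₂ * C₄) * ((C₂ * Real.exp t) * Qn φ κ q r N) =
      (Qn φ κ q r N * (C₂ * C₄ * C₂)) * Real.exp t := by ring
  rw [← e6, e7] at h13
  exact le_of_mul_le_mul_right h13 (Real.exp_pos t)

/-- parameters for a zero near the supremum of the real parts -/
theorem hbig_of {κ q r : ℝ} (hκ : 0 < κ) (hq : 0 < q) (hr : 0 ≤ r) {a : ℕ → ℝ} {R lm : ℝ} (h : Good a R lm)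
    {ρ : ℂ} (hz : riemannZeta ρ = 0) (h0 : 1 / 2 ≤ ρ.re) (h1 : ρ.re < 1) {θ : ℝ} (hθ : ρ.re ≤ θ) (hθ1 : θ ≤ 1)
    (hθz : ∀ s : ℂ, θ < s.re → riemannZeta s ≠ 0) (hθ2 : θ - 1 / (3 * κ) < ρ.re) {j : ℕ}
    (hm : ((j + 1 : ℕ) : ℕ∞) ≤ analyticOrderAt riemannZeta ρ) :
    ∃ lam w₂ : ℝ, 0 < lam ∧ lam < ρ.re ∧ 0 ≤ w₂ ∧ w₂ < lam * κ + 1 ∧ Samp (psi a R lm) κ q r w₂ ∧
      ∃ c : ℝ, 0 < c ∧ ∀ᶠ t : ℝ in atTop, ∀ s : ℝ, s = 1 ∨ s = -1 → ∀ᶠ N : ℕ in atTop,
      c * (t ^ j * Real.exp (ρ.re * t)) ≤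
        ∑ n ∈ Finset.Icc 1 N, max (s * Sn (psi a R lm) κ q r n) 0 * (kp2 (vn κ q r t n) * cn κ q r n) := by
  obtain ⟨F, hF⟩ := h.fam
  have hlm := h.pos
  set β : ℝ := ρ.re with hβ
  set m₀ : ℝ := max (θ - 1 / (3 * κ)) 0 with hm₀
  have hm1 : m₀ < β := max_lt hθ2 (by linarith)
  have hm2 : 0 ≤ m₀ := le_max_right _ _
  have hm3 : θ - 1 / (3 * κ) ≤ m₀ := le_max_left _ _
  set lam : ℝ := (m₀ + β) / 2 with hlam
  have hl0 : 0 < lam := by rw [hlam]; linarith
  have hl1 : lam < β := by rw [hlam]; linarith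
  have hl2 : θ - 1 / (3 * κ) < lam := by rw [hlam]; linarith
  have hl3 : κ * θ + 2 / 3 < lam * κ + 1 := by
    have e1 : κ * (1 / (3 * κ)) = 1 / 3 := by field_simp
    have e2 := mul_lt_mul_of_pos_left hl2 hκ
    rw [mul_sub, e1] at e2
    linarith
  set d : ℝ := (lam * κ + 1 - (κ * θ + 2 / 3)) / 3 with hd
  have hd0 : 0 < d := by rw [hd]; linarith
  set e : ℝ := min (d / κ) 1 with he
  have he0 : 0 < e := by rw [he]; positivity
  have he1 : κ * e ≤ d := by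
    calc κ * e ≤ κ * (d / κ) := mul_le_mul_of_nonneg_left (min_le_left _ _) hκ.le
      _ = d := by field_simp
  have he2 : e ≤ 1 := min_le_right _ _
  have hp := hF θ (θ + e) (by linarith) hθz (by linarith) (by linarith)
  set w₂ : ℝ := max (max (κ * (θ + e) + 2 / 3 + d) 1) (κ * (1 / 2)) with hw₂
  have hw1 : κ * (θ + e) + 2 / 3 + d ≤ w₂ := (le_max_left _ _).trans (le_max_left _ _)
  have hw2 : 1 ≤ w₂ := (le_max_right _ _).trans (le_max_left _ _)
  have hw3 : κ * (1 / 2) ≤ w₂ := le_max_right _ _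
  have hw4 : w₂ < lam * κ + 1 := by
    rw [hw₂]
    refine max_lt (max_lt ?_ ?_) ?_
    · rw [mul_add]
      linarith
    · have : 0 < lam * κ := by positivity
      linarith
    · nlinarith
  have hS := samp hp (by linarith) (by linarith) (q := q) (r := r) (R := R) (lm := lm) hκ hq hr hd0 h.bd hw1 hw2 hw3
  refine ⟨lam, w₂, hl0, hl1, by linarith, hw4, hS, ?_⟩
  have hpos : 0 < ρ.re := by linarith
  obtain ⟨G, hG, hker, hW⟩ := kn_ker hpos h1 hm
  obtain ⟨A₀, hA₀, hA⟩ := h.avg.avg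
  obtain ⟨c, C, hc, hC, hb⟩ := big_of hκ hq hr (by linarith : 0 ≤ w₂) hS hl0 (by linarith) hw4 hA₀ hA hG hker hW
  obtain ⟨A, hA1, hlow⟩ := low h.avg hz h0 h1 hm
  have hsmall : ∀ᶠ t : ℝ in atTop, C * Real.exp (lam * t) ≤ c * A / 2 * (t ^ j * Real.exp (ρ.re * t)) := by
    have h7 : Tendsto (fun t : ℝ => Real.exp ((ρ.re - lam) * t)) atTop atTop :=
      Real.tendsto_exp_atTop.comp (Tendsto.const_mul_atTop (by linarith) tendsto_id)
    filter_upwards [h7.eventually_ge_atTop (C / (c * A / 2)), eventually_ge_atTop (1:ℝ)] with t ht ht1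
    rw [div_le_iff₀ (by positivity)] at ht
    have e1 : Real.exp ((ρ.re - lam) * t) * Real.exp (lam * t) = Real.exp (ρ.re * t) := by
      rw [← Real.exp_add]
      congr 1
      ring
    have e2 : Real.exp (ρ.re * t) ≤ t ^ j * Real.exp (ρ.re * t) :=
      le_mul_of_one_le_left (Real.exp_pos _).le (one_le_pow₀ ht1)
    calc C * Real.exp (lam * t) ≤ (Real.exp ((ρ.re - lam) * t) * (c * A / 2)) * Real.exp (lam * t) :=
          mul_le_mul_of_nonneg_right ht (Real.exp_pos _).le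
      _ = c * A / 2 * (Real.exp ((ρ.re - lam) * t) * Real.exp (lam * t)) := by ring
      _ = c * A / 2 * Real.exp (ρ.re * t) := by rw [e1]
      _ ≤ _ := mul_le_mul_of_nonneg_left e2 (by positivity)
  refine ⟨c * A / 2, by positivity, ?_⟩
  filter_upwards [hlow, hsmall, eventually_ge_atTop (0:ℝ)] with t k1 k2 k3 s hs
  filter_upwards [hb t k3 s hs] with N hN
  have := mul_le_mul_of_nonneg_left k1 hc.le
  linarith

lemma Vn_mono {κ q r : ℝ} (hκ : 0 < κ) (hq : 0 < q) (hr : 0 ≤ r) {m n : ℕ} (hm : 1 ≤ m) (hmn : m ≤ n) :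
    Vn κ q r m ≤ Vn κ q r n := by
  have h1 := yy_pos hq hr (by exact_mod_cast hm : (0:ℝ) < m)
  have h2 : yy q r m ≤ yy q r n := by
    unfold yy
    have : (m:ℝ) ≤ n := by exact_mod_cast hmn
    nlinarith
  exact mul_le_mul_of_nonneg_left (Real.log_le_log h1 h2) hκ.le

lemma Vn_tendsto {κ q r : ℝ} (hκ : 0 < κ) (hq : 0 < q) (hr : 0 ≤ r) :
    Tendsto (fun n : ℕ => Vn κ q r n) atTop atTop := by
  unfold Vn
  refine (Real.tendsto_log_atTop.comp ?_).const_mul_atTop hκ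
  unfold yy
  exact tendsto_atTop_add_const_right _ _ (tendsto_natCast_atTop_atTop.const_mul_atTop hq)

/-- a zero with large energy contradicts a linear bound at infinitely many places -/
theorem no_zero {κ q r : ℝ} (hκ : 0 < κ) (hq : 0 < q) (hr : 0 ≤ r) {a : ℕ → ℝ} {R lm : ℝ} (h : Good a R lm)
    {ρ : ℂ} (hz : riemannZeta ρ = 0) (h0 : 1 / 2 ≤ ρ.re) (h1 : ρ.re < 1) {θ : ℝ} (hθ : ρ.re ≤ θ) (hθ1 : θ ≤ 1)
    (hθz : ∀ s : ℂ, θ < s.re → riemannZeta s ≠ 0) (hθ2 : θ - 1 / (3 * κ) < ρ.re) {j : ℕ}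
    (hm : ((j + 1 : ℕ) : ℕ∞) ≤ analyticOrderAt riemannZeta ρ) (hj : 1 / 2 < ρ.re ∨ 1 ≤ j)
    {C : ℝ} (hC : ∃ᶠ N : ℕ in atTop, Qn (psi a R lm) κ q r N ≤ C * Vn κ q r N) : False := by
  obtain ⟨lam, w₂, -, -, -, -, hS, c, hc, hbig⟩ := hbig_of hκ hq hr h hz h0 h1 hθ hθ1 hθz hθ2 hm
  obtain ⟨d, hd, hev⟩ := energy_low hκ hq hr hS h0 hc j hbig
  have hgrow : ∀ᶠ t : ℝ in atTop, 2 * C * t < d * (t ^ (2 * j) * Real.exp ((2 * ρ.re - 1) * t)) := by
    rcases hj with hj | hj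
    · have h2 : Tendsto (fun t : ℝ => Real.exp ((2 * ρ.re - 1) * t) / t) atTop atTop := by
        have h3 := (tendsto_exp_mul_div_rpow_atTop 1 (2 * ρ.re - 1) (by linarith))
        simpa using h3
      filter_upwards [h2.eventually_gt_atTop (2 * C / d), eventually_ge_atTop (1:ℝ)] with t ht ht1
      have ht0 : 0 < t := by linarith
      rw [lt_div_iff₀ ht0, div_mul_eq_mul_div, div_lt_iff₀ hd] at ht
      have h4 : Real.exp ((2 * ρ.re - 1) * t) ≤ t ^ (2 * j) * Real.exp ((2 * ρ.re - 1) * t) :=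
        le_mul_of_one_le_left (Real.exp_pos _).le (one_le_pow₀ ht1)
      nlinarith
    · filter_upwards [eventually_gt_atTop (2 * C / d), eventually_ge_atTop (1:ℝ)] with t ht ht1
      have ht0 : 0 < t := by linarith
      rw [div_lt_iff₀ hd] at ht
      have h4 : 1 ≤ Real.exp ((2 * ρ.re - 1) * t) := Real.one_le_exp (by nlinarith)
      have h5 : t ^ 2 ≤ t ^ (2 * j) := pow_le_pow_right₀ ht1 (by omega)
      have h6 : t ^ 2 ≤ t ^ (2 * j) * Real.exp ((2 * ρ.re - 1) * t) :=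
        h5.trans (le_mul_of_one_le_right (by positivity) h4)
      calc 2 * C * t < (t * d) * t := mul_lt_mul_of_pos_right ht ht0
        _ = d * t ^ 2 := by ring
        _ ≤ _ := mul_le_mul_of_nonneg_left h6 hd.le
  have hV2 : Tendsto (fun N : ℕ => Vn κ q r N / 2) atTop atTop := (Vn_tendsto hκ hq hr).atTop_div_const (by norm_num)
  obtain ⟨N, hN1, hN2, hN3, hN4⟩ := (hC.and_eventually ((hV2.eventually hev).and
    ((hV2.eventually hgrow).and (eventually_ge_atTop 1)))).exists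
  have h7 := hN2 N (fun n hn => by
    have := Vn_mono hκ hq hr hN4 hn.le
    linarith)
  linarith

/-- **RH and simple zeros from a linear bound at infinitely many places.** -/
theorem rh_simple {κ q r : ℝ} (hκ : 0 < κ) (hq : 0 < q) (hr : 0 ≤ r) {a : ℕ → ℝ} {R lm : ℝ} (h : Good a R lm)
    {C : ℝ} (hC : ∃ᶠ N : ℕ in atTop, Qn (psi a R lm) κ q r N ≤ C * Vn κ q r N) :
    (∀ s : ℂ, 1 / 2 < s.re → riemannZeta s ≠ 0) ∧
    ∀ ρ : ℂ, riemannZeta ρ = 0 → 0 < ρ.re → ρ.re = 1 / 2 ∧ deriv riemannZeta ρ ≠ 0 := by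
  have hlt1 : ∀ s : ℂ, riemannZeta s = 0 → s.re < 1 := by
    intro s hs
    by_contra hcon
    exact riemannZeta_ne_zero_of_one_le_re (not_lt.1 hcon) hs
  have hord : ∀ ρ : ℂ, riemannZeta ρ = 0 → ((0 + 1 : ℕ) : ℕ∞) ≤ analyticOrderAt riemannZeta ρ := by
    intro ρ hz
    refine le_trans ?_ (order_pos hz (hlt1 ρ hz))
    exact_mod_cast (by omega : 0 + 1 ≤ analyticOrderNatAt riemannZeta ρ - 1 + 1)
  have hRH : ∀ s : ℂ, 1 / 2 < s.re → riemannZeta s ≠ 0 := by
    intro s hs hz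
    obtain ⟨θ, t1, t2, t3, t4⟩ := supre hz
    obtain ⟨ρ', hz', hρ'⟩ := t4 (min (1 / (3 * κ)) (θ - 1 / 2)) (lt_min (by positivity) (by linarith))
    have m1 : min (1 / (3 * κ)) (θ - 1 / 2) ≤ 1 / (3 * κ) := min_le_left _ _
    have m2 : min (1 / (3 * κ)) (θ - 1 / 2) ≤ θ - 1 / 2 := min_le_right _ _
    have hθ' : ρ'.re ≤ θ := by
      by_contra hcon
      exact t3 ρ' (not_le.1 hcon) hz'
    exact no_zero hκ hq hr h hz' (by linarith) (hlt1 ρ' hz') hθ' t2 t3 (by linarith) (hord ρ' hz')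
      (Or.inl (by linarith)) hC
  have key : ∀ ρ : ℂ, riemannZeta ρ = 0 → ρ.re = 1 / 2 → deriv riemannZeta ρ ≠ 0 := by
    intro ρ hz hre hd
    exact no_zero hκ hq hr h hz hre.ge (hlt1 ρ hz) hre.le (by norm_num) hRH
      (by have : 0 < 1 / (3 * κ) := by positivity
          linarith) (order_two hz hd (hlt1 ρ hz)) (Or.inr le_rfl) hC
  refine ⟨hRH, fun ρ hz h0 => ?_⟩
  have h1 := hlt1 ρ hz
  have hle : ρ.re ≤ 1 / 2 := by
    by_contra hcon
    exact hRH ρ (not_le.1 hcon) hz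
  have hge : 1 / 2 ≤ ρ.re := by
    by_contra hcon
    have hre : (1 - ρ).re = 1 - ρ.re := by simp
    exact hRH (1 - ρ) (by rw [hre]; linarith [not_le.1 hcon]) (refl_zero ρ hz h0 h1)
  have hre : ρ.re = 1 / 2 := le_antisymm hle hge
  exact ⟨hre, key ρ hz hre⟩

end U441.MP
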