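import Pool.Agent.U441.MP.Xc
import Pool.Agent.U441.MP.Xd

/-! Weak Mertens along powers, part 5: the energy of the smoothed function is bounded by the energy along the
powers. -/

set_option autoImplicit false

open MeasureTheory Filter Topology Set Complex

namespace U441.MP

open H313.TK
open Pool.Agent.H295R2 (mf ww Mx)
open Pool.Agent.U645.LB (Tw)

/-- antiderivative of the kernel -/
noncomputable def kG (h x : ℝ) : ℝ := ∫ u in (0:ℝ)..x, kb h u

lemma kG_deriv (h x : ℝ) : HasDerivAt (kG h) (kb h x) x :=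
  ((kb_cont h).integral_hasStrictDerivAt 0 x).hasDerivAt

lemma kG_diff {h a b : ℝ} (h0 : 0 < h) (hab : b ≤ a) : kG h a - kG h b ≤ 1 := by
  unfold kG
  rw [intervalIntegral.integral_interval_sub_left ((kb_cont h).intervalIntegrable _ _)
    ((kb_cont h).intervalIntegrable _ _), intervalIntegral.integral_of_le hab, ← kb_one h0]
  exact setIntegral_le_integral (kb_int h0) (Eventually.of_forall fun x => kb_nonneg h0 x)

lemma kb_lip {h : ℝ} (h0 : 0 < h) (x y : ℝ) : |kb h y - kb h x| ≤ 15 * (h⁻¹ * h⁻¹) * |y - x| := by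
  have := convex_univ.norm_image_sub_le_of_norm_hasDerivWithin_le (f := kb h)
    (f' := fun v => h⁻¹ * (bd (v / h) * h⁻¹)) (C := 15 * (h⁻¹ * h⁻¹)) (x := x) (y := y)
    (fun v _ => (kb_deriv h0 v).hasDerivWithinAt) (fun v _ => by
      rw [Real.norm_eq_abs]
      exact kb_d_le h0 v) (mem_univ x) (mem_univ y)
  rwa [Real.norm_eq_abs, Real.norm_eq_abs] at this

/-- one step -/
lemma w_step {κ q r h : ℝ} (hκ : 0 < κ) (hq : 0 < q) (hr : 0 ≤ r) (h0 : 0 < h) {t δ : ℝ}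
    (hδ : κ * q * Real.exp (-((t - h - κ * Real.log 2) / κ)) ≤ δ) {n : ℕ} (hn : 1 ≤ n) :
    kb h (t - Vn κ q r (n + 1)) * cn κ q r (n + 1) ≤
      (kG h (t - Vn κ q r n) - kG h (t - Vn κ q r (n + 1))) + 15 * (h⁻¹ * h⁻¹) * δ *
        (min (max (Vn κ q r (n + 1)) (t - h - κ * Real.log 2)) t -
          min (max (Vn κ q r n) (t - h - κ * Real.log 2)) t) := by
  have hn1 : (1:ℝ) ≤ n := by exact_mod_cast hn
  have hy := yy_pos hq hr (by linarith : (0:ℝ) < n)
  have hy' := yy_pos hq hr (by positivity : (0:ℝ) < ((n + 1 : ℕ) : ℝ))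
  have hd : yy q r ((n + 1 : ℕ) : ℝ) = yy q r n + q := by unfold yy; push_cast; ring
  have hqy : q ≤ yy q r n := by unfold yy; nlinarith
  have hlt : yy q r n < yy q r ((n + 1 : ℕ) : ℝ) := by rw [hd]; linarith
  have hlog : Real.log (yy q r n) < Real.log (yy q r ((n + 1 : ℕ) : ℝ)) := Real.log_lt_log hy hlt
  have hlog2 : Real.log (yy q r ((n + 1 : ℕ) : ℝ)) ≤ Real.log (yy q r n) + Real.log 2 := by
    rw [← Real.log_mul hy.ne' (by norm_num)]
    exact Real.log_le_log hy' (by rw [hd]; linarith)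
  have hlog3 : q / yy q r ((n + 1 : ℕ) : ℝ) ≤ Real.log (yy q r ((n + 1 : ℕ) : ℝ)) - Real.log (yy q r n) := by
    have h1 := Real.log_le_sub_one_of_pos (div_pos hy hy')
    rw [Real.log_div hy.ne' hy'.ne'] at h1
    have h2 : yy q r n / yy q r ((n + 1 : ℕ) : ℝ) = 1 - q / yy q r ((n + 1 : ℕ) : ℝ) := by
      rw [hd]
      field_simp
      ring
    rw [h2] at h1
    linarith
  have hlog4 : Real.log (yy q r ((n + 1 : ℕ) : ℝ)) - Real.log (yy q r n) ≤ q / yy q r n := by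
    have h1 := Real.log_le_sub_one_of_pos (div_pos hy' hy)
    rw [Real.log_div hy'.ne' hy.ne'] at h1
    have h2 : yy q r ((n + 1 : ℕ) : ℝ) / yy q r n = 1 + q / yy q r n := by
      rw [hd]
      field_simp
    rw [h2] at h1
    linarith
  obtain ⟨V, hV⟩ : ∃ V : ℝ, V = Vn κ q r n := ⟨_, rfl⟩
  obtain ⟨V', hV'⟩ : ∃ V' : ℝ, V' = Vn κ q r (n + 1) := ⟨_, rfl⟩
  have eV : V = κ * Real.log (yy q r n) := hV
  have eV' : V' = κ * Real.log (yy q r ((n + 1 : ℕ) : ℝ)) := hV'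
  rw [← hV, ← hV']
  have hVV : V < V' := by rw [eV, eV']; exact mul_lt_mul_of_pos_left hlog hκ
  have hΔ2 : V' - V ≤ κ * Real.log 2 := by rw [eV, eV']; nlinarith
  have hΔ4 : V' - V ≤ κ * (q / yy q r n) := by rw [eV, eV']; nlinarith
  have hc : cn κ q r (n + 1) ≤ V' - V := by
    unfold cn
    rw [eV, eV', ← mul_sub]
    exact mul_le_mul_of_nonneg_left hlog3 hκ.le
  have hc0 := cn_pos hκ hq hr (by omega : 1 ≤ n + 1)
  have hδ0 : 0 ≤ δ := le_trans (by positivity) hδ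
  have hi : 0 ≤ 15 * (h⁻¹ * h⁻¹) := by positivity
  -- mean value
  have hab : t - V' < t - V := by linarith
  obtain ⟨ξ, hξ, hξ2⟩ := exists_hasDerivAt_eq_slope (kG h) (kb h) hab
    (fun x _ => (kG_deriv h x).continuousAt.continuousWithinAt) (fun x _ => kG_deriv h x)
  have hξ3 : kG h (t - V) - kG h (t - V') = kb h ξ * (V' - V) := by
    rw [hξ2]
    have : t - V - (t - V') = V' - V := by ring
    rw [this]
    field_simp [(sub_pos.2 hVV).ne']
  rw [hξ3]
  by_cases hz : t - V' ≤ 0 ∨ h ≤ t - V'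
  · rw [kb_zero h0 hz, zero_mul]
    have h1 : 0 ≤ kb h ξ * (V' - V) := mul_nonneg (kb_nonneg h0 _) (by linarith)
    have h2 : min (max V (t - h - κ * Real.log 2)) t ≤ min (max V' (t - h - κ * Real.log 2)) t :=
      min_le_min_right _ (max_le_max_right _ hVV.le)
    have h3 : 0 ≤ 15 * (h⁻¹ * h⁻¹) * δ * (min (max V' (t - h - κ * Real.log 2)) t -
        min (max V (t - h - κ * Real.log 2)) t) := mul_nonneg (mul_nonneg hi hδ0) (by linarith)
    linarith
  · push Not at hz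
    have hl2 : 0 ≤ κ * Real.log 2 := mul_nonneg hκ.le (Real.log_nonneg (by norm_num))
    have e1 : min (max V' (t - h - κ * Real.log 2)) t = V' := by
      rw [max_eq_left (by linarith), min_eq_left (by linarith)]
    have e2 : min (max V (t - h - κ * Real.log 2)) t = V := by
      rw [max_eq_left (by linarith), min_eq_left (by linarith)]
    rw [e1, e2]
    have hyn : Real.exp ((t - h - κ * Real.log 2) / κ) ≤ yy q r n := by
      rw [← Real.exp_log hy]
      apply Real.exp_le_exp.2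
      rw [div_le_iff₀ hκ]
      have : V = κ * Real.log (yy q r n) := eV
      linarith
    have hΔ : V' - V ≤ δ := by
      refine hΔ4.trans (le_trans ?_ hδ)
      rw [Real.exp_neg, mul_assoc, ← div_eq_mul_inv]
      refine mul_le_mul_of_nonneg_left ?_ hκ.le
      exact div_le_div_of_nonneg_left hq.le (Real.exp_pos _) hyn
    have h3 := kb_lip h0 ξ (t - V')
    have h4 : |t - V' - ξ| ≤ V' - V := by
      rw [abs_le]
      constructor <;> linarith [hξ.1, hξ.2]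
    have h5 : kb h (t - V') ≤ kb h ξ + 15 * (h⁻¹ * h⁻¹) * (V' - V) := by
      have h6 := (abs_le.1 h3).2
      have h7 := mul_le_mul_of_nonneg_left h4 hi
      linarith
    calc kb h (t - V') * cn κ q r (n + 1) ≤ kb h (t - V') * (V' - V) :=
          mul_le_mul_of_nonneg_left hc (kb_nonneg h0 _)
      _ ≤ (kb h ξ + 15 * (h⁻¹ * h⁻¹) * (V' - V)) * (V' - V) := mul_le_mul_of_nonneg_right h5 (by linarith)
      _ = kb h ξ * (V' - V) + 15 * (h⁻¹ * h⁻¹) * (V' - V) * (V' - V) := by ring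
      _ ≤ kb h ξ * (V' - V) + 15 * (h⁻¹ * h⁻¹) * δ * (V' - V) := by
          have h8 := mul_le_mul_of_nonneg_left hΔ hi
          have h9 := mul_le_mul_of_nonneg_right h8 (by linarith : 0 ≤ V' - V)
          linarith

/-- total weight of the kernel -/
lemma w_total {κ q r h : ℝ} (hκ : 0 < κ) (hq : 0 < q) (hr : 0 ≤ r) (h0 : 0 < h) {t δ : ℝ}
    (hδ : κ * q * Real.exp (-((t - h - κ * Real.log 2) / κ)) ≤ δ) (ht : Vn κ q r 1 + h ≤ t) (N : ℕ) :
    ∑ n ∈ Finset.Icc 1 N, kb h (t - Vn κ q r n) * cn κ q r n ≤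
      1 + 15 * (h⁻¹ * h⁻¹) * δ * (h + κ * Real.log 2) := by
  have hδ0 : 0 ≤ δ := le_trans (by positivity) hδ
  have hl2 : 0 ≤ κ * Real.log 2 := mul_nonneg hκ.le (Real.log_nonneg (by norm_num))
  have hi : 0 ≤ 15 * (h⁻¹ * h⁻¹) := by positivity
  have hR : 0 ≤ 15 * (h⁻¹ * h⁻¹) * δ * (h + κ * Real.log 2) := by positivity
  rcases Nat.eq_zero_or_pos N with rfl | hN
  · simp only [show Finset.Icc 1 0 = ∅ from rfl, Finset.sum_empty]
    linarith
  have hind : ∑ n ∈ Finset.Icc 1 N, kb h (t - Vn κ q r n) * cn κ q r n ≤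
      (kG h (t - Vn κ q r 1) - kG h (t - Vn κ q r N)) + 15 * (h⁻¹ * h⁻¹) * δ *
        (min (max (Vn κ q r N) (t - h - κ * Real.log 2)) t -
          min (max (Vn κ q r 1) (t - h - κ * Real.log 2)) t) := by
    induction N, hN using Nat.le_induction with
    | base =>
      rw [show (Nat.succ 0) = 1 from rfl, Finset.Icc_self, Finset.sum_singleton,
        kb_zero h0 (Or.inr (by linarith : h ≤ t - Vn κ q r 1))]
      simp
    | succ n hn ih =>
      rw [Finset.sum_Icc_succ_top (by omega)]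
      have := w_step hκ hq hr h0 hδ hn
      linarith
  have h1 := kG_diff h0 (by linarith [Vn_mono hκ hq hr le_rfl hN] : t - Vn κ q r N ≤ t - Vn κ q r 1)
  have h2 : min (max (Vn κ q r N) (t - h - κ * Real.log 2)) t -
      min (max (Vn κ q r 1) (t - h - κ * Real.log 2)) t ≤ h + κ * Real.log 2 := by
    have h3 : min (max (Vn κ q r N) (t - h - κ * Real.log 2)) t ≤ t := min_le_right _ _
    have h4 : t - h - κ * Real.log 2 ≤ min (max (Vn κ q r 1) (t - h - κ * Real.log 2)) t :=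
      le_min (le_max_right _ _) (by linarith)
    linarith
  have h5 := mul_le_mul_of_nonneg_left h2 (mul_nonneg hi hδ0)
  linarith

lemma w_ev {κ q r h : ℝ} (hκ : 0 < κ) (hq : 0 < q) (hr : 0 ≤ r) (h0 : 0 < h) {ε : ℝ} (hε : 0 < ε) :
    ∃ t₀ : ℝ, 0 ≤ t₀ ∧ ∀ t : ℝ, t₀ ≤ t → ∀ N : ℕ,
      ∑ n ∈ Finset.Icc 1 N, kb h (t - Vn κ q r n) * cn κ q r n ≤ 1 + ε := by
  have h1 : Tendsto (fun t : ℝ => 1 + 15 * (h⁻¹ * h⁻¹) * (κ * q * Real.exp (-((t - h - κ * Real.log 2) / κ))) *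
      (h + κ * Real.log 2)) atTop (𝓝 (1 + 15 * (h⁻¹ * h⁻¹) * (κ * q * 0) * (h + κ * Real.log 2))) := by
    refine Tendsto.const_add _ (Tendsto.mul_const _ (Tendsto.const_mul _ (Tendsto.const_mul _ ?_)))
    refine Real.tendsto_exp_atBot.comp (tendsto_neg_atTop_atBot.comp ?_)
    refine Tendsto.atTop_div_const hκ ?_
    exact tendsto_atTop_add_const_right _ _ (tendsto_atTop_add_const_right _ _ tendsto_id)
  have h2 : 1 + 15 * (h⁻¹ * h⁻¹) * (κ * q * 0) * (h + κ * Real.log 2) < 1 + ε := by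
    rw [mul_zero, mul_zero, zero_mul]
    linarith
  obtain ⟨T, hT⟩ := eventually_atTop.1 ((h1.eventually (gt_mem_nhds h2)).and
    (eventually_ge_atTop (Vn κ q r 1 + h)))
  refine ⟨max T 0, le_max_right _ _, fun t ht N => ?_⟩
  obtain ⟨h3, h4⟩ := hT t ((le_max_left _ _).trans ht)
  exact (w_total hκ hq hr h0 le_rfl h4 N).trans h3.le

lemma mm_eq (v : ℝ) : mm v = Mx (Real.exp v) := by
  unfold mm MM Pool.Agent.H295R2.Mx Pool.Agent.H295R2.mu
  rfl

lemma fs_eq (h t : ℝ) : fs h t = ((Real.exp (-(t / 2)) : ℝ) : ℂ) * Tw mm (fun v => (kb h v : ℂ)) t := by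
  unfold fs mg Tw
  rw [← integral_const_mul]
  refine integral_congr_ae (Eventually.of_forall fun u => ?_)
  simp only
  unfold Pool.Agent.H295R2.mf gr
  rw [mm_eq]
  have e : cexp (-(1 / 2 * ((t - u : ℝ) : ℂ))) * cexp (-(1 / 2 * (u:ℂ))) = ((Real.exp (-(t / 2)) : ℝ) : ℂ) := by
    rw [← Complex.exp_add]
    push_cast
    congr 1
    ring
  rw [← e]
  ring

/-- the smoothed function is bounded by the energy along the powers, pointwise -/
lemma fs_sq {κ q r h lam w₂ : ℝ} (hκ : 0 < κ) (hq : 0 < q) (hr : 0 ≤ r) (h0 : 0 < h) (h1 : h ≤ 1)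
    (hl0 : 0 < lam) (hl1 : lam < 1 / 2) (hw0 : 0 ≤ w₂) (hl : w₂ < lam * κ + 1) (hS : Samp (psi muR 0 1) κ q r w₂)
    {ε : ℝ} (hε : 0 < ε) :
    ∃ t₀ K : ℝ, 0 ≤ t₀ ∧ 0 ≤ K ∧ ∀ N : ℕ, 1 ≤ N → ∀ t : ℝ, t₀ ≤ t → t ≤ Vn κ q r N →
      ‖fs h t‖ ^ 2 ≤ (1 + ε) ^ 2 * (∑ n ∈ Finset.Icc 1 N,
        (Sn (psi muR 0 1) κ q r n ^ 2 * Real.exp (-Vn κ q r n) * cn κ q r n) * kb h (t - Vn κ q r n)) +
        K * Real.exp (-((1 - 2 * lam) * t)) := by
  obtain ⟨G, hG, hker⟩ := kb_ker h0 h1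
  obtain ⟨C, hC, hcmp⟩ := cmp hκ hq hr hw0 hS hG hker hl0 (by linarith) hl
  obtain ⟨t₀, ht₀, hw⟩ := w_ev hκ hq hr h0 hε
  refine ⟨t₀, (1 + ε⁻¹) * C ^ 2, ht₀, by positivity, fun N hN t ht htN => ?_⟩
  have ht0 : 0 ≤ t := ht₀.trans ht
  obtain ⟨N', hN', hNN⟩ := ((hcmp t ht0).and (eventually_ge_atTop N)).exists
  rw [cut_mu] at hN'
  have e1 : ∑ n ∈ Finset.Icc 1 N', (psi muR 0 1 (κ * Real.log (yy q r n)) : ℂ) *
      wt κ q r t (fun v => (kb h v : ℂ)) n =
      ((∑ n ∈ Finset.Icc 1 N, Sn (psi muR 0 1) κ q r n * (kb h (t - Vn κ q r n) * cn κ q r n) : ℝ) : ℂ) := by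
    rw [← Finset.sum_subset (Finset.Icc_subset_Icc_right hNN)]
    · push_cast
      refine Finset.sum_congr rfl fun n _ => ?_
      unfold wt Sn Vn cn
      push_cast
      ring
    · intro n hn1 hn2
      rw [Finset.mem_Icc] at hn1 hn2
      have hlt : N < n := by omega
      have := Vn_mono hκ hq hr hN hlt.le
      have hz : kb h (t - κ * Real.log (yy q r n)) = 0 := by
        apply kb_zero h0 (Or.inl _)
        have e : Vn κ q r n = κ * Real.log (yy q r n) := rfl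
        rw [← e]
        linarith
      unfold wt
      simp only
      rw [hz]
      simp
  rw [e1] at hN'
  set A : ℝ := ∑ n ∈ Finset.Icc 1 N, Sn (psi muR 0 1) κ q r n * (kb h (t - Vn κ q r n) * cn κ q r n) with hA
  set E : ℝ := Real.exp (-(t / 2)) with hE
  have hE0 : 0 < E := Real.exp_pos _
  have h2 : ‖fs h t‖ ≤ E * |A| + C * Real.exp (lam * t) * E := by
    rw [fs_eq, norm_mul, Complex.norm_real, Real.norm_of_nonneg hE0.le]
    have h3 := norm_sub_norm_le (Tw mm (fun v => (kb h v : ℂ)) t) (A : ℂ)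
    rw [norm_sub_rev, Complex.norm_real, Real.norm_eq_abs] at h3
    have h4 : ‖Tw mm (fun v => (kb h v : ℂ)) t‖ ≤ |A| + C * Real.exp (lam * t) := by linarith
    calc E * ‖Tw mm (fun v => (kb h v : ℂ)) t‖ ≤ E * (|A| + C * Real.exp (lam * t)) :=
          mul_le_mul_of_nonneg_left h4 hE0.le
      _ = _ := by ring
  -- Cauchy Schwarz
  have h5 := Finset.sum_sq_le_sum_mul_sum_of_sq_eq_mul (Finset.Icc 1 N)
    (r := fun n => Sn (psi muR 0 1) κ q r n * (kb h (t - Vn κ q r n) * cn κ q r n))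
    (f := fun n => kb h (t - Vn κ q r n) * cn κ q r n)
    (g := fun n => Sn (psi muR 0 1) κ q r n ^ 2 * (kb h (t - Vn κ q r n) * cn κ q r n))
    (fun n hn => by
      rw [Finset.mem_Icc] at hn
      exact mul_nonneg (kb_nonneg h0 _) (cn_pos hκ hq hr hn.1).le)
    (fun n hn => by
      rw [Finset.mem_Icc] at hn
      exact mul_nonneg (sq_nonneg _) (mul_nonneg (kb_nonneg h0 _) (cn_pos hκ hq hr hn.1).le))
    (fun n _ => by ring)
  have hB0 : 0 ≤ ∑ n ∈ Finset.Icc 1 N, Sn (psi muR 0 1) κ q r n ^ 2 * (kb h (t - Vn κ q r n) * cn κ q r n) :=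
    Finset.sum_nonneg fun n hn => by
      rw [Finset.mem_Icc] at hn
      exact mul_nonneg (sq_nonneg _) (mul_nonneg (kb_nonneg h0 _) (cn_pos hκ hq hr hn.1).le)
  have h6 : A ^ 2 ≤ (1 + ε) *
      ∑ n ∈ Finset.Icc 1 N, Sn (psi muR 0 1) κ q r n ^ 2 * (kb h (t - Vn κ q r n) * cn κ q r n) :=
    h5.trans (mul_le_mul_of_nonneg_right (hw t ht N) hB0)
  have h7 : E ^ 2 * ∑ n ∈ Finset.Icc 1 N, Sn (psi muR 0 1) κ q r n ^ 2 * (kb h (t - Vn κ q r n) * cn κ q r n) ≤
      ∑ n ∈ Finset.Icc 1 N,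
        (Sn (psi muR 0 1) κ q r n ^ 2 * Real.exp (-Vn κ q r n) * cn κ q r n) * kb h (t - Vn κ q r n) := by
    rw [Finset.mul_sum]
    refine Finset.sum_le_sum fun n hn => ?_
    rw [Finset.mem_Icc] at hn
    have hcn := cn_pos hκ hq hr hn.1
    have hk := kb_nonneg h0 (t - Vn κ q r n)
    by_cases hz : t - Vn κ q r n ≤ 0 ∨ h ≤ t - Vn κ q r n
    · rw [kb_zero h0 hz]
      simp
    · push Not at hz
      have h8 : E ^ 2 ≤ Real.exp (-Vn κ q r n) := by
        rw [hE, ← Real.exp_nat_mul]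
        apply Real.exp_le_exp.2
        push_cast
        linarith
      have h9 : 0 ≤ Sn (psi muR 0 1) κ q r n ^ 2 * (kb h (t - Vn κ q r n) * cn κ q r n) := by positivity
      calc E ^ 2 * (Sn (psi muR 0 1) κ q r n ^ 2 * (kb h (t - Vn κ q r n) * cn κ q r n)) ≤
          Real.exp (-Vn κ q r n) * (Sn (psi muR 0 1) κ q r n ^ 2 * (kb h (t - Vn κ q r n) * cn κ q r n)) :=
            mul_le_mul_of_nonneg_right h8 h9
        _ = _ := by ring
  have h10 : (C * Real.exp (lam * t) * E) ^ 2 = C ^ 2 * Real.exp (-((1 - 2 * lam) * t)) := by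
    rw [mul_pow, mul_pow, hE, ← Real.exp_nat_mul, ← Real.exp_nat_mul, mul_assoc, ← Real.exp_add]
    congr 2
    push_cast
    ring
  have h11 : (E * |A| + C * Real.exp (lam * t) * E) ^ 2 ≤
      (1 + ε) * (E * |A|) ^ 2 + (1 + ε⁻¹) * (C * Real.exp (lam * t) * E) ^ 2 := by
    have hεi : ε * ε⁻¹ = 1 := mul_inv_cancel₀ hε.ne'
    have h12 : 0 ≤ ε⁻¹ * (ε * (E * |A|) - C * Real.exp (lam * t) * E) ^ 2 := by positivity
    have h13 : ε⁻¹ * (ε * (E * |A|) - C * Real.exp (lam * t) * E) ^ 2 =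
        ε * (E * |A|) ^ 2 - 2 * ((E * |A|) * (C * Real.exp (lam * t) * E)) +
          ε⁻¹ * (C * Real.exp (lam * t) * E) ^ 2 := by
      linear_combination (ε * (E * |A|) ^ 2 - 2 * ((E * |A|) * (C * Real.exp (lam * t) * E))) * hεi
    rw [h13] at h12
    nlinarith
  have h14 : (E * |A|) ^ 2 = E ^ 2 * A ^ 2 := by rw [mul_pow, sq_abs]
  calc ‖fs h t‖ ^ 2 ≤ (E * |A| + C * Real.exp (lam * t) * E) ^ 2 := pow_le_pow_left₀ (norm_nonneg _) h2 2
    _ ≤ (1 + ε) * (E ^ 2 * A ^ 2) + (1 + ε⁻¹) * (C ^ 2 * Real.exp (-((1 - 2 * lam) * t))) := by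
        rw [← h14, ← h10]; exact h11
    _ ≤ (1 + ε) * (E ^ 2 * ((1 + ε) *
          ∑ n ∈ Finset.Icc 1 N, Sn (psi muR 0 1) κ q r n ^ 2 * (kb h (t - Vn κ q r n) * cn κ q r n))) +
          (1 + ε⁻¹) * (C ^ 2 * Real.exp (-((1 - 2 * lam) * t))) := by gcongr
    _ = (1 + ε) ^ 2 * (E ^ 2 *
          ∑ n ∈ Finset.Icc 1 N, Sn (psi muR 0 1) κ q r n ^ 2 * (kb h (t - Vn κ q r n) * cn κ q r n)) +
          (1 + ε⁻¹) * C ^ 2 * Real.exp (-((1 - 2 * lam) * t)) := by ring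
    _ ≤ _ := by
        have := mul_le_mul_of_nonneg_left h7 (by positivity : 0 ≤ (1 + ε) ^ 2)
        linarith

/-- the energy bound -/
theorem J_upper {κ q r h lam w₂ : ℝ} (hκ : 0 < κ) (hq : 0 < q) (hr : 0 ≤ r) (h0 : 0 < h) (h1 : h ≤ 1)
    (hl0 : 0 < lam) (hl1 : lam < 1 / 2) (hw0 : 0 ≤ w₂) (hl : w₂ < lam * κ + 1) (hS : Samp (psi muR 0 1) κ q r w₂)
    {ε : ℝ} (hε : 0 < ε) :
    ∃ K : ℝ, 0 ≤ K ∧ ∀ N : ℕ, 1 ≤ N → Je (fs h) (Vn κ q r N) ≤ (1 + ε) ^ 2 * Qn (psi muR 0 1) κ q r N + K := by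
  obtain ⟨t₀, K, ht₀, hK, hb⟩ := fs_sq hκ hq hr h0 h1 hl0 hl1 hw0 hl hS hε
  have hlam : 0 < 1 - 2 * lam := by linarith
  refine ⟨t₀ * Real.exp t₀ ^ 2 + K / (1 - 2 * lam), by positivity, fun N hN => ?_⟩
  set L : ℝ := Vn κ q r N with hL
  set wq : ℕ → ℝ := fun n => Sn (psi muR 0 1) κ q r n ^ 2 * Real.exp (-Vn κ q r n) * cn κ q r n with hwq
  have hwq0 : ∀ n ∈ Finset.Icc 1 N, 0 ≤ wq n := by
    intro n hn
    rw [Finset.mem_Icc] at hn
    have := cn_pos hκ hq hr hn.1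
    rw [hwq]
    positivity
  set F1 : ℝ → ℝ := (Ioc (0:ℝ) t₀).indicator (fun _ => Real.exp t₀ ^ 2) with hF1
  set F2 : ℝ → ℝ := fun t => (1 + ε) ^ 2 * ∑ n ∈ Finset.Icc 1 N, wq n * kb h (t - Vn κ q r n) with hF2
  set F3 : ℝ → ℝ := (Ioi (0:ℝ)).indicator (fun t => K * Real.exp (-(1 - 2 * lam) * t)) with hF3
  have i1 : Integrable F1 := by
    rw [hF1, integrable_indicator_iff measurableSet_Ioc]
    exact integrableOn_const (by simp)
  have i2' : ∀ n ∈ Finset.Icc 1 N, Integrable (fun t => wq n * kb h (t - Vn κ q r n)) := fun n _ =>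
    ((kb_int h0).comp_sub_right _).const_mul _
  have i2 : Integrable F2 := (integrable_finset_sum _ i2').const_mul _
  have i3 : Integrable F3 := by
    rw [hF3, integrable_indicator_iff measurableSet_Ioi]
    exact ((integrableOn_exp_mul_Ioi (by linarith : -(1 - 2 * lam) < 0) 0)).const_mul K
  have n1 : ∀ t, 0 ≤ F1 t := fun t => indicator_nonneg (fun _ _ => by positivity) t
  have n2 : ∀ t, 0 ≤ F2 t := fun t => mul_nonneg (by positivity)
    (Finset.sum_nonneg fun n hn => mul_nonneg (hwq0 n hn) (kb_nonneg h0 _))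
  have n3 : ∀ t, 0 ≤ F3 t := fun t => indicator_nonneg (fun _ _ => by positivity) t
  have hpt : ∀ t ∈ Ioc 0 L, ‖fs h t‖ ^ 2 ≤ F1 t + F2 t + F3 t := by
    intro t ht
    rcases le_or_gt t t₀ with h2 | h2
    · have h3 : ‖fs h t‖ ≤ Real.exp t₀ := mg_norm h0 (by norm_num) h2
      have h4 : F1 t = Real.exp t₀ ^ 2 := indicator_of_mem (show t ∈ Ioc 0 t₀ from ⟨ht.1, h2⟩) _
      have h5 := pow_le_pow_left₀ (norm_nonneg _) h3 2
      linarith [n2 t, n3 t]
    · have h3 := hb N hN t h2.le ht.2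
      have h4 : F3 t = K * Real.exp (-((1 - 2 * lam) * t)) := by
        rw [hF3, indicator_of_mem (show t ∈ Ioi (0:ℝ) from ht.1)]
        congr 2
        ring
      rw [h4]
      have h5 := n1 t
      have h6 : F2 t = (1 + ε) ^ 2 * ∑ n ∈ Finset.Icc 1 N, wq n * kb h (t - Vn κ q r n) := rfl
      rw [h6]
      linarith
  have i0 : IntegrableOn (fun s => ‖fs h s‖ ^ 2) (Ioc 0 L) :=
    iOn_sq (mg_meas h _) (K := Real.exp L) fun s hs => mg_norm h0 (by norm_num) hs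
  have i12 : Integrable (fun t => F1 t + F2 t) := i1.add i2
  have iall : Integrable (fun t => F1 t + F2 t + F3 t) := i12.add i3
  have h7 : Je (fs h) L ≤ ∫ t, (F1 t + F2 t + F3 t) := by
    unfold Je
    refine (setIntegral_mono_on i0 iall.integrableOn measurableSet_Ioc hpt).trans ?_
    exact setIntegral_le_integral iall (Eventually.of_forall fun t => by
      have := n1 t
      have := n2 t
      have := n3 t
      simp only [Pi.zero_apply]
      linarith)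
  have e1 : ∫ t, F1 t = t₀ * Real.exp t₀ ^ 2 := by
    rw [hF1, integral_indicator measurableSet_Ioc, setIntegral_const]
    simp [ht₀]
  have e2 : ∫ t, F2 t = (1 + ε) ^ 2 * Qn (psi muR 0 1) κ q r N := by
    rw [hF2, integral_const_mul, integral_finset_sum _ i2']
    congr 1
    unfold Qn
    refine Finset.sum_congr rfl fun n _ => ?_
    rw [integral_const_mul, integral_sub_right_eq_self (fun x => kb h x), kb_one h0, mul_one]
  have e3 : ∫ t, F3 t = K / (1 - 2 * lam) := by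
    rw [hF3, integral_indicator measurableSet_Ioi, integral_const_mul,
      integral_exp_mul_Ioi (by linarith : -(1 - 2 * lam) < 0)]
    rw [mul_zero, Real.exp_zero, neg_div_neg_eq]
    ring
  rw [integral_add i12 i3, integral_add i1 i2, e1, e2, e3] at h7
  linarith

end U441.MP
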