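import Pool.Agent.U441.MP.Xe

/-! Weak Mertens along powers, part 6: the sum over the zeros. -/

set_option autoImplicit false

open MeasureTheory Filter Topology Set Complex

namespace U441.MP

open H313.TK
open Pool.Agent.H295R2 (ww)
open Pool.Agent.U645.LB (order_pos)

lemma Qn_nonneg {φ : ℝ → ℝ} {κ q r : ℝ} (hκ : 0 < κ) (hq : 0 < q) (hr : 0 ≤ r) (N : ℕ) : 0 ≤ Qn φ κ q r N := by
  unfold Qn
  refine Finset.sum_nonneg fun n hn => ?_
  rw [Finset.mem_Icc] at hn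
  have := cn_pos hκ hq hr hn.1
  positivity

/-- **The sum over the zeros is bounded by the constant.** -/
theorem zsum {κ q r : ℝ} (hκ : 0 < κ) (hq : 0 < q) (hr : 0 ≤ r) {C : ℝ}
    (hC : ∃ᶠ N : ℕ in atTop, Qn (psi muR 0 1) κ q r N ≤ C * Vn κ q r N) (Z : Finset ℂ)
    (hZ : ∀ ρ ∈ Z, riemannZeta ρ = 0 ∧ 0 < ρ.re) : ∑ ρ ∈ Z, ‖ww ρ‖ ^ 2 ≤ C := by
  obtain ⟨hRH, hsim⟩ := rh_simple hκ hq hr goodM hC
  have hlt1 : ∀ s : ℂ, riemannZeta s = 0 → s.re < 1 := by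
    intro s hs
    by_contra hcon
    exact riemannZeta_ne_zero_of_one_le_re (not_lt.1 hcon) hs
  have hC0 : 0 ≤ C := by
    obtain ⟨N, h1, h2⟩ := (hC.and_eventually ((Vn_tendsto hκ hq hr).eventually_gt_atTop 0)).exists
    by_contra hcon
    have h3 := Qn_nonneg (φ := psi muR 0 1) hκ hq hr N
    nlinarith [not_le.1 hcon]
  rcases Z.eq_empty_or_nonempty with rfl | ⟨ρ₀, hρ₀⟩
  · simpa using hC0
  have hZ' : ∀ ρ ∈ Z, ρ.re = 1 / 2 ∧ riemannZeta ρ = 0 ∧ deriv riemannZeta ρ ≠ 0 := fun ρ hρ =>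
    ⟨(hsim ρ (hZ ρ hρ).1 (hZ ρ hρ).2).1, (hZ ρ hρ).1, (hsim ρ (hZ ρ hρ).1 (hZ ρ hρ).2).2⟩
  obtain ⟨hre, hz, hd⟩ := hZ' ρ₀ hρ₀
  have hord : ((0 + 1 : ℕ) : ℕ∞) ≤ analyticOrderAt riemannZeta ρ₀ := by
    refine le_trans ?_ (order_pos hz (hlt1 ρ₀ hz))
    exact_mod_cast (by omega : 0 + 1 ≤ analyticOrderNatAt riemannZeta ρ₀ - 1 + 1)
  obtain ⟨lam, w₂, hl0, hl1, hw0, hl, hS, -⟩ := hbig_of hκ hq hr goodM hz hre.ge (hlt1 ρ₀ hz) hre.le (by norm_num)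
    hRH (by have : 0 < 1 / (3 * κ) := by positivity
            linarith) hord
  rw [hre] at hl1
  set S : ℝ := ∑ ρ ∈ Z, ‖ww ρ‖ ^ 2 with hSdef
  have hS0 : 0 ≤ S := Finset.sum_nonneg fun _ _ => by positivity
  have hmain : ∀ ε : ℝ, 0 < ε → ε < 1 → (1 - ε) ^ 2 * S ≤ (1 + ε) ^ 2 * C + ε := by
    intro ε hε hε1
    set T : ℝ := 1 + ∑ ρ ∈ Z, ‖ρ‖ with hT
    have hT1 : 1 ≤ T := by
      have : 0 ≤ ∑ ρ ∈ Z, ‖ρ‖ := Finset.sum_nonneg fun _ _ => norm_nonneg _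
      linarith
    set h : ℝ := ε / (2 * T) with hh
    have h0 : 0 < h := by positivity
    have h1 : h ≤ 1 := by
      rw [hh, div_le_one (by positivity)]
      linarith
    have hρh : ∀ ρ ∈ Z, ‖ρ‖ * h ≤ ε / 2 := by
      intro ρ hρ
      have h2 : ‖ρ‖ ≤ T := by
        have := Finset.single_le_sum (f := fun ρ : ℂ => ‖ρ‖) (fun _ _ => norm_nonneg _) hρ
        have h' : ‖ρ‖ ≤ ∑ ρ ∈ Z, ‖ρ‖ := this
        linarith
      calc ‖ρ‖ * h ≤ T * h := mul_le_mul_of_nonneg_right h2 h0.le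
        _ = ε / 2 := by rw [hh]; field_simp
    obtain ⟨K, hK, hJ⟩ := J_upper hκ hq hr h0 h1 hl0 hl1 hw0 hl hS hε
    have hfreq : ∃ᶠ L in atTop, Je (fs h) L ≤ ((1 + ε) ^ 2 * C + ε) * L := by
      have h3 : ∃ᶠ N : ℕ in atTop, Je (fs h) (Vn κ q r N) ≤ ((1 + ε) ^ 2 * C + ε) * Vn κ q r N := by
        refine (hC.and_eventually (((Vn_tendsto hκ hq hr).eventually_ge_atTop (K / ε)).and
          (eventually_ge_atTop 1))).mono fun N hN => ?_
        obtain ⟨a1, a2, a3⟩ := hN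
        rw [div_le_iff₀ hε] at a2
        have a4 := hJ N a3
        have a5 := mul_le_mul_of_nonneg_left a1 (by positivity : 0 ≤ (1 + ε) ^ 2)
        linarith
      exact (Vn_tendsto hκ hq hr).frequently h3
    have hB := bessel_k h0 h1 Z hZ' hfreq
    refine le_trans ?_ hB
    rw [hSdef, Finset.mul_sum]
    refine Finset.sum_le_sum fun ρ hρ => ?_
    rw [norm_mul, mul_pow]
    refine mul_le_mul_of_nonneg_right ?_ (by positivity)
    have h4 := kh_near h0 (ρ := ρ) ((hρh ρ hρ).trans (by linarith))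
    have h5 := hρh ρ hρ
    have h6 : 1 - ε ≤ ‖kh h ρ‖ := by
      have h7 := norm_sub_norm_le (1:ℂ) (kh h ρ)
      rw [norm_sub_rev, norm_one] at h7
      linarith
    exact pow_le_pow_left₀ (by linarith) h6 2
  have l1 : Tendsto (fun ε : ℝ => (1 - ε) ^ 2 * S) (𝓝[>] 0) (𝓝 ((1 - 0) ^ 2 * S)) :=
    (Continuous.tendsto (by fun_prop) 0).mono_left nhdsWithin_le_nhds
  have l2 : Tendsto (fun ε : ℝ => (1 + ε) ^ 2 * C + ε) (𝓝[>] 0) (𝓝 ((1 + 0) ^ 2 * C + 0)) :=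
    (Continuous.tendsto (by fun_prop) 0).mono_left nhdsWithin_le_nhds
  have hev : ∀ᶠ ε : ℝ in 𝓝[>] 0, (1 - ε) ^ 2 * S ≤ (1 + ε) ^ 2 * C + ε := by
    filter_upwards [self_mem_nhdsWithin, nhdsWithin_le_nhds (gt_mem_nhds (one_pos))] with ε h1 h2
    exact hmain ε h1 h2
  have := le_of_tendsto_of_tendsto l1 l2 hev
  simpa using this

/-- the sum in the theorem -/
noncomputable def SX (k q r : ℝ) (N : ℕ) : ℝ :=
  ∑ n ∈ Finset.Icc 1 N, Sa muR ((q * n + r) ^ k) ^ 2 / ((q * n + r) ^ k * (q * n + r))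

lemma Qn_eq {k q r : ℝ} (hk : 0 < k) (hq : 0 < q) (hr : 0 ≤ r) (N : ℕ) :
    Qn (psi muR 0 1) k q r N = k * q * SX k q r N := by
  unfold Qn SX
  rw [Finset.mul_sum]
  refine Finset.sum_congr rfl fun n hn => ?_
  rw [Finset.mem_Icc] at hn
  have hy := yy_pos hq hr (by exact_mod_cast hn.1 : (0:ℝ) < n)
  have e0 : q * (n:ℝ) + r = yy q r n := rfl
  rw [e0]
  unfold Sn Vn cn
  rw [psi_at hy]
  have e1 : Real.exp (-(k * Real.log (yy q r n))) = (yy q r n ^ k)⁻¹ := by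
    rw [Real.exp_neg, Real.rpow_def_of_pos hy, mul_comm]
  rw [e1]
  have hx : 0 < yy q r n ^ k := Real.rpow_pos_of_pos hy _
  field_simp
  ring

lemma SX_nonneg {k q r : ℝ} (hq : 0 < q) (hr : 0 ≤ r) (N : ℕ) : 0 ≤ SX k q r N := by
  unfold SX
  exact Finset.sum_nonneg fun n _ => by positivity

/-- a bound for the sum at infinitely many places -/
lemma freq_Q {k q r C : ℝ} (hk : 0 < k) (hq : 0 < q) (hr : 0 ≤ r)
    (hf : ∃ᶠ N : ℕ in atTop, SX k q r N ≤ C * Real.log N) {ε : ℝ} (hε : 0 < ε) :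
    ∃ᶠ N : ℕ in atTop, Qn (psi muR 0 1) k q r N ≤ (q * C + ε) * Vn k q r N := by
  have hC0 : 0 ≤ C := by
    obtain ⟨N, h1, h2⟩ := (hf.and_eventually (eventually_ge_atTop 2)).exists
    by_contra hcon
    have h3 := SX_nonneg (k := k) hq hr N
    have h4 : 0 < Real.log N := Real.log_pos (by exact_mod_cast h2)
    nlinarith [not_le.1 hcon]
  have hlog : Tendsto (fun N : ℕ => Real.log (N:ℝ)) atTop atTop :=
    Real.tendsto_log_atTop.comp tendsto_natCast_atTop_atTop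
  refine (hf.and_eventually ((hlog.eventually_ge_atTop (-((q * C + ε) * Real.log q) / ε)).and
    (eventually_ge_atTop 1))).mono fun N hN => ?_
  obtain ⟨a1, a2, a3⟩ := hN
  have hN0 : (0:ℝ) < N := by exact_mod_cast a3
  rw [div_le_iff₀ hε] at a2
  rw [Qn_eq hk hq hr]
  have h5 : Real.log q + Real.log N ≤ Real.log (yy q r N) := by
    rw [← Real.log_mul hq.ne' hN0.ne']
    exact Real.log_le_log (by positivity) (by unfold yy; linarith)
  have h6 : q * C * Real.log N ≤ (q * C + ε) * (Real.log q + Real.log N) := by nlinarith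
  have h7 : (q * C + ε) * (Real.log q + Real.log N) ≤ (q * C + ε) * Real.log (yy q r N) :=
    mul_le_mul_of_nonneg_left h5 (by positivity)
  unfold Vn
  calc k * q * SX k q r N ≤ k * q * (C * Real.log N) := mul_le_mul_of_nonneg_left a1 (by positivity)
    _ = k * (q * C * Real.log N) := by ring
    _ ≤ k * ((q * C + ε) * Real.log (yy q r N)) := mul_le_mul_of_nonneg_left (h6.trans h7) hk.le
    _ = _ := by ring

/-- **Main theorem of the file.** -/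
theorem main_powers {k q r C : ℝ} (hk : 0 < k) (hq : 0 < q) (hr : 0 ≤ r)
    (hf : ∃ᶠ N : ℕ in atTop, SX k q r N ≤ C * Real.log N) :
    (∀ ρ : ℂ, riemannZeta ρ = 0 → 0 < ρ.re → ρ.re = 1 / 2 ∧ deriv riemannZeta ρ ≠ 0) ∧
    ∀ Z : Finset ℂ, (∀ ρ ∈ Z, riemannZeta ρ = 0 ∧ 0 < ρ.re) →
      ∑ ρ ∈ Z, 1 / ‖ρ * deriv riemannZeta ρ‖ ^ 2 ≤ q * C := by
  refine ⟨(rh_simple hk hq hr goodM (freq_Q hk hq hr hf one_pos)).2, fun Z hZ => ?_⟩
  refine le_of_forall_pos_le_add fun ε hε => ?_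
  have h1 := zsum hk hq hr (freq_Q hk hq hr hf hε) Z hZ
  refine le_trans (le_of_eq ?_) h1
  refine Finset.sum_congr rfl fun ρ _ => ?_
  unfold Pool.Agent.H295R2.ww
  rw [norm_div, norm_one, div_pow, one_pow]

end U441.MP
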