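import Pool.Agent.U441.MP.Xd

/-! Weak Mertens along powers, part 7: one-sided first moments. -/

set_option autoImplicit false

open MeasureTheory Filter Topology Set Complex

namespace U441.MP

open H313.TK
open Pool.Agent.H295R2 (fz)
open Pool.Agent.U645.LB (Tw kn kn_DK order_pos order_two)

/-- the one-sided first moment is large -/
theorem first_low {φ : ℝ → ℝ} {κ q r w₂ β c : ℝ} (hκ : 0 < κ) (hq : 0 < q) (hr : 0 ≤ r) (hφ : Samp φ κ q r w₂)
    (hβ0 : 1 / 2 ≤ β) (hc : 0 < c) (k : ℕ)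
    (hbig : ∀ᶠ t : ℝ in atTop, ∀ s : ℝ, s = 1 ∨ s = -1 → ∀ᶠ N : ℕ in atTop,
      c * (t ^ k * Real.exp (β * t)) ≤
        ∑ n ∈ Finset.Icc 1 N, max (s * Sn φ κ q r n) 0 * (kp2 (vn κ q r t n) * cn κ q r n)) :
    ∀ᶠ t : ℝ in atTop, ∀ s : ℝ, s = 1 ∨ s = -1 → ∀ N : ℕ, (∀ n : ℕ, N < n → 2 * t ≤ Vn κ q r n) →
      c / 2 * (t ^ k * Real.exp (β * t)) ≤
        ∑ n ∈ Finset.Icc 1 N, max (s * Sn φ κ q r n) 0 * (kp2 (vn κ q r t n) * cn κ q r n) := by
  have hC0 := C0_nonneg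
  obtain ⟨C₁, hC₁, htail⟩ := kp2_tail
  obtain ⟨C₄, hC₄, hwt⟩ := weight_sum hκ hq hr
  obtain ⟨B₀, hB₀, hneg⟩ := hφ.neg
  set C₂ : ℝ := 2 * ((C0 * 4) * Real.exp 3) + 1 with hC₂
  have hC₂0 : 0 < C₂ := by positivity
  set C₃ : ℝ := (1 + B₀) * C₁ with hC₃
  have hC₃0 : 0 < C₃ := by positivity
  have hsmall : ∀ᶠ t : ℝ in atTop, C₃ * C₄ * Real.exp (-(1 / 40 * t)) < c / 2 := by
    have h1 : Tendsto (fun t : ℝ => C₃ * C₄ * Real.exp (-(1 / 40 * t))) atTop (𝓝 (C₃ * C₄ * 0)) := by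
      refine Tendsto.const_mul _ (Real.tendsto_exp_atBot.comp ?_)
      exact tendsto_neg_atTop_atBot.comp (tendsto_id.const_mul_atTop (by norm_num))
    rw [mul_zero] at h1
    exact h1.eventually (gt_mem_nhds (by positivity))
  have hlarge : ∀ᶠ t : ℝ in atTop, 7 / 4 ≤ Real.log (7 / 10 * t) :=
    (Real.tendsto_log_atTop.comp (tendsto_id.const_mul_atTop (by norm_num : (0:ℝ) < 7 / 10))).eventually_ge_atTop _
  filter_upwards [hbig, hsmall, hlarge, eventually_ge_atTop 1] with t hb hs1 hlg ht1 s hs N hN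
  have habs : |s| = 1 := by rcases hs with h | h <;> rw [h] <;> simp
  obtain ⟨N', hN1, hNN⟩ := ((hb s hs).and (eventually_ge_atTop N)).exists
  have ht0 : 0 < t := by linarith
  set a : ℝ := 1 / 8 + 1 / 2 * Real.log (7 / 10 * t) with ha
  have ha1 : 1 ≤ a := by rw [ha]; linarith
  have hat : a ≤ t := by
    have := Real.log_le_sub_one_of_pos (by linarith : 0 < 7 / 10 * t)
    rw [ha]
    linarith
  have hae : Real.exp (2 * (a - 1 / 8)) = 7 / 10 * t := by
    rw [ha, show 2 * (1 / 8 + 1 / 2 * Real.log (7 / 10 * t) - 1 / 8) = Real.log (7 / 10 * t) by ring,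
      Real.exp_log (by linarith)]
  -- the first terms
  have hcc : ∀ n : ℕ, cn κ q r n = κ * (q / yy q r n) := fun n => rfl
  have hterm : ∀ n ∈ Finset.Icc 1 N', max (s * Sn φ κ q r n) 0 * (kp2 (vn κ q r t n) * cn κ q r n) ≤
      (if n ≤ N then max (s * Sn φ κ q r n) 0 * (kp2 (vn κ q r t n) * cn κ q r n) else 0) +
      C₃ * Real.exp (19 / 40 * t) * (Real.exp (-(2 * |t - κ * Real.log (yy q r n)|)) * (κ * (q / yy q r n))) := by
    intro n hn
    rw [Finset.mem_Icc] at hn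
    have hy := yy_pos hq hr (by exact_mod_cast hn.1 : (0:ℝ) < n)
    have hcn := cn_pos hκ hq hr hn.1
    have hk0 := kp2_nonneg (vn κ q r t n)
    have hmax : max (s * Sn φ κ q r n) 0 ≤ |Sn φ κ q r n| := by
      refine max_le ((le_abs_self _).trans ?_) (abs_nonneg _)
      rw [abs_mul, habs, one_mul]
    by_cases hnN : n ≤ N
    · rw [if_pos hnN]
      have h3 : 0 ≤ C₃ * Real.exp (19 / 40 * t) *
        (Real.exp (-(2 * |t - κ * Real.log (yy q r n)|)) * (κ * (q / yy q r n))) := by positivity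
      linarith
    rw [if_neg hnN, zero_add]
    have hV := hN n (not_le.1 hnN)
    set v : ℝ := vn κ q r t n with hv
    have hkv : κ * Real.log (yy q r n) = t - v := by rw [hv]; unfold vn; ring
    have hvv : t - κ * Real.log (yy q r n) = v := rfl
    have hVv : Vn κ q r n = t - v := hkv
    rw [hVv] at hV
    have hvneg : v < 0 := by linarith
    have hva : a ≤ |v| := by
      rw [abs_of_neg hvneg]
      linarith
    have hev : Real.exp (-(3 * |v|)) * Real.exp |v| = Real.exp (-(2 * |v|)) := by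
      rw [← Real.exp_add]
      congr 1
      ring
    have hS0 : |Sn φ κ q r n| ≤ (1 + B₀) * (Real.exp t * Real.exp |v|) := by
      unfold Sn
      have h0 : 1 ≤ Real.exp t * Real.exp |v| := by
        rw [← Real.exp_add]
        exact Real.one_le_exp (by have := abs_nonneg v; linarith)
      have h1 : 0 ≤ κ * Real.log (yy q r n) := by rw [hkv]; linarith
      have h2 : Real.exp (κ * Real.log (yy q r n)) ≤ Real.exp t * Real.exp |v| := by
        rw [hkv, ← Real.exp_add]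
        exact Real.exp_le_exp.2 (by have := neg_abs_le v; linarith)
      have h3 := hφ.bd _ h1
      nlinarith
    have h1 := htail a v ha1 hva
    rw [hae] at h1
    rw [hvv, ← hcc, ← mul_assoc, ← mul_assoc]
    refine mul_le_mul_of_nonneg_right ?_ hcn.le
    have h2 : max (s * Sn φ κ q r n) 0 ≤ (1 + B₀) * (Real.exp t * Real.exp |v|) := hmax.trans hS0
    have e1 : Real.exp t * Real.exp (-(3 / 4 * (7 / 10 * t))) = Real.exp (19 / 40 * t) := by
      rw [← Real.exp_add]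
      congr 1
      ring
    calc max (s * Sn φ κ q r n) 0 * kp2 v ≤
        ((1 + B₀) * (Real.exp t * Real.exp |v|)) *
          (C₁ * Real.exp (-(3 / 4 * (7 / 10 * t))) * Real.exp (-(3 * |v|))) :=
          mul_le_mul h2 h1 hk0 (by positivity)
      _ = C₃ * (Real.exp t * Real.exp (-(3 / 4 * (7 / 10 * t)))) * (Real.exp (-(3 * |v|)) * Real.exp |v|) := by
          rw [hC₃]; ring
      _ = _ := by rw [e1, hev]
  have hsum := hN1.trans (Finset.sum_le_sum hterm)
  rw [Finset.sum_add_distrib, ← Finset.mul_sum, ← Finset.sum_filter] at hsum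
  have hfil : (Finset.Icc 1 N').filter (fun n => n ≤ N) = Finset.Icc 1 N := by
    ext n
    simp only [Finset.mem_filter, Finset.mem_Icc]
    omega
  rw [hfil] at hsum
  have h5 := mul_le_mul_of_nonneg_left (hwt t N') (by positivity : 0 ≤ C₃ * Real.exp (19 / 40 * t))
  have h6 : C₃ * Real.exp (19 / 40 * t) * C₄ ≤ c / 2 * (t ^ k * Real.exp (β * t)) := by
    have e2 : Real.exp (19 / 40 * t) = Real.exp (-(1 / 40 * t)) * Real.exp (1 / 2 * t) := by
      rw [← Real.exp_add]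
      congr 1
      ring
    have e3 : Real.exp (1 / 2 * t) ≤ Real.exp (β * t) := Real.exp_le_exp.2 (by nlinarith)
    have e4 : Real.exp (β * t) ≤ t ^ k * Real.exp (β * t) :=
      le_mul_of_one_le_left (Real.exp_pos _).le (one_le_pow₀ ht1)
    calc C₃ * Real.exp (19 / 40 * t) * C₄ = (C₃ * C₄ * Real.exp (-(1 / 40 * t))) * Real.exp (1 / 2 * t) := by
          rw [e2]; ring
      _ ≤ c / 2 * Real.exp (1 / 2 * t) := mul_le_mul_of_nonneg_right hs1.le (Real.exp_pos _).le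
      _ ≤ _ := mul_le_mul_of_nonneg_left (e3.trans e4) (by positivity)
  linarith

lemma exp_int2 {V a b : ℝ} (hab : a ≤ b) : ∫ t in a..b, Real.exp (-(2 * |t - V|)) ≤ 2 := by
  have hd : ∀ t ∈ uIcc a b, HasDerivAt (fun t : ℝ => 2 * Lg (t - V))
      (2 * (2 * Real.exp (-(2 * (t - V))) / (1 + Real.exp (-(2 * (t - V)))) ^ 2)) t := by
    intro t _
    have h1 : HasDerivAt (fun t : ℝ => t - V) 1 t := by
      simpa using (hasDerivAt_id t).sub_const V
    have h2 := ((Lg_deriv (t - V)).comp t h1).const_mul 2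
    refine HasDerivAt.congr_deriv h2 ?_
    ring
  have hc : Continuous (fun t : ℝ => 2 * (2 * Real.exp (-(2 * (t - V))) / (1 + Real.exp (-(2 * (t - V)))) ^ 2)) := by
    refine continuous_const.mul (Continuous.div (by fun_prop) (by fun_prop) fun t => ?_)
    positivity
  have h3 := intervalIntegral.integral_eq_sub_of_hasDerivAt hd (hc.intervalIntegrable _ _)
  have h4 : ∫ t in a..b, Real.exp (-(2 * |t - V|)) ≤
      ∫ t in a..b, 2 * (2 * Real.exp (-(2 * (t - V))) / (1 + Real.exp (-(2 * (t - V)))) ^ 2) := by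
    refine intervalIntegral.integral_mono_on hab ((by fun_prop : Continuous _).intervalIntegrable _ _)
      (hc.intervalIntegrable _ _) fun t _ => ?_
    have := Lg_low (t - V)
    linarith
  rw [h3] at h4
  have h5 := Lg_le (b - V)
  have h6 := Lg_pos (a - V)
  linarith

/-- one-sided first moment along the powers -/
noncomputable def Pn (φ : ℝ → ℝ) (κ q r s : ℝ) (N : ℕ) : ℝ :=
  ∑ n ∈ Finset.Icc 1 N, max (s * Sn φ κ q r n) 0 * Real.exp (-(Vn κ q r n / 2)) * cn κ q r n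

theorem moment_low {φ : ℝ → ℝ} {κ q r w₂ β c : ℝ} (hκ : 0 < κ) (hq : 0 < q) (hr : 0 ≤ r) (hφ : Samp φ κ q r w₂)
    (hβ0 : 1 / 2 ≤ β) (hc : 0 < c) (k : ℕ)
    (hbig : ∀ᶠ t : ℝ in atTop, ∀ s : ℝ, s = 1 ∨ s = -1 → ∀ᶠ N : ℕ in atTop,
      c * (t ^ k * Real.exp (β * t)) ≤
        ∑ n ∈ Finset.Icc 1 N, max (s * Sn φ κ q r n) 0 * (kp2 (vn κ q r t n) * cn κ q r n)) :
    ∃ d : ℝ, 0 < d ∧ ∀ᶠ T : ℝ in atTop, ∀ s : ℝ, s = 1 ∨ s = -1 → ∀ N : ℕ,
      (∀ n : ℕ, N < n → 2 * T ≤ Vn κ q r n) →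
      d * (T ^ (k + 1) * Real.exp ((β - 1 / 2) * (T / 2))) ≤ Pn φ κ q r s N := by
  have hC0 := C0_nonneg
  set C₂ : ℝ := 2 * ((C0 * 4) * Real.exp 3) + 1 with hC₂
  have hC₂0 : 0 < C₂ := by positivity
  obtain ⟨t₀, ht₀⟩ := eventually_atTop.1 (first_low hκ hq hr hφ hβ0 hc k hbig)
  refine ⟨c / 2 * (1 / 2) ^ (k + 1) / (2 * C₂), by positivity, ?_⟩
  filter_upwards [eventually_ge_atTop (max (2 * t₀) 2)] with T hT s hs N hN
  have hT1 : 2 * t₀ ≤ T := (le_max_left _ _).trans hT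
  have hT2 : 2 ≤ T := (le_max_right _ _).trans hT
  set m : ℝ := c / 2 * ((T / 2) ^ k * Real.exp ((β - 1 / 2) * (T / 2))) with hm
  set w : ℕ → ℝ := fun n => max (s * Sn φ κ q r n) 0 * Real.exp (-(Vn κ q r n / 2)) * cn κ q r n with hw
  have hw0 : ∀ n ∈ Finset.Icc 1 N, 0 ≤ w n := by
    intro n hn
    rw [Finset.mem_Icc] at hn
    have := cn_pos hκ hq hr hn.1
    have h2 : 0 ≤ max (s * Sn φ κ q r n) 0 := le_max_right _ _
    rw [hw]
    positivity
  have hpt : ∀ t ∈ Icc (T / 2) T, m ≤ C₂ * ∑ n ∈ Finset.Icc 1 N, w n * Real.exp (-(2 * |t - Vn κ q r n|)) := by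
    intro t ht
    have ht0 : 1 ≤ t := by linarith [ht.1]
    have h1 := ht₀ t (by linarith [ht.1]) s hs N (fun n hn => by linarith [hN n hn, ht.2])
    have h2 : m ≤ (c / 2 * (t ^ k * Real.exp (β * t))) * Real.exp (-(t / 2)) := by
      have e1 : (c / 2 * (t ^ k * Real.exp (β * t))) * Real.exp (-(t / 2)) =
          c / 2 * (t ^ k * Real.exp ((β - 1 / 2) * t)) := by
        have : Real.exp ((β - 1 / 2) * t) = Real.exp (β * t) * Real.exp (-(t / 2)) := by
          rw [← Real.exp_add]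
          congr 1
          ring
        rw [this]; ring
      rw [e1, hm]
      have h3 : (T / 2) ^ k ≤ t ^ k := pow_le_pow_left₀ (by linarith) ht.1 k
      have h4 : Real.exp ((β - 1 / 2) * (T / 2)) ≤ Real.exp ((β - 1 / 2) * t) :=
        Real.exp_le_exp.2 (mul_le_mul_of_nonneg_left ht.1 (by linarith))
      gcongr
    refine h2.trans ((mul_le_mul_of_nonneg_right h1 (Real.exp_pos _).le).trans ?_)
    rw [Finset.sum_mul, Finset.mul_sum]
    refine Finset.sum_le_sum fun n hn => ?_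
    rw [Finset.mem_Icc] at hn
    have hcn := cn_pos hκ hq hr hn.1
    have hm0 : 0 ≤ max (s * Sn φ κ q r n) 0 := le_max_right _ _
    have h5 : kp2 (vn κ q r t n) * Real.exp (-(t / 2)) ≤
        C₂ * (Real.exp (-(Vn κ q r n / 2)) * Real.exp (-(2 * |t - Vn κ q r n|))) := by
      have h6 := kp2_le (vn κ q r t n)
      rw [← hC₂] at h6
      refine (mul_le_mul_of_nonneg_right h6 (Real.exp_pos _).le).trans ?_
      rw [mul_assoc, ← Real.exp_add, ← Real.exp_add]
      refine mul_le_mul_of_nonneg_left (Real.exp_le_exp.2 ?_) hC₂0.le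
      have e : vn κ q r t n = t - Vn κ q r n := rfl
      rw [e]
      have := neg_abs_le (t - Vn κ q r n)
      linarith [abs_nonneg (t - Vn κ q r n)]
    calc max (s * Sn φ κ q r n) 0 * (kp2 (vn κ q r t n) * cn κ q r n) * Real.exp (-(t / 2)) =
        (max (s * Sn φ κ q r n) 0 * cn κ q r n) * (kp2 (vn κ q r t n) * Real.exp (-(t / 2))) := by ring
      _ ≤ (max (s * Sn φ κ q r n) 0 * cn κ q r n) *
          (C₂ * (Real.exp (-(Vn κ q r n / 2)) * Real.exp (-(2 * |t - Vn κ q r n|)))) :=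
            mul_le_mul_of_nonneg_left h5 (mul_nonneg hm0 hcn.le)
      _ = _ := by rw [hw]; ring
  have hle : T / 2 ≤ T := by linarith
  have hcont : Continuous fun t : ℝ => C₂ * ∑ n ∈ Finset.Icc 1 N, w n * Real.exp (-(2 * |t - Vn κ q r n|)) := by
    fun_prop
  have h7 := intervalIntegral.integral_mono_on (μ := volume) hle (continuous_const.intervalIntegrable _ _)
    (hcont.intervalIntegrable _ _) hpt
  have hii : ∀ n ∈ Finset.Icc 1 N, IntervalIntegrable (fun t : ℝ => w n * Real.exp (-(2 * |t - Vn κ q r n|)))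
      volume (T / 2) T := fun n _ => Continuous.intervalIntegrable (by fun_prop) _ _
  rw [intervalIntegral.integral_const, smul_eq_mul, intervalIntegral.integral_const_mul,
    intervalIntegral.integral_finset_sum hii] at h7
  have h8 : ∑ n ∈ Finset.Icc 1 N, ∫ t in (T / 2)..T, w n * Real.exp (-(2 * |t - Vn κ q r n|)) ≤
      2 * Pn φ κ q r s N := by
    unfold Pn
    rw [Finset.mul_sum]
    refine Finset.sum_le_sum fun n hn => ?_
    rw [intervalIntegral.integral_const_mul]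
    have := mul_le_mul_of_nonneg_left (exp_int2 (V := Vn κ q r n) hle) (hw0 n hn)
    have e : w n = max (s * Sn φ κ q r n) 0 * Real.exp (-(Vn κ q r n / 2)) * cn κ q r n := rfl
    rw [← e]
    linarith
  have h9 : (T - T / 2) * m ≤ C₂ * (2 * Pn φ κ q r s N) := h7.trans (mul_le_mul_of_nonneg_left h8 hC₂0.le)
  have h10 : (T - T / 2) * m = c / 2 * (1 / 2) ^ (k + 1) * (T ^ (k + 1) * Real.exp ((β - 1 / 2) * (T / 2))) := by
    rw [hm, div_pow, pow_succ, pow_succ, one_div_pow]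
    ring
  rw [h10] at h9
  rw [div_mul_eq_mul_div, div_le_iff₀ (by positivity)]
  linarith

/-- a zero with a large moment contradicts a linear bound at infinitely many places -/
theorem no_zero1 {κ q r : ℝ} (hκ : 0 < κ) (hq : 0 < q) (hr : 0 ≤ r) {a : ℕ → ℝ} {R lm : ℝ} (h : Good a R lm)
    {ρ : ℂ} (hz : riemannZeta ρ = 0) (h0 : 1 / 2 ≤ ρ.re) (h1 : ρ.re < 1) {θ : ℝ} (hθ : ρ.re ≤ θ) (hθ1 : θ ≤ 1)
    (hθz : ∀ s : ℂ, θ < s.re → riemannZeta s ≠ 0) (hθ2 : θ - 1 / (3 * κ) < ρ.re) {j : ℕ}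
    (hm : ((j + 1 : ℕ) : ℕ∞) ≤ analyticOrderAt riemannZeta ρ) (hj : 1 / 2 < ρ.re ∨ 1 ≤ j)
    {s C : ℝ} (hs : s = 1 ∨ s = -1)
    (hC : ∃ᶠ N : ℕ in atTop, Pn (psi a R lm) κ q r s N ≤ C * Vn κ q r N) : False := by
  obtain ⟨lam, w₂, -, -, -, -, hS, c, hc, hbig⟩ := hbig_of hκ hq hr h hz h0 h1 hθ hθ1 hθz hθ2 hm
  obtain ⟨d, hd, hev⟩ := moment_low hκ hq hr hS h0 hc j hbig
  have hgrow : ∀ᶠ T : ℝ in atTop, 2 * C * T < d * (T ^ (j + 1) * Real.exp ((ρ.re - 1 / 2) * (T / 2))) := by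
    rcases hj with hj | hj
    · have h2 : Tendsto (fun T : ℝ => Real.exp ((ρ.re - 1 / 2) * (T / 2))) atTop atTop :=
        Real.tendsto_exp_atTop.comp ((tendsto_id.atTop_div_const (by norm_num)).const_mul_atTop (by linarith))
      filter_upwards [h2.eventually_gt_atTop (2 * C / d), eventually_ge_atTop (1:ℝ)] with T ht ht1
      have ht0 : 0 < T := by linarith
      rw [div_lt_iff₀ hd] at ht
      have h5 : T ≤ T ^ (j + 1) := by
        calc T = T ^ 1 := (pow_one T).symm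
          _ ≤ T ^ (j + 1) := pow_le_pow_right₀ ht1 (by omega)
      calc 2 * C * T < (Real.exp ((ρ.re - 1 / 2) * (T / 2)) * d) * T := mul_lt_mul_of_pos_right ht ht0
        _ = d * (T * Real.exp ((ρ.re - 1 / 2) * (T / 2))) := by ring
        _ ≤ _ := by gcongr
    · filter_upwards [eventually_gt_atTop (2 * C / d), eventually_ge_atTop (1:ℝ)] with T ht ht1
      have ht0 : 0 < T := by linarith
      rw [div_lt_iff₀ hd] at ht
      have h4 : 1 ≤ Real.exp ((ρ.re - 1 / 2) * (T / 2)) := Real.one_le_exp (by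
        have : 0 ≤ ρ.re - 1 / 2 := by linarith
        positivity)
      have h5 : T ^ 2 ≤ T ^ (j + 1) := pow_le_pow_right₀ ht1 (by omega)
      have h6 : T ^ 2 ≤ T ^ (j + 1) * Real.exp ((ρ.re - 1 / 2) * (T / 2)) :=
        h5.trans (le_mul_of_one_le_right (by positivity) h4)
      calc 2 * C * T < (T * d) * T := mul_lt_mul_of_pos_right ht ht0
        _ = d * T ^ 2 := by ring
        _ ≤ _ := mul_le_mul_of_nonneg_left h6 hd.le
  have hV2 : Tendsto (fun N : ℕ => Vn κ q r N / 2) atTop atTop := (Vn_tendsto hκ hq hr).atTop_div_const (by norm_num)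
  obtain ⟨N, hN1, hN2, hN3, hN4⟩ := (hC.and_eventually ((hV2.eventually hev).and
    ((hV2.eventually hgrow).and (eventually_ge_atTop 1)))).exists
  have h7 := hN2 s hs N (fun n hn => by
    have := Vn_mono hκ hq hr hN4 hn.le
    linarith)
  linarith

/-- **RH and simple zeros from a one-sided bound for the first moment at infinitely many places.** -/
theorem rh_simple1 {κ q r : ℝ} (hκ : 0 < κ) (hq : 0 < q) (hr : 0 ≤ r) {a : ℕ → ℝ} {R lm : ℝ} (h : Good a R lm)
    {s C : ℝ} (hs : s = 1 ∨ s = -1)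
    (hC : ∃ᶠ N : ℕ in atTop, Pn (psi a R lm) κ q r s N ≤ C * Vn κ q r N) :
    ∀ ρ : ℂ, riemannZeta ρ = 0 → 0 < ρ.re → ρ.re = 1 / 2 ∧ deriv riemannZeta ρ ≠ 0 := by
  have hlt1 : ∀ s : ℂ, riemannZeta s = 0 → s.re < 1 := by
    intro s hs
    by_contra hcon
    exact riemannZeta_ne_zero_of_one_le_re (not_lt.1 hcon) hs
  have hord : ∀ ρ : ℂ, riemannZeta ρ = 0 → ((0 + 1 : ℕ) : ℕ∞) ≤ analyticOrderAt riemannZeta ρ := by
    intro ρ hz
    refine le_trans ?_ (order_pos hz (hlt1 ρ hz))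
    exact_mod_cast (by omega : 0 + 1 ≤ analyticOrderNatAt riemannZeta ρ - 1 + 1)
  have hRH : ∀ s : ℂ, 1 / 2 < s.re → riemannZeta s ≠ 0 := by
    intro s₁ hs₁ hz
    obtain ⟨θ, t1, t2, t3, t4⟩ := supre hz
    obtain ⟨ρ', hz', hρ'⟩ := t4 (min (1 / (3 * κ)) (θ - 1 / 2)) (lt_min (by positivity) (by linarith))
    have m1 : min (1 / (3 * κ)) (θ - 1 / 2) ≤ 1 / (3 * κ) := min_le_left _ _
    have m2 : min (1 / (3 * κ)) (θ - 1 / 2) ≤ θ - 1 / 2 := min_le_right _ _
    have hθ' : ρ'.re ≤ θ := by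
      by_contra hcon
      exact t3 ρ' (not_le.1 hcon) hz'
    exact no_zero1 hκ hq hr h hz' (by linarith) (hlt1 ρ' hz') hθ' t2 t3 (by linarith) (hord ρ' hz')
      (Or.inl (by linarith)) hs hC
  have key : ∀ ρ : ℂ, riemannZeta ρ = 0 → ρ.re = 1 / 2 → deriv riemannZeta ρ ≠ 0 := by
    intro ρ hz hre hd
    exact no_zero1 hκ hq hr h hz hre.ge (hlt1 ρ hz) hre.le (by norm_num) hRH
      (by have : 0 < 1 / (3 * κ) := by positivity
          linarith) (order_two hz hd (hlt1 ρ hz)) (Or.inr le_rfl) hs hC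
  intro ρ hz h0
  have h1 := hlt1 ρ hz
  have hle : ρ.re ≤ 1 / 2 := by
    by_contra hcon
    exact hRH ρ (not_le.1 hcon) hz
  have hge : 1 / 2 ≤ ρ.re := by
    by_contra hcon
    have hre : (1 - ρ).re = 1 - ρ.re := by simp
    exact hRH (1 - ρ) (by rw [hre]; linarith [not_le.1 hcon]) (refl_zero ρ hz h0 h1)
  have hre : ρ.re = 1 / 2 := le_antisymm hle hge
  exact ⟨hre, key ρ hz hre⟩

end U441.MP
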