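import Pool.Agent.U441.MP.Xf

/-! Weak Mertens along powers, part 8: the converse for exponents at most two. -/

set_option autoImplicit false

open MeasureTheory Filter Topology Set

namespace U441.MP

lemma Sa_lip {a : ℕ → ℝ} (ha : ∀ n, |a n| ≤ 1) {x y : ℝ} (hx : 0 ≤ x) (hxy : x ≤ y) :
    |Sa a y - Sa a x| ≤ y - x + 1 := by
  unfold Sa
  have h1 : ⌊x⌋₊ ≤ ⌊y⌋₊ := Nat.floor_le_floor hxy
  have h2 : ∑ m ∈ Finset.Icc 1 ⌊y⌋₊, a m - ∑ m ∈ Finset.Icc 1 ⌊x⌋₊, a m = ∑ m ∈ Finset.Ioc ⌊x⌋₊ ⌊y⌋₊, a m := by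
    rw [← Finset.sum_sdiff (Finset.Icc_subset_Icc_right h1), add_sub_cancel_right]
    refine Finset.sum_congr ?_ fun _ _ => rfl
    ext m
    simp only [Finset.mem_sdiff, Finset.mem_Icc, Finset.mem_Ioc]
    omega
  rw [h2]
  have h3 : |∑ m ∈ Finset.Ioc ⌊x⌋₊ ⌊y⌋₊, a m| ≤ ((⌊y⌋₊ - ⌊x⌋₊ : ℕ) : ℝ) := by
    refine (Finset.abs_sum_le_sum_abs _ _).trans ((Finset.sum_le_sum fun m _ => ha m).trans (le_of_eq ?_))
    rw [Finset.sum_const, Nat.card_Ioc, nsmul_eq_mul, mul_one]
  rw [Nat.cast_sub h1] at h3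
  have h4 := Nat.floor_le (hx.trans hxy)
  have h5 := Nat.lt_floor_add_one x
  linarith

lemma muR_abs (n : ℕ) : |muR n| ≤ 1 := Pool.Agent.H295R2.abs_mu_le n

/-- `∫_a^b (M(u)/u)² du` -/
noncomputable def ms (a b : ℝ) : ℝ := ∫ u in a..b, (Sa muR u / u) ^ 2

lemma ms_ii {a b : ℝ} (ha : 0 < a) (hb : 0 < b) : IntervalIntegrable (fun u => (Sa muR u / u) ^ 2) volume a b := by
  have hm : Measurable (fun u : ℝ => (Sa muR u / u) ^ 2) := ((Sa_measurable muR).div measurable_id).pow_const 2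
  rw [intervalIntegrable_iff]
  refine Measure.integrableOn_of_bounded (by simp) hm.aestronglyMeasurable (M := 1) ?_
  refine (ae_restrict_mem measurableSet_uIoc).mono fun u hu => ?_
  have hu0 : 0 < u := by
    rcases le_total a b with h | h
    · rw [uIoc_of_le h] at hu
      linarith [hu.1]
    · rw [uIoc_of_ge h] at hu
      linarith [hu.1]
  have h1 := Sa_abs muR_abs hu0.le
  rw [Real.norm_of_nonneg (by positivity), div_pow, ← sq_abs (Sa muR u)]
  rw [div_le_one (by positivity)]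
  exact pow_le_pow_left₀ (abs_nonneg _) h1 2

lemma inv_sq_int {a b : ℝ} (ha : 0 < a) (hab : a ≤ b) : ∫ u in a..b, 1 / u ^ 2 = 1 / a - 1 / b := by
  have hpos : ∀ u ∈ uIcc a b, 0 < u := by
    intro u hu
    rw [uIcc_of_le hab] at hu
    linarith [hu.1]
  have hd : ∀ u ∈ uIcc a b, HasDerivAt (fun u : ℝ => -(1 / u)) (1 / u ^ 2) u := by
    intro u hu
    have h1 := (hasDerivAt_inv (hpos u hu).ne').neg
    refine HasDerivAt.congr_deriv (h1.congr_of_eventuallyEq (Eventually.of_forall fun v => ?_)) ?_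
    · simp [one_div]
    · simp [one_div]
  have hc : IntervalIntegrable (fun u : ℝ => 1 / u ^ 2) volume a b := by
    refine ContinuousOn.intervalIntegrable ?_
    refine ContinuousOn.div continuousOn_const (continuousOn_pow 2) fun u hu => ?_
    exact pow_ne_zero 2 (hpos u hu).ne'
  rw [intervalIntegral.integral_eq_sub_of_hasDerivAt hd hc]
  ring

/-- one term against the integral -/
lemma term_le {k q r : ℝ} (hk : 0 < k) (hk2 : k ≤ 2) (hq : 0 < q) (hr : 0 ≤ r) {n : ℕ} (hn : 1 ≤ n) :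
    Sa muR (yy q r n ^ k) ^ 2 / (yy q r n ^ k * yy q r n) ≤
      8 / (k * q) * ms (max 1 (yy q r n ^ k)) (max 1 (yy q r ((n + 1 : ℕ) : ℝ) ^ k)) +
      8 * (k * Real.exp 2 * q ^ (k / 2) + 1) ^ 2 / yy q r n := by
  have hn1 : (1:ℝ) ≤ n := by exact_mod_cast hn
  obtain ⟨y, hy⟩ : ∃ y : ℝ, y = yy q r n := ⟨_, rfl⟩
  have hy0 : 0 < y := by rw [hy]; exact yy_pos hq hr (by linarith)
  have hqy : q ≤ y := by rw [hy]; unfold yy; nlinarith
  have hy' : yy q r ((n + 1 : ℕ) : ℝ) = y + q := by rw [hy]; unfold yy; push_cast; ring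
  rw [← hy, hy']
  set K : ℝ := k * Real.exp 2 * q ^ (k / 2) with hK
  have hK0 : 0 < K := by positivity
  set x : ℝ := y ^ k with hx
  have hx0 : 0 < x := Real.rpow_pos_of_pos hy0 _
  set x' : ℝ := (y + q) ^ k with hx'
  have hxx : x ≤ x' := Real.rpow_le_rpow hy0.le (by linarith) hk.le
  have hx'0 : 0 < x' := by linarith
  have hms0 : ∀ a b : ℝ, a ≤ b → 0 ≤ ms a b := fun a b hab =>
    intervalIntegral.integral_nonneg hab fun u _ => sq_nonneg _
  rcases lt_or_ge x 1 with hx1 | hx1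
  · have h1 : Sa muR x = 0 := by
      unfold Sa
      rw [Nat.floor_eq_zero.2 hx1]
      simp
    rw [h1]
    have h2 := hms0 (max 1 x) (max 1 x') (max_le_max_left _ hxx)
    have h3 : 0 ≤ 8 / (k * q) * ms (max 1 x) (max 1 x') := mul_nonneg (by positivity) h2
    have h4 : 0 ≤ 8 * (K + 1) ^ 2 / y := by positivity
    simp only [ne_eq, OfNat.ofNat_ne_zero, not_false_eq_true, zero_pow, zero_div]
    linarith
  rw [max_eq_right hx1, max_eq_right (hx1.trans hxx)]
  set s : ℝ := q / y with hs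
  have hs0 : 0 < s := by positivity
  have hs1 : s ≤ 1 := (div_le_one hy0).2 hqy
  have hlu : Real.log (1 + s) ≤ s := by
    have := Real.log_le_sub_one_of_pos (by linarith : 0 < 1 + s)
    linarith
  have hll : s / 2 ≤ Real.log (1 + s) := by
    have h1 := Real.one_sub_inv_le_log_of_pos (by linarith : 0 < 1 + s)
    have h2 : s / 2 ≤ 1 - (1 + s)⁻¹ := by
      have : 1 - (1 + s)⁻¹ = s / (1 + s) := by field_simp; ring
      rw [this]
      exact div_le_div_of_nonneg_left hs0.le (by linarith) (by linarith)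
    linarith
  have hratio : x' = x * Real.exp (k * Real.log (1 + s)) := by
    have e1 : y + q = y * (1 + s) := by rw [hs]; field_simp
    rw [hx', hx, e1, Real.mul_rpow hy0.le (by linarith), Real.rpow_def_of_pos (by linarith : 0 < 1 + s), mul_comm k]
  -- the spacing
  have hsq : x ^ (1 / 2 : ℝ) = y ^ (k / 2) := by
    rw [hx, ← Real.rpow_mul hy0.le]
    congr 1
    ring
  have hsp : x' - x ≤ K * x ^ (1 / 2 : ℝ) := by
    have e2 : Real.exp (k * Real.log (1 + s)) ≤ 1 + k * s * Real.exp 2 := by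
      have h3 : Real.exp (k * Real.log (1 + s)) ≤ Real.exp (k * s) :=
        Real.exp_le_exp.2 (mul_le_mul_of_nonneg_left hlu hk.le)
      have h4 : Real.exp (k * s) ≤ 1 + k * s * Real.exp (k * s) := by
        have h5 := Real.add_one_le_exp (-(k * s))
        have h6 : Real.exp (-(k * s)) * Real.exp (k * s) = 1 := by
          rw [← Real.exp_add]; simp
        nlinarith [Real.exp_pos (k * s)]
      have h7 : Real.exp (k * s) ≤ Real.exp 2 := Real.exp_le_exp.2 (by nlinarith)
      have h8 : k * s * Real.exp (k * s) ≤ k * s * Real.exp 2 := mul_le_mul_of_nonneg_left h7 (by positivity)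
      linarith
    have e3 : x' - x ≤ x * (k * s * Real.exp 2) := by
      rw [hratio]
      have := mul_le_mul_of_nonneg_left e2 hx0.le
      linarith
    have e4 : x * s = q * y ^ (k - 1) := by
      rw [hx, hs, Real.rpow_sub hy0, Real.rpow_one]
      ring
    have e5 : y ^ (k - 1) ≤ y ^ (k / 2) * q ^ (k / 2 - 1) := by
      have h9 : y ^ (k - 1) = y ^ (k / 2) * y ^ (k / 2 - 1) := by
        rw [← Real.rpow_add hy0]
        congr 1
        ring
      rw [h9]
      exact mul_le_mul_of_nonneg_left (Real.rpow_le_rpow_of_nonpos hq hqy (by linarith)) (by positivity)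
    have e6 : q * q ^ (k / 2 - 1) = q ^ (k / 2) := by
      rw [Real.rpow_sub hq, Real.rpow_one]
      field_simp
    calc x' - x ≤ x * (k * s * Real.exp 2) := e3
      _ = k * Real.exp 2 * (x * s) := by ring
      _ = k * Real.exp 2 * (q * y ^ (k - 1)) := by rw [e4]
      _ ≤ k * Real.exp 2 * (q * (y ^ (k / 2) * q ^ (k / 2 - 1))) := by gcongr
      _ = k * Real.exp 2 * (q * q ^ (k / 2 - 1)) * y ^ (k / 2) := by ring
      _ = _ := by rw [e6, hsq]
  have hsq1 : 1 ≤ x ^ (1 / 2 : ℝ) := Real.one_le_rpow hx1 (by norm_num)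
  have hsq2 : x ^ (1 / 2 : ℝ) * x ^ (1 / 2 : ℝ) = x := by
    rw [← Real.rpow_add hx0]
    norm_num
  -- the integral of the weight
  have hI : ∫ u in x..x', 1 / u ^ 2 = 1 / x - 1 / x' := inv_sq_int hx0 hxx
  have hIl : k * q / (4 * x * y) ≤ 1 / x - 1 / x' := by
    set z : ℝ := k * s / 2 with hz
    have hz0 : 0 < z := by positivity
    have hz1 : z ≤ 1 := by rw [hz]; nlinarith
    have e7 : 1 + z ≤ Real.exp (k * Real.log (1 + s)) := by
      have h3 := Real.add_one_le_exp z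
      have h4 : Real.exp z ≤ Real.exp (k * Real.log (1 + s)) := by
        apply Real.exp_le_exp.2
        have := mul_le_mul_of_nonneg_left hll hk.le
        rw [hz]; linarith
      linarith
    have e8 : 1 / x' ≤ 1 / (x * (1 + z)) := by
      rw [hratio]
      exact one_div_le_one_div_of_le (by positivity) (mul_le_mul_of_nonneg_left e7 hx0.le)
    have e9 : 1 / (x * (1 + z)) ≤ 1 / x * (1 - z / 2) := by
      rw [div_mul_eq_mul_div, one_mul, div_le_div_iff₀ (by positivity) hx0]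
      nlinarith [mul_nonneg hx0.le (mul_nonneg hz0.le (sub_nonneg.2 hz1))]
    have e10 : k * q / (4 * x * y) = 1 / x * (z / 2) := by
      rw [hz, hs]
      field_simp
      ring
    rw [e10]
    have : 1 / x * (1 - z / 2) = 1 / x - 1 / x * (z / 2) := by ring
    linarith
  have hIu : x * (1 / x - 1 / x') ≤ k * q / y := by
    have h3 : x * (1 / x') = Real.exp (-(k * Real.log (1 + s))) := by
      rw [hratio, Real.exp_neg]
      field_simp
    have h4 := Real.add_one_le_exp (-(k * Real.log (1 + s)))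
    have h5 : x * (1 / x) = 1 := by field_simp
    have h6 : k * q / y = k * s := by rw [hs]; ring
    rw [mul_sub, h3, h5, h6]
    have := mul_le_mul_of_nonneg_left hlu hk.le
    linarith
  -- pointwise
  have hpt : ∀ u ∈ Icc x x', Sa muR x ^ 2 * (1 / u ^ 2) ≤
      2 * (Sa muR u / u) ^ 2 + 2 * (K + 1) ^ 2 * x * (1 / u ^ 2) := by
    intro u hu
    have hu0 : 0 < u := by linarith [hu.1]
    have h3 := Sa_lip muR_abs hx0.le hu.1
    have h4 : |Sa muR u - Sa muR x| ≤ (K + 1) * x ^ (1 / 2 : ℝ) := by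
      have : u - x ≤ x' - x := by linarith [hu.2]
      nlinarith
    have h5 : (Sa muR u - Sa muR x) ^ 2 ≤ (K + 1) ^ 2 * x := by
      rw [← sq_abs]
      calc |Sa muR u - Sa muR x| ^ 2 ≤ ((K + 1) * x ^ (1 / 2 : ℝ)) ^ 2 := pow_le_pow_left₀ (abs_nonneg _) h4 2
        _ = (K + 1) ^ 2 * (x ^ (1 / 2 : ℝ) * x ^ (1 / 2 : ℝ)) := by ring
        _ = _ := by rw [hsq2]
    have h6 : Sa muR x ^ 2 ≤ 2 * Sa muR u ^ 2 + 2 * ((K + 1) ^ 2 * x) := by
      nlinarith [sq_nonneg (2 * Sa muR u - Sa muR x), sq_nonneg (Sa muR u - Sa muR x)]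
    have h7 := mul_le_mul_of_nonneg_right h6 (by positivity : 0 ≤ 1 / u ^ 2)
    rw [div_pow]
    calc Sa muR x ^ 2 * (1 / u ^ 2) ≤ (2 * Sa muR u ^ 2 + 2 * ((K + 1) ^ 2 * x)) * (1 / u ^ 2) := h7
      _ = _ := by ring
  have i1 : IntervalIntegrable (fun u : ℝ => 1 / u ^ 2) volume x x' := by
    refine ContinuousOn.intervalIntegrable ?_
    refine ContinuousOn.div continuousOn_const (continuousOn_pow 2) fun u hu => ?_
    rw [uIcc_of_le hxx] at hu
    exact pow_ne_zero 2 (by linarith [hu.1] : 0 < u).ne'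
  have i2 := ms_ii hx0 hx'0
  have h8 := intervalIntegral.integral_mono_on hxx (i1.const_mul (Sa muR x ^ 2))
    ((i2.const_mul 2).add (i1.const_mul (2 * (K + 1) ^ 2 * x))) hpt
  rw [intervalIntegral.integral_add (i2.const_mul 2) (i1.const_mul _), intervalIntegral.integral_const_mul,
    intervalIntegral.integral_const_mul, intervalIntegral.integral_const_mul, hI] at h8
  have h9 : ∫ u in x..x', (Sa muR u / u) ^ 2 = ms x x' := rfl
  rw [h9] at h8
  have h10 := mul_le_mul_of_nonneg_left hIl (sq_nonneg (Sa muR x))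
  have h11 : 2 * (K + 1) ^ 2 * x * (1 / x - 1 / x') ≤ 2 * (K + 1) ^ 2 * (k * q / y) := by
    rw [mul_assoc (2 * (K + 1) ^ 2)]
    exact mul_le_mul_of_nonneg_left hIu (by positivity)
  have h12 : Sa muR x ^ 2 * (k * q / (4 * x * y)) ≤ 2 * ms x x' + 2 * (K + 1) ^ 2 * (k * q / y) := by linarith
  have h13 := mul_le_mul_of_nonneg_left h12 (by positivity : 0 ≤ 4 / (k * q))
  have e11 : 4 / (k * q) * (Sa muR x ^ 2 * (k * q / (4 * x * y))) = Sa muR x ^ 2 / (x * y) := by
    field_simp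
  have e12 : 4 / (k * q) * (2 * ms x x' + 2 * (K + 1) ^ 2 * (k * q / y)) =
      8 / (k * q) * ms x x' + 8 * (K + 1) ^ 2 / y := by
    field_simp
    ring
  rw [e11, e12] at h13
  exact h13

/-- **The converse for exponents at most two.** -/
theorem converse {k q r : ℝ} (hk : 0 < k) (hk2 : k ≤ 2) (hq : 0 < q) (hr : 0 ≤ r)
    (hW : ∃ C : ℝ, ∀ x : ℝ, 2 ≤ x → ms 1 x ≤ C * Real.log x) :
    ∃ C : ℝ, ∀ N : ℕ, 2 ≤ N → SX k q r N ≤ C * Real.log N := by
  obtain ⟨C, hC⟩ := hW
  have hms0 : ∀ a b : ℝ, a ≤ b → 0 ≤ ms a b := fun a b hab =>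
    intervalIntegral.integral_nonneg hab fun u _ => sq_nonneg _
  have hl2 : 0 < Real.log 2 := Real.log_pos (by norm_num)
  have hC0 : 0 ≤ C := by
    have h1 := hC 2 le_rfl
    have h2 := hms0 1 2 (by norm_num)
    by_contra hcon
    nlinarith [not_le.1 hcon]
  set K : ℝ := k * Real.exp 2 * q ^ (k / 2) with hK
  set g : ℝ := max 1 (q + r) with hg
  have hg1 : 1 ≤ g := le_max_left _ _
  set D : ℝ := Real.log 2 + 2 * Real.log g with hD
  have hD0 : 0 ≤ D := by
    have := Real.log_nonneg hg1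
    rw [hD]; linarith
  refine ⟨8 / (k * q) * (C * (D / Real.log 2 + 4)) + 8 * (K + 1) ^ 2 * (1 / q * (1 / Real.log 2 + 1)),
    fun N hN => ?_⟩
  have hN1 : 1 ≤ N := by omega
  have hN2 : (2:ℝ) ≤ N := by exact_mod_cast hN
  have hlN : Real.log 2 ≤ Real.log N := Real.log_le_log (by norm_num) hN2
  have hlN0 : 0 < Real.log N := by linarith
  set A : ℕ → ℝ := fun n => max 1 (yy q r n ^ k) with hA
  have hA1 : ∀ n, 1 ≤ A n := fun n => le_max_left _ _
  have hterm : SX k q r N ≤ ∑ n ∈ Finset.Icc 1 N, (8 / (k * q) * ms (A n) (A (n + 1)) +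
      8 * (K + 1) ^ 2 / yy q r n) := by
    unfold SX
    refine Finset.sum_le_sum fun n hn => ?_
    rw [Finset.mem_Icc] at hn
    exact term_le hk hk2 hq hr hn.1
  rw [Finset.sum_add_distrib, ← Finset.mul_sum] at hterm
  have hadj : ∑ n ∈ Finset.Icc 1 N, ms (A n) (A (n + 1)) = ms (A 1) (A (N + 1)) := by
    have h1 : Finset.Icc 1 N = Finset.Ico 1 (N + 1) := by
      ext n
      simp only [Finset.mem_Icc, Finset.mem_Ico]
      omega
    rw [h1]
    exact intervalIntegral.sum_integral_adjacent_intervals_Ico (by omega) fun n _ =>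
      ms_ii (by linarith [hA1 n]) (by linarith [hA1 (n + 1)])
  rw [hadj] at hterm
  set X : ℝ := max 2 (A (N + 1)) with hX
  have hX2 : 2 ≤ X := le_max_left _ _
  have hmono : ms (A 1) (A (N + 1)) ≤ ms 1 X := by
    have h1 : A 1 ≤ A (N + 1) := by
      refine max_le_max_left _ (Real.rpow_le_rpow (yy_pos hq hr (by norm_num)).le ?_ hk.le)
      unfold yy
      push_cast
      nlinarith
    have e1 : ms 1 X = ms 1 (A 1) + ms (A 1) (A (N + 1)) + ms (A (N + 1)) X := by
      unfold ms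
      have j1 := ms_ii (one_pos : (0:ℝ) < 1) (by linarith [hA1 1] : 0 < A 1)
      have j2 := ms_ii (by linarith [hA1 1] : 0 < A 1) (by linarith [hA1 (N + 1)] : 0 < A (N + 1))
      have j3 := ms_ii (by linarith [hA1 (N + 1)] : 0 < A (N + 1)) (by linarith : 0 < X)
      rw [intervalIntegral.integral_add_adjacent_intervals j1 j2,
        intervalIntegral.integral_add_adjacent_intervals (j1.trans j2) j3]
    have h2 := hms0 1 (A 1) (hA1 1)
    have h3 := hms0 (A (N + 1)) X (le_max_right _ _)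
    linarith
  have hlogX : Real.log X ≤ (D / Real.log 2 + 4) * Real.log N := by
    have h1 : X ≤ 2 * (g * (N + 1)) ^ 2 := by
      have hgN : 1 ≤ g * (N + 1) := by nlinarith
      have hsq : 1 ≤ (g * ((N:ℝ) + 1)) ^ 2 := one_le_pow₀ hgN
      refine max_le (by linarith) (max_le (by linarith) ?_)
      have h2 : yy q r ((N + 1 : ℕ) : ℝ) ≤ g * (N + 1) := by
        have : q + r ≤ g := le_max_right _ _
        unfold yy
        push_cast
        nlinarith
      have h3 := yy_pos hq hr (by positivity : (0:ℝ) < ((N + 1 : ℕ) : ℝ))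
      calc yy q r ((N + 1 : ℕ) : ℝ) ^ k ≤ (g * (N + 1)) ^ k := Real.rpow_le_rpow h3.le h2 hk.le
        _ ≤ (g * (N + 1)) ^ (2:ℝ) := Real.rpow_le_rpow_of_exponent_le hgN hk2
        _ = (g * (N + 1)) ^ 2 := by norm_num
        _ ≤ _ := by linarith
    have h2 : Real.log X ≤ Real.log (2 * (g * (N + 1)) ^ 2) := Real.log_le_log (by linarith) h1
    have h3 : Real.log (2 * (g * (N + 1)) ^ 2) = D + 2 * Real.log (N + 1) := by
      rw [Real.log_mul (by norm_num) (by positivity), Real.log_pow, Real.log_mul (by positivity) (by positivity)]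
      push_cast
      rw [hD]; ring
    have h4 : Real.log ((N:ℝ) + 1) ≤ 2 * Real.log N := by
      have : Real.log ((N:ℝ) + 1) ≤ Real.log ((N:ℝ) ^ 2) := Real.log_le_log (by positivity) (by nlinarith)
      rw [Real.log_pow] at this
      push_cast at this
      exact this
    have h5 : D ≤ D / Real.log 2 * Real.log N := by
      rw [div_mul_eq_mul_div, le_div_iff₀ hl2]
      exact mul_le_mul_of_nonneg_left hlN hD0
    rw [h3] at h2
    nlinarith
  have hM : ms (A 1) (A (N + 1)) ≤ C * (D / Real.log 2 + 4) * Real.log N := by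
    refine hmono.trans ((hC X hX2).trans ?_)
    rw [mul_assoc]
    exact mul_le_mul_of_nonneg_left hlogX hC0
  have hH : ∑ n ∈ Finset.Icc 1 N, 8 * (K + 1) ^ 2 / yy q r n ≤
      8 * (K + 1) ^ 2 * (1 / q * (1 / Real.log 2 + 1)) * Real.log N := by
    have h1 : ∑ n ∈ Finset.Icc 1 N, 8 * (K + 1) ^ 2 / yy q r n ≤
        8 * (K + 1) ^ 2 * (1 / q) * ∑ n ∈ Finset.Icc 1 N, ((n:ℝ))⁻¹ := by
      rw [Finset.mul_sum]
      refine Finset.sum_le_sum fun n hn => ?_
      rw [Finset.mem_Icc] at hn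
      have hn0 : (0:ℝ) < n := by exact_mod_cast hn.1
      have h2 : q * n ≤ yy q r n := by unfold yy; linarith
      calc 8 * (K + 1) ^ 2 / yy q r n ≤ 8 * (K + 1) ^ 2 / (q * n) :=
            div_le_div_of_nonneg_left (by positivity) (by positivity) h2
        _ = _ := by field_simp
    have h2 : ∑ n ∈ Finset.Icc 1 N, ((n:ℝ))⁻¹ ≤ 1 + Real.log N := by
      have h3 := harmonic_le_one_add_log N
      rw [harmonic_eq_sum_Icc] at h3
      push_cast at h3
      exact h3
    have h3 : 1 + Real.log N ≤ (1 / Real.log 2 + 1) * Real.log N := by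
      have : 1 ≤ 1 / Real.log 2 * Real.log N := by
        rw [div_mul_eq_mul_div, one_mul, le_div_iff₀ hl2]
        linarith
      linarith
    have h4 : 0 ≤ 8 * (K + 1) ^ 2 * (1 / q) := by positivity
    calc _ ≤ 8 * (K + 1) ^ 2 * (1 / q) * ∑ n ∈ Finset.Icc 1 N, ((n:ℝ))⁻¹ := h1
      _ ≤ 8 * (K + 1) ^ 2 * (1 / q) * ((1 / Real.log 2 + 1) * Real.log N) :=
          mul_le_mul_of_nonneg_left (h2.trans h3) h4
      _ = _ := by ring
  have h14 := mul_le_mul_of_nonneg_left hM (by positivity : 0 ≤ 8 / (k * q))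
  rw [add_mul]
  have e : 8 / (k * q) * (C * (D / Real.log 2 + 4)) * Real.log N =
      8 / (k * q) * (C * (D / Real.log 2 + 4) * Real.log N) := by ring
  rw [e]
  linarith

end U441.MP
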