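import Pool.Agent.U441.MP.Xh
import Pool.Agent.W120.WM.Lim

/-! Weak Mertens along powers, part 9: almost every shift. -/

set_option autoImplicit false

open MeasureTheory Filter Topology Set

open scoped ENNReal

namespace U441.MP

/-- substitution `x = y^k` -/
lemma F_int {k b c : ℝ} (hk : 0 < k) (hb : 0 < b) (hbc : b ≤ c) :
    ∫ y in b..c, Sa muR (y ^ k) ^ 2 / (y ^ k * y) = 1 / k * ms (b ^ k) (c ^ k) := by
  have hbc' : b ^ k ≤ c ^ k := Real.rpow_le_rpow hb.le hbc hk.le
  unfold ms
  rw [intervalIntegral.integral_of_le hbc, intervalIntegral.integral_of_le hbc']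
  have himg : (fun y : ℝ => y ^ k) '' Ioc b c = Ioc (b ^ k) (c ^ k) := by
    ext x
    simp only [mem_image, mem_Ioc]
    constructor
    · rintro ⟨y, ⟨h1, h2⟩, rfl⟩
      exact ⟨Real.rpow_lt_rpow hb.le h1 hk, Real.rpow_le_rpow (by linarith) h2 hk.le⟩
    · rintro ⟨h1, h2⟩
      have hx0 : 0 < x := (Real.rpow_pos_of_pos hb k).trans h1
      refine ⟨x ^ (1 / k), ⟨?_, ?_⟩, ?_⟩
      · have := Real.rpow_lt_rpow (Real.rpow_pos_of_pos hb k).le h1 (by positivity : 0 < 1 / k)
        rwa [← Real.rpow_mul hb.le, mul_one_div_cancel hk.ne', Real.rpow_one] at this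
      · have := Real.rpow_le_rpow hx0.le h2 (by positivity : 0 ≤ 1 / k)
        rwa [← Real.rpow_mul (hb.le.trans hbc), mul_one_div_cancel hk.ne', Real.rpow_one] at this
      · rw [← Real.rpow_mul hx0.le, one_div_mul_cancel hk.ne', Real.rpow_one]
  have hinj : InjOn (fun y : ℝ => y ^ k) (Ioc b c) := by
    intro y hy z hz hyz
    have hy0 : 0 ≤ y := by linarith [hy.1]
    have hz0 : 0 ≤ z := by linarith [hz.1]
    have := congrArg (fun x : ℝ => x ^ (1 / k)) hyz
    simp only at this
    rwa [← Real.rpow_mul hy0, ← Real.rpow_mul hz0, mul_one_div_cancel hk.ne', Real.rpow_one, Real.rpow_one] at this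
  have h := integral_image_eq_integral_abs_deriv_smul (s := Ioc b c) (f := fun y : ℝ => y ^ k)
    (f' := fun y => k * y ^ (k - 1)) measurableSet_Ioc
    (fun y hy => (Real.hasDerivAt_rpow_const (Or.inl (by linarith [hy.1] : 0 < y).ne')).hasDerivWithinAt)
    hinj (fun x => (Sa muR x / x) ^ 2)
  rw [himg] at h
  rw [h, ← integral_const_mul]
  refine setIntegral_congr_fun measurableSet_Ioc fun y hy => ?_
  have hy0 : 0 < y := by linarith [hy.1]
  have h1 : 0 < y ^ k := Real.rpow_pos_of_pos hy0 _
  have h2 : y ^ (k - 1) = y ^ k / y := by rw [Real.rpow_sub hy0, Real.rpow_one]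
  rw [smul_eq_mul, abs_of_pos (by positivity), h2]
  field_simp

lemma F_ii {k b c : ℝ} (hb : 0 < b) (hc : 0 < c) :
    IntervalIntegrable (fun y : ℝ => Sa muR (y ^ k) ^ 2 / (y ^ k * y)) volume b c := by
  have hm : Measurable (fun y : ℝ => Sa muR (y ^ k) ^ 2 / (y ^ k * y)) := by
    have := Sa_measurable muR
    fun_prop
  have hd : 0 < min b c := lt_min hb hc
  rw [intervalIntegrable_iff]
  have hpk : ContinuousOn (fun y : ℝ => y ^ k / y) (uIcc b c) := by
    refine ContinuousOn.div ?_ continuousOn_id fun y hy => ?_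
    · refine ContinuousOn.rpow_const continuousOn_id fun y hy => Or.inl ?_
      have := hd.trans_le hy.1
      exact this.ne'
    · have := hd.trans_le hy.1
      exact this.ne'
  have hpi : IntegrableOn (fun y : ℝ => y ^ k / y) (uIoc b c) := by
    have := hpk.intervalIntegrable (μ := volume)
    rwa [intervalIntegrable_iff] at this
  refine hpi.mono' hm.aestronglyMeasurable ((ae_restrict_mem measurableSet_uIoc).mono fun y hy => ?_)
  have hy0 : 0 < y := hd.trans hy.1
  have h1 : 0 < y ^ k := Real.rpow_pos_of_pos hy0 _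
  have h2 := Sa_abs muR_abs h1.le
  rw [Real.norm_of_nonneg (by positivity), ← sq_abs, div_le_div_iff₀ (by positivity) hy0]
  have h3 : |Sa muR (y ^ k)| ^ 2 ≤ (y ^ k) ^ 2 := pow_le_pow_left₀ (abs_nonneg _) h2 2
  calc |Sa muR (y ^ k)| ^ 2 * y ≤ (y ^ k) ^ 2 * y := mul_le_mul_of_nonneg_right h3 hy0.le
    _ = y ^ k * (y ^ k * y) := by ring

/-- the mean over the shift -/
lemma mean_shift {k q a : ℝ} (hk : 0 < k) (hq : 0 < q) (ha : 0 ≤ a) (N : ℕ) :
    IntegrableOn (fun r => SX k q r N) (Ioc a (a + q)) ∧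
    ∫ r in Ioc a (a + q), SX k q r N = 1 / k * ms ((q + a) ^ k) ((q * (N + 1) + a) ^ k) := by
  have hle : a ≤ a + q := by linarith
  set F : ℝ → ℝ := fun y => Sa muR (y ^ k) ^ 2 / (y ^ k * y) with hF
  have hii : ∀ n ∈ Finset.Icc 1 N, IntervalIntegrable (fun r => F (q * n + r)) volume a (a + q) := by
    intro n hn
    rw [Finset.mem_Icc] at hn
    have hn0 : (0:ℝ) < n := by exact_mod_cast hn.1
    have h1 := F_ii (k := k) (by positivity : 0 < q * n + a) (by positivity : 0 < q * n + (a + q))
    have h2 := h1.comp_add_left (q * n)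
    simpa [hF] using h2
  have hSX : (fun r => SX k q r N) = fun r => ∑ n ∈ Finset.Icc 1 N, F (q * n + r) := rfl
  have hint : IntervalIntegrable (fun r => SX k q r N) volume a (a + q) := by
    rw [hSX]
    have h := IntervalIntegrable.sum (Finset.Icc 1 N) hii
    have e : (∑ n ∈ Finset.Icc 1 N, fun r => F (q * (n:ℝ) + r)) = fun r => ∑ n ∈ Finset.Icc 1 N, F (q * n + r) := by
      funext r
      rw [Finset.sum_apply]
    rwa [e] at h
  refine ⟨(intervalIntegrable_iff_integrableOn_Ioc_of_le hle).1 hint, ?_⟩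
  rw [← intervalIntegral.integral_of_le hle, hSX, intervalIntegral.integral_finset_sum hii]
  have e1 : ∀ n ∈ Finset.Icc 1 N, ∫ r in a..(a + q), F (q * n + r) =
      ∫ y in (q * n + a)..(q * ((n + 1 : ℕ) : ℝ) + a), F y := by
    intro n _
    rw [intervalIntegral.integral_comp_add_left F (q * n)]
    congr 1
    push_cast
    ring
  rw [Finset.sum_congr rfl e1]
  have h1 : Finset.Icc 1 N = Finset.Ico 1 (N + 1) := by
    ext n
    simp only [Finset.mem_Icc, Finset.mem_Ico]
    omega
  rw [h1, intervalIntegral.sum_integral_adjacent_intervals_Ico (a := fun n : ℕ => q * (n:ℝ) + a) (by omega)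
    (fun n hn => by
      have hn0 : (0:ℝ) < n := by exact_mod_cast (show 0 < n by have := hn.1; omega)
      exact F_ii (by positivity) (by positivity))]
  have h2 : q * ((1:ℕ):ℝ) + a = q + a := by push_cast; ring
  have h3 : q * ((N + 1 : ℕ) : ℝ) + a = q * (N + 1) + a := by push_cast; ring
  simp only [h2, h3]
  exact F_int hk (by positivity) (by nlinarith [(Nat.cast_nonneg N : (0:ℝ) ≤ N)])

lemma ms_nonneg {a b : ℝ} (hab : a ≤ b) : 0 ≤ ms a b :=
  intervalIntegral.integral_nonneg hab fun u _ => sq_nonneg _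

lemma ms_le_one {b X : ℝ} (hb : 0 < b) (hbX : b ≤ X) (hX : 1 ≤ X) : ms b X ≤ ms 1 X := by
  rcases le_total 1 b with h | h
  · have e : ms 1 X = ms 1 b + ms b X := by
      unfold ms
      rw [intervalIntegral.integral_add_adjacent_intervals (ms_ii one_pos hb) (ms_ii hb (by linarith))]
    have := ms_nonneg h
    linarith
  · have e : ms b X = ms b 1 + ms 1 X := by
      unfold ms
      rw [intervalIntegral.integral_add_adjacent_intervals (ms_ii hb one_pos) (ms_ii one_pos (by linarith))]
    have h0 : ms b 1 = 0 := by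
      unfold ms
      rw [intervalIntegral.integral_of_le h]
      have hae : ∀ᵐ u : ℝ, u ≠ 1 := by
        rw [ae_iff]
        simp
      rw [setIntegral_congr_ae (g := fun _ => (0:ℝ)) measurableSet_Ioc]
      · simp
      · filter_upwards [hae] with u hu1 hu
        have hu2 : u < 1 := lt_of_le_of_ne hu.2 hu1
        have : Sa muR u = 0 := by
          unfold Sa
          rw [Nat.floor_eq_zero.2 hu2]
          simp
        rw [this]
        simp
    linarith

/-- the sum over the zeros -/
noncomputable def SS : ℝ := ∑' ρ : Pool.Agent.W120.WM.NT, 1 / ‖(ρ : ℂ) * deriv riemannZeta ρ‖ ^ 2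

/-- the mean over the shift is asymptotic to the sum over the zeros -/
lemma mean_lim {k q a : ℝ} (hk : 0 < k) (hq : 0 < q) (ha : 0 ≤ a)
    (hlim : Tendsto (fun x : ℝ => ms 1 x / Real.log x) atTop (𝓝 SS)) :
    ∃ u : ℕ → ℝ, Tendsto u atTop (𝓝 (q * SS)) ∧
      ∀ᶠ N : ℕ in atTop, ∫ r in Ioc a (a + q), q * SX k q r N / Real.log N ≤ u N := by
  set X : ℕ → ℝ := fun N => (q * (N + 1) + a) ^ k with hX
  have hbase : Tendsto (fun N : ℕ => q * ((N:ℝ) + 1) + a) atTop atTop := by
    refine tendsto_atTop_add_const_right _ _ (Tendsto.const_mul_atTop hq ?_)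
    exact tendsto_atTop_add_const_right _ _ tendsto_natCast_atTop_atTop
  have hXt : Tendsto X atTop atTop := (tendsto_rpow_atTop hk).comp hbase
  have hlog : Tendsto (fun N : ℕ => Real.log (N:ℝ)) atTop atTop :=
    Real.tendsto_log_atTop.comp tendsto_natCast_atTop_atTop
  have hratio : Tendsto (fun N : ℕ => Real.log (X N) / (k * Real.log N)) atTop (𝓝 1) := by
    have h1 : Tendsto (fun N : ℕ => Real.log (q * ((N:ℝ) + 1) + a) - Real.log N) atTop (𝓝 (Real.log q)) := by
      have h2 : Tendsto (fun N : ℕ => (q * ((N:ℝ) + 1) + a) / N) atTop (𝓝 q) := by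
        have h3 : Tendsto (fun N : ℕ => q + (q + a) / (N:ℝ)) atTop (𝓝 (q + 0)) :=
          tendsto_const_nhds.add (tendsto_const_nhds.div_atTop tendsto_natCast_atTop_atTop)
        rw [add_zero] at h3
        refine h3.congr' ?_
        filter_upwards [eventually_ge_atTop 1] with N hN
        have hN0 : (0:ℝ) < N := by exact_mod_cast hN
        field_simp
        ring
      refine ((Real.continuousAt_log hq.ne').tendsto.comp h2).congr' ?_
      filter_upwards [eventually_ge_atTop 1] with N hN
      have hN0 : (0:ℝ) < N := by exact_mod_cast hN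
      simp only [Function.comp]
      rw [Real.log_div (by positivity) hN0.ne']
    have h4 : Tendsto (fun N : ℕ => 1 + (Real.log (q * ((N:ℝ) + 1) + a) - Real.log N) / Real.log N) atTop
        (𝓝 (1 + 0)) := tendsto_const_nhds.add (h1.div_atTop hlog)
    rw [add_zero] at h4
    refine h4.congr' ?_
    filter_upwards [eventually_ge_atTop 2] with N hN
    have hN0 : (1:ℝ) < N := by exact_mod_cast hN
    have hl : 0 < Real.log N := Real.log_pos hN0
    rw [hX]
    simp only
    rw [Real.log_rpow (by positivity)]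
    field_simp
    ring
  refine ⟨fun N => q * ((ms 1 (X N) / Real.log (X N)) * (Real.log (X N) / (k * Real.log N))), ?_, ?_⟩
  · have := ((hlim.comp hXt).mul hratio).const_mul q
    rw [mul_one] at this
    exact this
  · filter_upwards [eventually_ge_atTop 2, hXt.eventually_gt_atTop 1] with N hN hX1
    have hN0 : (1:ℝ) < N := by exact_mod_cast hN
    have hl : 0 < Real.log N := Real.log_pos hN0
    have hlX : 0 < Real.log (X N) := Real.log_pos hX1
    have e1 : ∀ r : ℝ, q * SX k q r N / Real.log N = (q / Real.log N) * SX k q r N := fun r => by ring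
    simp only [e1]
    rw [integral_const_mul, (mean_shift hk hq ha N).2]
    have h1 : (q + a) ^ k ≤ X N := Real.rpow_le_rpow (by positivity) (by nlinarith) hk.le
    have h2 := ms_le_one (Real.rpow_pos_of_pos (by positivity : 0 < q + a) k) h1 hX1.le
    have e2 : q * ((ms 1 (X N) / Real.log (X N)) * (Real.log (X N) / (k * Real.log N))) =
        q / Real.log N * (1 / k * ms 1 (X N)) := by
      field_simp
    rw [e2]
    have h3 : 1 / k * ms ((q + a) ^ k) (X N) ≤ 1 / k * ms 1 (X N) := mul_le_mul_of_nonneg_left h2 (by positivity)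
    exact mul_le_mul_of_nonneg_left h3 (by positivity)

lemma SX_meas (k q : ℝ) (N : ℕ) : Measurable (fun r => SX k q r N) := by
  unfold SX
  have := Sa_measurable muR
  fun_prop

/-- **Almost every shift.** -/
theorem ae_shift {k q a : ℝ} (hk : 0 < k) (hq : 0 < q) (ha : 0 ≤ a)
    (hlim : Tendsto (fun x : ℝ => ms 1 x / Real.log x) atTop (𝓝 SS)) (hS0 : 0 ≤ SS)
    (hlow : ∀ r : ℝ, 0 ≤ r → ∀ c : ℝ, q * c < SS → ∀ᶠ N : ℕ in atTop, c * Real.log N < SX k q r N) :
    ∀ᵐ r ∂(volume.restrict (Ioc a (a + q))), ∀ c : ℝ, SS < q * c → ∃ᶠ N : ℕ in atTop,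
      SX k q r N < c * Real.log N := by
  set f : ℕ → ℝ → ℝ≥0∞ := fun N r => ENNReal.ofReal (q * SX k q r N / Real.log N) with hf
  have hfm : ∀ N, Measurable (f N) := fun N =>
    (((SX_meas k q N).const_mul q).div_const _).ennreal_ofReal
  have hlogN : ∀ᶠ N : ℕ in atTop, 0 < Real.log (N:ℝ) := by
    filter_upwards [eventually_ge_atTop 2] with N hN
    exact Real.log_pos (by exact_mod_cast hN)
  -- the lower bound
  have hlo : ∀ r : ℝ, 0 ≤ r → ENNReal.ofReal SS ≤ liminf (fun N => f N r) atTop := by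
    intro r hr
    refine le_of_forall_lt_imp_le_of_dense fun x hx => ?_
    have hx1 : x ≠ ∞ := hx.ne_top
    have hx2 : x.toReal < SS := by
      have := (ENNReal.lt_ofReal_iff_toReal_lt hx1).1 hx
      exact this
    refine le_liminf_of_le (by isBoundedDefault) ?_
    filter_upwards [hlow r hr (x.toReal / q) (by
      rw [mul_div_cancel₀ _ hq.ne']
      exact hx2), hlogN] with N h1 h2
    rw [← ENNReal.ofReal_toReal hx1]
    apply ENNReal.ofReal_le_ofReal
    rw [le_div_iff₀ h2]
    rw [div_mul_eq_mul_div, div_lt_iff₀ hq] at h1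
    linarith
  -- Fatou
  obtain ⟨u, hu, hmean⟩ := mean_lim (k := k) (a := a) hk hq ha hlim
  set μ : Measure ℝ := volume.restrict (Ioc a (a + q)) with hμ
  have hfat : ∫⁻ r, liminf (fun N => f N r) atTop ∂μ ≤ ENNReal.ofReal (q * SS) := by
    refine (lintegral_liminf_le hfm).trans ?_
    have h1 : ∀ᶠ N : ℕ in atTop, ∫⁻ r, f N r ∂μ ≤ ENNReal.ofReal (u N) := by
      filter_upwards [hmean, hlogN] with N h2 h3
      have hint : Integrable (fun r => q * SX k q r N / Real.log N) μ :=
        (((mean_shift hk hq ha N).1).const_mul q).div_const _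
      have hnn : 0 ≤ᵐ[μ] fun r => q * SX k q r N / Real.log N := by
        refine (ae_restrict_mem measurableSet_Ioc).mono fun r hr => ?_
        have := SX_nonneg (k := k) hq (ha.trans hr.1.le) N
        simp only [Pi.zero_apply]
        positivity
      rw [hf]
      simp only
      rw [← ofReal_integral_eq_lintegral_ofReal hint hnn]
      exact ENNReal.ofReal_le_ofReal h2
    have h4 : Tendsto (fun N => ENNReal.ofReal (u N)) atTop (𝓝 (ENNReal.ofReal (q * SS))) :=
      ENNReal.tendsto_ofReal hu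
    rw [← h4.liminf_eq]
    exact liminf_le_liminf h1
  have hconst : ∫⁻ _r, ENNReal.ofReal SS ∂μ = ENNReal.ofReal (q * SS) := by
    rw [lintegral_const, hμ, Measure.restrict_apply_univ, Real.volume_Ioc, ← ENNReal.ofReal_mul hS0]
    congr 1
    ring
  have hle : (fun _ : ℝ => ENNReal.ofReal SS) ≤ᵐ[μ] fun r => liminf (fun N => f N r) atTop :=
    (ae_restrict_mem measurableSet_Ioc).mono fun r hr => hlo r (ha.trans hr.1.le)
  have hae := ae_eq_of_ae_le_of_lintegral_le hle (by rw [hconst]; exact ENNReal.ofReal_ne_top)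
    (Measurable.liminf hfm).aemeasurable (by rw [hconst]; exact hfat)
  filter_upwards [hae] with r hr c hc
  have hlt : liminf (fun N => f N r) atTop < ENNReal.ofReal (q * c) := by
    rw [← hr]
    exact (ENNReal.ofReal_lt_ofReal_iff (by linarith)).2 hc
  have hfr := frequently_lt_of_liminf_lt (by isBoundedDefault) hlt
  refine (hfr.and_eventually hlogN).mono fun N hN => ?_
  obtain ⟨h1, h2⟩ := hN
  have h3 := (ENNReal.ofReal_lt_ofReal_iff (by linarith : 0 < q * c)).1 h1
  rw [div_lt_iff₀ h2] at h3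
  have : q * SX k q r N < q * (c * Real.log N) := by linarith
  exact lt_of_mul_lt_mul_left this hq.le

end U441.MP
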